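import Mathlib

/-!
# Forced preorders (basic definitions)

`P` is a preorder, `q ≤ p` means that `q` is stronger than `p`. A *forced preorder* over `P` is a
relation `le p x y` (`p` forces `x ≤ y`) on a type `X` (all elements of `X` play the role of
names of conditions of a forcing notion of the extension by `P`).
-/

open Cardinal Set

namespace Pool.Agent.Helper92.PR

section

variable {P : Type} [Preorder P]

/-- regular open sets of conditions -/
structure Reg (A : Set P) : Prop where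
  lower : ∀ p ∈ A, ∀ q ≤ p, q ∈ A
  dense : ∀ p, (∀ q ≤ p, ∃ r ≤ q, r ∈ A) → p ∈ A

/-- the conditions below which the members of `A` are dense -/
def cl (A : Set P) : Set P := {p | ∀ q ≤ p, ∃ r ≤ q, r ∈ A}

/-- the conditions without extensions in `A` -/
def neg (A : Set P) : Set P := {p | ∀ q ≤ p, q ∉ A}

/-- `P` has no antichain of size `κ` -/
def CC (P : Type) [Preorder P] (κ : Cardinal.{0}) : Prop :=
  ∀ W : Set P, (∀ p ∈ W, ∀ q ∈ W, p ≠ q → ¬ ∃ r, r ≤ p ∧ r ≤ q) → #W < κ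

theorem reg_cl (A : Set P) : Reg (cl A) where
  lower := fun _ hp _ hq r hr => hp r (hr.trans hq)
  dense := fun p h q hq => by
    obtain ⟨r, hr, h1⟩ := h q hq
    obtain ⟨s, hs, h2⟩ := h1 r le_rfl
    exact ⟨s, hs.trans hr, h2⟩

theorem subset_cl {A : Set P} (h : ∀ p ∈ A, ∀ q ≤ p, q ∈ A) : A ⊆ cl A :=
  fun p hp q hq => ⟨q, le_rfl, h p hp q hq⟩

theorem reg_neg {A : Set P} (h : ∀ p ∈ A, ∀ q ≤ p, q ∈ A) : Reg (neg A) where
  lower := fun _ hp _ hq r hr => hp r (hr.trans hq)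
  dense := fun p h1 q hq hqA => by
    obtain ⟨r, hr, h2⟩ := h1 q hq
    exact h2 r le_rfl (h q hqA r hr)

theorem reg_univ : Reg (Set.univ : Set P) := ⟨fun _ _ _ _ => trivial, fun _ _ => trivial⟩

theorem reg_empty : Reg (∅ : Set P) :=
  ⟨fun _ h _ _ => h.elim, fun p h => by obtain ⟨r, -, hr⟩ := h p le_rfl; exact hr⟩

theorem Reg.iInter {ι : Type} {A : ι → Set P} (h : ∀ i, Reg (A i)) : Reg (⋂ i, A i) where
  lower := fun p hp q hq => mem_iInter.2 fun i => (h i).lower p (mem_iInter.1 hp i) q hq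
  dense := fun p hp => mem_iInter.2 fun i => (h i).dense p fun q hq => by
    obtain ⟨r, hr, h1⟩ := hp q hq
    exact ⟨r, hr, mem_iInter.1 h1 i⟩

theorem Reg.inter {A B : Set P} (hA : Reg A) (hB : Reg B) : Reg (A ∩ B) where
  lower := fun p hp q hq => ⟨hA.lower p hp.1 q hq, hB.lower p hp.2 q hq⟩
  dense := fun p hp =>
    ⟨hA.dense p fun q hq => by obtain ⟨r, hr, h1⟩ := hp q hq; exact ⟨r, hr, h1.1⟩,
      hB.dense p fun q hq => by obtain ⟨r, hr, h1⟩ := hp q hq; exact ⟨r, hr, h1.2⟩⟩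

theorem Reg.cl_eq {A : Set P} (h : Reg A) : cl A = A :=
  Subset.antisymm (fun p hp => h.dense p hp) (subset_cl h.lower)

end

/-- **Forced preorders** over `P` with the carrier `X`. -/
structure PN (P X : Type) [Preorder P] where
  /-- `p` forces `x ≤ y` -/
  le : P → X → X → Prop
  /-- the weakest element -/
  top : X
  refl : ∀ p x, le p x x
  trans : ∀ p x y z, le p x y → le p y z → le p x z
  le_top : ∀ p x, le p x top
  mono : ∀ p q x y, q ≤ p → le p x y → le q x y
  dense : ∀ p x y, (∀ q ≤ p, ∃ r ≤ q, le r x y) → le p x y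

section

variable {P X Y : Type} [Preorder P]

/-- **Covering directed closure**: every family `y i` of less than `μ` elements, `y i` being active
at the conditions of the open set `a i`, such that the family of the active elements is forced to
be directed, has a lower bound (`z ≤ y i` is forced by all members of `a i`). -/
def PN.CDC (x : PN P X) (μ : Cardinal.{0}) : Prop :=
  ∀ (I : Type) (y : I → X) (a : I → Set P), #I < μ → (∀ i, ∀ p ∈ a i, ∀ q ≤ p, q ∈ a i) →
    (∀ i j, ∀ p ∈ a i, p ∈ a j → ∃ q ≤ p, ∃ k, q ∈ a k ∧ x.le q (y k) (y i) ∧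
      x.le q (y k) (y j)) →
    ∃ z, ∀ i, ∀ p ∈ a i, x.le p z (y i)

/-- the two-step iteration -/
def Two (_x : PN P X) : Type := P × X

instance (x : PN P X) : Preorder (Two x) where
  le r s := r.1 ≤ s.1 ∧ x.le r.1 r.2 s.2
  le_refl r := ⟨le_rfl, x.refl _ _⟩
  le_trans r s t h1 h2 := ⟨h1.1.trans h2.1, x.trans _ _ _ _ h1.2 (x.mono _ _ _ _ h1.1 h2.2)⟩

theorem Two.le_iff {x : PN P X} (r s : Two x) : r ≤ s ↔ r.1 ≤ s.1 ∧ x.le r.1 r.2 s.2 := Iff.rfl

theorem Two.mk_le_iff {x : PN P X} {p q : P} {y z : X} :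
    @LE.le (Two x) _ (p, y) (q, z) ↔ p ≤ q ∧ x.le p y z := Iff.rfl

/-- the product of two forced preorders -/
def PN.prod (x : PN P X) (y : PN P Y) : PN P (X × Y) where
  le p s t := x.le p s.1 t.1 ∧ y.le p s.2 t.2
  top := (x.top, y.top)
  refl p s := ⟨x.refl _ _, y.refl _ _⟩
  trans p s t u h1 h2 := ⟨x.trans _ _ _ _ h1.1 h2.1, y.trans _ _ _ _ h1.2 h2.2⟩
  le_top p s := ⟨x.le_top _ _, y.le_top _ _⟩
  mono p q s t h h1 := ⟨x.mono _ _ _ _ h h1.1, y.mono _ _ _ _ h h1.2⟩
  dense p s t h := ⟨x.dense _ _ _ fun q hq => by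
      obtain ⟨r, hr, h1⟩ := h q hq; exact ⟨r, hr, h1.1⟩,
    y.dense _ _ _ fun q hq => by obtain ⟨r, hr, h1⟩ := h q hq; exact ⟨r, hr, h1.2⟩⟩

end

/-- `E` has a name of an ultrafilter on `K`: to every name `A` (a family of regular open sets,
`A η` = the conditions which force that `η` belongs to the set) the regular open set `U A` of the
conditions which force that the set belongs to the ultrafilter is assigned. The ultrafilter is
closed under intersections of less than `μ` members, and its members are unbounded in `K`. -/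
structure IsUlt (E K : Type) [Preorder E] [LinearOrder K] (μ : Cardinal.{0})
    (U : (K → Set E) → Set E) : Prop where
  reg : ∀ A, (∀ η, Reg (A η)) → Reg (U A)
  mono : ∀ A A', (∀ η, Reg (A η)) → (∀ η, Reg (A' η)) → ∀ p ∈ U A,
    (∀ q ≤ p, ∀ η, q ∈ A η → q ∈ A' η) → p ∈ U A'
  ultra : ∀ A, (∀ η, Reg (A η)) → ∀ p, ∃ q ≤ p, q ∈ U A ∨ q ∈ U (fun η => neg (A η))
  inter : ∀ (I : Type) (A : I → K → Set E), #I < μ → (∀ i η, Reg (A i η)) →
    ∀ p, (∀ i, p ∈ U (A i)) → p ∈ U (fun η => ⋂ i, A i η)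
  unbdd : ∀ A, (∀ η, Reg (A η)) → ∀ p ∈ U A, ∀ ζ : K, ∃ q ≤ p, ∃ η, ζ < η ∧ q ∈ A η

/-- there is a name of an ultrafilter -/
def HasUlt (E K : Type) [Preorder E] [LinearOrder K] (μ : Cardinal.{0}) : Prop :=
  ∃ U : (K → Set E) → Set E, IsUlt E K μ U

/-- `B` is a preparation for `κ`. -/
structure Prep (κ : Cardinal.{0}) (B : Type) [Preorder B] : Prop where
  unc : ℵ₀ < κ
  reg : κ.IsRegular
  lim : ∀ a < κ, 2 ^ a < κ
  small : #B ≤ κ
  cc : CC B κ
  ult : ∀ (X : Type) (x : PN B X), x.CDC κ → HasUlt (Two x) κ.ord.ToType κ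

/-- `κ` is a supercompact cardinal (of the universe `Type`): `κ` is uncountable and for every
`H : Type` there is a fine, normal and `κ`-complete ultrafilter on the set of the subsets of `H`
of size less than `κ`. -/
def Supercompact (κ : Cardinal.{0}) : Prop :=
  ℵ₀ < κ ∧ ∀ H : Type, ∃ U : Ultrafilter (Set H),
    {a : Set H | #a < κ} ∈ U ∧ (∀ h : H, {a : Set H | h ∈ a} ∈ U) ∧
    (∀ (I : Type) (A : I → Set (Set H)), #I < κ → (∀ i, A i ∈ U) → (⋂ i, A i) ∈ U) ∧
    (∀ f : Set H → H, {a : Set H | f a ∈ a} ∈ U → ∃ h, {a : Set H | f a = h} ∈ U)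

end Pool.Agent.Helper92.PR
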