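import Pool.Agent.Helper92.PR.Base

/-!
# Covering-directed-closed forced preorders: antichain mixing and decreasing sequences
-/

open Cardinal Set

set_option linter.unusedSectionVars false

namespace Pool.Agent.Helper92.PR

section K1
variable {P X Y : Type} [Preorder P]

/-- A maximal antichain inside a dense set. -/
theorem exists_maxAntichain {Z : Set P} (hZ : ∀ p, ∃ q ≤ p, q ∈ Z) :
    ∃ W ⊆ Z, (∀ p ∈ W, ∀ q ∈ W, p ≠ q → ¬ ∃ r, r ≤ p ∧ r ≤ q) ∧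
      ∀ p, ∃ q ≤ p, ∃ w ∈ W, q ≤ w := by
  obtain ⟨W, hW⟩ := zorn_subset
    {W : Set P | W ⊆ Z ∧ ∀ p ∈ W, ∀ q ∈ W, p ≠ q → ¬ ∃ r, r ≤ p ∧ r ≤ q} (by
      intro c hc hchain
      refine ⟨⋃₀ c, ⟨sUnion_subset fun s hs => (hc hs).1, ?_⟩, fun s hs => subset_sUnion_of_mem hs⟩
      intro p hp q hq hne
      obtain ⟨s, hs, hps⟩ := hp
      obtain ⟨t, ht, hqt⟩ := hq
      rcases hchain.total hs ht with h | h
      · exact (hc ht).2 p (h hps) q hqt hne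
      · exact (hc hs).2 p hps q (h hqt) hne)
  refine ⟨W, hW.prop.1, hW.prop.2, fun p => ?_⟩
  obtain ⟨p', hp', hp'Z⟩ := hZ p
  by_contra hcon
  push Not at hcon
  have hin : ∀ w ∈ W, ¬ ∃ r, r ≤ p' ∧ r ≤ w := by
    rintro w hw ⟨r, hr1, hr2⟩
    exact hcon r (hr1.trans hp') w hw hr2
  have hmem : insert p' W ∈
      {W : Set P | W ⊆ Z ∧ ∀ p ∈ W, ∀ q ∈ W, p ≠ q → ¬ ∃ r, r ≤ p ∧ r ≤ q} := by
    refine ⟨insert_subset hp'Z hW.prop.1, ?_⟩
    rintro a (rfl | ha) b (rfl | hb) hne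
    · exact absurd rfl hne
    · exact hin b hb
    · rintro ⟨r, hr1, hr2⟩
      exact hin a ha ⟨r, hr2, hr1⟩
    · exact hW.prop.2 a ha b hb hne
  have hle := hW.le_of_ge hmem (subset_insert _ _)
  exact hin p' (hle (mem_insert _ _)) ⟨p', le_rfl, le_rfl⟩

theorem mk_option_lt {W : Type} {μ : Cardinal.{0}} (hμ : ℵ₀ ≤ μ) (h : #W < μ) :
    #(Option W) < μ := by
  rw [mk_option]
  exact add_lt_of_lt hμ h (lt_of_lt_of_le one_lt_aleph0 hμ)

/-- **K1a.** -/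
theorem PN.dec {x : PN P X} {μ : Cardinal.{0}} (hμ : ℵ₀ ≤ μ) (hcc : CC P μ) (hx : x.CDC μ)
    {D : Set (Two x)} (hD1 : ∀ r ∈ D, ∀ s ≤ r, s ∈ D) (hD2 : ∀ r, ∃ s ≤ r, s ∈ D) (y0 : X) :
    ∃ y, (∀ p, x.le p y y0) ∧ ∀ p, ∃ q ≤ p, (show Two x from (q, y)) ∈ D := by
  classical
  obtain ⟨W, hWZ, hWa, hWm⟩ := exists_maxAntichain
    (Z := {p : P | ∃ z : X, (show Two x from (p, z)) ∈ D ∧ x.le p z y0}) (by
      intro p
      obtain ⟨s, hs, hsD⟩ := hD2 (show Two x from (p, y0))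
      exact ⟨s.1, hs.1, s.2, hsD, hs.2⟩)
  have hWc : #W < μ := hcc W hWa
  choose z hz using fun w : W => hWZ w.2
  obtain ⟨y, hy⟩ := hx (Option W) (fun o => o.elim y0 z)
    (fun o => o.elim univ (fun w => {q | q ≤ w.1})) (mk_option_lt hμ hWc) (by
      rintro (_ | w) p hp q hq
      · trivial
      · exact hq.trans hp) (by
      rintro (_ | w) (_ | w') p hp hp'
      · exact ⟨p, le_rfl, none, trivial, x.refl _ _, x.refl _ _⟩
      · exact ⟨p, le_rfl, some w', hp', x.mono _ _ _ _ hp' (hz w').2, x.refl _ _⟩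
      · exact ⟨p, le_rfl, some w, hp, x.refl _ _, x.mono _ _ _ _ hp (hz w).2⟩
      · have : w = w' := by
          by_contra hne
          exact hWa w.1 w.2 w'.1 w'.2 (fun h => hne (Subtype.ext h)) ⟨p, hp, hp'⟩
        subst this
        exact ⟨p, le_rfl, some w, hp, x.refl _ _, x.refl _ _⟩)
  refine ⟨y, fun p => hy none p trivial, fun p => ?_⟩
  obtain ⟨q, hq, w, hw, hqw⟩ := hWm p
  exact ⟨q, hq, hD1 _ (hz ⟨w, hw⟩).1 _ ⟨hqw, hy (some ⟨w, hw⟩) q hqw⟩⟩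

/-- lower bounds of decreasing sequences -/
theorem PN.lb {x : PN P X} {μ : Cardinal.{0}} (hμ : ℵ₀ ≤ μ) (hx : x.CDC μ) {I : Type}
    [LinearOrder I] (hI : #I < μ) (Y : I → X) (y0 : X) (h0 : ∀ i p, x.le p (Y i) y0)
    (h1 : ∀ i j, i < j → ∀ p, x.le p (Y j) (Y i)) :
    ∃ z, (∀ p, x.le p z y0) ∧ ∀ i p, x.le p z (Y i) := by
  obtain ⟨z, hz⟩ := hx (Option I) (fun o => o.elim y0 Y) (fun _ => univ) (mk_option_lt hμ hI)
    (fun _ _ _ _ _ => trivial) (by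
      rintro (_ | i) (_ | j) p - -
      · exact ⟨p, le_rfl, none, trivial, x.refl _ _, x.refl _ _⟩
      · exact ⟨p, le_rfl, some j, trivial, h0 j p, x.refl _ _⟩
      · exact ⟨p, le_rfl, some i, trivial, x.refl _ _, h0 i p⟩
      · rcases lt_trichotomy i j with h | rfl | h
        · exact ⟨p, le_rfl, some j, trivial, h1 i j h p, x.refl _ _⟩
        · exact ⟨p, le_rfl, some i, trivial, x.refl _ _, x.refl _ _⟩
        · exact ⟨p, le_rfl, some i, trivial, x.refl _ _, h1 j i h p⟩)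
  exact ⟨z, fun p => hz none p trivial, fun i p => hz (some i) p trivial⟩

/-- **K1b.** -/
theorem PN.seq {x : PN P X} {μ : Cardinal.{0}} (hμ : ℵ₀ ≤ μ) (hx : x.CDC μ) {I : Type}
    [LinearOrder I] [WellFoundedLT I] (hI : ∀ i : I, #(Iio i) < μ) {R : I → X → Prop}
    (step : ∀ i y, ∃ y', (∀ p, x.le p y' y) ∧ R i y') (y0 : X) :
    ∃ Y : I → X, (∀ i p, x.le p (Y i) y0) ∧ (∀ i j, i < j → ∀ p, x.le p (Y j) (Y i)) ∧
      ∀ i, R i (Y i) := by
  classical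
  choose st hst1 hst2 using step
  let LB : (i : I) → (∀ j, j < i → X) → X := fun i f =>
    if h : ∃ z, (∀ p, x.le p z y0) ∧ ∀ j (hj : j < i) p, x.le p z (f j hj) then h.choose else y0
  let Y : I → X := (wellFounded_lt : WellFounded ((· < ·) : I → I → Prop)).fix
    (fun i f => st i (LB i f))
  have hY : ∀ i, Y i = st i (LB i (fun j _ => Y j)) := fun i => WellFounded.fix_eq _ _ _
  have key : ∀ i, (∀ p, x.le p (Y i) y0) ∧ ∀ j < i, ∀ p, x.le p (Y i) (Y j) := by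
    intro i
    induction i using WellFoundedLT.induction with
    | _ i ih =>
      have hex : ∃ z, (∀ p, x.le p z y0) ∧ ∀ j (hj : j < i) p, x.le p z (Y j) := by
        obtain ⟨z, hz0, hz⟩ := PN.lb hμ hx (I := Iio i) (hI i) (fun j => Y j.1) y0
          (fun j p => (ih j.1 j.2).1 p) (fun j k hjk p => (ih k.1 k.2).2 j.1 hjk p)
        exact ⟨z, hz0, fun j hj p => hz ⟨j, hj⟩ p⟩
      have hLB : LB i (fun j _ => Y j) = hex.choose := dif_pos hex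
      have h1 := hex.choose_spec
      rw [← hLB] at h1
      rw [hY i]
      exact ⟨fun p => x.trans _ _ _ _ (hst1 _ _ p) (h1.1 p),
        fun j hj p => x.trans _ _ _ _ (hst1 _ _ p) (h1.2 j hj p)⟩
  refine ⟨Y, fun i p => (key i).1 p, fun i j hij p => (key j).2 i hij p, fun i => ?_⟩
  rw [hY i]
  exact hst2 _ _

/-- **K1c.** -/
theorem PN.seqDec {x : PN P X} {μ : Cardinal.{0}} (hμ : ℵ₀ ≤ μ) (hcc : CC P μ) (hx : x.CDC μ)
    {I : Type} (hI : #I < μ) {D : I → Set (Two x)} (hD1 : ∀ i, ∀ r ∈ D i, ∀ s ≤ r, s ∈ D i)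
    (hD2 : ∀ i r, ∃ s ≤ r, s ∈ D i) (y0 : X) :
    ∃ y, (∀ p, x.le p y y0) ∧ ∀ i p, ∃ q ≤ p, (show Two x from (q, y)) ∈ D i := by
  classical
  let _ : LinearOrder I := linearOrderOfSTO (WellOrderingRel (α := I))
  have : WellFoundedLT I := ⟨(WellOrderingRel.isWellOrder (α := I)).toIsWellFounded.wf⟩
  obtain ⟨Y, hY0, hY1, hY2⟩ := PN.seq hμ hx (I := I) (fun i => lt_of_le_of_lt (mk_set_le _) hI)
    (R := fun i y => ∀ p, ∃ q ≤ p, (show Two x from (q, y)) ∈ D i)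
    (fun i y => PN.dec hμ hcc hx (hD1 i) (hD2 i) y) y0
  obtain ⟨z, hz0, hz⟩ := PN.lb hμ hx hI Y y0 hY0 hY1
  refine ⟨z, hz0, fun i p => ?_⟩
  obtain ⟨q, hq, hqD⟩ := hY2 i p
  exact ⟨q, hq, hD1 i _ hqD _ ⟨le_rfl, hz i q⟩⟩

/-- **K1d.** -/
theorem PN.prod_cdc {x : PN P X} {y : PN P Y} {μ : Cardinal.{0}} (hx : x.CDC μ) (hy : y.CDC μ) :
    (x.prod y).CDC μ := by
  intro I z a hI ha hdir
  obtain ⟨z1, hz1⟩ := hx I (fun i => (z i).1) a hI ha (fun i j p hp hp' => by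
    obtain ⟨q, hq, k, hk, h1, h2⟩ := hdir i j p hp hp'
    exact ⟨q, hq, k, hk, h1.1, h2.1⟩)
  obtain ⟨z2, hz2⟩ := hy I (fun i => (z i).2) a hI ha (fun i j p hp hp' => by
    obtain ⟨q, hq, k, hk, h1, h2⟩ := hdir i j p hp hp'
    exact ⟨q, hq, k, hk, h1.2, h2.2⟩)
  exact ⟨(z1, z2), fun i p hp => ⟨hz1 i p hp, hz2 i p hp⟩⟩

end K1

end Pool.Agent.Helper92.PR
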