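import Pool.Agent.Helper92.PR.SD
import Pool.Agent.Helper92.PR.Dec

/-!
# Open dense sets of `x × S` and `x × D`; the fusion sequence
-/

open Cardinal Set

set_option linter.unusedSectionVars false

namespace Pool.Agent.Helper92.PR

section K10
variable {κ : Cardinal.{0}} {B : Type} [Preorder B] {Y : Type}

/-- **K10a.** -/
theorem dense_D_of_S (hκ : 0 < κ) (x : PN B Y) {E : Set (B × (Y × Tt κ B))}
    (h1 : ∀ r ∈ E, ∀ s, @LE.le (Two (x.prod (SS κ B hκ))) _ s r → s ∈ E)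
    (h2 : ∀ r, ∃ s, @LE.le (Two (x.prod (SS κ B hκ))) _ s r ∧ s ∈ E) :
    (∀ r ∈ E, ∀ s, @LE.le (Two (x.prod (DD κ B hκ))) _ s r → s ∈ E) ∧
    ∀ r, ∃ s, @LE.le (Two (x.prod (DD κ B hκ))) _ s r ∧ s ∈ E := by
  constructor
  · rintro r hr s ⟨hs1, hs2, hs3⟩
    exact h1 r hr s ⟨hs1, hs2, leS_of_leD hs3⟩
  · rintro ⟨b, y, t⟩
    obtain ⟨⟨b', y', s'⟩, ⟨hb, hy, hs⟩, hE⟩ := h2 (b, y, t)
    obtain ⟨b2, hb2, Δ, hΔ⟩ := leS_proj hs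
    refine ⟨(b2, y', act Δ s'), ⟨hb2.trans hb, x.mono _ _ _ _ hb2 hy, hΔ⟩, ?_⟩
    exact h1 _ hE _ ⟨hb2, x.refl _ _, leS_act _ _ _⟩

/-- `yes` is preserved by the extensions in the order `D` -/
theorem yes_mono (hκ : 0 < κ) {x : PN B Y} {H : κ.ord.ToType → Set (B × (Y × Tt κ B))}
    (hH : ∀ γ, ∀ r ∈ H γ, ∀ s, @LE.le (Two (x.prod (SS κ B hκ))) _ s r → s ∈ H γ)
    {ε : Bool} {F : Finset κ.ord.ToType} {r s : B × (Y × Tt κ B)}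
    (hs : @LE.le (Two (x.prod (DD κ B hκ))) _ s r) (h : yes H ε F r) : yes H ε F s := by
  obtain ⟨hs1, hs2, hs3⟩ := hs
  obtain ⟨β, hβ, F', hF', he⟩ := h
  refine ⟨β, hH β r hβ s ⟨hs1, hs2, leS_of_leD hs3⟩, F', ?_, he⟩
  exact hs3 _ _ le_rfl ((r.2.2.reg _).lower _ hF' _ hs1)

/-- **K10b.** -/
theorem exists_fusion (hP : Prep κ B) {x : PN B Y} (hx : x.CDC κ)
    (hD : (DD κ B hP.reg.pos).CDC κ)
    {H : κ.ord.ToType → Set (B × (Y × Tt κ B))}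
    (hH : ∀ γ, ∀ r ∈ H γ, ∀ s, @LE.le (Two (x.prod (SS κ B hP.reg.pos))) _ s r → s ∈ H γ)
    (ε : Bool) (F : κ.ord.ToType → Finset κ.ord.ToType) (y0 : Y × Tt κ B) :
    ∃ Z : κ.ord.ToType → Y × Tt κ B,
      (∀ i p, (x.prod (DD κ B hP.reg.pos)).le p (Z i) y0) ∧
      (∀ i j, i < j → ∀ p, (x.prod (DD κ B hP.reg.pos)).le p (Z j) (Z i)) ∧
      ∀ i p, ∃ q ≤ p, yes H ε (F i) (q, Z i) ∨
        ∀ r', @LE.le (Two (x.prod (DD κ B hP.reg.pos))) _ r' (q, Z i) → ¬ yes H ε (F i) r' := by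
  have hxD := PN.prod_cdc hx hD
  refine PN.seq hP.unc.le hxD (I := κ.ord.ToType) (fun i => mk_Iio_ord_toType i)
    (R := fun i z => ∀ p, ∃ q ≤ p, yes H ε (F i) (q, z) ∨
        ∀ r', @LE.le (Two (x.prod (DD κ B hP.reg.pos))) _ r' (q, z) → ¬ yes H ε (F i) r')
    (fun i y => ?_) y0
  refine PN.dec hP.unc.le hP.cc hxD
    (D := {r : Two (x.prod (DD κ B hP.reg.pos)) | yes H ε (F i) r ∨
        ∀ r', @LE.le (Two (x.prod (DD κ B hP.reg.pos))) _ r' r → ¬ yes H ε (F i) r'})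
    ?_ ?_ y
  · rintro r (hr | hr) s hs
    · exact Or.inl (yes_mono hP.reg.pos hH hs hr)
    · exact Or.inr fun r' hr' => hr r' (hr'.trans hs)
  · intro r
    by_cases h : ∃ r' : Two (x.prod (DD κ B hP.reg.pos)), r' ≤ r ∧ yes H ε (F i) r'
    · obtain ⟨r', hr', hy⟩ := h
      exact ⟨r', hr', Or.inl hy⟩
    · exact ⟨r, le_rfl, Or.inr fun r' hr' hy => h ⟨r', hr', hy⟩⟩

end K10

end Pool.Agent.Helper92.PR
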