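import Pool.Agent.Helper92.PR.Dec
import Pool.Agent.Helper92.PR.Fus
import Pool.Agent.Helper96.Fc.Root

/-!
# Functions from small sets to `κ` are bounded (block K11)
-/

open Cardinal Set

namespace Pool.Agent.Helper92.PR

section K11
variable {κ : Cardinal.{0}} {B : Type} [Preorder B] {Y : Type}

/-- **K11.** Functions from small sets to `κ` are bounded. -/
theorem exists_val_bdd (hP : Prep κ B) {x : PN B Y} (hx : x.CDC κ)
    (hD : (DD κ B hP.reg.pos).CDC κ) (ι : Type) (hι : #ι < κ)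
    (f : ι → κ.ord.ToType → Set (Two (x.prod (SS κ B hP.reg.pos))))
    (hf1 : ∀ i j, Reg (f i j)) (hf2 : ∀ i j j' p, p ∈ f i j → p ∈ f i j' → j = j')
    (r0 : Two (x.prod (SS κ B hP.reg.pos))) :
    ∃ r ≤ r0, ∃ k, ∀ i j, k ≤ j → ∀ r' ≤ r, r' ∉ f i j := by
  have hκ := hP.reg.pos
  -- the open dense sets
  let E : ι → Set (B × (Y × Tt κ B)) := fun i =>
    {r | (∃ j, r ∈ f i j) ∨ ∀ s : Two (x.prod (SS κ B hP.reg.pos)),
      @LE.le (Two (x.prod (SS κ B hP.reg.pos))) _ s r → ∀ j, s ∉ f i j}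
  have hE1 : ∀ i, ∀ r ∈ E i, ∀ s, @LE.le (Two (x.prod (SS κ B hP.reg.pos))) _ s r → s ∈ E i := by
    intro i r hr s hs
    rcases hr with ⟨j, hj⟩ | hr
    · exact Or.inl ⟨j, (hf1 i j).lower _ hj _ hs⟩
    · exact Or.inr fun t ht j => hr t (le_trans ht hs) j
  have hE2 : ∀ i r, ∃ s, @LE.le (Two (x.prod (SS κ B hP.reg.pos))) _ s r ∧ s ∈ E i := by
    intro i r
    by_cases h : ∃ s : Two (x.prod (SS κ B hP.reg.pos)),
      @LE.le (Two (x.prod (SS κ B hP.reg.pos))) _ s r ∧ ∃ j, s ∈ f i j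
    · obtain ⟨s, hs, hj⟩ := h
      exact ⟨s, hs, Or.inl hj⟩
    · exact ⟨r, le_refl (α := Two (x.prod (SS κ B hP.reg.pos))) r,
        Or.inr fun t ht j hj => h ⟨t, ht, j, hj⟩⟩
  have hE3 := fun i => dense_D_of_S hP.reg.pos x (hE1 i) (hE2 i)
  obtain ⟨y, hy1, hy2⟩ := PN.seqDec (x := x.prod (DD κ B hP.reg.pos)) hP.unc.le hP.cc
    (PN.prod_cdc hx hD) hι (D := E) (fun i => (hE3 i).1) (fun i r => (hE3 i).2 r) r0.2
  -- the possible values
  let J : ι → Set κ.ord.ToType := fun i =>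
    {j | ∃ b, (show Two (x.prod (SS κ B hP.reg.pos)) from (b, y)) ∈ f i j}
  have hle : ∀ b c : B, b ≤ c → @LE.le (Two (x.prod (SS κ B hP.reg.pos))) _ (b, y) (c, y) :=
    fun b c h => ⟨h, (x.prod (SS κ B hP.reg.pos)).refl _ _⟩
  have hJ : ∀ i, #(J i) < κ := by
    intro i
    choose b hb using fun j : J i => j.2
    have hinj : Function.Injective b := by
      intro j j' h
      have h1 := hb j
      rw [h] at h1
      exact Subtype.ext (hf2 i _ _ _ h1 (hb j'))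
    have hW := hP.cc (range b) (by
      rintro _ ⟨j, rfl⟩ _ ⟨j', rfl⟩ hne ⟨r, h1, h2⟩
      exact hne (congrArg b (Subtype.ext (hf2 i _ _ _ ((hf1 i _).lower _ (hb j) _ (hle _ _ h1))
        ((hf1 i _).lower _ (hb j') _ (hle _ _ h2))))))
    rwa [mk_range_eq b hinj] at hW
  have hJU : #(⋃ i, J i) < κ :=
    lt_of_le_of_lt (mk_iUnion_le_sum_mk) (Cardinal.sum_lt_of_isRegular hP.reg hι hJ)
  obtain ⟨k, hk⟩ : ∃ k : κ.ord.ToType, ∀ j ∈ ⋃ i, J i, j < k := by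
    obtain ⟨k, hk⟩ := Pool.Agent.Helper96.Fc.exists_bound hP.reg (B := ⋃ i, J i) hJU Subtype.val
    exact ⟨k, fun j hj => hk ⟨j, hj⟩⟩
  refine ⟨(r0.1, y), ⟨le_rfl, (hy1 r0.1).1, leS_of_leD (hy1 r0.1).2⟩, k, ?_⟩
  rintro i j hkj ⟨b', y'⟩ ⟨h1, h2⟩ hr'
  obtain ⟨q, hq, hqE⟩ := hy2 i b'
  have h3 : @LE.le (Two (x.prod (SS κ B hP.reg.pos))) _ (q, y') (b', y') :=
    ⟨hq, (x.prod (SS κ B hP.reg.pos)).refl _ _⟩
  have h4 := (hf1 i j).lower _ hr' _ h3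
  have h5 : @LE.le (Two (x.prod (SS κ B hP.reg.pos))) _ (q, y') (q, y) :=
    ⟨le_rfl, (x.prod (SS κ B hP.reg.pos)).mono _ _ _ _ hq h2⟩
  rcases hqE with ⟨j', hj'⟩ | hqE
  · have h6 : j' < k := hk j' (mem_iUnion.2 ⟨i, q, hj'⟩)
    have h7 := hf2 i _ _ _ h4 ((hf1 i j').lower _ hj' _ h5)
    rw [h7] at hkj
    exact absurd h6 (not_lt.2 hkj)
  · exact hqE _ h5 j h4

end K11

end Pool.Agent.Helper92.PR
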