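import Pool.Agent.Helper92.PR.Size
import Pool.Agent.Helper96.Fc.Card

/-!
# Bookkeeping
-/

open Cardinal Set

set_option linter.unusedSectionVars false

namespace Pool.Agent.Helper92.PR

section K3
variable {κ : Cardinal.{0}} {B : Type} [Preorder B]

/-- **K3d.** Existence of the cardinal `θ`. -/
theorem exists_theta (hκ : ℵ₀ ≤ κ) : ∃ θ : Cardinal.{0}, θ.IsRegular ∧ Order.succ κ < θ ∧
    θ ^ (Order.succ κ) ≤ θ := by
  have h0 : ℵ₀ ≤ Order.succ κ := hκ.trans (Order.le_succ _)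
  have h1 : Order.succ κ < (2 : Cardinal.{0}) ^ Order.succ κ := cantor _
  have h2 : ℵ₀ ≤ (2 : Cardinal.{0}) ^ Order.succ κ := h0.trans h1.le
  have hr : (Order.succ ((2 : Cardinal.{0}) ^ Order.succ κ)).IsRegular := isRegular_succ h2
  have h3 : Order.succ κ < Order.succ ((2 : Cardinal.{0}) ^ Order.succ κ) := h1.trans (Order.lt_succ _)
  refine ⟨_, hr, h3, Helper96.Fc.regular_pow_le hr h3 ?_⟩
  intro a ha
  refine ((power_le_power_right (Order.lt_succ_iff.1 ha)).trans ?_).trans (Order.le_succ _)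
  rw [← power_mul, mul_eq_self h0]

/-- **K3e.** Bookkeeping: every code is `e α` for unboundedly many stages `α`. -/
theorem exists_book (hP : Prep κ B) (hne : Nonempty B) {θ : Cardinal.{0}} (hθ : θ.IsRegular)
    (hκθ : Order.succ κ < θ) (hpow : θ ^ (Order.succ κ) ≤ θ) :
    ∃ e : θ.ord.ToType → Code κ B θ.ord.ToType (Order.succ κ).ord.ToType,
      ∀ W α₀, ∃ α, α₀ ≤ α ∧ e α = W := by
  have hinf : ℵ₀ ≤ θ := hθ.aleph0_le
  have hκ : ℵ₀ ≤ κ := hP.unc.le
  have h1 : κ ≤ θ := (Order.le_succ _).trans hκθ.le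
  have hθ0 : θ ≠ 0 := (aleph0_pos.trans_le hinf).ne'
  have h2 : ∀ a ≤ Order.succ κ, θ ^ a ≤ θ := fun a ha =>
    (power_le_power_left hθ0 ha).trans hpow
  have hT : #(Tt κ B) ≤ θ := (mk_Tt_le hP).trans h1
  have hZ : #(Zq κ B θ.ord.ToType (Order.succ κ).ord.ToType) ≤ θ := by
    simp only [mk_sum, mk_prod, Cardinal.lift_id, mk_ord_toType]
    refine (add_le_add (b := θ) (d := θ) ?_ ?_).trans (add_eq_self hinf).le
    · refine (mul_le_mul' le_rfl (mul_le_mul' hT h1)).trans ?_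
      rw [mul_eq_self hinf, mul_eq_self hinf]
    · refine (mul_le_mul' le_rfl hκθ.le).trans ?_
      rw [mul_eq_self hinf]
  have hQ : #(Qc κ B θ.ord.ToType (Order.succ κ).ord.ToType) ≤ θ :=
    mk_SN_le hP h1 (fun a ha => h2 a (ha.le.trans (Order.le_succ _))) hZ
  have hC : #(Cn κ B θ.ord.ToType (Order.succ κ).ord.ToType × Bool) ≤ θ := by
    simp only [mk_prod, Cardinal.lift_id]
    have h3 : #Bool ≤ θ := (mk_le_aleph0).trans hinf
    refine (mul_le_mul' (mul_le_mul' (hP.small.trans h1) (mul_le_mul' hQ hT)) h3).trans ?_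
    rw [mul_eq_self hinf, mul_eq_self hinf, mul_eq_self hinf]
  have hCode : #(Code κ B θ.ord.ToType (Order.succ κ).ord.ToType) ≤ θ := by
    simp only [Code, ← power_def, mk_ord_toType]
    have h3 : ∀ (c a : Cardinal.{0}), c ≤ θ → a ≤ Order.succ κ → c ^ a ≤ θ := fun c a hc ha =>
      (power_le_power_right hc).trans (h2 a ha)
    exact h3 _ _ (h3 _ _ (h3 _ _ hC (Order.le_succ _)) (Order.le_succ _)) le_rfl
  have : Nonempty (Code κ B θ.ord.ToType (Order.succ κ).ord.ToType) := by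
    obtain ⟨b⟩ := hne
    exact ⟨fun _ _ _ => ((b, (topN κ B _ hP.reg.pos, topT κ B hP.reg.pos)), true)⟩
  have hprod : #(Code κ B θ.ord.ToType (Order.succ κ).ord.ToType × θ.ord.ToType) ≤
      #θ.ord.ToType := by
    simp only [mk_prod, Cardinal.lift_id, mk_ord_toType]
    exact (mul_le_mul' hCode le_rfl).trans (mul_eq_self hinf).le
  obtain ⟨⟨f, hf⟩⟩ := hprod
  obtain ⟨a0⟩ : Nonempty θ.ord.ToType := by
    rw [← mk_ne_zero_iff, mk_ord_toType]
    exact hθ0
  obtain ⟨W0⟩ := this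
  have hinv : ∃ g : θ.ord.ToType → Code κ B θ.ord.ToType (Order.succ κ).ord.ToType ×
      θ.ord.ToType, ∀ x, g (f x) = x := by
    have : Nonempty (Code κ B θ.ord.ToType (Order.succ κ).ord.ToType × θ.ord.ToType) :=
      ⟨(W0, a0)⟩
    exact ⟨Function.invFun f, Function.leftInverse_invFun hf⟩
  obtain ⟨g, hg⟩ := hinv
  refine ⟨fun α => (g α).1, fun W α₀ => ?_⟩
  by_contra hcon
  push Not at hcon
  have h4 : #(Iio α₀) < θ := Helper96.Fc.mk_Iio_lt' α₀
  have h5 : ∀ β : θ.ord.ToType, f (W, β) < α₀ := fun β => by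
    by_contra h6
    exact hcon _ (not_lt.1 h6) (by rw [hg])
  have h7 : #θ.ord.ToType ≤ #(Iio α₀) :=
    mk_le_of_injective (f := fun β => (⟨f (W, β), h5 β⟩ : Iio α₀)) (by
      intro β β' h
      have := hf (Subtype.ext_iff.1 h)
      exact (Prod.ext_iff.1 this).2)
  rw [mk_ord_toType] at h7
  exact absurd h4 (not_lt.2 h7)

end K3

end Pool.Agent.Helper92.PR
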