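import Pool.Agent.Helper92.PR.Q
import Pool.Agent.Helper96.Fc.Card

/-!
# K4: the `κ⁺`-chain condition of `B * (Q × S)`
-/

open Cardinal Set

set_option linter.unusedSectionVars false

namespace Pool.Agent.Helper92.PR

section K4
variable {κ : Cardinal.{0}} {B : Type} [Preorder B] {I Kp : Type} [LinearOrder I]
  [WellFoundedLT I] {g : I → Kp → κ.ord.ToType → Set (Cn κ B I Kp)}

theorem nonempty_of_cl {A : Set B} (h : (cl A).Nonempty) : A.Nonempty := by
  obtain ⟨p, hp⟩ := h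
  obtain ⟨r, -, hr⟩ := hp p le_rfl
  exact ⟨r, hr⟩

/-- **K4a.** -/
theorem leQ_union (hκ : κ.IsRegular) (α : WithTop I) {q q' : Qc κ B I Kp}
    (h : ∀ β, (∃ z, stg z = β ∧ (q.v z).Nonempty) → (∃ z, stg z = β ∧ (q'.v z).Nonempty) →
      ∀ β' : I, β = β' → ∀ d η, q.v (.inl (β', d, η)) = q'.v (.inl (β', d, η))) :
    ∃ q'' : Qc κ B I Kp, ∀ b, leQ g α b q'' q ∧ leQ g α b q'' q' := by
  have hl : ∀ z, ∀ p ∈ q.v z ∪ q'.v z, ∀ r ≤ p, r ∈ q.v z ∪ q'.v z := by
    rintro z p (hp | hp) r hr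
    · exact Or.inl ((q.reg z).lower p hp r hr)
    · exact Or.inr ((q'.reg z).lower p hp r hr)
  have hsm : #{z | (cl (q.v z ∪ q'.v z)).Nonempty} < κ := by
    refine lt_of_le_of_lt (mk_le_mk_of_subset (t := {z | (q.v z).Nonempty} ∪
      {z | (q'.v z).Nonempty}) ?_) ((mk_union_le _ _).trans_lt
        (add_lt_of_lt hκ.aleph0_le q.small q'.small))
    intro z hz
    obtain ⟨r, hr⟩ := nonempty_of_cl hz
    rcases hr with hr | hr
    · exact Or.inl ⟨r, hr⟩
    · exact Or.inr ⟨r, hr⟩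
  refine ⟨⟨fun z => cl (q.v z ∪ q'.v z), fun z => reg_cl _, hsm⟩, fun b => ⟨⟨?_, ?_⟩, ⟨?_, ?_⟩⟩⟩
  · intro z _ b' _ hb'
    exact subset_cl (hl z) (Or.inl hb')
  · intro β hβ d η b' _ h1 h2 ξ h3
    exfalso
    obtain ⟨r, hr, h4⟩ := h1 b' le_rfl
    have h5 : q.v (.inl (β, d, η)) = q'.v (.inl (β, d, η)) := by
      rcases h4 with h4 | h4
      · exact absurd h4 (h2 r hr)
      · exact h β ⟨.inr (β, ξ), rfl, b', h3⟩ ⟨.inl (β, d, η), rfl, r, h4⟩ β rfl d η
    rw [← h5, union_self] at h4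
    exact h2 r hr h4
  · intro z _ b' _ hb'
    exact subset_cl (hl z) (Or.inr hb')
  · intro β hβ d η b' _ h1 h2 ξ h3
    exfalso
    obtain ⟨r, hr, h4⟩ := h1 b' le_rfl
    have h5 : q.v (.inl (β, d, η)) = q'.v (.inl (β, d, η)) := by
      rcases h4 with h4 | h4
      · exact h β ⟨.inl (β, d, η), rfl, r, h4⟩ ⟨.inr (β, ξ), rfl, b', h3⟩ β rfl d η
      · exact absurd h4 (h2 r hr)
    rw [h5, union_self] at h4
    exact h2 r hr h4

/-- the stem of the stage `β` -/
def stemN (q : Qc κ B I Kp) (β : I) : SN κ B (Tt κ B × κ.ord.ToType) where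
  v z := q.v (.inl (β, z.1, z.2))
  reg z := q.reg _
  small := by
    refine lt_of_le_of_lt ?_ q.small
    refine mk_le_of_injective (f := fun z => ⟨.inl (β, z.1.1, z.1.2), z.2⟩) ?_
    rintro ⟨⟨d, η⟩, h⟩ ⟨⟨d', η'⟩, h'⟩ he
    simp only [Subtype.mk.injEq, Sum.inl.injEq, Prod.mk.injEq, true_and] at he
    obtain ⟨rfl, rfl⟩ := he
    rfl

/-- the set of the stages in the support of `q` -/
def spt (q : Qc κ B I Kp) : Set I := {β | ∃ z, stg z = (β : WithTop I) ∧ (q.v z).Nonempty}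

theorem mk_spt_lt (q : Qc κ B I Kp) : #(spt q) < κ := by
  let φ : Zq κ B I Kp → I := fun z => match z with
    | .inl z => z.1
    | .inr z => z.1
  have h1 : spt q ⊆ φ '' {z | (q.v z).Nonempty} := by
    rintro β ⟨z, h1, h2⟩
    refine ⟨z, h2, ?_⟩
    rcases z with z | z
    · exact WithTop.coe_injective h1
    · exact WithTop.coe_injective h1
  exact ((mk_le_mk_of_subset h1).trans mk_image_le).trans_lt q.small

theorem pow_le_of_lim (hP : Prep κ B) {e : Cardinal.{0}} (he : e < κ) : κ ^ e ≤ κ := by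
  refine Pool.Agent.Helper96.Fc.regular_pow_le hP.reg he ?_
  intro a ha
  refine (power_le_power_right (cantor a).le).trans ?_
  rw [← power_mul]
  exact (hP.lim _ (mul_lt_of_lt hP.reg.aleph0_le ha he)).le

/-- **K4b.** -/
theorem QS_cc (hP : Prep κ B) (hT : #(Tt κ B) ≤ κ) (hS : #(SN κ B (Tt κ B × κ.ord.ToType)) ≤ κ)
    (hg : GReg g) (α : WithTop I) : CC (Two (QS hP.reg.pos hg α)) (Order.succ κ) := by
  intro W hW
  by_contra hcon
  push Not at hcon
  have hcls : Pool.Agent.Helper96.Fc.Cls κ (Order.succ κ) :=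
    { rτ := hP.reg
      rθ := isRegular_succ hP.reg.aleph0_le
      lt := Order.lt_succ κ
      pow := by
        intro a ha b hb
        refine Order.lt_succ_iff.2 ?_
        exact (power_le_power_right (Order.lt_succ_iff.1 ha)).trans (pow_le_of_lim hP hb) }
  have h0 : #(Order.succ κ).ord.ToType ≤ #W := by rwa [mk_ord_toType]
  obtain ⟨f⟩ := (Cardinal.le_def _ _).1 h0
  let r : (Order.succ κ).ord.ToType → Cn κ B I Kp := fun ξ => (f ξ).1
  have hC : #(B × Tt κ B) < Order.succ κ := by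
    rw [Order.lt_succ_iff, mk_prod, Cardinal.lift_id, Cardinal.lift_id]
    exact (mul_le_mul' hP.small hT).trans (mul_eq_self hP.reg.aleph0_le).le
  obtain ⟨R, c, e, hR, he, h1, h2⟩ := hcls.thin (fun ξ => spt (r ξ).2.1)
    (fun ξ => mk_spt_lt _) (fun ξ => ((r ξ).1, (r ξ).2.2)) hC (fun ξ => spt (r ξ).2.1)
    (fun ξ => (mk_spt_lt _).trans (Order.lt_succ κ))
  -- the stems on the root
  have hfun : #(R → SN κ B (Tt κ B × κ.ord.ToType)) < #(Order.succ κ).ord.ToType := by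
    rw [mk_ord_toType, Order.lt_succ_iff, ← power_def]
    exact (power_le_power_right hS).trans (pow_le_of_lim hP hR)
  have hninj : ¬ Function.Injective
      (fun k : (Order.succ κ).ord.ToType => fun β : R => stemN (r (e k)).2.1 β.1) := by
    intro hinj
    exact absurd (mk_le_of_injective hinj) (not_le.2 hfun)
  rw [Function.Injective] at hninj
  push Not at hninj
  obtain ⟨j, k, hjk, hne⟩ := hninj
  have key : spt (r (e j)).2.1 ∩ spt (r (e k)).2.1 ⊆ R := by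
    rcases lt_or_gt_of_ne hne with h3 | h3
    · rintro β ⟨h4, h5⟩
      exact h2 j k h3 ⟨h5, h4⟩
    · rintro β ⟨h4, h5⟩
      exact h2 k j h3 ⟨h4, h5⟩
  obtain ⟨q'', hq⟩ := leQ_union (g := g) hP.reg α (q := (r (e j)).2.1) (q' := (r (e k)).2.1) (by
    rintro β ⟨z, h3, h4⟩ ⟨z', h5, h6⟩ β' hβ' d η
    have h7 : β' ∈ R := key ⟨⟨z, h3.trans hβ', h4⟩, ⟨z', h5.trans hβ', h6⟩⟩
    have h8 := congrFun hjk ⟨β', h7⟩
    have h9 : (stemN (r (e j)).2.1 β').v (d, η) = (stemN (r (e k)).2.1 β').v (d, η) := by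
      rw [show stemN (r (e j)).2.1 β' = stemN (r (e k)).2.1 β' from h8]
    exact h9)
  have hj := (h1 j).1
  have hk := (h1 k).1
  have hbj : (r (e j)).1 = c.1 := congrArg Prod.fst hj
  have htj : (r (e j)).2.2 = c.2 := congrArg Prod.snd hj
  have hbk : (r (e k)).1 = c.1 := congrArg Prod.fst hk
  have htk : (r (e k)).2.2 = c.2 := congrArg Prod.snd hk
  have hne' : (f (e j)).1 ≠ (f (e k)).1 := by
    intro h3
    exact hne (he.injective (f.injective (Subtype.ext h3)))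
  refine hW _ (f (e j)).2 _ (f (e k)).2 hne' ⟨(c.1, (q'', c.2)), ?_, ?_⟩
  · refine ⟨le_of_eq hbj.symm, (hq _).1, ?_⟩
    show leS c.1 c.2 (r (e j)).2.2
    rw [htj]
    exact leS_of_leD (leD_refl _ _)
  · refine ⟨le_of_eq hbk.symm, (hq _).2, ?_⟩
    show leS c.1 c.2 (r (e k)).2.2
    rw [htk]
    exact leS_of_leD (leD_refl _ _)

end K4

end Pool.Agent.Helper92.PR
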