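import Pool.Agent.Helper92.PR.Tool
import Pool.Agent.Helper96.Fc.Card

/-!
# R2, R3: `a ∩ κ` is an inaccessible cardinal for almost all `a`
-/

open Cardinal Set

set_option linter.unusedSectionVars false

namespace Pool.Agent.Helper92.PR

section Aux

theorem Gam_ord_mk {α : Type} [LinearOrder α] [WellFoundedLT α] (h : ∀ x : α, #(Iio x) < #α) :
    (#α).ord = Ordinal.type (α := α) (· < ·) := by
  refine le_antisymm (ord_le_type _) ?_
  by_contra hc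
  obtain ⟨x, hx⟩ := Ordinal.typein_surj (· < ·) (not_le.1 hc)
  have h1 := Ordinal.card_typein (r := ((· < ·) : α → α → Prop)) x
  rw [hx, card_ord] at h1
  exact absurd h1 (h x).ne'

theorem Gam_reg {α : Type} [LinearOrder α] [WellFoundedLT α] (h0 : ℵ₀ ≤ #α)
    (h : ∀ x : α, #(Iio x) < #α) (h2 : ∀ s : Set α, IsCofinal s → #α ≤ #s) : (#α).IsRegular := by
  refine ⟨h0, ?_⟩
  rw [Gam_ord_mk h, Ordinal.cof_type, Order.le_cof_iff]
  exact h2

theorem Gam_mk_Iio {κ : Cardinal.{0}} (x : κ.ord.ToType) : #(Iio x) < κ := by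
  have h1 := Cardinal.card_typein_toType_lt κ x
  rw [Ordinal.card_typein] at h1
  exact h1

theorem Gam_szW {K : Type} [LinearOrder K] (γ : K) : szW (γ : WithTop K) = #(Iio γ) := by
  unfold szW
  simp only [WithTop.coe_lt_coe]
  rfl

/-- small subsets of a regular cardinal are bounded -/
theorem Gam_bdd {κ : Cardinal.{0}} (hr : κ.IsRegular) {ι : Type} (hι : #ι < κ)
    (g : ι → κ.ord.ToType) : ∃ β, ∀ i, g i < β := by
  by_contra hc
  push Not at hc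
  have h1 : IsCofinal (range g) := fun x => by
    obtain ⟨i, hi⟩ := hc x
    exact ⟨g i, ⟨i, rfl⟩, hi⟩
  have h2 : κ ≤ #(range g) := by
    have h3 := hr.le_cof_ord
    rw [← Ordinal.cof_toType] at h3
    exact Order.le_cof_iff.1 h3 _ h1
  exact absurd (h2.trans mk_range_le) (not_le.2 hι)

end Aux

section R2
variable {κ : Cardinal.{0}} {H : Type} {U : Ultrafilter (Set H)}

/-- almost all `inn a` are proper initial segments -/
theorem Gam_seg (hU : Msr κ U) (kS : Srt U κ.ord.ToType)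
    (hk : ∀ᶠ a in (U : Filter (Set H)), #(kS.inn a) < κ) :
    ∀ᶠ a in (U : Filter (Set H)), ∃ γ : κ.ord.ToType, kS.inn a = Iio γ := by
  have h1 : ∀ᶠ a in (U : Filter (Set H)), ∀ x ∈ kS.inn a, ∀ y : Iio x, y.1 ∈ kS.inn a := by
    refine kS.diag (φ := fun x a => ∀ y : Iio x, y.1 ∈ kS.inn a) fun x => ?_
    exact hU.compl (Iio x) (fun y a => y.1 ∈ kS.inn a) (Gam_mk_Iio x) fun y => kS.fine y.1
  refine (h1.and hk).mono fun a ha => ?_
  have h2 : (kS.inn a)ᶜ.Nonempty := by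
    by_contra hc
    rw [not_nonempty_iff_eq_empty, compl_empty_iff] at hc
    have h3 := ha.2
    rw [hc, mk_univ, Cardinal.mk_toType, card_ord] at h3
    exact lt_irrefl _ h3
  obtain ⟨γ, hγ, hmin⟩ := WellFounded.has_min (wellFounded_lt (α := κ.ord.ToType)) _ h2
  refine ⟨γ, Set.ext fun x => ⟨fun hx => ?_, fun hx => ?_⟩⟩
  · by_contra hc
    have hc' : ¬ x < γ := hc
    rcases eq_or_lt_of_le (not_lt.1 hc') with h3 | h3
    · exact hγ (h3 ▸ hx)
    · exact hγ (ha.1 x hx ⟨γ, h3⟩)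
  · by_contra hc
    exact hmin x hc hx

/-- **R2.** For almost all `a` the set `a ∩ κ` is an inaccessible cardinal `γ < κ`. -/
theorem ev_inac (hU : Msr κ U) (hu : ℵ₀ < κ) (hr : κ.IsRegular) (hl : ∀ a < κ, 2 ^ a < κ)
    (kS : Srt U κ.ord.ToType) (hk : ∀ᶠ a in (U : Filter (Set H)), #(kS.inn a) < κ) :
    ∀ᶠ a in (U : Filter (Set H)), ∃ γ : κ.ord.ToType, kS.inn a = Iio γ ∧
      Inac (γ : WithTop κ.ord.ToType) := by
  classical
  have hseg := Gam_seg hU kS hk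
  -- uncountable
  obtain ⟨η₀, hη₀⟩ := Helper96.Fc.exists_Iio_eq (hl ℵ₀ hu)
  have hunc := kS.fine η₀
  -- powers
  have hβ : ∀ η : κ.ord.ToType, ∃ β : κ.ord.ToType, #(Iio β) = 2 ^ #(Iio η) := fun η =>
    Helper96.Fc.exists_Iio_eq (hl _ (Gam_mk_Iio η))
  choose β hβ using hβ
  have hcl := kS.closed kS β
  have hini : ∀ᶠ a in (U : Filter (Set H)), ∀ γ : κ.ord.ToType, kS.inn a = Iio γ →
      ∀ η < γ, #(Iio η) < #(Iio γ) := by
    refine hcl.mono fun a ha γ hγ η hη => ?_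
    have h1 : η ∈ kS.inn a := by rw [hγ]; exact hη
    have h2 := ha η h1
    rw [hγ] at h2
    have h3 : #(Iio (β η)) ≤ #(Iio γ) := mk_le_mk_of_subset (Iio_subset_Iio (le_of_lt h2))
    rw [hβ η] at h3
    exact (cantor _).trans_le h3
  -- regularity
  have hreg : ∀ᶠ a in (U : Filter (Set H)), ∀ γ : κ.ord.ToType, kS.inn a = Iio γ →
      ∀ δ < γ, ∀ f : Iio δ → κ.ord.ToType, (∀ i, f i < γ) → ∃ b < γ, ∀ i, f i < b := by
    by_contra hc
    have h1 := ev_not hc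
    have h2 : ∀ᶠ a in (U : Filter (Set H)), ∃ x : (κ.ord.ToType × κ.ord.ToType) ×
        (κ.ord.ToType → κ.ord.ToType), kS.inn a = Iio x.1.1 ∧ x.1.2 < x.1.1 ∧
        (∀ i < x.1.2, x.2 i < x.1.1) ∧ ∀ b < x.1.1, ∃ i < x.1.2, b ≤ x.2 i := by
      refine h1.mono fun a ha => ?_
      push Not at ha
      obtain ⟨γ, hγ, δ, hδ, f, hf, hb⟩ := ha
      refine ⟨((γ, δ), fun i => if hi : i < δ then f ⟨i, hi⟩ else i), hγ, hδ, ?_, ?_⟩
      · intro i hi
        show (if hi : i < δ then f ⟨i, hi⟩ else i) < γ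
        rw [dif_pos hi]
        exact hf _
      · intro b hbγ
        obtain ⟨i, hi⟩ := hb b hbγ
        refine ⟨i.1, i.2, ?_⟩
        show b ≤ (if hi : i.1 < δ then f ⟨i.1, hi⟩ else i.1)
        have hi2 : i.1 < δ := i.2
        rw [dif_pos hi2]
        exact hi
    have h3 : ∃ F : Set H → (κ.ord.ToType × κ.ord.ToType) × (κ.ord.ToType → κ.ord.ToType),
        ∀ᶠ a in (U : Filter (Set H)), kS.inn a = Iio (F a).1.1 ∧ (F a).1.2 < (F a).1.1 ∧
          (∀ i < (F a).1.2, (F a).2 i < (F a).1.1) ∧ ∀ b < (F a).1.1, ∃ i < (F a).1.2,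
            b ≤ (F a).2 i := by
      refine ⟨fun a => if h : ∃ x : (κ.ord.ToType × κ.ord.ToType) ×
        (κ.ord.ToType → κ.ord.ToType), kS.inn a = Iio x.1.1 ∧ x.1.2 < x.1.1 ∧
        (∀ i < x.1.2, x.2 i < x.1.1) ∧ ∀ b < x.1.1, ∃ i < x.1.2, b ≤ x.2 i then h.choose
          else ((η₀, η₀), fun _ => η₀), h2.mono fun a ha => ?_⟩
      dsimp only
      rw [dif_pos ha]
      exact ha.choose_spec
    obtain ⟨F, hF⟩ := h3
    obtain ⟨δ, hδ⟩ := kS.normal (fun a => (F a).1.2) (hF.mono fun a ha => by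
      rw [ha.1]; exact ha.2.1)
    obtain ⟨g, hg⟩ := kS.seq hU (Gam_mk_Iio δ) (fun a (i : Iio δ) => (F a).2 i.1)
      ((hF.and hδ).mono fun a ha i => by
        rw [ha.1.1]
        exact ha.1.2.2.1 i.1 (by rw [ha.2]; exact i.2))
    obtain ⟨b, hb⟩ := Gam_bdd hr (Gam_mk_Iio δ) g
    refine ev_false (((hF.and hδ).and (hg.and (kS.fine b))).mono fun a ha => ?_)
    have h4 : b < (F a).1.1 := by
      have := ha.2.2
      rw [ha.1.1.1] at this
      exact this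
    obtain ⟨i, hi, hbi⟩ := ha.1.1.2.2.2 b h4
    rw [ha.1.2] at hi
    have h5 := ha.2.1 ⟨i, hi⟩
    have h6 := hb ⟨i, hi⟩
    rw [← h5] at h6
    exact absurd hbi (not_le.2 h6)
  refine (hseg.and ((hunc.and hcl).and (hini.and hreg))).mono fun a ha => ?_
  obtain ⟨⟨γ, hγ⟩, ⟨h1, h2⟩, h3, h4⟩ := ha
  have h3' := h3 γ hγ
  have hun : ℵ₀ < #(Iio γ) := by
    rw [hγ] at h1
    have h5 : #(Iio η₀) ≤ #(Iio γ) := mk_le_mk_of_subset (Iio_subset_Iio (le_of_lt h1))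
    rw [hη₀] at h5
    exact (cantor _).trans_le h5
  have hsm : ∀ c < #(Iio γ), ∃ δ < γ, #(Iio δ) = c := by
    intro c hc
    obtain ⟨δ, hδ⟩ := Helper96.Fc.exists_Iio_eq (hc.trans (Gam_mk_Iio γ))
    refine ⟨δ, ?_, hδ⟩
    by_contra hcon
    have h5 : #(Iio γ) ≤ #(Iio δ) := mk_le_mk_of_subset (Iio_subset_Iio (not_lt.1 hcon))
    rw [hδ] at h5
    exact absurd hc (not_lt.2 h5)
  have hIio : ∀ x : Iio γ, #(Iio x) = #(Iio x.1) := by
    intro x
    refine mk_congr ⟨fun y => ⟨y.1.1, y.2⟩, fun y => ⟨⟨y.1, lt_trans (mem_Iio.1 y.2) (mem_Iio.1 x.2)⟩, y.2⟩, ?_, ?_⟩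
    · intro y; rfl
    · intro y; rfl
  refine ⟨γ, hγ, ?_, ?_, ?_, ?_⟩
  · rw [Gam_szW]
    exact hun
  · rw [Gam_szW]
    refine Gam_reg hun.le (fun x => ?_) (fun s hs => ?_)
    · rw [hIio]
      exact h3' x.1 x.2
    · by_contra hc
      obtain ⟨δ, hδ, hδs⟩ := hsm #s (not_le.1 hc)
      obtain ⟨e⟩ := Cardinal.eq.1 hδs
      obtain ⟨b, hb, hb'⟩ := h4 γ hγ δ hδ (fun i => (e i).1.1) (fun i => (e i).1.2)
      obtain ⟨y, hy, hby⟩ := hs ⟨b, hb⟩
      have h5 := hb' (e.symm ⟨y, hy⟩)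
      rw [e.apply_symm_apply] at h5
      exact absurd hby (not_le.2 h5)
  · intro c hc
    rw [Gam_szW] at hc ⊢
    obtain ⟨δ, hδ, rfl⟩ := hsm c hc
    have h5 : δ ∈ kS.inn a := by rw [hγ]; exact hδ
    have h6 := h2 δ h5
    rw [hγ] at h6
    have h7 := h3' _ h6
    rw [hβ] at h7
    exact h7
  · intro η hη
    rw [Gam_szW]
    exact h3' η (WithTop.coe_lt_coe.1 hη)

/-- **R3.** (same file) `p ∈ a` iff `bd p ∈ a`. -/
theorem ev_low (hU : Msr κ U) {P : Type} (kS : Srt U κ.ord.ToType) (pS : Srt U P)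
    (bd : P → κ.ord.ToType) (hbd : ∀ β, #{p | bd p ≤ β} < κ) :
    ∀ᶠ a in (U : Filter (Set H)), ∀ p, p ∈ pS.inn a ↔ bd p ∈ kS.inn a := by
  have h1 := pS.closed kS bd
  have h2 : ∀ᶠ a in (U : Filter (Set H)), ∀ b ∈ kS.inn a, ∀ p : {p | bd p ≤ b}, p.1 ∈ pS.inn a := by
    refine kS.diag (φ := fun b a => ∀ p : {p | bd p ≤ b}, p.1 ∈ pS.inn a) fun b => ?_
    exact hU.compl {p | bd p ≤ b} (fun p a => p.1 ∈ pS.inn a) (hbd b) fun p => pS.fine p.1
  refine (h1.and h2).mono fun a ha p => ⟨fun hp => ha.1 p hp, fun hp => ?_⟩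
  exact ha.2 _ hp ⟨p, show bd p ≤ bd p from le_rfl⟩

end R2

end Pool.Agent.Helper92.PR
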