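import Pool.Agent.Helper92.PR.Tool

/-!
# Block R1a: supercompact cardinals are regular strong limits (helper3)
-/

open Cardinal Set

set_option linter.unusedSectionVars false

namespace Pool.Agent.Helper92.PR

section R1
variable {κ : Cardinal.{0}}

/-- **R1a.** Supercompact cardinals are regular strong limits. -/
theorem Supercompact.inac (h : Supercompact κ) : κ.IsRegular ∧ ∀ a < κ, 2 ^ a < κ := by
  classical
  obtain ⟨U, hU⟩ := h.msr κ.ord.ToType
  have hcard : #κ.ord.ToType = κ := by simp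
  let s : Srt U κ.ord.ToType := Srt.ofEmb hU id Function.injective_id
  have hs : ∀ a, s.inn a = a := fun a => rfl
  -- almost all `a` are initial segments
  have h1 : ∀ᶠ a in (U : Filter (Set κ.ord.ToType)), ∀ x ∈ a, ∀ y < x, y ∈ a := by
    have h2 := s.diag (φ := fun x a => ∀ y < x, y ∈ a) (fun x => by
      have h3 := hU.compl (Iio x) (fun y a => y.1 ∈ a) (Cardinal.mk_Iio_toType_ord_lt x)
        (fun y => hU.fine y.1)
      exact h3.mono fun a ha y hy => ha ⟨y, hy⟩)
    exact h2
  have h2 : ∀ᶠ a in (U : Filter (Set κ.ord.ToType)), ∃ g, a = Iio g := by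
    refine (h1.and hU.small).mono fun a ha => ?_
    have h3 : aᶜ.Nonempty := by
      by_contra hc
      rw [not_nonempty_iff_eq_empty, compl_empty_iff] at hc
      have := ha.2
      rw [hc, mk_univ, hcard] at this
      exact lt_irrefl _ this
    obtain ⟨g, hg, hm⟩ := WellFounded.has_min (wellFounded_lt (α := κ.ord.ToType)) _ h3
    refine ⟨g, Subset.antisymm (fun x hx => ?_) (fun x hx => ?_)⟩
    · by_contra hc
      rcases eq_or_lt_of_le (not_lt.1 (show ¬ x < g from hc)) with h4 | h4
      · exact hg (h4 ▸ hx)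
      · exact hg (ha.1 x hx g h4)
    · by_contra hc
      exact hm x hc hx
  have hne : Nonempty κ.ord.ToType := by
    obtain ⟨a, g, -⟩ := h2.exists
    exact ⟨g⟩
  obtain ⟨g, hg⟩ := h2.choice
  have hlt : ∀ x, ∀ᶠ a in (U : Filter (Set κ.ord.ToType)), x < g a := fun x =>
    (hg.and (hU.fine x)).mono fun a ha => by
      have h3 := ha.2
      rw [ha.1] at h3
      exact h3
  constructor
  · refine ⟨h.1.le, ?_⟩
    rw [← Ordinal.cof_toType, Order.le_cof_iff]
    intro C hC
    by_contra hc
    have h3 := hU.compl C (fun c a => c.1 < g a) (not_le.1 hc) (fun c => hlt c.1)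
    obtain ⟨a, ha⟩ := h3.exists
    obtain ⟨c, hc1, hc2⟩ := hC (g a)
    exact absurd (ha ⟨c, hc1⟩) (not_lt.2 hc2)
  · intro b hb
    by_contra hc
    rw [not_lt] at hc
    have h3 : #κ.ord.ToType ≤ #(Set b.out) := by
      rw [hcard, mk_set, mk_out]
      exact hc
    obtain ⟨F⟩ := (Cardinal.le_def _ _).1 h3
    have h4 : ∀ i, ∀ᶠ a in (U : Filter (Set κ.ord.ToType)),
        (i ∈ F (g a) ↔ i ∈ {i | ∀ᶠ a in (U : Filter (Set κ.ord.ToType)), i ∈ F (g a)}) := by
      intro i
      by_cases hi : ∀ᶠ a in (U : Filter (Set κ.ord.ToType)), i ∈ F (g a)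
      · exact hi.mono fun a ha => ⟨fun _ => hi, fun _ => ha⟩
      · exact (Ultrafilter.eventually_not.2 hi).mono fun a ha =>
          ⟨fun h5 => absurd h5 ha, fun h5 => absurd h5 hi⟩
    have h5 := hU.compl b.out _ (by rw [mk_out]; exact hb) h4
    obtain ⟨a0, ha0⟩ := h5.exists
    obtain ⟨a, ha, ha'⟩ := (h5.and (hlt (g a0))).exists
    have h6 : g a0 = g a := F.injective (by
      ext i
      rw [ha0 i, ha i])
    exact absurd ha' (h6 ▸ lt_irrefl _)

end R1

end Pool.Agent.Helper92.PR
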