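import Pool.Agent.Helper92.PR.Low
import Pool.Agent.Helper92.PR.Sup
import Pool.Agent.Helper92.PR.Gam

/-!
# Block I4d: the chain condition
-/

open Cardinal Set

set_option linter.unusedSectionVars false

namespace Pool.Agent.Helper92.PR

section I4
variable {κ : Cardinal.{0}} {o : κ.ord.ToType}

/-- a function with few values is almost constant -/
theorem Msr.const {H : Type} {U : Ultrafilter (Set H)} (hU : Msr κ U) {T : Type} (S : Set T)
    (hS : #S < κ) (f : Set H → T) (hf : ∀ᶠ a in (U : Filter (Set H)), f a ∈ S) :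
    ∃ s, ∀ᶠ a in (U : Filter (Set H)), f a = s := by
  by_contra hc
  push Not at hc
  have h2 := hU.compl S (fun s a => f a ≠ s.1) hS fun s => hc s.1
  obtain ⟨a, ha, ha2⟩ := (hf.and h2).exists
  exact ha2 ⟨f a, ha⟩ rfl

/-- **I4d** The `κ`-chain condition. -/
theorem cond_cc (hκ : Supercompact κ) {L : It o} (hL : GoodIt L) (ho : ∀ k, o ≤ k) :
    CC L.Cond κ := by
  classical
  obtain ⟨hr, hl⟩ := hκ.inac
  have hu := hκ.1
  intro W hW
  by_contra hcon
  have hcard : #κ.ord.ToType ≤ #W := by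
    rw [mk_ord_toType]
    exact not_lt.1 hcon
  obtain ⟨p⟩ := hcard
  obtain ⟨U, hU⟩ := hκ.msr κ.ord.ToType
  have hinac := ev_inac hU hu hr hl (Srt.ofEmb hU id Function.injective_id)
    (Srt.card_ofEmb hU id Function.injective_id)
  -- the function `g`
  let g : Set κ.ord.ToType → κ.ord.ToType := fun a =>
    if h : ∃ γ : κ.ord.ToType, a = Iio γ ∧ Inac (γ : WithTop κ.ord.ToType) then h.choose else o
  have hg : ∀ᶠ a in (U : Filter (Set κ.ord.ToType)),
      a = Iio (g a) ∧ Inac ((g a : κ.ord.ToType) : WithTop κ.ord.ToType) := by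
    refine hinac.mono fun a h => ?_
    have h' : ∃ γ : κ.ord.ToType, a = Iio γ ∧ Inac (γ : WithTop κ.ord.ToType) := h
    have h2 : g a = h'.choose := dif_pos h'
    rw [h2]
    exact h'.choose_spec
  -- the bound of the support
  let b : Set κ.ord.ToType → κ.ord.ToType := fun a =>
    if h : ∃ β : κ.ord.ToType, β < g a ∧ ∀ η, β ≤ η → η < g a → (p (g a)).1.1 η = o
    then h.choose else o
  have hb : ∀ᶠ a in (U : Filter (Set κ.ord.ToType)),
      b a < g a ∧ ∀ η, b a ≤ η → η < g a → (p (g a)).1.1 η = o := by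
    refine hg.mono fun a h => ?_
    have h' : ∃ β : κ.ord.ToType, β < g a ∧ ∀ η, β ≤ η → η < g a → (p (g a)).1.1 η = o := by
      obtain ⟨β, hβ, h2⟩ := (p (g a)).1.2.est _ h.2
      exact ⟨β, WithTop.coe_lt_coe.1 hβ, fun η h3 h4 => h2 η h3 (WithTop.coe_lt_coe.2 h4)⟩
    have h2 : b a = h'.choose := dif_pos h'
    rw [h2]
    exact h'.choose_spec
  obtain ⟨β, hβ⟩ := hU.normal b ((hg.and hb).mono fun a h => by
    have h1 : b a ∈ Iio (g a) := h.2.1
    rw [← h.1.1] at h1
    exact h1)
  -- the restriction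
  let r : Set κ.ord.ToType → L.Cond := fun a => L.emb (LowerSet.Iio (g a))
    (L.cutC (LowerSet.Iio (g a)) (p (g a)).1)
  have hr1 : ∀ a, ∀ η, η < g a → (r a).1 η = (p (g a)).1.1 η := fun a η hη =>
    cut_of_mem (S := Iio (g a)) hη
  have hr2 : ∀ a, ∀ η, ¬ η < g a → (r a).1 η = o := fun a η hη =>
    cut_of_not_mem (S := Iio (g a)) hη
  have hS := card_low ho (inac_top hu hr hl) (clo_top hL) β (WithTop.coe_lt_top β)
  rw [szW_top] at hS
  obtain ⟨s, hs⟩ := hU.const _ hS r ((hb.and hβ).mono fun a h => by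
    intro η hη
    by_cases h2 : η < g a
    · rw [hr1 a η h2]
      refine h.1.2 η ?_ h2
      rw [h.2]
      exact hη
    · exact hr2 a η h2)
  -- two stages
  obtain ⟨a, ha⟩ := (hg.and hs).exists
  obtain ⟨δ, -, hδ⟩ := (p (g a)).1.2.est ⊤ (inac_top hu hr hl)
  obtain ⟨c, hc⟩ := ((hg.and hs).and (hU.fine (max (g a) δ))).exists
  have hc1 : max (g a) δ < g c := by
    have h1 := hc.2
    rw [hc.1.1.1] at h1
    exact h1
  have hij : g a < g c := (le_max_left _ _).trans_lt hc1
  have hδc : δ < g c := (le_max_right _ _).trans_lt hc1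
  have hne : (p (g a)).1 ≠ (p (g c)).1 := fun h => hij.ne (p.injective (Subtype.ext h))
  refine hW _ (p (g a)).2 _ (p (g c)).2 hne ⟨L.join (LowerSet.Iio (g c))
    (L.cutC (LowerSet.Iio (g c)) (p (g a)).1) (p (g c)).1, ?_, ?_⟩
  · set q := L.join (LowerSet.Iio (g c))
      (L.cutC (LowerSet.Iio (g c)) (p (g a)).1) (p (g c)).1 with hq
    intro η
    by_cases h1 : η < g c
    · have h2 : q.1 η = (p (g a)).1.1 η := by
        rw [hq, L.join_of_mem (S := LowerSet.Iio (g c)) h1]
        exact cut_of_mem (S := Iio (g c)) h1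
      rw [← h2]
      exact L.rel_refl q η (q.2.mem η)
    · have h2 : (p (g a)).1.1 η = o :=
        hδ η (hδc.le.trans (not_lt.1 h1)) (WithTop.coe_lt_top η)
      rw [h2]
      exact (L.ok η).top _ (okC_cut q.2 _) _ (q.2.mem η)
  · set q := L.join (LowerSet.Iio (g c))
      (L.cutC (LowerSet.Iio (g c)) (p (g a)).1) (p (g c)).1 with hq
    intro η
    by_cases h1 : η < g c
    · have h2 : q.1 η = (p (g a)).1.1 η := by
        rw [hq, L.join_of_mem (S := LowerSet.Iio (g c)) h1]
        exact cut_of_mem (S := Iio (g c)) h1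
      have h3 : (p (g c)).1.1 η = s.1 η := by
        rw [← hr1 c η h1, hc.1.2]
      by_cases h4 : η < g a
      · have h5 : (p (g a)).1.1 η = s.1 η := by
          rw [← hr1 a η h4, ha.2]
        rw [h3, ← h5, ← h2]
        exact L.rel_refl q η (q.2.mem η)
      · have h5 : s.1 η = o := by
          rw [← ha.2]
          exact hr2 a η h4
        rw [h3, h5]
        exact (L.ok η).top _ (okC_cut q.2 _) _ (q.2.mem η)
    · have h2 : q.1 η = (p (g c)).1.1 η := by
        rw [hq, L.join_of_not_mem (S := LowerSet.Iio (g c)) h1]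
      rw [← h2]
      exact L.rel_refl q η (q.2.mem η)

end I4

end Pool.Agent.Helper92.PR
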