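import Pool.Agent.Helper92.PR.Q

/-!
# Lower bounds of directed families of names
-/

open Cardinal Set

set_option linter.unusedSectionVars false

namespace Pool.Agent.Helper92.PR

section
variable {κ : Cardinal.{0}} {B : Type} [Preorder B]

/-- the values of the union of the active names -/
def bdv {Z J : Type} (a : J → Set B) (v : J → Z → Set B) (z : Z) : Set B :=
  cl {b | ∃ i, b ∈ a i ∧ b ∈ v i z}

theorem bdv_small {Z J : Type} (hκ : κ.IsRegular) (hJ : #J < κ) (a : J → Set B)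
    (v : J → Z → Set B) (h : ∀ i, #{z | (v i z).Nonempty} < κ) :
    #{z | (bdv a v z).Nonempty} < κ := by
  refine lt_of_le_of_lt (mk_le_mk_of_subset (t := ⋃ i, {z | (v i z).Nonempty}) ?_) ?_
  · rintro z ⟨p, hp⟩
    obtain ⟨r, -, i, -, h2⟩ := hp p le_rfl
    exact mem_iUnion.2 ⟨i, r, h2⟩
  · refine lt_of_le_of_lt (mk_iUnion_le_sum_mk) ?_
    exact Cardinal.sum_lt_of_isRegular hκ hJ h

end

section K2
variable {κ : Cardinal.{0}} {B : Type} [Preorder B] {I Kp : Type} [LinearOrder I]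
  [WellFoundedLT I] {g : I → Kp → κ.ord.ToType → Set (Cn κ B I Kp)}

theorem DD_cdc (hκ : κ.IsRegular) : (DD κ B hκ.pos).CDC κ := by
  intro J y a hJ ha hdir
  refine ⟨{ v := bdv a fun i => (y i).v
            reg := fun z => reg_cl _
            small := bdv_small hκ hJ a _ fun i => (y i).small
            sv := ?_ }, ?_⟩
  · intro β F F' b h h'
    obtain ⟨r, hr, i, h1, h2⟩ := h b le_rfl
    obtain ⟨r', hr', j, h3, h4⟩ := h' r hr
    obtain ⟨q, hq, k, -, h5, h6⟩ := hdir i j r' (ha i r h1 r' hr') h3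
    exact (y k).sv β F F' q (h5 _ q le_rfl (((y i).reg _).lower _ h2 _ (hq.trans hr')))
      (h6 _ q le_rfl (((y j).reg _).lower _ h4 _ hq))
  · intro i p hp z b hb hz q hq
    exact ⟨q, le_rfl, i, ha i p hp q (hq.trans hb), ((y i).reg _).lower _ hz _ hq⟩

theorem QQ_cdc (hκ : κ.IsRegular) (hg : GReg g) (α : WithTop I) :
    (QQ hκ.pos hg α).CDC κ := by
  intro J y a hJ ha hdir
  set z0 : Qc κ B I Kp :=
    { v := bdv a fun i => (y i).v
      reg := fun z => reg_cl _
      small := bdv_small hκ hJ a _ fun i => (y i).small } with hz0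
  refine ⟨z0, ?_⟩
  suffices H : ∀ β : WithTop I, β ≤ α → ∀ i, ∀ p ∈ a i, leQ g β p z0 (y i) by
    intro i p hp
    exact H α le_rfl i p hp
  intro β
  induction β using WellFoundedLT.induction with
  | _ β ih =>
    intro hβα i p hp
    refine ⟨?_, ?_⟩
    · intro z hz b hb h q hq
      exact ⟨q, le_rfl, i, ha i p hp q (hq.trans hb), ((y i).reg _).lower _ h _ hq⟩
    · intro γ hγ d η b' hb' h3 h4 ξ h5
      refine (hg γ ξ η).2 _ ?_
      rintro ⟨b1, q1, d1⟩ ⟨hr1, hr2, hr3⟩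
      simp only at hr1 hr2 hr3
      rw [leQ_res_right] at hr2
      obtain ⟨b2, hb2, j, h6, h7⟩ := h3 b1 hr1
      have hb2p : b2 ≤ p := hb2.trans (hr1.trans hb')
      obtain ⟨b3, hb3, k, h8, h9, h10⟩ := hdir i j b2 (ha i p hp b2 hb2p) h6
      change leQ g α b3 (y k) (y i) at h9
      change leQ g α b3 (y k) (y j) at h10
      have hγα : (γ : WithTop I) < α := hγ.trans_le hβα
      have h11 : b3 ∈ (y k).v (.inl (γ, d, η)) :=
        h10.1 (.inl (γ, d, η)) hγα b3 le_rfl (((y j).reg _).lower _ h7 _ hb3)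
      have h12 : (b3, res γ (y k), d) ∈ g γ ξ η :=
        h9.2 γ hγα d η b3 le_rfl h11
          (fun b'' hb'' => h4 b'' (hb''.trans (hb3.trans (hb2.trans hr1)))) ξ
          (((y i).reg _).lower _ h5 _ (hb3.trans (hb2.trans hr1)))
      refine ⟨(b3, q1, d1), ⟨hb3.trans hb2, leQ_refl _ _ _, leD_refl _ _⟩, ?_⟩
      refine (hg γ ξ η).1 _ h12 _ ⟨le_rfl, ?_, leD_mono hr3 (hb3.trans hb2)⟩
      simp only
      rw [leQ_res_right]
      exact leQ_trans hg γ (leQ_mono hr2 (hb3.trans hb2)) (ih γ hγ hγα.le k b3 h8)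

end K2

end Pool.Agent.Helper92.PR
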