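import Pool.Agent.Helper92.PR.Base
import Pool.Agent.Helper96.Fc.Root

/-!
# Block K10c (helper18): a closure point of a regular uncountable cardinal
-/

open Cardinal Set

namespace Pool.Agent.Helper92.PR

open Pool.Agent.Helper96.Fc in
/-- **K10c.** -/
theorem exists_clo {κ : Cardinal.{0}} (hκ : κ.IsRegular) (hu : ℵ₀ < κ)
    (F : κ.ord.ToType → Finset κ.ord.ToType)
    (hF : ∀ F', ∃ i, F i = F') (h : κ.ord.ToType → κ.ord.ToType) :
    ∃ lam, (∀ i < lam, h i ≤ lam) ∧ ∀ F' : Finset κ.ord.ToType, (∀ x ∈ F', x < lam) →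
      ∃ i < lam, F i = F' := by
  choose idx hidx using hF
  have hne : Nonempty κ.ord.ToType := by
    rw [← mk_ne_zero_iff, mk_ord_toType]
    exact hκ.pos.ne'
  -- the step
  have hstep : ∀ μ : κ.ord.ToType, ∃ μ', μ < μ' ∧ (∀ i < μ, h i < μ') ∧
      ∀ F' : Finset κ.ord.ToType, (∀ x ∈ F', x < μ) → idx F' < μ' := by
    intro μ
    have h1 : #(Finset (Iio μ)) < κ := by
      rcases finite_or_infinite (Iio μ) with hf | hf
      · exact (Cardinal.lt_aleph0_of_finite _).trans hu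
      · rw [Cardinal.mk_finset_of_infinite]
        exact mk_Iio_lt' μ
    have h2 : #(Finset (Iio μ) ⊕ Iio μ) < κ := by
      rw [mk_sum, lift_id, lift_id]
      exact add_lt_of_lt hκ.aleph0_le h1 (mk_Iio_lt' μ)
    obtain ⟨k, hk, hk2⟩ := exists_bound2 hκ h2
      (Sum.elim (fun G => idx (G.map ⟨Subtype.val, Subtype.val_injective⟩)) (fun i => h i.1)) μ
    refine ⟨k, hk, fun i hi => hk2 (Sum.inr ⟨i, hi⟩), fun F' hF' => ?_⟩
    have h3 := hk2 (Sum.inl (F'.subtype (· ∈ Iio μ)))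
    simp only [Sum.elim_inl] at h3
    have h4 : (F'.subtype (· ∈ Iio μ)).map ⟨Subtype.val, Subtype.val_injective⟩ = F' := by
      ext x
      simp only [Finset.mem_map, Finset.mem_subtype, Function.Embedding.coeFn_mk, Subtype.exists,
        exists_and_right, exists_eq_right]
      constructor
      · rintro ⟨_, hx⟩; exact hx
      · intro hx; exact ⟨hF' x hx, hx⟩
    rwa [h4] at h3
  choose st hst1 hst2 hst3 using hstep
  obtain ⟨a0⟩ := hne
  obtain ⟨μ, hμs⟩ : ∃ μ : ℕ → κ.ord.ToType, ∀ n, μ (n + 1) = st (μ n) :=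
    ⟨fun n => Nat.rec a0 (fun _ x => st x) n, fun n => rfl⟩
  have hmono : StrictMono μ := strictMono_nat_of_lt_succ fun n => by rw [hμs]; exact hst1 _
  obtain ⟨k, hk⟩ := exists_bound hκ (B := ℕ) (by rw [mk_nat]; exact hu) μ
  have hwf : WellFounded ((· < ·) : κ.ord.ToType → κ.ord.ToType → Prop) := wellFounded_lt
  set lam := hwf.min {k | ∀ n, μ n < k} ⟨k, hk⟩ with hlam
  have hl1 : ∀ n, μ n < lam := hwf.min_mem {k | ∀ n, μ n < k} ⟨k, hk⟩
  have hl2 : ∀ i < lam, ∃ n, i ≤ μ n := by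
    intro i hi
    by_contra hcon
    push Not at hcon
    exact hwf.not_lt_min {k | ∀ n, μ n < k} (x := i) hcon hi
  refine ⟨lam, fun i hi => ?_, fun F' hF' => ?_⟩
  · obtain ⟨n, hn⟩ := hl2 i hi
    have h1 : i < μ (n + 1) := hn.trans_lt (hmono (Nat.lt_succ_self n))
    have h2 := hst2 (μ (n + 1)) i h1
    rw [← hμs] at h2
    exact (h2.trans (hl1 _)).le
  · have h1 : ∃ N, ∀ x ∈ F', x < μ N := by
      choose! n hn using hl2
      refine ⟨F'.sup n + 1, fun x hx => ?_⟩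
      have h2 := hn x (hF' x hx)
      exact h2.trans_lt (hmono (Nat.lt_succ_of_le (Finset.le_sup (f := n) hx)))
    obtain ⟨N, hN⟩ := h1
    have h2 := hst3 (μ N) F' hN
    rw [← hμs] at h2
    exact ⟨idx F', h2.trans (hl1 _), hidx F'⟩

end Pool.Agent.Helper92.PR
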