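import Pool.Agent.Helper92.PR.Q

/-!
# Codes of colourings and good stages

A *code* enumerates, for every row `ξ` and every `η < κ`, conditions (with a colour) of the
forcing `B * (Q × S)`.
-/

open Cardinal Set

namespace Pool.Agent.Helper92.PR

section

variable {κ : Cardinal.{0}} {B : Type} [Preorder B] {I Kp : Type} [LinearOrder I]

/-- codes of colourings `Kp × κ → 2` -/
abbrev Code (κ : Cardinal.{0}) (B I Kp : Type) [Preorder B] : Type :=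
  Kp → κ.ord.ToType → κ.ord.ToType → Cn κ B I Kp × Bool

variable (g : I → Kp → κ.ord.ToType → Set (Cn κ B I Kp))

/-- the coded colouring, considered as a name of the forcing with `D` at the stage `α`: the
conditions `r` which force `c(ξ,η) = i` -/
def cD (α : WithTop I) (W : Code κ B I Kp) (ξ : Kp) (η : κ.ord.ToType) (i : Bool) :
    Set (Cn κ B I Kp) :=
  {r | ∀ r', rD g α r' r → ∃ r'', rD g α r'' r' ∧ ∃ k, (W ξ η k).2 = i ∧ rS g α r'' (W ξ η k).1}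

/-- `W` is a code of a colouring of the stage `α` -/
structure Live (α : WithTop I) (W : Code κ B I Kp) : Prop where
  dense : ∀ ξ η r, ∃ r', rS g α r' r ∧ ∃ k, rS g α r' (W ξ η k).1
  con : ∀ ξ η k k' r, rS g α r (W ξ η k).1 → rS g α r (W ξ η k').1 → (W ξ η k).2 = (W ξ η k').2

/-- `G` is a good choice of `g α` for the code `W` -/
structure SGood (α : I) (W : Code κ B I Kp) (G : Kp → κ.ord.ToType → Set (Cn κ B I Kp)) :
    Prop where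
  lower : ∀ ξ η, ∀ r ∈ G ξ η, ∀ r', rD g α r' r → r' ∈ G ξ η
  dense : ∀ ξ η r, (∀ r', rD g α r' r → ∃ r'', rD g α r'' r' ∧ r'' ∈ G ξ η) → r ∈ G ξ η
  unbdd : ∀ r, ∀ X : Set Kp, #X < κ → ∀ μ, ∃ r', rD g α r' r ∧ ∃ η, μ < η ∧ ∀ ξ ∈ X, r' ∈ G ξ η
  side : ∀ r ξ, ∃ r', rD g α r' r ∧ ∃ i, ∀ η, ∀ r'', rD g α r'' r' → r'' ∈ G ξ η →
    r'' ∈ cD g α W ξ η i

/-- `r` forces (at once) that `η` belongs to the set `D` determined by `α, d, ε` -/
def inD (α : I) (d : Tt κ B) (ε : κ.ord.ToType) (r : Cn κ B I Kp) (η : κ.ord.ToType) : Prop :=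
  ε ≤ η ∧ ∃ d', leD r.1 d' d ∧ leS r.1 r.2.2 d' ∧ r.1 ∈ r.2.1.v (.inl (α, d', η))

end

/-- **What the combinatorial part provides** for the model: a forcing notion `P` such that: no
function from a set of size less than `κ` to `κ` of the extension is unbounded; antichains have
size at most `κ`; `C` is a name of a graph on `κ` without unbounded homogeneous sets; and for every
name `c` of a subset of `κ⁺ × κ` (densely) there are names of unbounded sets `A ⊆ κ⁺`, `D ⊆ κ` such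
that `A × D` is contained in `c` or disjoint from `c`. -/
structure Core (κ : Cardinal.{0}) (P : Type) [Preorder P] : Prop where
  unc : ℵ₀ < κ
  regular : κ.IsRegular
  bdd : ∀ (ι : Type), #ι < κ → ∀ f : ι → κ.ord.ToType → Set P, (∀ i j, Reg (f i j)) →
    (∀ i j j' p, p ∈ f i j → p ∈ f i j' → j = j') → ∀ p, ∃ q ≤ p, ∃ k, ∀ i j, k ≤ j →
      ∀ r ≤ q, r ∉ f i j
  cc : CC P (Order.succ κ)
  col : ∃ C : κ.ord.ToType → κ.ord.ToType → Set P, (∀ β γ, Reg (C β γ)) ∧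
    ∀ H : κ.ord.ToType → Set P, (∀ γ, Reg (H γ)) → ∀ p₀,
      (∀ p ≤ p₀, ∀ μ, ∃ q ≤ p, ∃ γ, μ < γ ∧ q ∈ H γ) →
        (∃ p ≤ p₀, ∃ β γ, β < γ ∧ p ∈ H β ∧ p ∈ H γ ∧ p ∈ C β γ) ∧
        (∃ p ≤ p₀, ∃ β γ, β < γ ∧ p ∈ H β ∧ p ∈ H γ ∧ p ∈ neg (C β γ))
  pos : ∀ c : (Order.succ κ).ord.ToType → κ.ord.ToType → Set P, (∀ ξ η, Reg (c ξ η)) →
    ∀ p₀, ∃ p ≤ p₀, ∃ (A : (Order.succ κ).ord.ToType → Set P) (D : κ.ord.ToType → Set P),
      (∀ ξ, Reg (A ξ)) ∧ (∀ η, Reg (D η)) ∧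
      (∀ q ≤ p, ∀ ξ₀, ∃ r ≤ q, ∃ ξ, ξ₀ < ξ ∧ r ∈ A ξ) ∧
      (∀ q ≤ p, ∀ η₀, ∃ r ≤ q, ∃ η, η₀ < η ∧ r ∈ D η) ∧
      ((∀ ξ η, ∀ q ≤ p, q ∈ A ξ → q ∈ D η → q ∈ c ξ η) ∨
        (∀ ξ η, ∀ q ≤ p, q ∈ A ξ → q ∈ D η → q ∈ neg (c ξ η)))

end Pool.Agent.Helper92.PR
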