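import Pool.Agent.Helper92.PR.Seal

/-!
# K12b: the colouring of Theorem B
-/

open Cardinal Set
open scoped symmDiff

set_option linter.unusedSectionVars false

namespace Pool.Agent.Helper92.PR

section
variable {κ : Cardinal.{0}} {B : Type} [Preorder B] {Y : Type}

theorem blw_blw (Δ : Finset κ.ord.ToType) {β γ : κ.ord.ToType} (h : β ≤ γ) :
    blw (blw Δ γ) β = blw Δ β := by
  ext x
  simp only [blw, Finset.mem_filter]
  exact ⟨fun h1 => ⟨h1.1.1, h1.2⟩, fun h1 => ⟨⟨h1.1, h1.2.trans_le h⟩, h1.2⟩⟩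

/-- the colour is preserved by the extensions of a finite modification -/
theorem colT_leD {ε : Bool} {β γ : κ.ord.ToType} (hβγ : β < γ) {b b' : B} {t t' : Tt κ B}
    (h : colT ε β γ b t) (hb : b' ≤ b) (Δ : Finset κ.ord.ToType) (hD : leD b' t' (act Δ t)) :
    colT ε β γ b' t' := by
  obtain ⟨F, F', h1, h2, h3⟩ := h
  refine ⟨F ∆ blw Δ β, F' ∆ blw Δ γ, hD _ b' le_rfl ?_, hD _ b' le_rfl ?_, ?_⟩
  · change b' ∈ t.v (β, (F ∆ blw Δ β) ∆ blw Δ β)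
    rw [symmDiff_symmDiff_cancel_right]
    exact (t.reg _).lower _ h1 _ hb
  · change b' ∈ t.v (γ, (F' ∆ blw Δ γ) ∆ blw Δ γ)
    rw [symmDiff_symmDiff_cancel_right]
    exact (t.reg _).lower _ h2 _ hb
  · rw [h3, blw_symmDiff, blw_symmDiff, blw_blw Δ le_rfl, blw_blw Δ hβγ.le]
    exact (symmDiff_left_injective (blw Δ β)).eq_iff.symm

theorem colT_mono {ε : Bool} {β γ : κ.ord.ToType} {b b' : B} {t : Tt κ B}
    (h : colT ε β γ b t) (hb : b' ≤ b) : colT ε β γ b' t := by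
  obtain ⟨F, F', h1, h2, h3⟩ := h
  exact ⟨F, F', (t.reg _).lower _ h1 _ hb, (t.reg _).lower _ h2 _ hb, h3⟩

/-- the colour is decided -/
theorem colT_inj {ε ε' : Bool} {β γ : κ.ord.ToType} {b : B} {t : Tt κ B}
    (h : colT ε β γ b t) (h' : colT ε' β γ b t) : ε = ε' := by
  obtain ⟨F, F', h1, h2, h3⟩ := h
  obtain ⟨G, G', k1, k2, k3⟩ := h'
  obtain rfl := t.sv _ _ _ _ h1 k1
  obtain rfl := t.sv _ _ _ _ h2 k2
  rw [← k3] at h3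
  cases ε <;> cases ε' <;> simp_all

theorem colT_ext {hκ : 0 < κ} {x : PN B Y} {ε : Bool} {β γ : κ.ord.ToType} (hβγ : β < γ)
    {r s : Two (x.prod (SS κ B hκ))} (h : colT ε β γ r.1 r.2.2) (hs : s ≤ r) :
    ∃ u ≤ s, colT ε β γ u.1 u.2.2 := by
  obtain ⟨h1, -, h2⟩ := hs
  obtain ⟨b2, hb2, Δ, h3⟩ := h2 s.1 le_rfl
  exact ⟨(b2, s.2), ⟨hb2, (x.prod (SS κ B hκ)).refl _ _⟩,
    colT_leD hβγ h (hb2.trans h1) Δ h3⟩

/-- **K12b.** The colouring (`Core.col`) from K10. -/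
theorem col_of (hP : Prep κ B) {Y : Type} {x : PN B Y} (hx : x.CDC κ)
    (hD : (DD κ B hP.reg.pos).CDC κ) :
    ∃ C : κ.ord.ToType → κ.ord.ToType → Set (Two (x.prod (SS κ B hP.reg.pos))),
      (∀ β γ, Reg (C β γ)) ∧
      ∀ H : κ.ord.ToType → Set (Two (x.prod (SS κ B hP.reg.pos))), (∀ γ, Reg (H γ)) → ∀ p₀,
      (∀ p ≤ p₀, ∀ μ, ∃ q ≤ p, ∃ γ, μ < γ ∧ q ∈ H γ) →
        (∃ p ≤ p₀, ∃ β γ, β < γ ∧ p ∈ H β ∧ p ∈ H γ ∧ p ∈ C β γ) ∧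
        (∃ p ≤ p₀, ∃ β γ, β < γ ∧ p ∈ H β ∧ p ∈ H γ ∧ p ∈ neg (C β γ)) := by
  refine ⟨fun β γ => cl {r | colT true β γ r.1 r.2.2}, fun β γ => reg_cl _, ?_⟩
  intro H hH p₀ hp₀
  constructor
  · obtain ⟨r, hr, β, γ, hβγ, h1, h2, h3⟩ :=
      no_homog hP hx hD (fun γ => (hH γ).lower) p₀ hp₀ true
    refine ⟨r, hr, β, γ, hβγ, h1, h2, fun q hq => ?_⟩
    obtain ⟨u, hu, h4⟩ := colT_ext hβγ h3 hq
    exact ⟨u, hu, h4⟩
  · obtain ⟨r, hr, β, γ, hβγ, h1, h2, h3⟩ :=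
      no_homog hP hx hD (fun γ => (hH γ).lower) p₀ hp₀ false
    refine ⟨r, hr, β, γ, hβγ, h1, h2, fun q hq hqC => ?_⟩
    obtain ⟨s, hs, h4⟩ := hqC q le_rfl
    obtain ⟨h5, -, h6⟩ := hs.trans hq
    obtain ⟨b2, hb2, Δ, h7⟩ := h6 s.1 le_rfl
    exact absurd (colT_inj (colT_leD hβγ h3 (hb2.trans h5) Δ h7) (colT_mono h4 hb2)) (by decide)

end

end Pool.Agent.Helper92.PR
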