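import Pool.Agent.Helper92.PR.It

/-!
# The tail of an iteration followed by a forced preorder
-/

open Cardinal Set

set_option linter.unusedSectionVars false

namespace Pool.Agent.Helper92.PR

section

variable {K : Type} [LinearOrder K] {o : K}

theorem cut_congr {S : Set K} {p q : K → K} (h : ∀ η ∈ S, p η = q η) : cut o S p = cut o S q := by
  funext η
  by_cases hη : η ∈ S
  · rw [cut_of_mem hη, cut_of_mem hη, h η hη]
  · rw [cut_of_not_mem hη, cut_of_not_mem hη]

namespace It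

variable (L : It o)

theorem ext' {p q : L.Cond} (h : ∀ η, p.1 η = q.1 η) : p = q := Subtype.ext (funext h)

theorem join_of_mem {S : LowerSet K} {r : (L.tr S).Cond} {τ : L.Cond} {η : K}
    (h : η ∈ (S : Set K)) : (L.join S r τ).1 η = r.1 η := if_pos h

theorem join_of_not_mem {S : LowerSet K} {r : (L.tr S).Cond} {τ : L.Cond} {η : K}
    (h : η ∉ (S : Set K)) : (L.join S r τ).1 η = τ.1 η := if_neg h

theorem Iio_sub {S : LowerSet K} {η : K} (h : η ∈ (S : Set K)) : Iio η ⊆ (S : Set K) :=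
  fun _ hζ => S.lower (le_of_lt hζ) h

/-- the order at a stage of `S` -/
theorem tr_rel {S : LowerSet K} {p q : (L.tr S).Cond} (h : p ≤ q) {η : K}
    (hη : η ∈ (S : Set K)) : (L.L η).rel (cut o (Iio η) p.1) (p.1 η) (q.1 η) := by
  have h1 : (trR o S L.L η).rel (cut o (Iio η) p.1) (p.1 η) (q.1 η) := h η
  rwa [trR_of_mem hη] at h1

theorem tr_le_of {S : LowerSet K} {p q : (L.tr S).Cond}
    (h : ∀ η ∈ (S : Set K), (L.L η).rel (cut o (Iio η) p.1) (p.1 η) (q.1 η)) : p ≤ q := by
  intro η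
  change (trR o S L.L η).rel (cut o (Iio η) p.1) (p.1 η) (q.1 η)
  by_cases hη : η ∈ (S : Set K)
  · rw [trR_of_mem hη]; exact h η hη
  · rw [trR_of_not_mem hη]; trivial

theorem rel_refl (p : L.Cond) (η : K) {u : K} (hu : u ∈ (L.L η).ν) :
    (L.L η).rel (cut o (Iio η) p.1) u u := (L.ok η).refl _ (okC_cut p.2 _) _ hu

theorem rel_mono {p q : L.Cond} (h : q ≤ p) {η : K} {u v : K} (hu : u ∈ (L.L η).ν)
    (hv : v ∈ (L.L η).ν) (h1 : (L.L η).rel (cut o (Iio η) p.1) u v) :
    (L.L η).rel (cut o (Iio η) q.1) u v :=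
  (L.ok η).mono _ _ (okC_cut p.2 _) (okC_cut q.2 _) (leR_cut' h η) _ hu _ hv h1

theorem emb_le {S : LowerSet K} {p q : (L.tr S).Cond} : L.emb S p ≤ L.emb S q ↔ p ≤ q := by
  constructor
  · intro h
    exact L.tr_le_of fun η _ => h η
  · intro h η
    by_cases hη : η ∈ (S : Set K)
    · exact L.tr_rel h hη
    · change (L.L η).rel (cut o (Iio η) p.1) (p.1 η) (q.1 η)
      rw [L.val_eq p hη, L.val_eq q hη]
      exact L.rel_refl (L.emb S p) η (L.ok η).mem

theorem cutC_mono {S : LowerSet K} {p q : L.Cond} (h : p ≤ q) : L.cutC S p ≤ L.cutC S q :=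
  leR_cut h S

theorem le_emb_cutC {S : LowerSet K} (p : L.Cond) : p ≤ L.emb S (L.cutC S p) := by
  intro η
  change (L.L η).rel (cut o (Iio η) p.1) (p.1 η) (cut o S p.1 η)
  by_cases hη : η ∈ (S : Set K)
  · rw [cut_of_mem hη]
    exact L.rel_refl p η (p.2.mem η)
  · rw [cut_of_not_mem hη]
    exact (L.ok η).top _ (okC_cut p.2 _) _ (p.2.mem η)

theorem join_le_left {S : LowerSet K} {q r : (L.tr S).Cond} (h : q ≤ r) (τ : L.Cond) :
    L.join S q τ ≤ L.join S r τ := by
  intro η
  by_cases hη : η ∈ (S : Set K)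
  · rw [L.join_of_mem hη, L.join_of_mem hη, cut_congr (q := q.1)]
    · exact L.tr_rel h hη
    · intro ζ hζ
      exact L.join_of_mem (Iio_sub hη hζ)
  · rw [L.join_of_not_mem hη, L.join_of_not_mem hη]
    exact L.rel_refl (L.join S q τ) η (τ.2.mem η)

theorem join_mono {S : LowerSet K} {q r : (L.tr S).Cond} (h : q ≤ r) {τ' τ : L.Cond}
    (h1 : L.join S r τ' ≤ L.join S r τ) : L.join S q τ' ≤ L.join S q τ := by
  intro η
  by_cases hη : η ∈ (S : Set K)
  · rw [L.join_of_mem hη, L.join_of_mem hη]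
    exact L.rel_refl (L.join S q τ') η ((L.emb S q).2.mem η)
  · rw [L.join_of_not_mem hη, L.join_of_not_mem hη]
    refine L.rel_mono (L.join_le_left h τ') (τ'.2.mem η) (τ.2.mem η) ?_
    have h2 := h1 η
    rwa [L.join_of_not_mem hη, L.join_of_not_mem hη] at h2

theorem join_cutC {S : LowerSet K} (p : L.Cond) : L.join S (L.cutC S p) p = p := by
  apply L.ext'
  intro η
  by_cases hη : η ∈ (S : Set K)
  · rw [L.join_of_mem hη]; exact cut_of_mem hη
  · rw [L.join_of_not_mem hη]

theorem cutC_join {S : LowerSet K} (r : (L.tr S).Cond) (τ : L.Cond) :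
    L.cutC S (L.join S r τ) = r := by
  apply (L.tr S).ext'
  intro η
  by_cases hη : η ∈ (S : Set K)
  · exact (cut_of_mem hη).trans (L.join_of_mem hη)
  · exact (cut_of_not_mem hη).trans (L.val_eq r hη).symm

theorem cutC_emb {S : LowerSet K} (r : (L.tr S).Cond) : L.cutC S (L.emb S r) = r := by
  apply (L.tr S).ext'
  intro η
  by_cases hη : η ∈ (S : Set K)
  · exact cut_of_mem hη
  · exact (cut_of_not_mem hη).trans (L.val_eq r hη).symm

theorem join_le {S : LowerSet K} {r : (L.tr S).Cond} {t : L.Cond} (h : r ≤ L.cutC S t) :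
    L.join S r t ≤ t := by
  have := L.join_le_left h t
  rwa [L.join_cutC] at this

theorem join_le_join {S : LowerSet K} {r r' : (L.tr S).Cond} {t τ : L.Cond}
    (h : t ≤ L.join S r τ) (h' : r' ≤ L.cutC S t) : L.join S r' t ≤ L.join S r' τ := by
  intro η
  by_cases hη : η ∈ (S : Set K)
  · rw [L.join_of_mem hη, L.join_of_mem hη]
    exact L.rel_refl (L.join S r' t) η ((L.emb S r').2.mem η)
  · rw [L.join_of_not_mem hη, L.join_of_not_mem hη]
    refine L.rel_mono (L.join_le h') (t.2.mem η) (τ.2.mem η) ?_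
    have h2 := h η
    rwa [L.join_of_not_mem hη] at h2

theorem join_dense {S : LowerSet K} {r : (L.tr S).Cond} {τ' τ : L.Cond}
    (h : ∀ q ≤ r, ∃ r' ≤ q, L.join S r' τ' ≤ L.join S r' τ) :
    L.join S r τ' ≤ L.join S r τ := by
  intro η
  by_cases hη : η ∈ (S : Set K)
  · rw [L.join_of_mem hη, L.join_of_mem hη]
    exact L.rel_refl (L.join S r τ') η ((L.emb S r).2.mem η)
  · rw [L.join_of_not_mem hη, L.join_of_not_mem hη]
    refine (L.ok η).dense _ (okC_cut (L.join S r τ').2 _) _ (τ'.2.mem η) _ (τ.2.mem η) ?_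
    intro t ht htp
    have hSη : ∀ ζ ∈ (S : Set K), ζ < η := fun ζ hζ => by
      by_contra hc
      exact hη (S.lower (not_lt.1 hc) hζ)
    let T : (L.tr (LowerSet.Iio η)).Cond := ⟨t, ht⟩
    let T' : L.Cond := L.emb _ T
    have hT : T ≤ L.cutC (LowerSet.Iio η) (L.join S r τ') := htp
    have hTr : ∀ ζ < η, (L.L ζ).rel (cut o (Iio ζ) T'.1) (T'.1 ζ) ((L.join S r τ').1 ζ) := by
      intro ζ hζ
      have h3 := L.tr_rel hT (η := ζ) hζ
      have h4 : (L.cutC (LowerSet.Iio η) (L.join S r τ')).1 ζ = (L.join S r τ').1 ζ :=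
        cut_of_mem (show ζ ∈ ((LowerSet.Iio η : LowerSet K) : Set K) from hζ)
      rw [h4] at h3
      exact h3
    have hq : L.cutC S T' ≤ r := by
      refine L.tr_le_of fun ζ hζ => ?_
      have h3 := hTr ζ (hSη ζ hζ)
      rw [L.join_of_mem hζ] at h3
      have h4 : (L.cutC S T').1 ζ = T'.1 ζ := cut_of_mem hζ
      have h5 : cut o (Iio ζ) (L.cutC S T').1 = cut o (Iio ζ) T'.1 := cut_cut (Iio_sub hζ) _
      rw [h4, h5]
      exact h3
    obtain ⟨r', hr', h6⟩ := h _ hq
    have h7 := h6 η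
    rw [L.join_of_not_mem hη, L.join_of_not_mem hη] at h7
    have h8 : L.join S r' T' ≤ T' := L.join_le hr'
    refine ⟨cut o (Iio η) (L.join S r' T').1, okC_cut (L.join S r' T').2 _, ?_, ?_⟩
    · have h9 := leR_cut' h8 η
      have h10 : cut o (Iio η) T'.1 = t := congrArg Subtype.val (L.cutC_emb T)
      rwa [h10] at h9
    · refine (L.ok η).mono _ _ (okC_cut (L.join S r' τ').2 _) (okC_cut (L.join S r' T').2 _) ?_ _
        (τ'.2.mem η) _ (τ.2.mem η) h7
      have h11 : L.cutC (LowerSet.Iio η) (L.join S r' T') ≤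
          L.cutC (LowerSet.Iio η) (L.join S r' τ') := by
        refine L.tr_le_of fun ζ hζ => ?_
        have hζ' : ζ < η := hζ
        have e1 : ∀ p : L.Cond, (L.cutC (LowerSet.Iio η) p).1 ζ = p.1 ζ := fun p => cut_of_mem hζ
        have e2 : ∀ p : L.Cond, cut o (Iio ζ) (L.cutC (LowerSet.Iio η) p).1 =
            cut o (Iio ζ) p.1 := fun p => cut_cut (Iio_sub hζ) _
        rw [e1, e1, e2]
        by_cases hS : ζ ∈ (S : Set K)
        · rw [L.join_of_mem hS, L.join_of_mem hS]
          exact L.rel_refl (L.join S r' T') ζ ((L.emb S r').2.mem ζ)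
        · rw [L.join_of_not_mem hS, L.join_of_not_mem hS]
          refine L.rel_mono h8 (T'.2.mem ζ) (τ'.2.mem ζ) ?_
          have h12 := hTr ζ hζ'
          rwa [L.join_of_not_mem hS] at h12
      exact h11

/-- the weakest condition -/
def one : L.Cond := ⟨fun _ => o, fun η => (L.ok η).mem, fun ξ hξ => by
  have h0 : Nonempty {η : K | (η : WithTop K) < ξ} := by
    rw [← Cardinal.mk_ne_zero_iff]
    exact (aleph0_pos.trans hξ.unc).ne'
  obtain ⟨β, hβ⟩ := h0
  exact ⟨β, hβ, fun _ _ _ => rfl⟩⟩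

theorem le_one (p : L.Cond) : p ≤ L.one := fun η =>
  (L.ok η).top _ (okC_cut p.2 _) _ (p.2.mem η)

/-- **The tail** of the iteration, followed by a forced preorder `s` over the iteration, as a forced
preorder over the iteration of the stages in `S` -/
noncomputable def comp (S : LowerSet K) {X : Type} (s : PN L.Cond X) :
    PN (L.tr S).Cond (L.Cond × X) where
  le r y z := L.join S r y.1 ≤ L.join S r z.1 ∧ s.le (L.join S r y.1) y.2 z.2
  top := (L.one, s.top)
  refl r y := ⟨le_rfl, s.refl _ _⟩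
  trans r y z w h1 h2 := ⟨h1.1.trans h2.1, s.trans _ _ _ _ h1.2 (s.mono _ _ _ _ h1.1 h2.2)⟩
  le_top r y := ⟨fun η => by
    by_cases hη : η ∈ (S : Set K)
    · rw [L.join_of_mem hη, L.join_of_mem hη]
      exact L.rel_refl (L.join S r y.1) η ((L.emb S r).2.mem η)
    · rw [L.join_of_not_mem hη, L.join_of_not_mem hη]
      exact (L.ok η).top _ (okC_cut (L.join S r y.1).2 _) _ (y.1.2.mem η), s.le_top _ _⟩
  mono p q y z h h1 := ⟨L.join_mono h h1.1, s.mono _ _ _ _ (L.join_le_left h _) h1.2⟩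
  dense p y z h := ⟨L.join_dense fun q hq => by
      obtain ⟨r, hr, h1⟩ := h q hq
      exact ⟨r, hr, h1.1⟩, s.dense _ _ _ fun t ht => by
      have h2 : L.cutC S t ≤ p := by
        have := L.cutC_mono (S := S) ht
        rwa [L.cutC_join] at this
      obtain ⟨r', hr', h3⟩ := h _ h2
      exact ⟨L.join S r' t, L.join_le hr', s.mono _ _ _ _ (L.join_le_join ht hr') h3.2⟩⟩

end It

end

end Pool.Agent.Helper92.PR
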