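import Pool.Agent.Helper92.PR.Code

/-!
# K9b: conditions which put `η` into `D` decide the colour
-/

open Cardinal Set

set_option linter.unusedSectionVars false

namespace Pool.Agent.Helper92.PR

section K9
variable {κ : Cardinal.{0}} {B : Type} [Preorder B] {I Kp : Type} [LinearOrder I]
  [WellFoundedLT I] {g : I → Kp → κ.ord.ToType → Set (Cn κ B I Kp)}

/-- **K9b.** If `r ≤ z` and `r` puts `η` into `D` then `r` belongs to `c ξ η i`. -/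
theorem inD_col (hκ : κ.IsRegular) (hg : GReg g) {α : I} {W : Code κ B I Kp}
    (hL : Live g α W)
    (c : Kp → κ.ord.ToType → Bool → Set (Two (QS hκ.pos hg ⊤)))
    (hc1 : ∀ ξ η i, Reg (c ξ η i)) (hc2 : ∀ ξ η r, ∃ s ≤ r, ∃ i, s ∈ c ξ η i)
    (hc3 : ∀ ξ η i i' r, r ∈ c ξ η i → r ∈ c ξ η i' → i = i')
    (hW1 : ∀ ξ η k, (W ξ η k).1 ∈ c ξ η (W ξ η k).2)
    (hW2 : ∀ ξ η, ∀ r : Two (QS hκ.pos hg ⊤), ∃ s ≤ r, ∃ k,
        s ≤ (show Two (QS hκ.pos hg ⊤) from (W ξ η k).1))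
    {z : Two (QS hκ.pos hg ⊤)} {ξ : Kp} {i : Bool} {ε : κ.ord.ToType}
    (hz1 : z.1 ∈ z.2.1.v (.inr (α, ξ)))
    (hz2 : ∀ d η, (z.2.1.v (.inl (α, d, η))).Nonempty → η < ε)
    (hz3 : ∀ η, ∀ r'', rD g α r'' z → r'' ∈ g α ξ η → r'' ∈ cD g α W ξ η i)
    {r : Two (QS hκ.pos hg ⊤)} (hr : r ≤ z) {η : κ.ord.ToType} (hη : inD α z.2.2 ε r η) :
    r ∈ c ξ η i := by
  obtain ⟨hε, d', hd1, hd2, hd3⟩ := hη
  obtain ⟨hr1, hr2, hr3⟩ := (QS_le_iff r z).1 hr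
  have h1 : (r.1, res α r.2.1, d') ∈ g α ξ η := by
    refine hr2.2 α (WithTop.coe_lt_top α) d' η r.1 le_rfl hd3 ?_ ξ
      ((z.2.1.reg _).lower _ hz1 _ hr1)
    intro b'' _ hb''
    exact absurd (hz2 d' η ⟨b'', hb''⟩) (not_lt.2 hε)
  have h2 : (r.1, res α r.2.1, d') ∈ cD g α W ξ η i := by
    refine hz3 η _ ⟨hr1, ?_, hd1⟩ h1
    exact leQ_res_left.2 (leQ_stage le_top hr2)
  by_contra hcon
  have h3 : ∃ r' ≤ r, ∀ r'' ≤ r', r'' ∉ c ξ η i := by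
    by_contra h3
    push Not at h3
    exact hcon ((hc1 ξ η i).dense r h3)
  obtain ⟨r', hr', h4⟩ := h3
  obtain ⟨s, hs, i', hi'⟩ := hc2 ξ η r'
  obtain ⟨r2, hr2s, k, hk⟩ := hW2 ξ η s
  have h5 : r2 ∈ c ξ η i' := (hc1 ξ η i').lower s hi' r2 hr2s
  have h6 : r2 ∈ c ξ η (W ξ η k).2 := (hc1 ξ η _).lower _ (hW1 ξ η k) r2 hk
  have h7 : (W ξ η k).2 = i' := hc3 ξ η _ _ r2 h6 h5
  have h8 : i' ≠ i := by
    rintro rfl
    exact h4 s hs hi'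
  obtain ⟨ha1, ha2, ha3⟩ := (QS_le_iff r2 r).1 ((hr2s.trans hs).trans hr')
  obtain ⟨hb1, hb2, hb3⟩ := (QS_le_iff r2 _).1 hk
  obtain ⟨b3, hb3', Δ, hΔ⟩ := leS_proj (leS_trans ha3 (leS_mono hd2 ha1))
  obtain ⟨r4, hr4, k', hk', hk''⟩ := h2 (b3, r2.2.1, act Δ r2.2.2) ⟨hb3'.trans ha1,
    leQ_res_right.2 (leQ_mono (leQ_stage le_top ha2) hb3'), hΔ⟩
  obtain ⟨hc4, hc5, hc6⟩ := hr4
  have h9 : rS g α r4 (W ξ η k).1 := by
    refine ⟨hc4.trans (hb3'.trans hb1), ?_, ?_⟩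
    · exact leQ_trans hg α hc5 (leQ_mono (leQ_mono (leQ_stage le_top hb2) hb3') hc4)
    · refine leS_trans (leS_of_leD hc6) (leS_trans (leS_act _ Δ _) ?_)
      exact leS_mono (leS_mono hb3 hb3') hc4
  have h10 := hL.con ξ η k' k r4 hk'' h9
  rw [hk', h7] at h10
  exact h8 h10.symm

end K9

end Pool.Agent.Helper92.PR
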