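import Pool.Agent.Helper92.PR.Code
import Pool.Agent.Helper96.Fc.Root

/-!
# K9a, K9c: the choice of the conditions for the rows, and of the members of `D`
-/

open Cardinal Set

set_option linter.unusedSectionVars false

namespace Pool.Agent.Helper92.PR

section K9
variable {κ : Cardinal.{0}} {B : Type} [Preorder B] {I Kp : Type} [LinearOrder I]
  [WellFoundedLT I] {g : I → Kp → κ.ord.ToType → Set (Cn κ B I Kp)}

open Classical in
/-- the condition which is `q1` below the stage `α`, `q0` from `α` on, with the additional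
coordinate `w0` -/
noncomputable def Row.mix (hκ : ℵ₀ ≤ κ) (α : WithTop I) (q1 q0 : Qc κ B I Kp)
    (w0 : Zq κ B I Kp) : Qc κ B I Kp where
  v w := if w = w0 then univ else if stg w < α then q1.v w else q0.v w
  reg w := by
    split_ifs
    · exact reg_univ
    · exact q1.reg w
    · exact q0.reg w
  small := by
    have h1 : {w : Zq κ B I Kp | (if w = w0 then (univ : Set B) else if stg w < α then q1.v w
        else q0.v w).Nonempty} ⊆ {w0} ∪ ({w | (q1.v w).Nonempty} ∪ {w | (q0.v w).Nonempty}) := by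
      intro w hw
      simp only [mem_ofPred_eq] at hw
      split_ifs at hw with h1 h2
      · exact Or.inl h1
      · exact Or.inr (Or.inl hw)
      · exact Or.inr (Or.inr hw)
    refine lt_of_le_of_lt (mk_le_mk_of_subset h1) (lt_of_le_of_lt (mk_union_le _ _) ?_)
    refine add_lt_of_lt hκ ?_ (lt_of_le_of_lt (mk_union_le _ _)
      (add_lt_of_lt hκ q1.small q0.small))
    rw [mk_singleton]
    exact one_lt_aleph0.trans_le hκ

theorem Row.mix_self (hκ : ℵ₀ ≤ κ) (α : WithTop I) (q1 q0 : Qc κ B I Kp)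
    (w0 : Zq κ B I Kp) : (Row.mix hκ α q1 q0 w0).v w0 = Set.univ := by
  simp [Row.mix]

theorem Row.mix_lt (hκ : ℵ₀ ≤ κ) {α : WithTop I} {q1 q0 : Qc κ B I Kp}
    {w0 w : Zq κ B I Kp} (hw0 : stg w0 = α) (hw : stg w < α) :
    (Row.mix hκ α q1 q0 w0).v w = q1.v w := by
  have h : w ≠ w0 := by
    rintro rfl
    exact absurd hw0 hw.ne
  simp [Row.mix, h, hw]

theorem Row.mix_ge (hκ : ℵ₀ ≤ κ) {α : WithTop I} {q1 q0 : Qc κ B I Kp}
    {w0 w : Zq κ B I Kp} (hw : ¬ stg w < α) (h : w ≠ w0) :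
    (Row.mix hκ α q1 q0 w0).v w = q0.v w := by
  simp [Row.mix, h, hw]

theorem Row.res_mix (hκ : ℵ₀ ≤ κ) {α β : WithTop I} {q1 q0 : Qc κ B I Kp}
    {w0 : Zq κ B I Kp} (hw0 : stg w0 = α) (hβ : β ≤ α) :
    res β (Row.mix hκ α q1 q0 w0) = res β q1 := by
  apply SN.ext'
  intro w
  by_cases hw : stg w < β
  · rw [res_v_of_lt hw, res_v_of_lt hw, Row.mix_lt hκ hw0 (hw.trans_le hβ)]
  · rw [res_v_of_not_lt hw, res_v_of_not_lt hw]

theorem Row.leQ_mix (hκ : ℵ₀ ≤ κ) {α : I} {q1 q0 : Qc κ B I Kp}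
    {w0 : Zq κ B I Kp} (hw0 : stg w0 = α) {b : B} (h : leQ g α b q1 q0)
    (H : ∀ d η, w0 = .inl (α, d, η) → ∀ b' ≤ b, ∀ ξ, b' ∈ q0.v (.inr (α, ξ)) →
      (b', res α q1, d) ∈ g α ξ η) : leQ g ⊤ b (Row.mix hκ α q1 q0 w0) q0 := by
  refine ⟨?_, ?_⟩
  · intro w _ b' hb' hw
    by_cases h1 : w = w0
    · rw [h1, Row.mix_self]
      trivial
    by_cases h2 : stg w < (α : WithTop I)
    · rw [Row.mix_lt hκ hw0 h2]
      exact h.1 w h2 b' hb' hw
    · rw [Row.mix_ge hκ h2 h1]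
      exact hw
  · intro β _ d η b' hb' h1 h2 ξ h3
    by_cases h4 : (.inl (β, d, η) : Zq κ B I Kp) = w0
    · have h5 : β = α := by
        rw [← h4] at hw0
        exact WithTop.coe_injective hw0
      subst h5
      rw [Row.res_mix hκ hw0 le_rfl]
      exact H d η h4.symm b' hb' ξ h3
    by_cases h5 : (β : WithTop I) < α
    · rw [Row.res_mix hκ hw0 h5.le]
      rw [Row.mix_lt hκ hw0 (show stg (.inl (β, d, η) : Zq κ B I Kp) < α from h5)] at h1
      exact h.2 β h5 d η b' hb' h1 h2 ξ h3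
    · rw [Row.mix_ge hκ (show ¬ stg (.inl (β, d, η) : Zq κ B I Kp) < α from h5) h4] at h1
      exact absurd h1 (h2 b' le_rfl)

/-- **K9a.** The choice of the condition `z ξ` for the row `ξ`. -/
theorem exists_row (hκ : κ.IsRegular) (hg : GReg g) {α : I} {W : Code κ B I Kp}
    (hG : SGood g α W (g α)) (r₀ : Two (QS hκ.pos hg ⊤)) (ξ : Kp) :
    ∃ z ≤ r₀, ∃ (i : Bool) (ε : κ.ord.ToType),
      z.1 ∈ z.2.1.v (.inr (α, ξ)) ∧
      (∀ d η, (z.2.1.v (.inl (α, d, η))).Nonempty → η < ε) ∧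
      ∀ η, ∀ r'', rD g α r'' z → r'' ∈ g α ξ η → r'' ∈ cD g α W ξ η i := by
  obtain ⟨r', hr', i, hi⟩ := hG.side r₀ ξ
  obtain ⟨h1, h2, h3⟩ := hr'
  have hw0 : stg (.inr (α, ξ) : Zq κ B I Kp) = (α : WithTop I) := rfl
  set qz := Row.mix hκ.aleph0_le α r'.2.1 r₀.2.1 (.inr (α, ξ)) with hqz
  have hne : Nonempty κ.ord.ToType := by
    rw [← mk_ne_zero_iff, mk_ord_toType]
    exact hκ.pos.ne'
  -- a bound of the stem
  obtain ⟨ε, hε⟩ := Pool.Agent.Helper96.Fc.exists_bound hκ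
    (B := {w // (r₀.2.1.v w).Nonempty}) r₀.2.1.small
    (fun w => Sum.elim (fun w => w.2.2) (fun _ => Classical.choice hne) w.1)
  refine ⟨(r'.1, (qz, r'.2.2)), ?_, i, ε, ?_, ?_, ?_⟩
  · refine (QS_le_iff _ _).2 ⟨h1, ?_, leS_of_leD h3⟩
    refine Row.leQ_mix hκ.aleph0_le hw0 h2 ?_
    intro d η h4
    exact absurd h4 (by simp)
  · show r'.1 ∈ qz.v (.inr (α, ξ))
    rw [hqz, Row.mix_self]
    trivial
  · intro d η h4
    have h5 : (qz.v (.inl (α, d, η))) = r₀.2.1.v (.inl (α, d, η)) :=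
      Row.mix_ge hκ.aleph0_le (lt_irrefl _) (by simp)
    have h6 : (qz.v (.inl (α, d, η))).Nonempty := h4
    rw [h5] at h6
    exact hε ⟨_, h6⟩
  · intro η r'' hr'' h4
    refine hi η r'' ?_ h4
    obtain ⟨h5, h6, h7⟩ := hr''
    refine ⟨h5, ?_, h7⟩
    rw [← leQ_res_right] at h6 ⊢
    have h8 : res (α : WithTop I) qz = res α r'.2.1 := Row.res_mix hκ.aleph0_le hw0 le_rfl
    rw [← h8]
    exact h6

/-- **K9c.** Unboundedness of `D`. -/
theorem inD_unbdd (hκ : κ.IsRegular) (hg : GReg g) {α : I} {W : Code κ B I Kp}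
    (hG : SGood g α W (g α)) (d : Tt κ B) (ε : κ.ord.ToType) (r : Two (QS hκ.pos hg ⊤))
    (hr : leS r.1 r.2.2 d) (μ : κ.ord.ToType) :
    ∃ r' ≤ r, ∃ η, μ < η ∧ inD α d ε r' η := by
  obtain ⟨b2, hb2, Δ, hΔ⟩ := leS_proj hr
  have hX : #{ξ : Kp | (r.2.1.v (.inr (α, ξ))).Nonempty} < κ := by
    refine lt_of_le_of_lt ?_ r.2.1.small
    refine mk_le_of_injective (f := fun ξ => ⟨.inr (α, ξ.1), ξ.2⟩) ?_
    intro ξ ξ' h
    simp only [Subtype.mk.injEq, Sum.inr.injEq, Prod.mk.injEq, true_and] at h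
    exact Subtype.ext h
  obtain ⟨r', hr', η, hη, hη'⟩ := hG.unbdd (b2, r.2.1, act Δ r.2.2) _ hX (max μ ε)
  obtain ⟨h1, h2, h3⟩ := hr'
  have hw0 : stg (.inl (α, r'.2.2, η) : Zq κ B I Kp) = (α : WithTop I) := rfl
  refine ⟨(r'.1, (Row.mix hκ.aleph0_le α r'.2.1 r.2.1 (.inl (α, r'.2.2, η)), r'.2.2)), ?_, η,
    (le_max_left _ _).trans_lt hη, (le_max_right _ _).trans hη.le, r'.2.2, ?_, ?_, ?_⟩
  · refine (QS_le_iff _ _).2 ⟨h1.trans hb2, ?_, ?_⟩
    · refine Row.leQ_mix hκ.aleph0_le hw0 h2 ?_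
      intro d1 η1 h4 b' hb' ξ h5
      simp only [Sum.inl.injEq, Prod.mk.injEq, true_and] at h4
      obtain ⟨rfl, rfl⟩ := h4
      refine hG.lower ξ η r' (hη' ξ ⟨b', h5⟩) _ ⟨hb', leQ_res_left.2 (leQ_refl _ _ _),
        leD_refl _ _⟩
    · exact leS_trans (leS_of_leD h3) (leS_act _ Δ _)
  · exact leD_trans h3 (leD_mono hΔ h1)
  · exact leS_of_leD (leD_refl _ _)
  · show r'.1 ∈ (Row.mix hκ.aleph0_le α r'.2.1 r.2.1 (.inl (α, r'.2.2, η))).v _
    rw [Row.mix_self]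
    trivial

end K9

end Pool.Agent.Helper92.PR
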