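import Pool.Agent.Helper92.PR.Base
import Pool.Agent.Helper96.Fc.Root

/-!
# Block K8 (helper18): unboundedly many conditions in the generic set
-/

open Cardinal Set

set_option linter.unusedSectionVars false

namespace Pool.Agent.Helper92.PR

/-- Maximal antichains inside a set of conditions. -/
theorem exists_max_antichain {P : Type} [Preorder P] (Z : Set P) :
    ∃ W ⊆ Z, (∀ p ∈ W, ∀ q ∈ W, p ≠ q → ¬ ∃ r, r ≤ p ∧ r ≤ q) ∧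
      ∀ z ∈ Z, ∃ w ∈ W, ∃ r, r ≤ z ∧ r ≤ w := by
  obtain ⟨W, hW⟩ := zorn_subset {W : Set P | W ⊆ Z ∧
    ∀ p ∈ W, ∀ q ∈ W, p ≠ q → ¬ ∃ r, r ≤ p ∧ r ≤ q} (by
    intro c hc hchain
    refine ⟨⋃₀ c, ⟨sUnion_subset fun W hW => (hc hW).1, ?_⟩, fun W hW => subset_sUnion_of_mem hW⟩
    intro p hp q hq hpq
    obtain ⟨W1, h1, hp1⟩ := hp
    obtain ⟨W2, h2, hq2⟩ := hq
    rcases hchain.total h1 h2 with h | h
    · exact (hc h2).2 p (h hp1) q hq2 hpq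
    · exact (hc h1).2 p hp1 q (h hq2) hpq)
  refine ⟨W, hW.prop.1, hW.prop.2, fun z hz => ?_⟩
  by_contra hcon
  push Not at hcon
  have h1 : insert z W ∈ {W : Set P | W ⊆ Z ∧
      ∀ p ∈ W, ∀ q ∈ W, p ≠ q → ¬ ∃ r, r ≤ p ∧ r ≤ q} := by
    refine ⟨insert_subset hz hW.prop.1, ?_⟩
    intro p hp q hq hpq
    rcases hp with rfl | hp
    · rcases hq with rfl | hq
      · exact absurd rfl hpq
      · rintro ⟨r, hr1, hr2⟩
        exact hcon q hq r hr1 hr2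
    · rcases hq with rfl | hq
      · rintro ⟨r, hr1, hr2⟩
        exact hcon p hp r hr2 hr1
      · exact hW.prop.2 p hp q hq hpq
  have h2 : z ∈ W := hW.le_of_ge h1 (subset_insert z W) (mem_insert z W)
  exact hcon z h2 z le_rfl le_rfl

section K8
variable {κ : Cardinal.{0}}

/-- **K8.** -/
theorem exists_unbdd {P : Type} [Preorder P] (hκ : ℵ₀ ≤ κ) (hcc : CC P (Order.succ κ))
    (Ξ : Set (Order.succ κ).ord.ToType) (hΞ : ∀ β, ∃ ξ ∈ Ξ, β < ξ)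
    (z : (Order.succ κ).ord.ToType → P) (p₀ : P) (hz : ∀ ξ ∈ Ξ, z ξ ≤ p₀) :
    ∃ p ≤ p₀, ∀ q ≤ p, ∀ β, ∃ r ≤ q, ∃ ξ ∈ Ξ, β < ξ ∧ r ≤ z ξ := by
  by_contra hcon
  push Not at hcon
  obtain ⟨W, hWZ, hanti, hmax⟩ := exists_max_antichain
    {q : P | ∃ β, ∀ r ≤ q, ∀ ξ ∈ Ξ, β < ξ → ¬ r ≤ z ξ}
  have hW : #W < Order.succ κ := hcc W hanti
  choose f hf using hWZ
  obtain ⟨β, hβ⟩ := Pool.Agent.Helper96.Fc.exists_bound (Cardinal.isRegular_succ hκ) hW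
    (fun w : W => f w.2)
  obtain ⟨ξ, hξ, hβξ⟩ := hΞ β
  obtain ⟨q, hq, β', hq'⟩ := hcon (z ξ) (hz ξ hξ)
  obtain ⟨w, hw, r, hr1, hr2⟩ := hmax q ⟨β', fun r hr ξ hξ h => hq' r hr ξ hξ h⟩
  exact hf hw r hr2 ξ hξ ((hβ ⟨w, hw⟩).trans hβξ) (hr1.trans hq)

end K8

end Pool.Agent.Helper92.PR
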