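import Pool.Agent.Helper92.PR.Live
import Pool.Agent.Helper92.PR.Row
import Pool.Agent.Helper92.PR.InD
import Pool.Agent.Helper92.PR.Unb

/-!
# The positive relation
-/

open Cardinal Set

set_option linter.unusedSectionVars false
set_option linter.unusedVariables false

namespace Pool.Agent.Helper92.PR

/-- a function from `κ⁺` to a set of size at most `κ` is constant on an unbounded set -/
theorem exists_unbdd_fibre {κ : Cardinal.{0}} (hκ : ℵ₀ ≤ κ) {V : Type} (hV : #V ≤ κ)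
    (f : (Order.succ κ).ord.ToType → V) :
    ∃ v, ∀ β, ∃ ξ, f ξ = v ∧ β < ξ := by
  by_contra hcon
  push Not at hcon
  choose b hb using hcon
  have hreg : (Order.succ κ).IsRegular := isRegular_succ hκ
  obtain ⟨k, hk⟩ := Helper96.Fc.exists_bound hreg (Order.lt_succ_iff.2 hV) b
  exact absurd (hk (f k)) (not_lt.2 (hb (f k) k rfl))

theorem inD_lower {κ : Cardinal.{0}} {B : Type} [Preorder B] {I Kp : Type} [LinearOrder I]
    [WellFoundedLT I] {g : I → Kp → κ.ord.ToType → Set (Cn κ B I Kp)}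
    (hκ : κ.IsRegular) (hg : GReg g) {α : I} {d : Tt κ B} {ε : κ.ord.ToType}
    {r r' : Two (QS hκ.pos hg ⊤)} {η : κ.ord.ToType} (h : inD α d ε r η) (hr : r' ≤ r) :
    inD α d ε r' η := by
  obtain ⟨h1, d', h2, h3, h4⟩ := h
  obtain ⟨h5, h6, h7⟩ := (QS_le_iff _ _).1 hr
  refine ⟨h1, d', leD_mono h2 h5, leS_trans h7 (leS_mono h3 h5), ?_⟩
  exact h6.1 _ (WithTop.coe_lt_top _) _ le_rfl ((r.2.1.reg _).lower _ h4 _ h5)

section K12
variable {κ : Cardinal.{0}} {B : Type} [Preorder B] {I Kp : Type} [LinearOrder I]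
  [WellFoundedLT I] {g : I → Kp → κ.ord.ToType → Set (Cn κ B I Kp)}

/-- **K12a.** The positive relation (`Core.pos`) from K3, K7, K8, K9. -/
theorem pos_of (hP : Prep κ B) (hne : Nonempty B) {θ : Cardinal.{0}} (hθ : θ.IsRegular)
    (hκθ : Order.succ κ < θ)
    (e : θ.ord.ToType → Code κ B θ.ord.ToType (Order.succ κ).ord.ToType)
    (he : ∀ W α₀, ∃ α, α₀ ≤ α ∧ e α = W)
    {g : θ.ord.ToType → (Order.succ κ).ord.ToType → κ.ord.ToType →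
      Set (Cn κ B θ.ord.ToType (Order.succ κ).ord.ToType)} (hg : GReg g)
    (hgood : ∀ α : θ.ord.ToType, Live g α (e α) → SGood g α (e α) (g α))
    (hT : #(Tt κ B) ≤ κ) (hcc : CC (Two (QS hP.reg.pos hg ⊤)) (Order.succ κ))
    (c : (Order.succ κ).ord.ToType → κ.ord.ToType → Set (Two (QS hP.reg.pos hg ⊤)))
    (hc : ∀ ξ η, Reg (c ξ η)) (p₀ : Two (QS hP.reg.pos hg ⊤)) :
    ∃ p ≤ p₀, ∃ (A : (Order.succ κ).ord.ToType → Set (Two (QS hP.reg.pos hg ⊤)))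
      (D : κ.ord.ToType → Set (Two (QS hP.reg.pos hg ⊤))),
      (∀ ξ, Reg (A ξ)) ∧ (∀ η, Reg (D η)) ∧
      (∀ q ≤ p, ∀ ξ₀, ∃ r ≤ q, ∃ ξ, ξ₀ < ξ ∧ r ∈ A ξ) ∧
      (∀ q ≤ p, ∀ η₀, ∃ r ≤ q, ∃ η, η₀ < η ∧ r ∈ D η) ∧
      ((∀ ξ η, ∀ q ≤ p, q ∈ A ξ → q ∈ D η → q ∈ c ξ η) ∨
        (∀ ξ η, ∀ q ≤ p, q ∈ A ξ → q ∈ D η → q ∈ neg (c ξ η))) := by
  have hκ : κ.IsRegular := hP.reg
  have hinf : ℵ₀ ≤ κ := hP.unc.le
  -- the colouring
  let cc : (Order.succ κ).ord.ToType → κ.ord.ToType → Bool → Set (Two (QS hP.reg.pos hg ⊤)) :=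
    fun ξ η i => if i = true then c ξ η else neg (c ξ η)
  have hct : ∀ ξ η, cc ξ η true = c ξ η := fun ξ η => by simp [cc]
  have hcf : ∀ ξ η, cc ξ η false = neg (c ξ η) := fun ξ η => by simp [cc]
  have hc1 : ∀ ξ η i, Reg (cc ξ η i) := by
    intro ξ η i
    cases i
    · rw [hcf]; exact reg_neg (hc ξ η).lower
    · rw [hct]; exact hc ξ η
  have hc2 : ∀ ξ η r, ∃ s ≤ r, ∃ i, s ∈ cc ξ η i := by
    intro ξ η r
    by_cases h : ∃ s ≤ r, s ∈ c ξ η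
    · obtain ⟨s, hs, hs'⟩ := h
      exact ⟨s, hs, true, by rw [hct]; exact hs'⟩
    · push Not at h
      exact ⟨r, le_rfl, false, by rw [hcf]; exact h⟩
  have hc3 : ∀ ξ η i i' r, r ∈ cc ξ η i → r ∈ cc ξ η i' → i = i' := by
    intro ξ η i i' r h h'
    cases i <;> cases i'
    · rfl
    · rw [hcf] at h; rw [hct] at h'; exact absurd h' (h r le_rfl)
    · rw [hct] at h; rw [hcf] at h'; exact absurd h (h' r le_rfl)
    · rfl
  -- the code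
  obtain ⟨W, hW1, hW2⟩ := exists_code hP.reg hg hcc hne cc hc1 hc2
  obtain ⟨α₀, hα₀⟩ := exists_bdd hP.reg hθ ((Order.lt_succ κ).trans hκθ)
    (by rw [mk_ord_toType]; exact hκθ) W
  obtain ⟨α, hα, rfl⟩ := he W α₀
  have hL : Live g α (e α) := live_of_bdd hP.reg hg cc hc1 hc3 _ hW1 hW2 α₀ α hα hα₀
  have hG := hgood α hL
  -- the rows
  choose z hz1 i ε hz2 hz3 hz4 using fun ξ => exists_row hP.reg hg hG p₀ ξ
  have hV : #(Bool × (κ.ord.ToType × Tt κ B)) ≤ κ := by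
    simp only [mk_prod, Cardinal.lift_id, mk_ord_toType]
    refine (mul_le_mul' ((mk_le_aleph0 (α := Bool)).trans hinf) (mul_le_mul' le_rfl hT)).trans ?_
    rw [mul_eq_self hinf, mul_eq_self hinf]
  obtain ⟨⟨i0, ε0, d0⟩, hfib⟩ := exists_unbdd_fibre hinf hV
    (fun ξ => (i ξ, ε ξ, (z ξ).2.2))
  set Ξ : Set (Order.succ κ).ord.ToType := {ξ | (i ξ, ε ξ, (z ξ).2.2) = (i0, ε0, d0)} with hΞ
  obtain ⟨p, hp, hp'⟩ := exists_unbdd hinf hcc Ξ hfib z p₀ (fun ξ _ => hz1 ξ)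
  refine ⟨p, hp, fun ξ => cl {r | ξ ∈ Ξ ∧ r ≤ z ξ}, fun η => cl {r | inD α d0 ε0 r η},
    fun ξ => reg_cl _, fun η => reg_cl _, ?_, ?_, ?_⟩
  · intro q hq ξ₀
    obtain ⟨r, hr, ξ, hξ, hξ', hr'⟩ := hp' q hq ξ₀
    exact ⟨r, hr, ξ, hξ', fun q' hq' => ⟨q', le_rfl, hξ, hq'.trans hr'⟩⟩
  · intro q hq η₀
    obtain ⟨ξ0⟩ : Nonempty (Order.succ κ).ord.ToType := by
      rw [← mk_ne_zero_iff, mk_ord_toType]
      exact (isRegular_succ hinf).pos.ne'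
    obtain ⟨r, hr, ξ, hξ, -, hr'⟩ := hp' q hq ξ0
    have hd : (z ξ).2.2 = d0 := by
      have := hξ
      rw [hΞ, mem_ofPred_eq] at this
      exact (Prod.ext_iff.1 (Prod.ext_iff.1 this).2).2
    have hS : leS r.1 r.2.2 d0 := by
      rw [← hd]
      exact ((QS_le_iff _ _).1 hr').2.2
    obtain ⟨r', hr1, η, hη, hη'⟩ := inD_unbdd hP.reg hg hG d0 ε0 r hS η₀
    exact ⟨r', hr1.trans hr, η, hη, fun q' hq' => ⟨q', le_rfl, inD_lower hP.reg hg hη' hq'⟩⟩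
  · have key : ∀ ξ η, ∀ q, q ∈ cl {r | ξ ∈ Ξ ∧ r ≤ z ξ} →
        q ∈ cl {r : Two (QS hP.reg.pos hg ⊤) | inD α d0 ε0 r η} → q ∈ cc ξ η i0 := by
      intro ξ η q h1 h2
      refine (hc1 ξ η i0).dense q fun q' hq' => ?_
      obtain ⟨r, hr, hξ, hr'⟩ := h1 q' hq'
      obtain ⟨s, hs, hs'⟩ := h2 r (hr.trans hq')
      have hξ2 := hξ
      rw [hΞ, mem_ofPred_eq] at hξ2
      have e1 : i ξ = i0 := (Prod.ext_iff.1 hξ2).1
      have e2 : ε ξ = ε0 := (Prod.ext_iff.1 (Prod.ext_iff.1 hξ2).2).1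
      have e3 : (z ξ).2.2 = d0 := (Prod.ext_iff.1 (Prod.ext_iff.1 hξ2).2).2
      refine ⟨s, hs.trans hr, ?_⟩
      rw [← e1]
      refine inD_col hP.reg hg hL cc hc1 hc2 hc3 hW1 hW2 (hz2 ξ) (hz3 ξ) (hz4 ξ)
        (hs.trans hr') (η := η) ?_
      rw [e2, e3]
      exact hs'
    cases hi0 : i0
    · right
      intro ξ η q _ h1 h2
      have := key ξ η q h1 h2
      rwa [hi0, hcf] at this
    · left
      intro ξ η q _ h1 h2
      have := key ξ η q h1 h2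
      rwa [hi0, hct] at this

end K12

end Pool.Agent.Helper92.PR
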