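import Pool.Agent.Helper92.PR.Code

/-!
# Block K6 (helper18): the recursive choice of `g`
-/

open Cardinal Set

set_option linter.unusedSectionVars false

namespace Pool.Agent.Helper92.PR

section K6
variable {κ : Cardinal.{0}} {B : Type} [Preorder B] {I Kp : Type} [LinearOrder I]
  [WellFoundedLT I]

/-- **K6a.** -/
theorem leQ_congr {g g' : I → Kp → κ.ord.ToType → Set (Cn κ B I Kp)} {α : WithTop I}
    (h : ∀ β : I, (β : WithTop I) < α → g β = g' β) : leQ g α = leQ g' α := by
  funext b q' q
  apply propext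
  unfold leQ
  constructor
  · rintro ⟨h1, h2⟩
    refine ⟨h1, fun β hβ d η b' hb' h3 h4 ξ h5 => ?_⟩
    rw [← h β hβ]
    exact h2 β hβ d η b' hb' h3 h4 ξ h5
  · rintro ⟨h1, h2⟩
    refine ⟨h1, fun β hβ d η b' hb' h3 h4 ξ h5 => ?_⟩
    rw [h β hβ]
    exact h2 β hβ d η b' hb' h3 h4 ξ h5

theorem rD_congr {g g' : I → Kp → κ.ord.ToType → Set (Cn κ B I Kp)} {α : WithTop I}
    (h : ∀ β : I, (β : WithTop I) < α → g β = g' β) : rD g α = rD g' α := by
  funext r' r
  unfold rD
  rw [leQ_congr h]

theorem rS_congr {g g' : I → Kp → κ.ord.ToType → Set (Cn κ B I Kp)} {α : WithTop I}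
    (h : ∀ β : I, (β : WithTop I) < α → g β = g' β) : rS g α = rS g' α := by
  funext r' r
  unfold rS
  rw [leQ_congr h]

theorem Live_congr {g g' : I → Kp → κ.ord.ToType → Set (Cn κ B I Kp)} {α : WithTop I}
    (h : ∀ β : I, (β : WithTop I) < α → g β = g' β) {W : Code κ B I Kp} (hL : Live g α W) :
    Live g' α W := by
  constructor
  · rw [← rS_congr h]; exact hL.dense
  · rw [← rS_congr h]; exact hL.con

theorem SGood_congr {g g' : I → Kp → κ.ord.ToType → Set (Cn κ B I Kp)} {α : I}
    (h : ∀ β : I, (β : WithTop I) < α → g β = g' β) {W : Code κ B I Kp}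
    {G : Kp → κ.ord.ToType → Set (Cn κ B I Kp)} (hL : SGood g α W G) :
    SGood g' α W G := by
  have hcD : cD g (α : WithTop I) = cD g' (α : WithTop I) := by
    funext W ξ η i
    unfold cD
    rw [rD_congr h, rS_congr h]
  constructor
  · rw [← rD_congr h]; exact hL.lower
  · rw [← rD_congr h]; exact hL.dense
  · rw [← rD_congr h]; exact hL.unbdd
  · rw [← rD_congr h, ← hcD]; exact hL.side

open Classical in
/-- **K6b.** -/
theorem exists_g (e : I → Code κ B I Kp)
    (hstage : ∀ g : I → Kp → κ.ord.ToType → Set (Cn κ B I Kp), GReg g → ∀ α : I,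
      Live g α (e α) → ∃ G, SGood g α (e α) G) :
    ∃ g : I → Kp → κ.ord.ToType → Set (Cn κ B I Kp), GReg g ∧
      ∀ α : I, Live g α (e α) → SGood g α (e α) (g α) := by
  have hwf : WellFounded ((· < ·) : I → I → Prop) := wellFounded_lt
  -- the recursion step
  let step : (α : I) → ((β : I) → β < α → Kp → κ.ord.ToType → Set (Cn κ B I Kp)) →
      Kp → κ.ord.ToType → Set (Cn κ B I Kp) := fun α rec =>
    if h : ∃ G, SGood (fun β => if hβ : β < α then rec β hβ else fun _ _ => univ) α (e α) G
    then h.choose else fun _ _ => univ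
  obtain ⟨g, hg⟩ : ∃ g : I → Kp → κ.ord.ToType → Set (Cn κ B I Kp),
      ∀ α, g α = step α (fun β _ => g β) := ⟨hwf.fix step, fun α => hwf.fix_eq step α⟩
  -- truncations of `g`
  let tr : I → I → Kp → κ.ord.ToType → Set (Cn κ B I Kp) := fun α β =>
    if β < α then g β else fun _ _ => univ
  have htr : ∀ α, (fun β => if hβ : β < α then g β else fun _ _ => univ) = tr α := by
    intro α
    funext β
    simp only [tr]
    split_ifs <;> rfl
  have htr2 : ∀ α β : I, (β : WithTop I) < (α : WithTop I) → tr α β = g β := by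
    intro α β h
    have h' : β < α := WithTop.coe_lt_coe.1 h
    simp only [tr, if_pos h']
  have hg1 : ∀ α, (∃ G, SGood (tr α) α (e α) G) → SGood (tr α) α (e α) (g α) := by
    intro α h
    have h' : ∃ G, SGood (fun β => if hβ : β < α then g β else fun _ _ => univ) α (e α) G := by
      rw [htr]; exact h
    have h2 : g α = h'.choose := by
      rw [hg α]
      exact dif_pos h'
    rw [h2]
    have h3 := h'.choose_spec
    have h4 : SGood (tr α) α (e α) h'.choose := by
      have h5 := htr α
      exact h5 ▸ h3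
    exact h4
  have hg2 : ∀ α, (¬ ∃ G, SGood (tr α) α (e α) G) → g α = fun _ _ => Set.univ := by
    intro α h
    have h' : ¬ ∃ G, SGood (fun β => if hβ : β < α then g β else fun _ _ => univ) α (e α) G := by
      rw [htr]; exact h
    rw [hg α]
    exact dif_neg h'
  have hreg : GReg g := by
    intro β ξ η
    by_cases h : ∃ G, SGood (tr β) β (e β) G
    · have h1 := SGood_congr (htr2 β) (hg1 β h)
      exact ⟨h1.lower ξ η, h1.dense ξ η⟩
    · rw [hg2 β h]
      exact ⟨fun _ _ _ _ => trivial, fun _ _ => trivial⟩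
  refine ⟨g, hreg, fun α hL => ?_⟩
  have hregα : GReg (tr α) := by
    intro β ξ η
    by_cases hβ : β < α
    · have h1 : rD (tr α) (β : WithTop I) = rD g β := by
        apply rD_congr
        intro γ hγ
        apply htr2
        exact hγ.trans (WithTop.coe_lt_coe.2 hβ)
      have h2 : tr α β = g β := htr2 α β (WithTop.coe_lt_coe.2 hβ)
      rw [h1, h2]
      exact hreg β ξ η
    · have h2 : tr α β = fun _ _ => Set.univ := by simp only [tr, if_neg hβ]
      rw [h2]
      exact ⟨fun _ _ _ _ => trivial, fun _ _ => trivial⟩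
  have h3 := hstage (tr α) hregα α (Live_congr (fun β hβ => (htr2 α β hβ).symm) hL)
  exact SGood_congr (htr2 α) (hg1 α h3)

end K6

end Pool.Agent.Helper92.PR
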