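import Pool.Agent.Helper92.PR.Q
import Pool.Agent.Helper92.PR.Code
import Pool.Agent.Helper96.Fc.Card

/-!
# Cardinalities
-/

open Cardinal Set

set_option linter.unusedSectionVars false

namespace Pool.Agent.Helper92.PR

/-- the number of the small subsets -/
theorem mk_small_sets_le {κ θ : Cardinal.{0}} (hκ : ℵ₀ ≤ κ) (hκθ : κ ≤ θ)
    (hθ : ∀ a < κ, θ ^ a ≤ θ) {Z : Type} (hZ : #Z ≤ θ) : #{t : Set Z // #t < κ} ≤ θ := by
  have hex : ∀ t : {t : Set Z // #t < κ}, ∃ k : κ.ord.ToType, #(Iio k) = #t.1 := fun t =>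
    Pool.Agent.Helper96.Fc.exists_Iio_eq t.2
  choose k hk using hex
  have hinf : ℵ₀ ≤ θ := hκ.trans hκθ
  have h1 : #{t : Set Z // #t < κ} ≤ #(Σ k : κ.ord.ToType, {t : Set Z // #t ≤ #(Iio k)}) := by
    refine mk_le_of_injective (f := fun t => ⟨k t, ⟨t.1, (hk t).ge⟩⟩) ?_
    intro s t hst
    simp only [Sigma.mk.injEq] at hst
    obtain ⟨h5, h6⟩ := hst
    have h7 : ∀ (k k' : κ.ord.ToType) (x : {t : Set Z // #t ≤ #(Iio k)})
        (y : {t : Set Z // #t ≤ #(Iio k')}), k = k' → HEq x y → x.1 = y.1 := by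
      rintro k _ x y rfl hxy
      rw [eq_of_heq hxy]
    exact Subtype.ext (h7 _ _ _ _ h5 h6)
  refine h1.trans ?_
  rw [mk_sigma]
  refine (sum_le_sum _ (fun _ => θ) ?_).trans ?_
  · intro k
    refine (mk_bounded_set_le Z #(Iio k)).trans ?_
    refine (power_le_power_right (max_le hZ hinf)).trans ?_
    exact hθ _ (by simpa using mk_Iio_toType_ord_lt k)
  · rw [sum_const', mk_ord_toType]
    exact (mul_le_mul_left hκθ θ).trans (mul_eq_self hinf).le

section K3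
variable {κ : Cardinal.{0}} {B : Type} [Preorder B]

theorem Prep.pow_le (hP : Prep κ B) : ∀ a < κ, κ ^ a ≤ κ := by
  intro a ha
  refine Pool.Agent.Helper96.Fc.regular_pow_le hP.reg ha ?_
  intro b hb
  refine (power_le_power_right (cantor b).le).trans ?_
  rw [← power_mul]
  exact (hP.lim _ (mul_lt_of_lt hP.reg.aleph0_le hb ha)).le

/-- maximal antichains -/
theorem exists_max_anti {A : Set B} (hA : ∀ p ∈ A, ∀ q ≤ p, q ∈ A) :
    ∃ W : Set B, W ⊆ A ∧ (∀ p ∈ W, ∀ q ∈ W, p ≠ q → ¬ ∃ r, r ≤ p ∧ r ≤ q) ∧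
      ∀ p ∈ A, ∃ r ≤ p, ∃ w ∈ W, r ≤ w := by
  obtain ⟨W, hW⟩ := zorn_subset
    {W : Set B | W ⊆ A ∧ ∀ p ∈ W, ∀ q ∈ W, p ≠ q → ¬ ∃ r, r ≤ p ∧ r ≤ q} (by
      intro c hc hch
      refine ⟨⋃₀ c, ⟨?_, ?_⟩, fun s hs => subset_sUnion_of_mem hs⟩
      · exact sUnion_subset fun s hs => (hc hs).1
      · rintro p ⟨s, hs, hp⟩ q ⟨t, ht, hq⟩ hpq
        rcases hch.total hs ht with h | h
        · exact (hc ht).2 p (h hp) q hq hpq
        · exact (hc hs).2 p hp q (h hq) hpq)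
  refine ⟨W, hW.prop.1, hW.prop.2, ?_⟩
  intro p hp
  by_contra hcon
  push Not at hcon
  have hins : insert p W ∈
      {W : Set B | W ⊆ A ∧ ∀ p ∈ W, ∀ q ∈ W, p ≠ q → ¬ ∃ r, r ≤ p ∧ r ≤ q} := by
    refine ⟨insert_subset hp hW.prop.1, ?_⟩
    intro q hq q' hq' hne
    rcases mem_insert_iff.1 hq with h | h <;> rcases mem_insert_iff.1 hq' with h' | h'
    · exact absurd (h.trans h'.symm) hne
    · rintro ⟨r, hr, hr'⟩
      subst h
      exact hcon r hr q' h' hr'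
    · rintro ⟨r, hr, hr'⟩
      subst h'
      exact hcon r hr' q h hr
    · exact hW.prop.2 q h q' h' hne
  have h1 : p ∈ W := by
    have := hW.le_of_ge hins (subset_insert p W)
    exact this (mem_insert p W)
  exact hcon p le_rfl p h1 le_rfl

theorem mk_reg_le (hP : Prep κ B) : #{A : Set B // Reg A} ≤ κ := by
  have hex : ∀ A : {A : Set B // Reg A}, ∃ W : Set B, W ⊆ A.1 ∧
      (∀ p ∈ W, ∀ q ∈ W, p ≠ q → ¬ ∃ r, r ≤ p ∧ r ≤ q) ∧
      ∀ p ∈ A.1, ∃ r ≤ p, ∃ w ∈ W, r ≤ w := fun A => exists_max_anti A.2.lower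
  choose W hW1 hW2 hW3 using hex
  refine le_trans ?_ (mk_small_sets_le hP.reg.aleph0_le le_rfl hP.pow_le hP.small)
  refine mk_le_of_injective (f := fun A => ⟨W A, hP.cc (W A) (hW2 A)⟩) ?_
  intro A A' h
  simp only [Subtype.mk.injEq] at h
  have key : ∀ A : {A : Set B // Reg A}, A.1 = cl {b | ∃ w ∈ W A, b ≤ w} := by
    intro A
    apply Subset.antisymm
    · intro p hp q hq
      obtain ⟨r, hr, w, hw, hrw⟩ := hW3 A q (A.2.lower p hp q hq)
      exact ⟨r, hr, w, hw, hrw⟩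
    · intro p hp
      refine A.2.dense p fun q hq => ?_
      obtain ⟨r, hr, w, hw, hrw⟩ := hp q hq
      exact ⟨r, hr, A.2.lower w (hW1 A hw) r hrw⟩
  apply Subtype.ext
  rw [key A, key A', h]

theorem mk_SN_le (hP : Prep κ B) {Z : Type} {θ : Cardinal.{0}} (hκθ : κ ≤ θ)
    (hθ : ∀ a < κ, θ ^ a ≤ θ) (hZ : #Z ≤ θ) : #(SN κ B Z) ≤ θ := by
  have hinf : ℵ₀ ≤ θ := hP.reg.aleph0_le.trans hκθ
  have h1 : #(SN κ B Z) ≤
      #(Σ t : {t : Set Z // #t < κ}, (t.1 → {A : Set B // Reg A})) := by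
    refine mk_le_of_injective (f := fun s => ⟨⟨{z | (s.v z).Nonempty}, s.small⟩,
      fun z => ⟨s.v z.1, s.reg z.1⟩⟩) ?_
    intro s t hst
    simp only [Sigma.mk.injEq] at hst
    obtain ⟨h5, h6⟩ := hst
    have h7 : ∀ (k k' : {t : Set Z // #t < κ}) (x : k.1 → {A : Set B // Reg A})
        (y : k'.1 → {A : Set B // Reg A}), k = k' → HEq x y →
        ∀ z (h : z ∈ k.1) (h' : z ∈ k'.1), (x ⟨z, h⟩).1 = (y ⟨z, h'⟩).1 := by
      rintro k _ x y rfl hxy z h h'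
      rw [eq_of_heq hxy]
    have h8 : {z | (s.v z).Nonempty} = {z | (t.v z).Nonempty} := congrArg Subtype.val h5
    apply SN.ext'
    intro z
    by_cases hz : (s.v z).Nonempty
    · have hz' : z ∈ {z | (t.v z).Nonempty} := h8 ▸ (show z ∈ {z | (s.v z).Nonempty} from hz)
      exact h7 _ _ _ _ h5 h6 z hz hz'
    · have hz' : z ∉ {z | (t.v z).Nonempty} := h8 ▸ (show z ∉ {z | (s.v z).Nonempty} from hz)
      rw [not_nonempty_iff_eq_empty.1 hz, not_nonempty_iff_eq_empty.1 hz']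
  refine h1.trans ?_
  rw [mk_sigma]
  refine (sum_le_sum _ (fun _ => θ) ?_).trans ?_
  · rintro ⟨t, ht⟩
    rw [← power_def]
    exact (power_le_power_right ((mk_reg_le hP).trans hκθ)).trans (hθ _ ht)
  · rw [sum_const']
    exact (mul_le_mul_left (mk_small_sets_le hP.reg.aleph0_le hκθ hθ hZ) θ).trans
      (mul_eq_self hinf).le

theorem mk_Tt_le (hP : Prep κ B) : #(Tt κ B) ≤ κ := by
  have hκ := hP.reg.aleph0_le
  have hZ : #(κ.ord.ToType × Finset κ.ord.ToType) ≤ κ := by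
    have hi : Infinite κ.ord.ToType := by
      rw [infinite_iff, mk_ord_toType]
      exact hκ
    rw [mk_prod, lift_id, lift_id, mk_finset_of_infinite, mk_ord_toType]
    exact (mul_eq_self hκ).le
  refine le_trans ?_ (mk_SN_le hP le_rfl hP.pow_le hZ)
  refine mk_le_of_injective (f := fun t => t.toSN) ?_
  intro s t h
  apply Tt.ext'
  intro z
  simp only at h
  rw [h]

end K3

end Pool.Agent.Helper92.PR
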