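import Pool.Agent.Helper92.PR.Code

/-!
# K5: from an ultrafilter name to a good stage
-/

open Cardinal Set

set_option linter.unusedSectionVars false

namespace Pool.Agent.Helper92.PR

section K5
variable {κ : Cardinal.{0}} {B : Type} [Preorder B] {I Kp : Type} [LinearOrder I]
  [WellFoundedLT I] {g : I → Kp → κ.ord.ToType → Set (Cn κ B I Kp)}

theorem Stage.rS_trans (hg : GReg g) {α : WithTop I} {r s t : Cn κ B I Kp}
    (h1 : rS g α r s) (h2 : rS g α s t) : rS g α r t :=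
  ⟨h1.1.trans h2.1, leQ_trans hg α h1.2.1 (leQ_mono h2.2.1 h1.1),
    leS_trans h1.2.2 (leS_mono h2.2.2 h1.1)⟩

theorem Stage.rS_of_rD {α : WithTop I} {r s : Cn κ B I Kp} (h : rD g α r s) : rS g α r s :=
  ⟨h.1, h.2.1, leS_of_leD h.2.2⟩

theorem Stage.rS_act {α : WithTop I} {b b2 : B} {q : Qc κ B I Kp} {t : Tt κ B} (hb : b2 ≤ b)
    (Δ : Finset κ.ord.ToType) : rS g α (b2, (q, act Δ t)) (b, (q, t)) :=
  ⟨hb, leQ_refl _ _ _, leS_act _ _ _⟩

/-- **K5a.** -/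
theorem cD_reg (hκ : 0 < κ) (hg : GReg g) (α : WithTop I) (W : Code κ B I Kp) (ξ : Kp)
    (η : κ.ord.ToType) (i : Bool) : Reg (P := Two (QD hκ hg α)) (cD g α W ξ η i) :=
  reg_cl (P := Two (QD hκ hg α)) {r'' | ∃ k, (W ξ η k).2 = i ∧ rS g α r'' (W ξ η k).1}

theorem cD_dense (_hκ : 0 < κ) (hg : GReg g) {α : WithTop I} {W : Code κ B I Kp}
    (hW : Live g α W) (ξ : Kp) (η : κ.ord.ToType) (r : Cn κ B I Kp) :
    ∃ r', rD g α r' r ∧ ∃ i, r' ∈ cD g α W ξ η i := by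
  obtain ⟨r', hr', k, hk⟩ := hW.dense ξ η r
  obtain ⟨b2, hb2, Δ, hΔ⟩ := leS_proj hr'.2.2
  refine ⟨(b2, (r'.2.1, act Δ r'.2.2)), ⟨hb2.trans hr'.1, leQ_mono hr'.2.1 hb2, hΔ⟩,
    (W ξ η k).2, ?_⟩
  intro r3 hr3
  refine ⟨r3, ⟨le_rfl, leQ_refl _ _ _, leD_refl _ _⟩, k, rfl, ?_⟩
  exact Stage.rS_trans hg (Stage.rS_trans hg (Stage.rS_of_rD hr3) (Stage.rS_act hb2 Δ)) hk

theorem cD_con (_hκ : 0 < κ) (hg : GReg g) {α : WithTop I} {W : Code κ B I Kp}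
    (hW : Live g α W) {ξ : Kp} {η : κ.ord.ToType} {r : Cn κ B I Kp} {i i' : Bool}
    (h : r ∈ cD g α W ξ η i) (h' : r ∈ cD g α W ξ η i') : i = i' := by
  obtain ⟨r2, hr2, k, hk, hk'⟩ := h r ⟨le_rfl, leQ_refl _ _ _, leD_refl _ _⟩
  obtain ⟨r3, hr3, l, hl, hl'⟩ := h' r2 hr2
  rw [← hk, ← hl]
  exact hW.con ξ η k l r3 (Stage.rS_trans hg (Stage.rS_of_rD hr3) hk') hl'

/-- the forcing of the stage -/
abbrev Stage.E (hκ : 0 < κ) (hg : GReg g) (α : WithTop I) : Type := Two (QD hκ hg α)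

/-- **K5b.** -/
theorem exists_stage (hκ : κ.IsRegular) (hg : GReg g) (α : I)
    (hU : HasUlt (Two (QD hκ.pos hg (α : WithTop I))) κ.ord.ToType κ) (W : Code κ B I Kp)
    (hW : Live g α W) : ∃ G, SGood g α W G := by
  obtain ⟨U, hU⟩ := hU
  let A : Kp → Bool → κ.ord.ToType → Set (Stage.E hκ.pos hg (α : WithTop I)) := fun ξ i η => cD g α W ξ η i
  have hA : ∀ ξ i η, Reg (A ξ i η) := fun ξ i η => cD_reg hκ.pos hg _ W ξ η i
  let G : Kp → κ.ord.ToType → Set (Stage.E hκ.pos hg (α : WithTop I)) := fun ξ η =>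
    cl {r | ∃ i, r ∈ U (A ξ i) ∧ r ∈ A ξ i η}
  have hGr : ∀ ξ η, Reg (G ξ η) := fun ξ η => reg_cl _
  have hs1 : ∀ ξ (r : Stage.E hκ.pos hg (α : WithTop I)), ∃ r' ≤ r, ∃ i, r' ∈ U (A ξ i) := by
    intro ξ r
    obtain ⟨r', hr', h1 | h1⟩ := hU.ultra (A ξ true) (hA ξ true) r
    · exact ⟨r', hr', true, h1⟩
    · refine ⟨r', hr', false, hU.mono _ _ (fun η => reg_neg (hA ξ true η).lower) (hA ξ false) r'
        h1 ?_⟩
      intro q _ η hq
      refine (hA ξ false η).dense q fun s hs => ?_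
      obtain ⟨t, ht, i, hi⟩ := cD_dense hκ.pos hg hW ξ η s
      cases i with
      | true => exact absurd hi (hq t (@le_trans (Stage.E hκ.pos hg (α : WithTop I)) _ t s q ht hs))
      | false => exact ⟨t, ht, hi⟩
  have hs2 : ∀ ξ (r : Stage.E hκ.pos hg (α : WithTop I)) i i', r ∈ U (A ξ i) → r ∈ U (A ξ i') → i = i' := by
    intro ξ r i i' h h'
    by_contra hne
    have h1 : r ∈ U (fun η => ⋂ j : Bool, A ξ j η) := by
      refine hU.inter Bool (fun j => A ξ j) ?_ (fun j => hA ξ j) r ?_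
      · exact (lt_aleph0_of_finite Bool).trans_le hκ.aleph0_le
      · intro j
        by_cases hj : j = i
        · rw [hj]; exact h
        · have : j = i' := by
            cases j <;> cases i <;> cases i' <;> simp_all
          rw [this]; exact h'
    have hne' : Nonempty κ.ord.ToType := by
      rw [← mk_ne_zero_iff, mk_ord_toType]
      exact hκ.pos.ne'
    obtain ⟨q, _, η, _, h2⟩ := hU.unbdd _ (fun η => Reg.iInter fun j => hA ξ j η) r h1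
      (Classical.choice hne')
    have h3 := mem_iInter.1 h2 true
    have h4 := mem_iInter.1 h2 false
    exact absurd (cD_con hκ.pos hg hW h3 h4) (by simp)
  have hs3 : ∀ ξ i, ∀ r ∈ U (A ξ i), ∀ s ≤ r, s ∈ U (A ξ i) := fun ξ i =>
    (hU.reg _ (hA ξ i)).lower
  refine ⟨G, ?_, ?_, ?_, ?_⟩
  · exact fun ξ η r hr r' hr' => (hGr ξ η).lower r hr r' hr'
  · exact fun ξ η r hr => (hGr ξ η).dense r hr
  · intro r X hX μ
    have h1 : ∀ ξ, (show Stage.E hκ.pos hg (α : WithTop I) from r) ∈ U (G ξ) := by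
      intro ξ
      refine (hU.reg _ (hGr ξ)).dense _ fun q _ => ?_
      obtain ⟨s, hs, i, hi⟩ := hs1 ξ q
      refine ⟨s, hs, hU.mono _ _ (hA ξ i) (hGr ξ) s hi ?_⟩
      intro t ht η h2 u hu
      exact ⟨u, le_rfl, i, hs3 ξ i s hi u (hu.trans ht), (hA ξ i η).lower t h2 u hu⟩
    have h2 : (show Stage.E hκ.pos hg (α : WithTop I) from r) ∈ U (fun η => ⋂ ξ : X, G ξ.1 η) :=
      hU.inter X (fun ξ => G ξ.1) hX (fun ξ => hGr ξ.1) _ (fun ξ => h1 ξ.1)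
    obtain ⟨q, hq, η, hη, h3⟩ := hU.unbdd _ (fun η => Reg.iInter fun ξ : X => hGr ξ.1 η) _ h2 μ
    exact ⟨q, hq, η, hη, fun ξ hξ => mem_iInter.1 h3 ⟨ξ, hξ⟩⟩
  · intro r ξ
    obtain ⟨r', hr', i, hi⟩ := hs1 ξ r
    refine ⟨r', hr', i, ?_⟩
    intro η r'' hr'' h1
    refine (hA ξ i η).dense r'' fun q hq => ?_
    obtain ⟨s, hs, i', h2, h3⟩ := h1 q hq
    have h4 : s ∈ U (A ξ i) := hs3 ξ i r' hi s ((hs.trans hq).trans hr'')
    have h5 := hs2 ξ s i i' h4 h2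
    subst h5
    exact ⟨s, hs, h3⟩

end K5

end Pool.Agent.Helper92.PR
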