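import Pool.Agent.Helper92.PR.Bdd
import Pool.Agent.Helper92.PR.Book
import Pool.Agent.Helper92.PR.CC
import Pool.Agent.Helper92.PR.Cdc
import Pool.Agent.Helper92.PR.ColOf
import Pool.Agent.Helper92.PR.PosOf
import Pool.Agent.Helper92.PR.Rec
import Pool.Agent.Helper92.PR.Size
import Pool.Agent.Helper92.PR.Stage

/-!
# The forcing notion with the properties `Core`, from a preparation
-/

open Cardinal Set

namespace Pool.Agent.Helper92.PR

/-- **Theorem B.** -/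
theorem core_of_prep {κ : Cardinal.{0}} {B : Type} [Preorder B] (hP : Prep κ B) (b₀ : B)
    (hb₀ : ∀ b, b ≤ b₀) : ∃ (P : Type) (_ : Preorder P), (∃ t : P, ∀ p, p ≤ t) ∧ Core κ P := by
  have hne : Nonempty B := ⟨b₀⟩
  obtain ⟨θ, hθ, hκθ, hpow⟩ := exists_theta (κ := κ) hP.unc.le
  obtain ⟨e, he⟩ := exists_book hP hne hθ hκθ hpow
  obtain ⟨g, hg, hgood⟩ := exists_g e (fun g hg α hL =>
    exists_stage hP.reg hg α (hP.ult _ _ (PN.prod_cdc (QQ_cdc hP.reg hg α) (DD_cdc hP.reg))) _ hL)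
  have hT : #(Tt κ B) ≤ κ := mk_Tt_le hP
  have hS : #(SN κ B (Tt κ B × κ.ord.ToType)) ≤ κ := by
    refine mk_SN_le hP le_rfl hP.pow_le ?_
    rw [mk_prod, Cardinal.lift_id, Cardinal.lift_id, mk_ord_toType]
    exact (mul_le_mul_left hT _).trans (mul_eq_self hP.unc.le).le
  have hcc := QS_cc hP hT hS hg (⊤ : WithTop θ.ord.ToType)
  have hcdc := QQ_cdc (κ := κ) hP.reg hg (⊤ : WithTop θ.ord.ToType)
  refine ⟨Two (QS hP.reg.pos hg ⊤), inferInstance, ?_, ?_⟩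
  · exact ⟨(b₀, (QS hP.reg.pos hg ⊤).top), fun p => ⟨hb₀ _, (QS hP.reg.pos hg ⊤).le_top _ _⟩⟩
  · exact ⟨hP.unc, hP.reg, fun ι hι f hf1 hf2 p =>
      exists_val_bdd hP hcdc (DD_cdc hP.reg) ι hι f hf1 hf2 p, hcc,
      col_of hP hcdc (DD_cdc hP.reg),
      fun c hc p => pos_of hP hne hθ hκθ e he hg hgood hT hcc c hc p⟩

end Pool.Agent.Helper92.PR
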