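import Pool.Agent.Helper92.PR.Code

/-!
# Block C1: transport of `Core` along a surjection (helper3)
-/

open Cardinal Set

namespace Pool.Agent.Helper92.PR

section

variable {P P' : Type} [Preorder P] [Preorder P'] {φ : P → P'}

private theorem reg_pre (hφ : Function.Surjective φ) (h : ∀ r s, φ r ≤ φ s ↔ r ≤ s) {A : Set P'}
    (hA : Reg A) : Reg (φ ⁻¹' A) where
  lower := fun p hp q hq => hA.lower _ hp _ ((h _ _).2 hq)
  dense := fun p hp => hA.dense _ fun q hq => by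
    obtain ⟨q', rfl⟩ := hφ q
    obtain ⟨r, hr, h1⟩ := hp q' ((h _ _).1 hq)
    exact ⟨φ r, (h _ _).2 hr, h1⟩

private theorem mem_img (h : ∀ r s, φ r ≤ φ s ↔ r ≤ s) {A : Set P} (hA : Reg A) (r : P) :
    φ r ∈ φ '' A ↔ r ∈ A :=
  ⟨fun ⟨s, hs, h1⟩ => hA.lower s hs r ((h _ _).1 h1.ge), fun h1 => ⟨r, h1, rfl⟩⟩

private theorem reg_img (hφ : Function.Surjective φ) (h : ∀ r s, φ r ≤ φ s ↔ r ≤ s) {A : Set P}
    (hA : Reg A) : Reg (φ '' A) where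
  lower := fun p hp q hq => by
    obtain ⟨q', rfl⟩ := hφ q
    obtain ⟨p', hp', rfl⟩ := hp
    exact ⟨q', hA.lower _ hp' _ ((h _ _).1 hq), rfl⟩
  dense := fun p hp => by
    obtain ⟨p', rfl⟩ := hφ p
    rw [mem_img h hA]
    refine hA.dense _ fun q hq => ?_
    obtain ⟨r, hr, h1⟩ := hp (φ q) ((h _ _).2 hq)
    obtain ⟨r', rfl⟩ := hφ r
    exact ⟨r', (h _ _).1 hr, (mem_img h hA r').1 h1⟩

private theorem mem_neg_pre (hφ : Function.Surjective φ) (h : ∀ r s, φ r ≤ φ s ↔ r ≤ s)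
    {A : Set P'} (r : P) : φ r ∈ neg A ↔ r ∈ neg (φ ⁻¹' A) := by
  constructor
  · intro h1 q hq h2
    exact h1 (φ q) ((h _ _).2 hq) h2
  · intro h1 q hq h2
    obtain ⟨q', rfl⟩ := hφ q
    exact h1 q' ((h _ _).1 hq) h2

private theorem mem_neg_img (hφ : Function.Surjective φ) (h : ∀ r s, φ r ≤ φ s ↔ r ≤ s)
    {A : Set P} (hA : Reg A) (r : P) : φ r ∈ neg (φ '' A) ↔ r ∈ neg A := by
  rw [mem_neg_pre hφ h]
  have : φ ⁻¹' (φ '' A) = A := by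
    ext s
    exact mem_img h hA s
  rw [this]

/-- **C1.** Transport of `Core` along a surjection which preserves and reflects the order. -/
theorem Core.of_surj {κ : Cardinal.{0}} {P P' : Type} [Preorder P] [Preorder P'] (φ : P → P')
    (hφ : Function.Surjective φ) (h : ∀ r s, φ r ≤ φ s ↔ r ≤ s) (hC : Core κ P) : Core κ P' where
  unc := hC.unc
  regular := hC.regular
  bdd := by
    intro ι hι f hf hff p'
    obtain ⟨p, rfl⟩ := hφ p'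
    obtain ⟨q, hq, k, hk⟩ := hC.bdd ι hι (fun i j => φ ⁻¹' (f i j))
      (fun i j => reg_pre hφ h (hf i j)) (fun i j j' p h1 h2 => hff i j j' _ h1 h2) p
    refine ⟨φ q, (h _ _).2 hq, k, fun i j hj r hr h1 => ?_⟩
    obtain ⟨r', rfl⟩ := hφ r
    exact hk i j hj r' ((h _ _).1 hr) h1
  cc := by
    intro W hW
    obtain ⟨sec, hsec⟩ := hφ.hasRightInverse
    have hinj : Function.Injective sec := hsec.injective
    have h1 := hC.cc (sec '' W) (by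
      rintro _ ⟨p, hp, rfl⟩ _ ⟨q, hq, rfl⟩ hpq ⟨r, hr1, hr2⟩
      refine hW p hp q hq (fun h2 => hpq (by rw [h2])) ⟨φ r, ?_, ?_⟩
      · have := (h _ _).2 hr1
        rwa [hsec] at this
      · have := (h _ _).2 hr2
        rwa [hsec] at this)
    rwa [mk_image_eq hinj] at h1
  col := by
    obtain ⟨C, hCr, hCh⟩ := hC.col
    refine ⟨fun β γ => φ '' C β γ, fun β γ => reg_img hφ h (hCr β γ), ?_⟩
    intro H hH p₀' hp
    obtain ⟨p₀, rfl⟩ := hφ p₀'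
    obtain ⟨h1, h2⟩ := hCh (fun γ => φ ⁻¹' H γ) (fun γ => reg_pre hφ h (hH γ)) p₀ (by
      intro p hp0 μ
      obtain ⟨q, hq, γ, hγ, h1⟩ := hp (φ p) ((h _ _).2 hp0) μ
      obtain ⟨q', rfl⟩ := hφ q
      exact ⟨q', (h _ _).1 hq, γ, hγ, h1⟩)
    constructor
    · obtain ⟨p, hp, β, γ, hβγ, h3, h4, h5⟩ := h1
      exact ⟨φ p, (h _ _).2 hp, β, γ, hβγ, h3, h4, ⟨p, h5, rfl⟩⟩
    · obtain ⟨p, hp, β, γ, hβγ, h3, h4, h5⟩ := h2
      exact ⟨φ p, (h _ _).2 hp, β, γ, hβγ, h3, h4, (mem_neg_img hφ h (hCr β γ) p).2 h5⟩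
  pos := by
    intro c hc p₀'
    obtain ⟨p₀, rfl⟩ := hφ p₀'
    obtain ⟨p, hp, A, D, hA, hD, hAu, hDu, hor⟩ := hC.pos (fun ξ η => φ ⁻¹' c ξ η)
      (fun ξ η => reg_pre hφ h (hc ξ η)) p₀
    refine ⟨φ p, (h _ _).2 hp, fun ξ => φ '' A ξ, fun η => φ '' D η,
      fun ξ => reg_img hφ h (hA ξ), fun η => reg_img hφ h (hD η), ?_, ?_, ?_⟩
    · intro q hq ξ₀
      obtain ⟨q', rfl⟩ := hφ q
      obtain ⟨r, hr, ξ, hξ, h1⟩ := hAu q' ((h _ _).1 hq) ξ₀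
      exact ⟨φ r, (h _ _).2 hr, ξ, hξ, ⟨r, h1, rfl⟩⟩
    · intro q hq ξ₀
      obtain ⟨q', rfl⟩ := hφ q
      obtain ⟨r, hr, ξ, hξ, h1⟩ := hDu q' ((h _ _).1 hq) ξ₀
      exact ⟨φ r, (h _ _).2 hr, ξ, hξ, ⟨r, h1, rfl⟩⟩
    · refine hor.imp (fun h1 ξ η q hq h2 h3 => ?_) (fun h1 ξ η q hq h2 h3 => ?_)
      · obtain ⟨q', rfl⟩ := hφ q
        exact h1 ξ η q' ((h _ _).1 hq) ((mem_img h (hA ξ) q').1 h2) ((mem_img h (hD η) q').1 h3)
      · obtain ⟨q', rfl⟩ := hφ q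
        exact (mem_neg_pre hφ h q').2
          (h1 ξ η q' ((h _ _).1 hq) ((mem_img h (hA ξ) q').1 h2) ((mem_img h (hD η) q').1 h3))

end

end Pool.Agent.Helper92.PR
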