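import Pool.Agent.Helper92.PR.Code
import Pool.Agent.Helper92.PR.Quot
import Pool.Agent.Helper27.SPT.Transfer

/-!
# The countable transitive model of a forcing notion with the properties `Core`
-/

open Cardinal Ordinal Set

set_option linter.unusedSectionVars false

namespace Pool.Agent.Helper92.PR

open Pool.Agent.Helper96.Fc Pool.Agent.Helper3.SP

section

variable {P : Type} [PartialOrder P] [OrderTop P] {κ : Cardinal.{0}} {X : Set (Obj P)} {G : Set P}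

/-- bounds below `κ` -/
theorem core_bd_K (hC : Core κ P) (f : Nm P) (p : P) (hf : FnAt f p)
    (b : Ordinal.{0}) (hb : b < κ.ord) : ∃ q ≤ p, ∃ γ < κ.ord, BdAt f q b κ.ord γ := by
  have hI : #b.ToType < κ := by
    rw [Cardinal.mk_toType]
    exact Cardinal.lt_ord.1 hb
  obtain ⟨q, hq, k, hk⟩ := hC.bdd b.ToType hI
    (fun i j => cl {q | q ≤ p ∧ FMem (pairN (ordN P (od i)) (ordN P (od j))) f q})
    (fun i j => reg_cl _)
    (by
      intro i j j' p' h1 h2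
      obtain ⟨r, hr, hrp, h3⟩ := h1 p' le_rfl
      obtain ⟨r', hr', -, h4⟩ := h2 r hr
      exact od_inj (hf r' (hr'.trans hrp) _ _ _ (h3.mono hr') h4)) p
  refine ⟨q, hq, od k, od_lt k, ?_⟩
  intro r hr x hx y hy hm
  obtain ⟨i, rfl⟩ := exists_od hx
  obtain ⟨j, rfl⟩ := exists_od hy
  rw [od_lt_od]
  by_contra hcon
  exact hk i j (not_lt.1 hcon) r hr fun s hs => ⟨s, le_rfl, hs.trans (hr.trans hq), hm.mono hs⟩

/-- bounds below `κ⁺` -/
theorem core_bd_M (hC : Core κ P) (f : Nm P) (p : P)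
    (hf : FnAt f p) (b : Ordinal.{0}) (hb : b < (Order.succ κ).ord) :
    ∃ q ≤ p, ∃ γ < (Order.succ κ).ord, BdAt f q b (Order.succ κ).ord γ := by
  classical
  have hκ : ℵ₀ < κ := hC.unc
  set θ := (Order.succ κ).ord with hθ
  have hreg : (Order.succ κ).IsRegular := Cardinal.isRegular_succ hκ.le
  have hlim : Order.IsSuccLimit θ := Cardinal.isSuccLimit_ord (hκ.le.trans (Order.le_succ κ))
  let V : b.ToType → Set θ.ToType := fun i =>
    {a | ∃ q ≤ p, FMem (pairN (ordN P (od i)) (ordN P (od a))) f q}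
  have hV : ∀ i, #(V i) ≤ κ := by
    intro i
    choose w hw1 hw2 using fun a : V i => a.2
    have hinc : ∀ a a' : V i, (∃ r, r ≤ w a ∧ r ≤ w a') → a = a' := by
      rintro a a' ⟨r, h1, h2⟩
      have := hf r (h1.trans (hw1 a)) _ _ _ ((hw2 a).mono h1) ((hw2 a').mono h2)
      exact Subtype.ext (od_inj this)
    have h1 : #(Set.range w) ≤ κ := by
      apply Order.lt_succ_iff.1
      apply hC.cc
      rintro _ ⟨a, rfl⟩ _ ⟨a', rfl⟩ hne hr
      exact hne (by rw [hinc a a' hr])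
    refine le_trans ?_ h1
    rw [Cardinal.mk_range_eq w]
    intro a a' h
    exact hinc a a' ⟨w a, le_rfl, h.le⟩
  have hJ : #(Σ i : b.ToType, V i) < θ.cof := by
    rw [show θ.cof = Order.succ κ from hreg.cof_ord, Order.lt_succ_iff, Cardinal.mk_sigma]
    have h1 : #b.ToType ≤ κ := by
      rw [Cardinal.mk_toType]
      exact Order.lt_succ_iff.1 (Cardinal.lt_ord.1 hb)
    calc Cardinal.sum (fun i => #(V i)) ≤ Cardinal.sum (fun _ : b.ToType => κ) :=
          Cardinal.sum_le_sum _ _ hV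
      _ = #b.ToType * κ := by rw [Cardinal.sum_const, Cardinal.lift_id, Cardinal.lift_id]
      _ ≤ κ * κ := mul_le_mul' h1 le_rfl
      _ = κ := Cardinal.mul_eq_self hκ.le
  have hγ : (⨆ j : (Σ i : b.ToType, V i), (od j.2.1 + 1)) < θ := by
    apply Ordinal.iSup_lt_of_lt_cof hJ
    intro j
    exact hlim.add_one_lt (od_lt _)
  refine ⟨p, le_rfl, _, hγ, ?_⟩
  intro r hr x hx y hy hm
  obtain ⟨i, rfl⟩ := exists_od hx
  obtain ⟨a, rfl⟩ := exists_od hy
  have h2 : a ∈ V i := ⟨r, hr, hm⟩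
  have h3 := Ordinal.le_iSup (fun j : (Σ i : b.ToType, V i) => (od j.2.1 + 1)) ⟨i, ⟨a, h2⟩⟩
  exact lt_of_lt_of_le (Order.lt_add_one_iff.2 le_rfl) h3

theorem core_regK (h : Gd κ X G) (hC : Core κ P) : RegIn (Mod X G) (vo X G κ.ord) :=
  h.reg_of h.kX fun f p hf b hb => core_bd_K hC f p hf b hb

theorem core_regM (h : Gd κ X G) (hC : Core κ P) :
    RegIn (Mod X G) (vo X G (Order.succ κ).ord) :=
  h.reg_of h.mX fun f p hf b hb => core_bd_M hC f p hf b hb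

theorem core_next (h : Gd κ X G) (hC : Core κ P) :
    NextCard (Mod X G) (vo X G κ.ord) (vo X G (Order.succ κ).ord) := by
  refine ⟨(core_regM h hC).1, (h.vo_mem_iff h.kX h.mX).2
    (Cardinal.ord_lt_ord.2 (Order.lt_succ κ)), ?_⟩
  intro a ha
  obtain ⟨α, hα, hαX, rfl⟩ := h.mem_vo.1 ha
  exact h.onto hα hαX

/-- the set of the conditions forcing a membership is regular open -/
theorem reg_frIn {A : Type} (a : A → Set P) (b : A) : Reg {t | FrIn a t b} where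
  lower := fun p hp q hq r hr => hp r (hr.trans hq)
  dense := fun p hp q hq => by
    obtain ⟨r, hr, h1⟩ := hp q hq
    obtain ⟨s, hs, c, hc, h2⟩ := h1 r le_rfl
    exact ⟨s, hs.trans hr, c, hc, h2⟩

end

/-- **C2**. The model. -/
theorem ctm_of_core {κ : Cardinal.{0}} {P : Type} [PartialOrder P] [OrderTop P] (hC : Core κ P) :
    ∃ (N : Set ZFSet.{0}) (K M : ZFSet.{0}), N.Countable ∧ IsZFC N ∧ RegIn N K ∧ RegIn N M ∧
      Ordinal.toZFSet Ordinal.omega0 ∈ K ∧ NextCard N K M ∧ ¬ WeaklyCompactIn N K ∧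
      StrongPol N K M := by
  obtain ⟨W, hW1, hW2⟩ := hC.col
  obtain ⟨X, G, hX, h, hR, hO⟩ := exists_gd' κ (K := ℕ) (R2 (Order.succ κ).ord W) (O2 W)
    (O2_fun W)
  have hlim : ∀ a < κ.ord, a + 1 < κ.ord := fun a ha =>
    (Cardinal.isSuccLimit_ord hC.unc.le).add_one_lt ha
  have hK := core_regK h hC
  have hM := core_regM h hC
  have hW3 : ∀ H : κ.ord.ToType → Set P, (∀ b s t, t ≤ s → s ∈ H b → t ∈ H b) →
      ∀ q, (∀ t ≤ q, ∀ c, ∃ s ≤ t, ∃ b, c < b ∧ s ∈ H b) →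
      (∃ r ≤ q, ∃ a b, a < b ∧ r ∈ H a ∧ r ∈ H b ∧ r ∈ W a b) ∧
        ∃ r ≤ q, ∃ a b, a < b ∧ r ∈ H a ∧ r ∈ H b ∧ ∀ s ≤ r, s ∉ W a b := by
    intro H hH q hq
    have key : ∀ p ≤ q, ∀ a b, p ∈ cl (H a) → p ∈ cl (H b) → ∃ r ≤ p, r ∈ H a ∧ r ∈ H b := by
      intro p _ a b ha hb
      obtain ⟨r, hr, h1⟩ := ha p le_rfl
      obtain ⟨s, hs, h2⟩ := hb r hr
      exact ⟨s, hs.trans hr, hH a r s hs h1, h2⟩
    obtain ⟨⟨p, hp, a, b, hab, ha, hb, hc⟩, ⟨p', hp', a', b', hab', ha', hb', hc'⟩⟩ :=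
      hW2 (fun a => cl (H a)) (fun a => reg_cl _) q (fun t ht c => by
        obtain ⟨s, hs, b, hb, h1⟩ := hq t ht c
        exact ⟨s, hs, b, hb, fun u hu => ⟨u, le_rfl, hH b s u hu h1⟩⟩)
    obtain ⟨r, hr, h1, h2⟩ := key p hp a b ha hb
    obtain ⟨r', hr', h1', h2'⟩ := key p' hp' a' b' ha' hb'
    exact ⟨⟨r, hr.trans hp, a, b, hab, h1, h2, (hW1 a b).lower p hc r hr⟩,
      ⟨r', hr'.trans hp', a', b', hab', h1', h2', fun s hs => hc' s (hs.trans hr')⟩⟩
  have hpos : ∀ (F : (Order.succ κ).ord.ToType → κ.ord.ToType → Set P) (q : P), ∃ r ≤ q,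
      ∃ (An : (Order.succ κ).ord.ToType → Set P) (Bn : κ.ord.ToType → Set P),
      (∀ l s t, t ≤ s → s ∈ An l → t ∈ An l) ∧ (∀ b s t, t ≤ s → s ∈ Bn b → t ∈ Bn b) ∧
      (∀ t ≤ r, ∀ l, ∃ s ≤ t, ∃ l', l < l' ∧ s ∈ An l') ∧
      (∀ t ≤ r, ∀ b, ∃ s ≤ t, ∃ b', b < b' ∧ s ∈ Bn b') ∧
      ((∀ t ≤ r, ∀ l b, t ∈ An l → t ∈ Bn b → FrIn (F l) t b) ∨
        ∀ t ≤ r, ∀ l b, t ∈ An l → t ∈ Bn b → ¬ FrIn (F l) t b) := by
    intro F q
    obtain ⟨r, hr, A, D, hA, hD, hAu, hDu, h1⟩ :=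
      hC.pos (fun ξ η => {t | FrIn (F ξ) t η}) (fun ξ η => reg_frIn _ _) q
    refine ⟨r, hr, A, D, fun l s t ht hs => (hA l).lower s hs t ht,
      fun b s t ht hs => (hD b).lower s hs t ht, hAu, hDu, ?_⟩
    rcases h1 with h1 | h1
    · exact Or.inl fun t ht l b hl hb => h1 l b t ht hl hb
    · exact Or.inr fun t ht l b hl hb => h1 l b t ht hl hb t le_rfl
  obtain ⟨h1, h2⟩ := t2 (X := X) (G := G) ⟨h.basic, h.clos, h.kX, h.mX, hO, hR⟩ hlim
    (fun a b s t ht hs => (hW1 a b).lower s hs t ht) hW3 hpos hK hM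
  exact ⟨Mod X G, vo X G κ.ord, vo X G (Order.succ κ).ord, Mod_countable hX,
    Mod.isZFC h.basic h.clos, hK, hM, h.omega_mem hC.unc, core_next h hC, h1, h2⟩

/-- **C3**. -/
theorem ctm_of_core' {κ : Cardinal.{0}} {P : Type} [Preorder P] (t : P) (ht : ∀ p, p ≤ t)
    (hC : Core κ P) :
    ∃ (N : Set ZFSet.{0}) (K M : ZFSet.{0}), N.Countable ∧ IsZFC N ∧ RegIn N K ∧ RegIn N M ∧
      Ordinal.toZFSet Ordinal.omega0 ∈ K ∧ NextCard N K M ∧ ¬ WeaklyCompactIn N K ∧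
      StrongPol N K M := by
  have hs : Function.Surjective (toAntisymmetrization (α := P) (· ≤ ·)) := Quotient.mk_surjective
  let _ : OrderTop (Antisymmetrization P (· ≤ ·)) :=
    { top := toAntisymmetrization (· ≤ ·) t
      le_top := fun a => by
        obtain ⟨a, rfl⟩ := hs a
        exact (toAntisymmetrization_le_toAntisymmetrization_iff).2 (ht a) }
  exact ctm_of_core (P := Antisymmetrization P (· ≤ ·))
    (hC.of_surj (toAntisymmetrization (· ≤ ·)) hs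
      fun r s => toAntisymmetrization_le_toAntisymmetrization_iff)

end Pool.Agent.Helper92.PR
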