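import Pool.Agent.Helper92.PR.Tool
import Pool.Agent.Helper96.Fc.Card

/-!
# R4: restriction of a forced preorder to a small submodel
-/

open Cardinal Set

set_option linter.unusedSectionVars false

namespace Pool.Agent.Helper92.PR

section R4
variable {κ : Cardinal.{0}} {H : Type} {U : Ultrafilter (Set H)} {P X : Type} [Preorder P]

/-- the restriction of a forced preorder to subsets closed under a function which witnesses the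
failure of the relation -/
def resPN (x : PN P X) (PA : Set P) (XA : Set X) (ht : x.top ∈ XA)
    (hf : ∀ p ∈ PA, ∀ u ∈ XA, ∀ v ∈ XA, ¬ x.le p u v →
      ∃ q ∈ PA, q ≤ p ∧ ∀ r ≤ q, ¬ x.le r u v) : PN PA XA where
  le p u v := x.le p.1 u.1 v.1
  top := ⟨x.top, ht⟩
  refl p u := x.refl _ _
  trans p u v w h1 h2 := x.trans _ _ _ _ h1 h2
  le_top p u := x.le_top _ _
  mono p q u v h h1 := x.mono _ _ _ _ h h1
  dense p u v h := by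
    by_contra hc
    obtain ⟨q, hq, hqp, h1⟩ := hf p.1 p.2 u.1 u.2 v.1 v.2 hc
    obtain ⟨r, hr, h2⟩ := h ⟨q, hq⟩ hqp
    exact h1 r.1 hr h2

/-- a counterexample to `CDC` in the submodel `a` -/
structure BadCDC (x : PN P X) (KA : Set κ.ord.ToType) (PA : Set P) (XA : Set X)
    (δ : κ.ord.ToType) (y : κ.ord.ToType → X) (act : κ.ord.ToType → Set P) : Prop where
  del : δ ∈ KA
  mem : ∀ i < δ, y i ∈ XA
  low : ∀ i < δ, ∀ p ∈ PA, p ∈ act i → ∀ q ∈ PA, q ≤ p → q ∈ act i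
  dir : ∀ i < δ, ∀ j < δ, ∀ p ∈ PA, p ∈ act i → p ∈ act j → ∃ q ∈ PA, q ≤ p ∧ ∃ k < δ,
    q ∈ act k ∧ x.le q (y k) (y i) ∧ x.le q (y k) (y j)
  no : ¬ ∃ z ∈ XA, ∀ i < δ, ∀ p ∈ PA, p ∈ act i → x.le p z (y i)

theorem exists_badCDC (x : PN P X) {γ : κ.ord.ToType} {PA : Set P} {XA : Set X}
    (x' : PN PA XA) (hres : IsRes x' x.le) (h : ¬ x'.CDC #(Iio γ)) :
    ∃ δ y act, BadCDC x (Iio γ) PA XA δ y act := by
  unfold PN.CDC at h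
  push Not at h
  obtain ⟨I, y, act, hI, hlow, hdir, hno⟩ := h
  have hIκ : #I < κ := hI.trans (Pool.Agent.Helper96.Fc.mk_Iio_lt' γ)
  obtain ⟨δ, hδ⟩ := Pool.Agent.Helper96.Fc.exists_Iio_eq hIκ
  have hδγ : δ < γ := by
    by_contra hc
    have h1 : #(Iio γ) ≤ #(Iio δ) := mk_le_mk_of_subset (Iio_subset_Iio (not_lt.1 hc))
    rw [hδ] at h1
    exact absurd hI (not_lt.2 h1)
  obtain ⟨e⟩ := Cardinal.eq.1 hδ
  classical
  refine ⟨δ, fun i => if hi : i < δ then (y (e ⟨i, hi⟩)).1 else x.top,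
    fun i => {p | ∃ (hi : i < δ) (hp : p ∈ PA), (⟨p, hp⟩ : PA) ∈ act (e ⟨i, hi⟩)}, ?_⟩
  refine ⟨hδγ, ?_, ?_, ?_, ?_⟩
  · intro i hi
    rw [dif_pos hi]
    exact (y _).2
  · rintro i hi p hp ⟨hi', hp', h1⟩ q hq hqp
    exact ⟨hi, hq, hlow _ _ h1 ⟨q, hq⟩ hqp⟩
  · rintro i hi j hj p hp ⟨hi', hp', h1⟩ ⟨hj', hp'', h2⟩
    obtain ⟨q, hq, k, hk, h3, h4⟩ := hdir _ _ _ h1 h2
    obtain ⟨⟨k', hk'⟩, rfl⟩ := e.surjective k
    have hk2 : k' < δ := hk'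
    refine ⟨q.1, q.2, hq, k', hk2, ⟨hk2, q.2, hk⟩, ?_, ?_⟩
    · rw [dif_pos hk2, dif_pos hi]
      exact (hres _ _ _).1 h3
    · rw [dif_pos hk2, dif_pos hj]
      exact (hres _ _ _).1 h4
  · rintro ⟨z, hz, h1⟩
    obtain ⟨i, p, hp, h2⟩ := hno ⟨z, hz⟩
    obtain ⟨⟨i', hi'⟩, rfl⟩ := e.surjective i
    refine h2 ((hres _ _ _).2 ?_)
    have hi2 : i' < δ := hi'
    have h3 := h1 i' hi2 p.1 p.2 ⟨hi2, p.2, hp⟩
    rw [dif_pos hi2] at h3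
    exact h3

theorem ev_down (hU : Msr κ U) (hu : ℵ₀ < κ) (hr : κ.IsRegular) (kS : Srt U κ.ord.ToType)
    (hk : ∀ᶠ a in (U : Filter (Set H)), ∃ γ : κ.ord.ToType, kS.inn a = Iio γ ∧
      Inac (γ : WithTop κ.ord.ToType))
    (pS : Srt U P) (xS : Srt U X) (x : PN P X) (hx : x.CDC κ) :
    ∀ᶠ a in (U : Filter (Set H)), ∃ (ht : x.top ∈ xS.inn a) (x' : PN (pS.inn a) (xS.inn a)),
      x'.top = ⟨x.top, ht⟩ ∧ IsRes x' x.le ∧ x'.CDC #(kS.inn a) := by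
  classical
  -- witnesses for the failure of the relation
  have hw : ∀ z : P × X × X, ∃ q : P, ¬ x.le z.1 z.2.1 z.2.2 →
      q ≤ z.1 ∧ ∀ r ≤ q, ¬ x.le r z.2.1 z.2.2 := by
    intro z
    by_cases h : x.le z.1 z.2.1 z.2.2
    · exact ⟨z.1, fun h' => absurd h h'⟩
    · have h1 : ¬ ∀ q ≤ z.1, ∃ r ≤ q, x.le r z.2.1 z.2.2 := fun h' => h (x.dense _ _ _ h')
      push Not at h1
      obtain ⟨q, hq, h2⟩ := h1
      exact ⟨q, fun _ => ⟨hq, h2⟩⟩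
  choose w hw using hw
  have hcl := Srt.closed (pS.prod (xS.prod xS)) pS w
  by_contra hcon
  rw [← Ultrafilter.eventually_not] at hcon
  have hbad : ∀ᶠ a in (U : Filter (Set H)),
      ∃ d : κ.ord.ToType × (κ.ord.ToType → X) × (κ.ord.ToType → Set P),
        BadCDC x (kS.inn a) (pS.inn a) (xS.inn a) d.1 d.2.1 d.2.2 := by
    filter_upwards [hcon, hcl, hk, xS.fine x.top] with a h1 h2 h3 h4
    obtain ⟨γ, hγ, -⟩ := h3
    have hf : ∀ p ∈ pS.inn a, ∀ u ∈ xS.inn a, ∀ v ∈ xS.inn a, ¬ x.le p u v →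
        ∃ q ∈ pS.inn a, q ≤ p ∧ ∀ r ≤ q, ¬ x.le r u v := by
      intro p hp u hu' v hv hn
      exact ⟨w (p, u, v), h2 (p, u, v) ⟨hp, hu', hv⟩, (hw (p, u, v) hn).1, (hw (p, u, v) hn).2⟩
    have h5 : ¬ (resPN x (pS.inn a) (xS.inn a) h4 hf).CDC #(kS.inn a) := by
      intro hc
      exact h1 ⟨h4, resPN x (pS.inn a) (xS.inn a) h4 hf, rfl, fun _ _ _ => Iff.rfl, hc⟩
    rw [hγ] at h5 ⊢
    obtain ⟨δ, y, act, hb⟩ := exists_badCDC x _ (fun _ _ _ => Iff.rfl) h5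
    exact ⟨(δ, y, act), hb⟩
  obtain ⟨d, hd⟩ := hbad.choice
  obtain ⟨δ, hδ⟩ := kS.normal (fun a => (d a).1) (hd.mono fun a h => h.del)
  have hsm : #(Iio δ) < κ := Pool.Agent.Helper96.Fc.mk_Iio_lt' δ
  obtain ⟨g, hg⟩ := Srt.seq hU xS hsm (fun a (i : Iio δ) => (d a).2.1 i.1) (by
    filter_upwards [hd, hδ] with a h1 h2 i
    exact h1.mem i.1 (by rw [h2]; exact i.2))
  have hlift : ∀ i : Iio δ, ∃ Z : Set P,
      (∀ p, p ∈ Z ↔ ∀ᶠ a in (U : Filter (Set H)), p ∈ (d a).2.2 i.1) ∧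
      ∀ᶠ a in (U : Filter (Set H)), ∀ p ∈ pS.inn a, p ∈ Z ↔ p ∈ (d a).2.2 i.1 :=
    fun i => Srt.lift pS (fun a => (d a).2.2 i.1)
  choose Z hZ1 hZ2 using hlift
  have hZ3 := hU.compl (Iio δ) (fun i a => ∀ p ∈ pS.inn a, p ∈ Z i ↔ p ∈ (d a).2.2 i.1) hsm hZ2
  obtain ⟨z, hz⟩ := hx (Iio δ) g Z hsm (by
    intro i p hp q hqp
    rw [hZ1] at hp ⊢
    filter_upwards [hp, hd, hδ, pS.fine p, pS.fine q] with a h1 h2 h3 h4 h5
    exact h2.low i.1 (by rw [h3]; exact i.2) p h4 h1 q h5 hqp) (by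
    intro i j p hpi hpj
    rw [hZ1] at hpi hpj
    have h1 : ∀ᶠ a in (U : Filter (Set H)), ∃ c : P × κ.ord.ToType, c.1 ∈ pS.inn a ∧ c.1 ≤ p ∧
        c.2 < δ ∧ c.2 ∈ kS.inn a ∧ c.1 ∈ (d a).2.2 c.2 ∧
        x.le c.1 ((d a).2.1 c.2) ((d a).2.1 i.1) ∧ x.le c.1 ((d a).2.1 c.2) ((d a).2.1 j.1) := by
      filter_upwards [hpi, hpj, hd, hδ, pS.fine p, hk] with a h1 h2 h3 h4 h5 h6
      obtain ⟨q, hq, hqp, k, hk', h7, h8, h9⟩ := h3.dir i.1 (by rw [h4]; exact i.2) j.1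
        (by rw [h4]; exact j.2) p h5 h1 h2
      obtain ⟨γ, hγ, -⟩ := h6
      refine ⟨(q, k), hq, hqp, ?_, ?_, h7, h8, h9⟩
      · rwa [h4] at hk'
      · have h10 := h3.del
        rw [hγ] at h10 ⊢
        exact hk'.trans h10
    obtain ⟨c, hc⟩ := h1.choice
    obtain ⟨q, hq⟩ := pS.normal (fun a => (c a).1) (hc.mono fun a h => h.1)
    obtain ⟨k, hk'⟩ := kS.normal (fun a => (c a).2) (hc.mono fun a h => h.2.2.2.1)
    have h2 := hc.and (hq.and (hk'.and hg))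
    obtain ⟨a, ha, hqa, hka, hga⟩ := h2.exists
    have hkδ : k < δ := by rw [← hka]; exact ha.2.2.1
    refine ⟨q, ?_, ⟨k, hkδ⟩, ?_, ?_, ?_⟩
    · rw [← hqa]; exact ha.2.1
    · rw [hZ1]
      filter_upwards [hc, hq, hk'] with a h1 h2 h3
      have h4 := h1.2.2.2.2.1
      rw [h2, h3] at h4
      exact h4
    · rw [← hga ⟨k, hkδ⟩, ← hga i]
      have h4 := ha.2.2.2.2.2.1
      rw [hqa, hka] at h4
      exact h4
    · rw [← hga ⟨k, hkδ⟩, ← hga j]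
      have h4 := ha.2.2.2.2.2.2
      rw [hqa, hka] at h4
      exact h4)
  obtain ⟨a, h1, h2, h3, h4, h5⟩ := (hd.and (hδ.and (hg.and (hZ3.and (xS.fine z))))).exists
  refine h1.no ⟨z, h5, fun i hi p hp hpi => ?_⟩
  rw [h2] at hi
  have h6 := hz ⟨i, hi⟩ p ((h4 ⟨i, hi⟩ p hp).2 hpi)
  rwa [← h3 ⟨i, hi⟩] at h6

end R4

end Pool.Agent.Helper92.PR
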