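import Pool.Agent.Helper92.PR.Msr
import Pool.Agent.Helper96.Fc.Card

/-!
# Block I3: the recursive construction of the iteration
-/

open Cardinal Set

set_option linter.unusedSectionVars false

namespace Pool.Agent.Helper92.PR

theorem PN.ext_of {P X : Type} [Preorder P] {x y : PN P X} (h : ∀ p u v, x.le p u v ↔ y.le p u v)
    (ht : x.top = y.top) : x = y := by
  cases x
  cases y
  simp only at ht
  subst ht
  congr
  funext p u v
  exact propext (h p u v)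

/-- transport of ultrafilter names along order isomorphisms -/
theorem HasUlt.of_orderIso {E E' K : Type} [Preorder E] [Preorder E'] [LinearOrder K]
    {μ : Cardinal.{0}} (φ : E ≃o E') (hU : HasUlt E K μ) : HasUlt E' K μ := by
  obtain ⟨U, hU⟩ := hU
  have key : ∀ A : Set E', Reg A → Reg (φ ⁻¹' A) := by
    intro A hA
    refine ⟨fun p hp q hq => hA.lower _ hp _ (φ.monotone hq), fun p hp => hA.dense _ ?_⟩
    intro q hq
    obtain ⟨r, hr, hrA⟩ := hp (φ.symm q) (by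
      have h1 := φ.symm.monotone hq
      rwa [φ.symm_apply_apply] at h1)
    exact ⟨φ r, by have h1 := φ.monotone hr; rwa [φ.apply_symm_apply] at h1, hrA⟩
  refine ⟨fun A => {e | φ.symm e ∈ U (fun η => φ ⁻¹' (A η))}, ⟨?_, ?_, ?_, ?_, ?_⟩⟩
  · intro A hA
    have h1 := hU.reg _ (fun η => key _ (hA η))
    refine ⟨fun p hp q hq => h1.lower _ hp _ (φ.symm.monotone hq), fun p hp => h1.dense _ ?_⟩
    intro q hq
    obtain ⟨r, hr, hrA⟩ := hp (φ q) (by
      have h2 := φ.monotone hq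
      rwa [φ.apply_symm_apply] at h2)
    exact ⟨φ.symm r, by have h2 := φ.symm.monotone hr; rwa [φ.symm_apply_apply] at h2, hrA⟩
  · intro A A' hA hA' p hp h
    refine hU.mono _ _ (fun η => key _ (hA η)) (fun η => key _ (hA' η)) _ hp ?_
    intro q hq η hqA
    refine h (φ q) ?_ η hqA
    have h2 := φ.monotone hq
    rwa [φ.apply_symm_apply] at h2
  · intro A hA p
    obtain ⟨q, hq, h1⟩ := hU.ultra _ (fun η => key _ (hA η)) (φ.symm p)
    refine ⟨φ q, by have h2 := φ.monotone hq; rwa [φ.apply_symm_apply] at h2, ?_⟩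
    rcases h1 with h1 | h1
    · left
      rw [Set.mem_ofPred_eq, φ.symm_apply_apply]
      exact h1
    · right
      rw [Set.mem_ofPred_eq, φ.symm_apply_apply]
      have h3 : (fun η => φ ⁻¹' (neg (A η))) = fun η => neg (φ ⁻¹' (A η)) := by
        funext η
        ext e
        constructor
        · intro he f hf hfA
          exact he (φ f) (φ.monotone hf) hfA
        · intro he f hf hfA
          refine he (φ.symm f) ?_ ?_
          · have h4 := φ.symm.monotone hf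
            rwa [φ.symm_apply_apply] at h4
          · change φ (φ.symm f) ∈ A η
            rwa [φ.apply_symm_apply]
      rw [h3]
      exact h1
  · intro I A hI hA p hp
    have h1 := hU.inter I (fun i η => φ ⁻¹' (A i η)) hI (fun i η => key _ (hA i η)) (φ.symm p) hp
    have h2 : (fun η => φ ⁻¹' (⋂ i, A i η)) = fun η => ⋂ i, φ ⁻¹' (A i η) := by
      funext η
      exact preimage_iInter
    change φ.symm p ∈ U (fun η => φ ⁻¹' (⋂ i, A i η))
    rw [h2]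
    exact h1
  · intro A hA p hp ζ
    obtain ⟨q, hq, η, hη, h1⟩ := hU.unbdd _ (fun η => key _ (hA η)) _ hp ζ
    exact ⟨φ q, by have h2 := φ.monotone hq; rwa [φ.apply_symm_apply] at h2, η, hη, h1⟩

section

variable {K : Type} [LinearOrder K] {o : K}

/-- `s` is a bad stage over `L` at `ξ` -/
def BadAt (L : It o) (ξ : K) (s : Stg K) : Prop :=
  ∃ k, o < k ∧ s.ν = Iio k ∧ ∃ x : PN L.Cond s.ν, x.top.1 = o ∧
    (∀ p u v, x.le p u v ↔ s.rel p.1 u.1 v.1) ∧ x.CDC #(Iio ξ) ∧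
      ¬ HasUlt (Two x) (Iio ξ) #(Iio ξ)

theorem exists_minBad (L : It o) (ξ : K) (h : ∃ s, BadAt L ξ s) :
    ∃ s, BadAt L ξ s ∧ ∀ t, BadAt L ξ t → #s.ν ≤ #t.ν := by
  obtain ⟨s, hs, h1⟩ := (InvImage.wf (fun s : Stg K => #s.ν) Cardinal.lt_wf).has_min
    {s | BadAt L ξ s} h
  exact ⟨s, hs, fun t ht => not_lt.1 (h1 t ht)⟩

open Classical in
/-- the next stage -/
noncomputable def step (L : It o) (ξ : K) : Stg K :=
  if h : (Inac (ξ : WithTop K) ∧ Clo L ξ) ∧ ∃ s, BadAt L ξ s then (exists_minBad L ξ h.2).choose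
  else trv o

open Classical in
/-- the next stage, raw data -/
noncomputable def stp (o : K) (L : K → Stg K) (ξ : K) : Stg K :=
  if h : ∀ ζ, StOK o L ζ then step ⟨L, h⟩ ξ else trv o

variable [WellFoundedLT K]

open Classical in
variable (o) in
/-- the raw data of the iteration -/
noncomputable def raw : K → Stg K :=
  (wellFounded_lt (α := K)).fix fun ξ f => stp o (fun η => if h : η < ξ then f η h else trv o) ξ

variable (o) in
theorem raw_eq (ξ : K) : raw o ξ = stp o (trR o (Iio ξ) (raw o)) ξ := by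
  unfold raw
  rw [WellFounded.fix_eq]
  congr 1
  funext η
  unfold trR
  by_cases h : η < ξ
  · rw [dif_pos h, if_pos (show η ∈ Iio ξ from h)]
  · rw [dif_neg h, if_neg (show η ∉ Iio ξ from h)]

theorem stOK_tr {L : K → Stg K} {ξ : K} (h : ∀ η < ξ, StOK o L η) :
    ∀ ζ, StOK o (trR o (Iio ξ) L) ζ := by
  intro ζ
  by_cases hζ : ζ ∈ Iio ξ
  · have h1 : trR o (Iio ζ) (trR o (Iio ξ) L) = trR o (Iio ζ) L :=
      trR_trR (Iio_subset_Iio (le_of_lt hζ)) _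
    have h2 := h ζ hζ
    refine ⟨?_, ?_, ?_, ?_, ?_, ?_⟩
    all_goals rw [trR_of_mem hζ]
    · exact h2.mem
    · rw [h1]; exact h2.refl
    · rw [h1]; exact h2.trans
    · rw [h1]; exact h2.top
    · rw [h1]; exact h2.mono
    · rw [h1]; exact h2.dense
  · refine ⟨?_, ?_, ?_, ?_, ?_, ?_⟩
    all_goals rw [trR_of_not_mem hζ]
    · rfl
    all_goals intros; trivial

theorem step_cases (L : It o) (ξ : K) :
    (((Inac (ξ : WithTop K) ∧ Clo L ξ) ∧ BadAt L ξ (step L ξ)) ∧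
      ∀ t, BadAt L ξ t → #(step L ξ).ν ≤ #t.ν) ∨
    ((¬ ((Inac (ξ : WithTop K) ∧ Clo L ξ) ∧ ∃ s, BadAt L ξ s)) ∧ step L ξ = trv o) := by
  by_cases h : (Inac (ξ : WithTop K) ∧ Clo L ξ) ∧ ∃ s, BadAt L ξ s
  · left
    have h1 := (exists_minBad L ξ h.2).choose_spec
    have h2 : step L ξ = (exists_minBad L ξ h.2).choose := dif_pos h
    rw [h2]
    exact ⟨⟨h.1, h1.1⟩, h1.2⟩
  · right
    exact ⟨h, dif_neg h⟩

theorem stOK_of_bad {L : K → Stg K} {ξ : K} (h : ∀ ζ, StOK o (trR o (Iio ξ) L) ζ)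
    (hb : BadAt ⟨trR o (Iio ξ) L, h⟩ ξ (L ξ)) : StOK o L ξ := by
  obtain ⟨k, hok, hν, x, hx, hle, hc, hn⟩ := hb
  refine ⟨?_, ?_, ?_, ?_, ?_, ?_⟩
  · rw [← hx]; exact x.top.2
  · intro p hp u hu
    exact (hle ⟨p, hp⟩ ⟨u, hu⟩ ⟨u, hu⟩).1 (x.refl _ _)
  · intro p hp u hu v hv w hw h1 h2
    exact (hle ⟨p, hp⟩ ⟨u, hu⟩ ⟨w, hw⟩).1 (x.trans _ _ _ _
      ((hle ⟨p, hp⟩ ⟨u, hu⟩ ⟨v, hv⟩).2 h1) ((hle ⟨p, hp⟩ ⟨v, hv⟩ ⟨w, hw⟩).2 h2))
  · intro p hp u hu
    have h1 := (hle ⟨p, hp⟩ ⟨u, hu⟩ x.top).1 (x.le_top _ _)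
    rwa [hx] at h1
  · intro p q hp hq hqp u hu v hv h1
    exact (hle ⟨q, hq⟩ ⟨u, hu⟩ ⟨v, hv⟩).1 (x.mono ⟨p, hp⟩ ⟨q, hq⟩ _ _ hqp
      ((hle ⟨p, hp⟩ ⟨u, hu⟩ ⟨v, hv⟩).2 h1))
  · intro p hp u hu v hv h1
    refine (hle ⟨p, hp⟩ ⟨u, hu⟩ ⟨v, hv⟩).1 (x.dense _ _ _ ?_)
    intro q hq
    obtain ⟨r, hr, hrq, h2⟩ := h1 q.1 q.2 hq
    exact ⟨⟨r, hr⟩, hrq, (hle ⟨r, hr⟩ ⟨u, hu⟩ ⟨v, hv⟩).2 h2⟩

theorem stOK_of_trv {L : K → Stg K} {ξ : K} (h : L ξ = trv o) : StOK o L ξ := by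
  refine ⟨?_, ?_, ?_, ?_, ?_, ?_⟩
  all_goals rw [h]
  · rfl
  all_goals intros; trivial

variable (o) in
theorem raw_stOK : ∀ ξ, StOK o (raw o) ξ := by
  intro ξ
  induction ξ using WellFoundedLT.induction with
  | ind ξ ih =>
    have h1 := stOK_tr ih
    have h2 : raw o ξ = step ⟨trR o (Iio ξ) (raw o), h1⟩ ξ := by
      rw [raw_eq]
      exact dif_pos h1
    rcases step_cases ⟨trR o (Iio ξ) (raw o), h1⟩ ξ with h3 | h3
    · refine stOK_of_bad h1 ?_
      rw [h2]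
      exact h3.1.2
    · exact stOK_of_trv (h2.trans h3.2)

variable (o) in
/-- the iteration -/
noncomputable def theIt : It o := ⟨raw o, raw_stOK o⟩

variable (o) in
theorem theIt_step (ξ : K) : (theIt o).L ξ = step ((theIt o).tr (LowerSet.Iio ξ)) ξ := by
  have h1 : ∀ ζ, StOK o (trR o (Iio ξ) (raw o)) ζ := stOK_tr fun η _ => raw_stOK o η
  have h2 : raw o ξ = step ⟨trR o (Iio ξ) (raw o), h1⟩ ξ := by
    rw [raw_eq]
    exact dif_pos h1
  exact h2

theorem st_eq_of {L : It o} {ξ : K} (x : PN (L.tr (LowerSet.Iio ξ)).Cond (L.L ξ).ν)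
    (hx : x.top.1 = o) (hle : ∀ p u v, x.le p u v ↔ (L.L ξ).rel p.1 u.1 v.1) : x = L.st ξ :=
  PN.ext_of hle (Subtype.ext hx)

/-- the stage is trivial, or it is bad -/
theorem bad_st {L : It o} {ξ : K} (h : BadAt (L.tr (LowerSet.Iio ξ)) ξ (L.L ξ)) :
    (∃ k, o < k ∧ (L.L ξ).ν = Iio k) ∧ (L.st ξ).CDC #(Iio ξ) ∧
      ¬ HasUlt (Two (L.st ξ)) (Iio ξ) #(Iio ξ) := by
  obtain ⟨k, hok, hν, x, hx, hle, hc, hn⟩ := h
  have h1 := st_eq_of x hx hle
  subst h1
  exact ⟨⟨k, hok, hν⟩, hc, hn⟩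

theorem Clo_tr {L : It o} {ξ : K} : Clo (L.tr (LowerSet.Iio ξ)) ξ ↔ Clo L ξ := by
  have h1 : ∀ η : K, (η : WithTop K) < ξ → (L.tr (LowerSet.Iio ξ)).L η = L.L η := by
    intro η hη
    exact trR_of_mem (S := Iio ξ) (show η ∈ Iio ξ from WithTop.coe_lt_coe.1 hη)
  constructor
  · intro h η hη
    obtain ⟨β, hβ, h2⟩ := h η hη
    rw [h1 η hη] at h2
    exact ⟨β, hβ, h2⟩
  · intro h η hη
    obtain ⟨β, hβ, h2⟩ := h η hη
    rw [← h1 η hη] at h2
    exact ⟨β, hβ, h2⟩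

theorem rel_of_trv {s : Stg K} (h : s = trv o) (p : K → K) (u v : K) : s.rel p u v := by
  rw [h]
  trivial

theorem cdc_of_triv {P X : Type} [Preorder P] (x : PN P X) (h : ∀ p u v, x.le p u v)
    (μ : Cardinal.{0}) : x.CDC μ :=
  fun _ _ _ _ _ _ => ⟨x.top, fun _ _ _ => h _ _ _⟩

/-- a small bad forced preorder gives a bad stage -/
theorem exists_badAt (L : It o) (ho : ∀ k, o ≤ k) (ξ k : K) {Y : Type} (y : PN L.Cond Y)
    (hk : #(Iio k) = #Y) (hc : y.CDC #(Iio ξ)) (hn : ¬ HasUlt (Two y) (Iio ξ) #(Iio ξ)) :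
    ∃ s, BadAt L ξ s ∧ #s.ν = #Y := by
  classical
  obtain ⟨e0⟩ := Cardinal.eq.1 hk
  have hok : o < k := (ho _).trans_lt (e0.symm y.top).2
  set e : Iio k ≃ Y := e0.trans (Equiv.swap (e0 ⟨o, hok⟩) y.top) with he
  have heo : e ⟨o, hok⟩ = y.top := by
    rw [he, Equiv.trans_apply, Equiv.swap_apply_left]
  let s : Stg K := ⟨Iio k, fun p u v => ∃ (hp : okC o L.L p) (hu : u ∈ Iio k) (hv : v ∈ Iio k),
    y.le ⟨p, hp⟩ (e ⟨u, hu⟩) (e ⟨v, hv⟩)⟩
  let x : PN L.Cond (Iio k) :=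
    { le := fun p u v => y.le p (e u) (e v)
      top := ⟨o, hok⟩
      refl := fun p u => y.refl _ _
      trans := fun p u v w h1 h2 => y.trans _ _ _ _ h1 h2
      le_top := fun p u => by rw [heo]; exact y.le_top _ _
      mono := fun p q u v h h1 => y.mono _ _ _ _ h h1
      dense := fun p u v h => y.dense _ _ _ h }
  refine ⟨s, ⟨k, hok, rfl, x, rfl, ?_, ?_, ?_⟩, hk⟩
  · intro p u v
    refine ⟨fun h => ⟨p.2, u.2, v.2, h⟩, fun h => ?_⟩
    obtain ⟨_, _, _, h⟩ := h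
    exact h
  · intro I z a hI ha hd
    obtain ⟨w, hw⟩ := hc I (fun i => e (z i)) a hI ha hd
    refine ⟨e.symm w, fun i p hp => ?_⟩
    change y.le p (e (e.symm w)) (e (z i))
    rw [e.apply_symm_apply]
    exact hw i p hp
  · intro hU
    refine hn (hU.of_orderIso (E' := Two y) ?_)
    exact
      { toFun := fun r => (r.1, e r.2)
        invFun := fun r => (r.1, e.symm r.2)
        left_inv := fun r => Prod.ext rfl (e.symm_apply_apply _)
        right_inv := fun r => Prod.ext rfl (e.apply_symm_apply _)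
        map_rel_iff' := Iff.rfl }

end

section I3
variable {κ : Cardinal.{0}}

/-- **I3** The recursive construction of the iteration. -/
theorem exists_It (hu : ℵ₀ < κ) (hr : κ.IsRegular) (hl : ∀ a < κ, 2 ^ a < κ)
    (o : κ.ord.ToType) (ho : ∀ k, o ≤ k) : ∃ L : It o, GoodIt L := by
  have hcase := fun ξ => step_cases ((theIt o).tr (LowerSet.Iio ξ)) ξ
  have hstep := theIt_step o
  refine ⟨theIt o, ⟨?_, ?_, ?_, ?_⟩⟩
  · intro ξ hξ
    have h1 := hcase ξ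
    rw [← hstep ξ] at h1
    rcases h1 with h1 | h1
    · exact ⟨h1.1.1.1, Clo_tr.1 h1.1.1.2⟩
    · exact absurd (by rw [h1.2]; rfl) hξ
  · intro ξ
    have h1 := hcase ξ
    rw [← hstep ξ] at h1
    rcases h1 with h1 | h1
    · obtain ⟨⟨k, -, hk⟩, -⟩ := bad_st h1.1.2
      exact ⟨k, hk.subset⟩
    · obtain ⟨k, hk⟩ := Pool.Agent.Helper96.Fc.exists_Iio_eq (κ := κ) (one_lt_aleph0.trans hu)
      have h2 : (Iio k).Nonempty := by
        rw [nonempty_iff_ne_empty]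
        intro h3
        rw [h3, Cardinal.mk_eq_zero] at hk
        exact zero_ne_one hk
      obtain ⟨j, hj⟩ := h2
      refine ⟨k, ?_⟩
      rw [h1.2]
      intro u hu
      have hu' : u = o := hu
      rw [hu']
      exact (ho j).trans_lt hj
  · intro ξ
    have h1 := hcase ξ
    rw [← hstep ξ] at h1
    rcases h1 with h1 | h1
    · exact (bad_st h1.1.2).2.1
    · refine cdc_of_triv _ (fun p u v => ?_) _
      exact rel_of_trv h1.2 p.1 u.1 v.1
  · intro ξ hξ hclo Y y hY hc hn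
    obtain ⟨k, hk⟩ := Pool.Agent.Helper96.Fc.exists_Iio_eq hY
    obtain ⟨s, hs, hsY⟩ := exists_badAt _ ho ξ k y hk hc hn
    have h1 := hcase ξ
    rw [← hstep ξ] at h1
    rcases h1 with h1 | h1
    · exact ⟨(bad_st h1.1.2).2.2, (h1.2 s hs).trans hsY.le⟩
    · exact absurd ⟨⟨hξ, Clo_tr.2 hclo⟩, s, hs⟩ h1.1

end I3

end Pool.Agent.Helper92.PR
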