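import Pool.Agent.Helper92.PR.Msr

/-!
# Extending a condition by a condition of the next stage
-/

open Cardinal Set

set_option linter.unusedSectionVars false

namespace Pool.Agent.Helper92.PR

section I1
variable {K : Type} [LinearOrder K] {o : K} (L : It o)

theorem It.ext1_lt {γ : K} (p : (L.tr (LowerSet.Iio γ)).Cond) (j : (L.L γ).ν) {η : K}
    (h : η < γ) : (L.ext1 γ p j).1 η = p.1 η := if_pos h

theorem It.ext1_self {γ : K} (p : (L.tr (LowerSet.Iio γ)).Cond) (j : (L.L γ).ν) :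
    (L.ext1 γ p j).1 γ = j.1 := (if_neg (lt_irrefl _)).trans (if_pos rfl)

theorem It.cut_ext1 {γ : K} (p : (L.tr (LowerSet.Iio γ)).Cond) (j : (L.L γ).ν) :
    cut o (Iio γ) (L.ext1 γ p j).1 = p.1 := by
  funext η
  by_cases h : η ∈ Iio γ
  · rw [cut_of_mem h, L.ext1_lt p j h]
  · rw [cut_of_not_mem h]
    exact (L.val_eq p h).symm

theorem It.cut_ext1' {γ η : K} (h : η < γ) (p : (L.tr (LowerSet.Iio γ)).Cond) (j : (L.L γ).ν) :
    cut o (Iio η) (L.ext1 γ p j).1 = cut o (Iio η) p.1 :=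
  cut_congr fun _ hζ => L.ext1_lt p j (lt_trans hζ h)

/-- **I1** -/
theorem It.ext1_le {γ : K} {p p' : (L.tr (LowerSet.Iio γ)).Cond} {j j' : (L.L γ).ν} :
    L.ext1 γ p j ≤ L.ext1 γ p' j' ↔ p ≤ p' ∧ (L.st γ).le p j j' := by
  constructor
  · intro h
    refine ⟨(L.tr_le_of fun η hη => ?_), ?_⟩
    · have hη' : η < γ := hη
      have h1 := L.tr_rel h (show η ∈ ((LowerSet.Iic γ : LowerSet K) : Set K) from hη'.le)
      rwa [L.cut_ext1' hη', L.ext1_lt p j hη', L.ext1_lt p' j' hη'] at h1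
    · have h1 := L.tr_rel h (show γ ∈ ((LowerSet.Iic γ : LowerSet K) : Set K) from le_rfl)
      rw [L.cut_ext1, L.ext1_self, L.ext1_self] at h1
      exact h1
  · rintro ⟨h1, h2⟩
    refine L.tr_le_of fun η hη => ?_
    rcases lt_or_eq_of_le (show η ≤ γ from hη) with hη' | rfl
    · rw [L.cut_ext1' hη', L.ext1_lt p j hη', L.ext1_lt p' j' hη']
      exact L.tr_rel h1 hη'
    · rw [L.cut_ext1, L.ext1_self, L.ext1_self]
      exact h2

theorem It.exists_ext1 {γ : K} (r : (L.tr (LowerSet.Iic γ)).Cond) : ∃ p j, r = L.ext1 γ p j := by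
  refine ⟨L.cutC (LowerSet.Iio γ) (L.emb _ r), ⟨r.1 γ, (L.emb _ r).2.mem γ⟩, ?_⟩
  apply (L.tr (LowerSet.Iic γ)).ext'
  intro η
  rcases lt_trichotomy η γ with h | rfl | h
  · rw [L.ext1_lt _ _ h]
    exact (cut_of_mem (S := Iio γ) h).symm
  · rw [L.ext1_self]
  · have h1 : (L.ext1 γ (L.cutC (LowerSet.Iio γ) (L.emb _ r))
        ⟨r.1 γ, (L.emb _ r).2.mem γ⟩).1 η = o :=
      (if_neg h.le.not_gt).trans (if_neg h.ne')
    rw [h1]
    exact L.val_eq r (not_le.2 h)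

/-- `p⌢j⌢τ ≤ p` -/
theorem It.join_ext1_le {γ : K} (p : (L.tr (LowerSet.Iio γ)).Cond) (j : (L.L γ).ν) (τ : L.Cond) :
    L.join (LowerSet.Iic γ) (L.ext1 γ p j) τ ≤ L.emb (LowerSet.Iio γ) p := by
  intro η
  by_cases h : η < γ
  · have hS : η ∈ ((LowerSet.Iic γ : LowerSet K) : Set K) := h.le
    rw [L.join_of_mem hS, L.ext1_lt p j h]
    exact L.rel_refl (L.join (LowerSet.Iic γ) (L.ext1 γ p j) τ) η ((L.emb _ p).2.mem η)
  · have h1 : (L.emb (LowerSet.Iio γ) p).1 η = o := L.val_eq p h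
    rw [h1]
    exact (L.ok η).top _ (okC_cut (L.join _ _ τ).2 _) _ ((L.join _ _ τ).2.mem η)

end I1

end Pool.Agent.Helper92.PR
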