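import Pool.Agent.Helper92.PR.Tool
import Pool.Agent.Helper96.Fc.Card

/-!
# R6: extension of forced preorders
-/

open Cardinal Set

set_option linter.unusedSectionVars false

namespace Pool.Agent.Helper92.PR

section R6
variable {κ : Cardinal.{0}} {H : Type} {U : Ultrafilter (Set H)} {P X : Type} [Preorder P]

/-- almost all `inn a` (for a sort of `κ` with inaccessible values) are larger than `I`. -/
theorem ev_card_lt (kS : Srt U κ.ord.ToType)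
    (hk : ∀ᶠ a in (U : Filter (Set H)), ∃ γ : κ.ord.ToType, kS.inn a = Iio γ ∧
      Inac (γ : WithTop κ.ord.ToType)) {I : Type} (hI : #I < κ) :
    ∀ᶠ a in (U : Filter (Set H)), #I < #(kS.inn a) := by
  obtain ⟨k, hkI⟩ := Helper96.Fc.exists_Iio_eq hI
  filter_upwards [hk, kS.fine k] with a ha hka
  obtain ⟨γ, hγ, hin⟩ := ha
  rw [hγ] at hka ⊢
  have h1 := hin.ini k (WithTop.coe_lt_coe.2 hka)
  rw [hkI] at h1
  have h2 : szW (γ : WithTop κ.ord.ToType) = #(Iio γ) := by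
    unfold szW
    congr 1
    simp only [WithTop.coe_lt_coe]
    rfl
  rwa [h2] at h1

/-- **R6** A relation whose restrictions are almost always forced preorders
with `CDC` is a forced preorder with `CDC κ`. -/
theorem ev_ext (hU : Msr κ U) (hu : ℵ₀ < κ) (hr : κ.IsRegular) (kS : Srt U κ.ord.ToType)
    (hk : ∀ᶠ a in (U : Filter (Set H)), ∃ γ : κ.ord.ToType, kS.inn a = Iio γ ∧
      Inac (γ : WithTop κ.ord.ToType))
    (pS : Srt U P) (xS : Srt U X) (t : X) (r : P → X → X → Prop)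
    (h : ∀ᶠ a in (U : Filter (Set H)), ∃ y : PN (pS.inn a) (xS.inn a), y.top.1 = t ∧ IsRes y r ∧
      y.CDC #(kS.inn a)) :
    ∃ s : PN P X, s.top = t ∧ s.le = r ∧ s.CDC κ := by
  classical
  have hrefl : ∀ p x, r p x x := by
    intro p x
    obtain ⟨a, ⟨y, -, hy, -⟩, hp, hx⟩ := (h.and ((pS.fine p).and (xS.fine x))).exists
    exact (hy ⟨p, hp⟩ ⟨x, hx⟩ ⟨x, hx⟩).1 (y.refl _ _)
  have htrans : ∀ p x y z, r p x y → r p y z → r p x z := by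
    intro p u v w h1 h2
    obtain ⟨a, ⟨y, -, hy, -⟩, hp, hu', hv, hw⟩ :=
      (h.and ((pS.fine p).and ((xS.fine u).and ((xS.fine v).and (xS.fine w))))).exists
    exact (hy ⟨p, hp⟩ ⟨u, hu'⟩ ⟨w, hw⟩).1
      (y.trans _ _ ⟨v, hv⟩ _ ((hy ⟨p, hp⟩ ⟨u, hu'⟩ ⟨v, hv⟩).2 h1)
        ((hy ⟨p, hp⟩ ⟨v, hv⟩ ⟨w, hw⟩).2 h2))
  have htop : ∀ p x, r p x t := by
    intro p x
    obtain ⟨a, ⟨y, ht, hy, -⟩, hp, hx⟩ := (h.and ((pS.fine p).and (xS.fine x))).exists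
    have h1 := (hy ⟨p, hp⟩ ⟨x, hx⟩ y.top).1 (y.le_top _ _)
    rwa [ht] at h1
  have hmono : ∀ p q x y, q ≤ p → r p x y → r q x y := by
    intro p q u v hqp h1
    obtain ⟨a, ⟨y, -, hy, -⟩, hp, hq, hu', hv⟩ :=
      (h.and ((pS.fine p).and ((pS.fine q).and ((xS.fine u).and (xS.fine v))))).exists
    exact (hy ⟨q, hq⟩ ⟨u, hu'⟩ ⟨v, hv⟩).1
      (y.mono ⟨p, hp⟩ ⟨q, hq⟩ _ _ hqp ((hy ⟨p, hp⟩ ⟨u, hu'⟩ ⟨v, hv⟩).2 h1))
  have hdense : ∀ p x y, (∀ q ≤ p, ∃ r' ≤ q, r r' x y) → r p x y := by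
    intro p u v h1
    have h2 : ∀ q : P, ∃ r' : P, q ≤ p → r' ≤ q ∧ r r' u v := by
      intro q
      by_cases hq : q ≤ p
      · obtain ⟨r', hr', h3⟩ := h1 q hq
        exact ⟨r', fun _ => ⟨hr', h3⟩⟩
      · exact ⟨q, fun h3 => absurd h3 hq⟩
    choose f hf using h2
    obtain ⟨a, ⟨y, -, hy, -⟩, hp, hu', hv, hcl⟩ :=
      (h.and ((pS.fine p).and ((xS.fine u).and ((xS.fine v).and (pS.closed pS f))))).exists
    refine (hy ⟨p, hp⟩ ⟨u, hu'⟩ ⟨v, hv⟩).1 (y.dense _ _ _ ?_)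
    rintro ⟨q, hq⟩ hqp
    have hqp' : q ≤ p := hqp
    obtain ⟨h3, h4⟩ := hf q hqp'
    exact ⟨⟨f q, hcl q hq⟩, h3, (hy ⟨f q, hcl q hq⟩ ⟨u, hu'⟩ ⟨v, hv⟩).2 h4⟩
  refine ⟨⟨r, t, hrefl, htrans, htop, hmono, hdense⟩, rfl, rfl, ?_⟩
  intro I y act hI hlow hdir
  change ∃ z, ∀ i, ∀ p ∈ act i, r p z (y i)
  -- choice of the witnesses
  have hch : ∀ i j : I, ∀ p : P, ∃ q : P, ∃ k : I, p ∈ act i → p ∈ act j →
      q ≤ p ∧ q ∈ act k ∧ r q (y k) (y i) ∧ r q (y k) (y j) := by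
    intro i j p
    by_cases hp : p ∈ act i ∧ p ∈ act j
    · obtain ⟨q, hq, k, h1, h2, h3⟩ := hdir i j p hp.1 hp.2
      exact ⟨q, k, fun _ _ => ⟨hq, h1, h2, h3⟩⟩
    · exact ⟨p, i, fun h1 h2 => absurd ⟨h1, h2⟩ hp⟩
  choose q k hqk using hch
  have hII : #(I × I) < κ := by
    rw [mk_prod]
    simpa only [Cardinal.lift_id] using mul_lt_of_lt hu.le hI hI
  have hcl : ∀ᶠ a in (U : Filter (Set H)), ∀ ij : I × I, ∀ p ∈ pS.inn a,
      q ij.1 ij.2 p ∈ pS.inn a :=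
    hU.compl (I × I) (fun ij a => ∀ p ∈ pS.inn a, q ij.1 ij.2 p ∈ pS.inn a) hII
      (fun ij => pS.closed pS (q ij.1 ij.2))
  have hy : ∀ᶠ a in (U : Filter (Set H)), ∀ i, y i ∈ xS.inn a :=
    hU.compl I (fun i a => y i ∈ xS.inn a) hI (fun i => xS.fine (y i))
  have hz : ∀ᶠ a in (U : Filter (Set H)), ∃ z, z ∈ xS.inn a ∧
      ∀ i, ∀ p ∈ pS.inn a, p ∈ act i → r p z (y i) := by
    filter_upwards [h, hcl, hy, ev_card_lt kS hk hI] with a ha hcla hya hIa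
    obtain ⟨w, -, hw, hcdc⟩ := ha
    obtain ⟨z, hz⟩ := hcdc I (fun i => ⟨y i, hya i⟩) (fun i => {p | p.1 ∈ act i}) hIa
      (fun i p hp p' hp' => hlow i p.1 hp p'.1 hp')
      (by
        rintro i j ⟨p, hp⟩ hpi hpj
        obtain ⟨h1, h2, h3, h4⟩ := hqk i j p hpi hpj
        refine ⟨⟨q i j p, hcla (i, j) p hp⟩, h1, k i j p, h2, ?_, ?_⟩
        · exact (hw _ _ _).2 h3
        · exact (hw _ _ _).2 h4)
    exact ⟨z.1, z.2, fun i p hp hpi => (hw ⟨p, hp⟩ z ⟨y i, hya i⟩).1 (hz i ⟨p, hp⟩ hpi)⟩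
  have hf : ∀ᶠ a in (U : Filter (Set H)),
      (if hx : ∃ z, z ∈ xS.inn a ∧ ∀ i, ∀ p ∈ pS.inn a, p ∈ act i → r p z (y i)
        then hx.choose else t) ∈ xS.inn a ∧
      ∀ i, ∀ p ∈ pS.inn a, p ∈ act i →
        r p (if hx : ∃ z, z ∈ xS.inn a ∧ ∀ i, ∀ p ∈ pS.inn a, p ∈ act i → r p z (y i)
          then hx.choose else t) (y i) := by
    refine hz.mono fun a ha => ?_
    rw [dif_pos ha]
    exact ha.choose_spec
  obtain ⟨z, hzc⟩ := xS.normal _ (hf.mono fun a ha => ha.1)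
  refine ⟨z, fun i p hp => ?_⟩
  obtain ⟨a, ⟨ha1, ha2⟩, ha3⟩ := ((hf.and hzc).and (pS.fine p)).exists
  have h1 := ha1.2 i p ha3 hp
  rwa [ha2] at h1

end R6

end Pool.Agent.Helper92.PR
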