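import Pool.Agent.Helper92.PR.Base

/-!
# Iterations with bounded (Easton) supports

`K` is a well-ordered type (the stages and at the same time the names of the conditions at the
stages), `o : K` is the name of the trivial condition.
-/

open Cardinal Set

set_option linter.unusedSectionVars false

namespace Pool.Agent.Helper92.PR

section

variable {K : Type} [LinearOrder K]

/-- the number of the ordinals below `ξ` -/
noncomputable def szW (ξ : WithTop K) : Cardinal.{0} := #{η : K | (η : WithTop K) < ξ}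

/-- `ξ` is an inaccessible cardinal -/
structure Inac (ξ : WithTop K) : Prop where
  unc : ℵ₀ < szW ξ
  reg : (szW ξ).IsRegular
  lim : ∀ a < szW ξ, 2 ^ a < szW ξ
  ini : ∀ η : K, (η : WithTop K) < ξ → #(Iio η) < szW ξ

/-- data of a stage: the names of the conditions, and the relation `p` forces `u ≤ v` -/
structure Stg (K : Type) where
  ν : Set K
  rel : (K → K) → K → K → Prop

variable (o : K)

/-- the trivial stage -/
def trv : Stg K := ⟨{o}, fun _ _ _ => True⟩

open Classical in
/-- the restriction of a condition to the set `S` of stages -/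
noncomputable def cut (S : Set K) (p : K → K) : K → K := fun η => if η ∈ S then p η else o

/-- the order of the iteration -/
def leR (L : K → Stg K) (p q : K → K) : Prop := ∀ η, (L η).rel (cut o (Iio η) p) (p η) (q η)

/-- the supports are bounded below all inaccessible cardinals -/
def Est (p : K → K) : Prop :=
  ∀ ξ : WithTop K, Inac ξ → ∃ β : K, (β : WithTop K) < ξ ∧
    ∀ η, β ≤ η → (η : WithTop K) < ξ → p η = o

/-- conditions of the iteration -/
structure okC (L : K → Stg K) (p : K → K) : Prop where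
  mem : ∀ η, p η ∈ (L η).ν
  est : Est o p

open Classical in
/-- the iteration restricted to the stages in `S` -/
noncomputable def trR (S : Set K) (L : K → Stg K) : K → Stg K := fun η => if η ∈ S then L η else trv o

/-- the stage `ξ` is a forced preorder over the iteration of the stages below `ξ` -/
structure StOK (L : K → Stg K) (ξ : K) : Prop where
  mem : o ∈ (L ξ).ν
  refl : ∀ p, okC o (trR o (Iio ξ) L) p → ∀ u ∈ (L ξ).ν, (L ξ).rel p u u
  trans : ∀ p, okC o (trR o (Iio ξ) L) p → ∀ u ∈ (L ξ).ν, ∀ v ∈ (L ξ).ν, ∀ w ∈ (L ξ).ν,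
    (L ξ).rel p u v → (L ξ).rel p v w → (L ξ).rel p u w
  top : ∀ p, okC o (trR o (Iio ξ) L) p → ∀ u ∈ (L ξ).ν, (L ξ).rel p u o
  mono : ∀ p q, okC o (trR o (Iio ξ) L) p → okC o (trR o (Iio ξ) L) q →
    leR o (trR o (Iio ξ) L) q p → ∀ u ∈ (L ξ).ν, ∀ v ∈ (L ξ).ν, (L ξ).rel p u v → (L ξ).rel q u v
  dense : ∀ p, okC o (trR o (Iio ξ) L) p → ∀ u ∈ (L ξ).ν, ∀ v ∈ (L ξ).ν,
    (∀ q, okC o (trR o (Iio ξ) L) q → leR o (trR o (Iio ξ) L) q p →
      ∃ r, okC o (trR o (Iio ξ) L) r ∧ leR o (trR o (Iio ξ) L) r q ∧ (L ξ).rel r u v) →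
    (L ξ).rel p u v

/-- an iteration -/
structure It where
  L : K → Stg K
  ok : ∀ ξ, StOK o L ξ

variable {o}

theorem cut_of_mem {S : Set K} {p : K → K} {η : K} (h : η ∈ S) : cut o S p η = p η := if_pos h

theorem cut_of_not_mem {S : Set K} {p : K → K} {η : K} (h : η ∉ S) : cut o S p η = o := if_neg h

theorem cut_cut {S T : Set K} (h : S ⊆ T) (p : K → K) : cut o S (cut o T p) = cut o S p := by
  funext η
  by_cases hη : η ∈ S
  · rw [cut_of_mem hη, cut_of_mem hη, cut_of_mem (h hη)]
  · rw [cut_of_not_mem hη, cut_of_not_mem hη]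

theorem trR_of_mem {S : Set K} {L : K → Stg K} {η : K} (h : η ∈ S) : trR o S L η = L η := if_pos h

theorem trR_of_not_mem {S : Set K} {L : K → Stg K} {η : K} (h : η ∉ S) : trR o S L η = trv o :=
  if_neg h

theorem trR_trR {S T : Set K} (h : S ⊆ T) (L : K → Stg K) :
    trR o S (trR o T L) = trR o S L := by
  funext η
  by_cases hη : η ∈ S
  · rw [trR_of_mem hη, trR_of_mem hη, trR_of_mem (h hη)]
  · rw [trR_of_not_mem hη, trR_of_not_mem hη]

theorem Est.cut {p : K → K} (h : Est o p) (S : Set K) : Est o (cut o S p) := by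
  intro ξ hξ
  obtain ⟨β, hβ, h1⟩ := h ξ hξ
  refine ⟨β, hβ, fun η hη hηξ => ?_⟩
  by_cases hS : η ∈ S
  · rw [cut_of_mem hS]; exact h1 η hη hηξ
  · exact cut_of_not_mem hS

theorem okC_cut {L : K → Stg K} {p : K → K} (h : okC o L p) (S : Set K) :
    okC o (trR o S L) (cut o S p) := by
  refine ⟨fun η => ?_, h.est.cut S⟩
  by_cases hS : η ∈ S
  · rw [cut_of_mem hS, trR_of_mem hS]; exact h.mem η
  · rw [cut_of_not_mem hS, trR_of_not_mem hS]; rfl

theorem leR_cut {L : K → Stg K} {p q : K → K} (h : leR o L p q) (S : LowerSet K) :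
    leR o (trR o S L) (cut o S p) (cut o S q) := by
  intro η
  by_cases hS : η ∈ (S : Set K)
  · rw [trR_of_mem hS, cut_of_mem hS, cut_of_mem hS, cut_cut]
    · exact h η
    · intro ζ hζ
      exact S.lower (le_of_lt hζ) hS
  · rw [trR_of_not_mem hS]
    trivial

theorem leR_cut' {L : K → Stg K} {p q : K → K} (h : leR o L p q) (ξ : K) :
    leR o (trR o (Iio ξ) L) (cut o (Iio ξ) p) (cut o (Iio ξ) q) := leR_cut h (LowerSet.Iio ξ)

namespace It

/-- the conditions -/
def Cond (L : It o) : Type := {p : K → K // okC o L.L p}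

variable (L : It o)

instance : Preorder L.Cond where
  le p q := leR o L.L p.1 q.1
  le_refl p η := (L.ok η).refl _ (okC_cut p.2 _) _ (p.2.mem η)
  le_trans p q r h1 h2 η :=
    (L.ok η).trans _ (okC_cut p.2 _) _ (p.2.mem η) _ (q.2.mem η) _ (r.2.mem η) (h1 η)
      ((L.ok η).mono _ _ (okC_cut q.2 _) (okC_cut p.2 _) (leR_cut' h1 η) _ (q.2.mem η) _
        (r.2.mem η) (h2 η))

theorem le_def {p q : L.Cond} : p ≤ q ↔ leR o L.L p.1 q.1 := Iff.rfl

/-- the iteration of the stages in `S` -/
noncomputable def tr (S : LowerSet K) : It o where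
  L := trR o S L.L
  ok ξ := by
    by_cases hξ : ξ ∈ (S : Set K)
    · have h1 : trR o (Iio ξ) (trR o S L.L) = trR o (Iio ξ) L.L :=
        trR_trR (fun ζ hζ => S.lower (le_of_lt hζ) hξ) _
      have h2 := L.ok ξ
      refine ⟨?_, ?_, ?_, ?_, ?_, ?_⟩
      all_goals rw [trR_of_mem hξ]
      · exact h2.mem
      · rw [h1]; exact h2.refl
      · rw [h1]; exact h2.trans
      · rw [h1]; exact h2.top
      · rw [h1]; exact h2.mono
      · rw [h1]; exact h2.dense
    · refine ⟨?_, ?_, ?_, ?_, ?_, ?_⟩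
      all_goals rw [trR_of_not_mem hξ]
      · rfl
      all_goals intros; trivial

/-- the conditions of the stage `ξ` as a forced preorder over the iteration below `ξ` -/
def st (ξ : K) : PN (L.tr (LowerSet.Iio ξ)).Cond (L.L ξ).ν where
  le p u v := (L.L ξ).rel p.1 u.1 v.1
  top := ⟨o, (L.ok ξ).mem⟩
  refl p u := (L.ok ξ).refl _ p.2 _ u.2
  trans p u v w h1 h2 := (L.ok ξ).trans _ p.2 _ u.2 _ v.2 _ w.2 h1 h2
  le_top p u := (L.ok ξ).top _ p.2 _ u.2
  mono p q u v h h1 := (L.ok ξ).mono _ _ p.2 q.2 h _ u.2 _ v.2 h1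
  dense p u v h := (L.ok ξ).dense _ p.2 _ u.2 _ v.2 fun q hq hqp => by
    obtain ⟨r, hr, h1⟩ := h ⟨q, hq⟩ hqp
    exact ⟨r.1, r.2, hr, h1⟩

/-- the conditions of the restricted iteration are conditions -/
def emb (S : LowerSet K) (p : (L.tr S).Cond) : L.Cond := ⟨p.1, fun η => by
    have h := p.2.mem η
    by_cases hη : η ∈ (S : Set K)
    · change p.1 η ∈ (trR o S L.L η).ν at h
      rwa [trR_of_mem hη] at h
    · change p.1 η ∈ (trR o S L.L η).ν at h
      rw [trR_of_not_mem hη] at h
      have h1 : p.1 η = o := h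
      rw [h1]
      exact (L.ok η).mem, p.2.est⟩

theorem val_eq {S : LowerSet K} (p : (L.tr S).Cond) {η : K} (hη : η ∉ (S : Set K)) :
    p.1 η = o := by
  have h := p.2.mem η
  change p.1 η ∈ (trR o S L.L η).ν at h
  rw [trR_of_not_mem hη] at h
  exact h

/-- restriction of conditions -/
noncomputable def cutC (S : LowerSet K) (p : L.Cond) : (L.tr S).Cond := ⟨cut o S p.1, okC_cut p.2 _⟩

open Classical in
/-- the condition which is `r` on `S` and `τ` outside `S` -/
noncomputable def join (S : LowerSet K) (r : (L.tr S).Cond) (τ : L.Cond) : L.Cond :=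
  ⟨fun η => if η ∈ (S : Set K) then r.1 η else τ.1 η, fun η => by
    split_ifs with h
    · exact (L.emb S r).2.mem η
    · exact τ.2.mem η, fun ξ hξ => by
    obtain ⟨β, hβ, h1⟩ := r.2.est ξ hξ
    obtain ⟨β', hβ', h2⟩ := τ.2.est ξ hξ
    refine ⟨max β β', ?_, fun η hη hηξ => ?_⟩
    · rcases le_total β β' with h | h
      · rwa [max_eq_right h]
      · rwa [max_eq_left h]
    · split_ifs
      · exact h1 η ((le_max_left _ _).trans hη) hηξ
      · exact h2 η ((le_max_right _ _).trans hη) hηξ⟩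

end It

end

end Pool.Agent.Helper92.PR
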