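import Pool.Agent.Helper92.PR.Tool
import Pool.Agent.Helper96.Fc.Card

/-!
# R7: lifting of names
-/

open Cardinal Set

set_option linter.unusedSectionVars false

namespace Pool.Agent.Helper92.PR

section Aux
variable {H : Type} {U : Ultrafilter (Set H)} {E K : Type} [Preorder E]

/-- fullness -/
theorem ev_full (kS : Srt U K) (eS : Srt U E) (nS : Srt U (K → Set E)) :
    ∀ᶠ a in (U : Filter (Set H)), ∀ Y : K → Set E, ∃ n ∈ nS.inn a, ∀ η ∈ kS.inn a,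
      ∀ e ∈ eS.inn a, e ∈ n η ↔ e ∈ Y η := by
  classical
  by_contra hc
  have h1 := ev_not hc
  have h2 : ∀ a : Set H, ∃ Y : K → Set E, (¬ ∀ Y : K → Set E, ∃ n ∈ nS.inn a, ∀ η ∈ kS.inn a,
      ∀ e ∈ eS.inn a, e ∈ n η ↔ e ∈ Y η) → ¬ ∃ n ∈ nS.inn a, ∀ η ∈ kS.inn a,
      ∀ e ∈ eS.inn a, e ∈ n η ↔ e ∈ Y η := by
    intro a
    by_cases h : ∀ Y : K → Set E, ∃ n ∈ nS.inn a, ∀ η ∈ kS.inn a,
      ∀ e ∈ eS.inn a, e ∈ n η ↔ e ∈ Y η
    · exact ⟨fun _ => ∅, fun h' => absurd h h'⟩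
    · have h' := h
      rw [not_forall] at h'
      obtain ⟨Y, hY⟩ := h'
      exact ⟨Y, fun _ => hY⟩
  choose Y hY using h2
  obtain ⟨Z, -, hZ⟩ := (kS.prod eS).lift (fun a => {x : K × E | x.2 ∈ Y a x.1})
  refine ev_false ((h1.and (hZ.and (nS.fine (fun η => {e | (η, e) ∈ Z})))).mono fun a ha => ?_)
  refine hY a ha.1 ⟨_, ha.2.2, fun η hη e he => ?_⟩
  exact ha.2.1 (η, e) ⟨hη, he⟩

/-- regularity relative to a set of conditions -/
def RegIn (E' : Set E) (A : Set E) : Prop :=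
  (∀ e ∈ E', e ∈ A → ∀ q ∈ E', q ≤ e → q ∈ A) ∧
    ∀ e ∈ E', (∀ q ∈ E', q ≤ e → ∃ r ∈ E', r ≤ q ∧ r ∈ A) → e ∈ A

theorem ev_reg (kS : Srt U K) (eS : Srt U E) (nS : Srt U (K → Set E)) :
    ∀ᶠ a in (U : Filter (Set H)), ∀ n ∈ nS.inn a, (∀ η ∈ kS.inn a, RegIn (eS.inn a) (n η)) →
      ∀ η, Reg (n η) := by
  classical
  refine nS.diag fun n => ?_
  by_cases hn : ∀ η, Reg (n η)
  · exact Filter.Eventually.of_forall fun a _ => hn
  · rw [not_forall] at hn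
    obtain ⟨η, hη⟩ := hn
    by_cases hl : ∀ p ∈ n η, ∀ q ≤ p, q ∈ n η
    · have hd : ¬ ∀ p, (∀ q ≤ p, ∃ r ≤ q, r ∈ n η) → p ∈ n η := fun hd => hη ⟨hl, hd⟩
      rw [not_forall] at hd
      obtain ⟨e, he⟩ := hd
      rw [Classical.not_imp] at he
      obtain ⟨he, he'⟩ := he
      have h1 : ∀ q, ∃ r, q ≤ e → r ≤ q ∧ r ∈ n η := by
        intro q
        by_cases hq : q ≤ e
        · obtain ⟨r, hr, hr'⟩ := he q hq
          exact ⟨r, fun _ => ⟨hr, hr'⟩⟩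
        · exact ⟨q, fun h => absurd h hq⟩
      choose ρ hρ using h1
      refine ((eS.closed eS ρ).and ((eS.fine e).and (kS.fine η))).mono fun a ha h => ?_
      exact absurd ((h η ha.2.2).2 e ha.2.1 fun q hq hqe =>
        ⟨ρ q, ha.1 q hq, (hρ q hqe).1, (hρ q hqe).2⟩) he'
    · push Not at hl
      obtain ⟨p, hp, q, hq, hq'⟩ := hl
      refine ((eS.fine p).and ((eS.fine q).and (kS.fine η))).mono fun a ha h => ?_
      exact absurd ((h η ha.2.2).1 p ha.1 hp q ha.2.1 hq) hq'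

theorem ev_incl (kS : Srt U K) (eS : Srt U E) (nS : Srt U (K → Set E)) :
    ∀ᶠ a in (U : Filter (Set H)), ∀ n ∈ nS.inn a, ∀ n' ∈ nS.inn a, ∀ e ∈ eS.inn a,
      (∀ e' ∈ eS.inn a, e' ≤ e → ∀ η ∈ kS.inn a, e' ∈ n η → e' ∈ n' η) →
        ∀ e' ≤ e, ∀ η, e' ∈ n η → e' ∈ n' η := by
  have key := (nS.prod (nS.prod eS)).diag (φ := fun x a =>
    (∀ e' ∈ eS.inn a, e' ≤ x.2.2 → ∀ η ∈ kS.inn a, e' ∈ x.1 η → e' ∈ x.2.1 η) →
        ∀ e' ≤ x.2.2, ∀ η, e' ∈ x.1 η → e' ∈ x.2.1 η) ?_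
  · exact key.mono fun a ha n hn n' hn' e he h => ha (n, n', e) ⟨hn, hn', he⟩ h
  · rintro ⟨n, n', e⟩
    by_cases h : ∀ e' ≤ e, ∀ η, e' ∈ n η → e' ∈ n' η
    · exact Filter.Eventually.of_forall fun a _ => h
    · push Not at h
      obtain ⟨e', he', η, h1, h2⟩ := h
      refine ((eS.fine e').and (kS.fine η)).mono fun a ha h => ?_
      exact absurd (h e' ha.1 he' η ha.2 h1) h2

theorem ev_incl' (kS : Srt U K) (eS : Srt U E) (nS : Srt U (K → Set E)) :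
    ∀ᶠ a in (U : Filter (Set H)), ∀ n ∈ nS.inn a, ∀ n' ∈ nS.inn a,
      (∀ e' ∈ eS.inn a, ∀ η ∈ kS.inn a, e' ∈ n η → e' ∈ n' η) →
        ∀ e', ∀ η, e' ∈ n η → e' ∈ n' η := by
  have key := (nS.prod nS).diag (φ := fun x a =>
    (∀ e' ∈ eS.inn a, ∀ η ∈ kS.inn a, e' ∈ x.1 η → e' ∈ x.2 η) →
        ∀ e', ∀ η, e' ∈ x.1 η → e' ∈ x.2 η) ?_
  · exact key.mono fun a ha n hn n' hn' h => ha (n, n') ⟨hn, hn'⟩ h
  · rintro ⟨n, n'⟩
    by_cases h : ∀ e', ∀ η, e' ∈ n η → e' ∈ n' η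
    · exact Filter.Eventually.of_forall fun a _ => h
    · push Not at h
      obtain ⟨e', η, h1, h2⟩ := h
      refine ((eS.fine e').and (kS.fine η)).mono fun a ha h => ?_
      exact absurd (h e' ha.1 η ha.2 h1) h2

theorem ev_neg (kS : Srt U K) (eS : Srt U E) (nS : Srt U (K → Set E)) :
    ∀ᶠ a in (U : Filter (Set H)), ∀ n ∈ nS.inn a, ∀ n' ∈ nS.inn a,
      (∀ η ∈ kS.inn a, ∀ e ∈ eS.inn a, e ∈ n' η ↔ ∀ q ∈ eS.inn a, q ≤ e → q ∉ n η) →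
        ∀ η, n' η = neg (n η) := by
  have key := (nS.prod nS).diag (φ := fun x a =>
    (∀ η ∈ kS.inn a, ∀ e ∈ eS.inn a, e ∈ x.2 η ↔ ∀ q ∈ eS.inn a, q ≤ e → q ∉ x.1 η) →
        ∀ η, x.2 η = neg (x.1 η)) ?_
  · exact key.mono fun a ha n hn n' hn' h => ha (n, n') ⟨hn, hn'⟩ h
  · rintro ⟨n, n'⟩
    by_cases h : ∀ η, n' η = neg (n η)
    · exact Filter.Eventually.of_forall fun a _ => h
    · rw [not_forall] at h
      obtain ⟨η, hη⟩ := h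
      have h1 : ∃ e, ¬ (e ∈ n' η ↔ e ∈ neg (n η)) := by
        by_contra hc
        push Not at hc
        exact hη (Set.ext hc)
      obtain ⟨e, he⟩ := h1
      by_cases h2 : e ∈ n' η
      · have h3 : e ∉ neg (n η) := fun h3 => he ⟨fun _ => h3, fun _ => h2⟩
        have h4 : ∃ q ≤ e, q ∈ n η := by
          by_contra hc
          push Not at hc
          exact h3 hc
        obtain ⟨q, hq, hq'⟩ := h4
        refine ((eS.fine e).and ((eS.fine q).and (kS.fine η))).mono fun a ha h => ?_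
        exact absurd hq' ((h η ha.2.2 e ha.1).1 h2 q ha.2.1 hq)
      · have h3 : e ∈ neg (n η) := by
          by_contra h3
          exact he ⟨fun h4 => absurd h4 h2, fun h4 => absurd h4 h3⟩
        refine ((eS.fine e).and (kS.fine η)).mono fun a ha h => ?_
        exact absurd ((h η ha.2 e ha.1).2 fun q _ hq => h3 q hq) h2

theorem ev_unb [LinearOrder K] (kS : Srt U K) (eS : Srt U E) (nS : Srt U (K → Set E)) :
    ∀ᶠ a in (U : Filter (Set H)), ∀ n ∈ nS.inn a, ∀ e ∈ eS.inn a, ∀ ζ ∈ kS.inn a,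
      (∃ e' ≤ e, ∃ η, ζ < η ∧ e' ∈ n η) →
        ∃ e' ∈ eS.inn a, e' ≤ e ∧ ∃ η ∈ kS.inn a, ζ < η ∧ e' ∈ n η := by
  have key := (nS.prod (eS.prod kS)).diag (φ := fun x a =>
      (∃ e' ≤ x.2.1, ∃ η, x.2.2 < η ∧ e' ∈ x.1 η) →
        ∃ e' ∈ eS.inn a, e' ≤ x.2.1 ∧ ∃ η ∈ kS.inn a, x.2.2 < η ∧ e' ∈ x.1 η) ?_
  · exact key.mono fun a ha n hn e he ζ hζ h => ha (n, e, ζ) ⟨hn, he, hζ⟩ h
  · rintro ⟨n, e, ζ⟩
    by_cases h : ∃ e' ≤ e, ∃ η, ζ < η ∧ e' ∈ n η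
    · obtain ⟨e', he', η, h1, h2⟩ := h
      exact ((eS.fine e').and (kS.fine η)).mono fun a ha _ =>
        ⟨e', ha.1, he', η, ha.2, h1, h2⟩
    · exact Filter.Eventually.of_forall fun a h' => absurd h' h

theorem ev_inter {κ : Cardinal.{0}} (hU : Msr κ U) (kS : Srt U κ.ord.ToType)
    (nS : Srt U (κ.ord.ToType → Set E)) :
    ∀ᶠ a in (U : Filter (Set H)), ∀ δ ∈ kS.inn a, ∀ F : Iio δ → κ.ord.ToType → Set E,
      (∀ ζ, F ζ ∈ nS.inn a) → (fun η => ⋂ ζ, F ζ η) ∈ nS.inn a := by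
  classical
  refine kS.diag fun δ => ?_
  by_contra hc
  have h1 := ev_not hc
  have h2 : ∀ a : Set H, ∃ F : Iio δ → κ.ord.ToType → Set E,
      (¬ ∀ F : Iio δ → κ.ord.ToType → Set E,
        (∀ ζ, F ζ ∈ nS.inn a) → (fun η => ⋂ ζ, F ζ η) ∈ nS.inn a) →
      (∀ ζ, F ζ ∈ nS.inn a) ∧ (fun η => ⋂ ζ, F ζ η) ∉ nS.inn a := by
    intro a
    by_cases h : ∀ F : Iio δ → κ.ord.ToType → Set E,
        (∀ ζ, F ζ ∈ nS.inn a) → (fun η => ⋂ ζ, F ζ η) ∈ nS.inn a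
    · exact ⟨fun _ _ => ∅, fun h' => absurd h h'⟩
    · have h' := h
      rw [not_forall] at h'
      obtain ⟨F, hF⟩ := h'
      rw [Classical.not_imp] at hF
      exact ⟨F, fun _ => hF⟩
  choose F hF using h2
  have hδ : #(Iio δ) < κ := Helper96.Fc.mk_Iio_lt' δ
  obtain ⟨g, hg⟩ := nS.seq hU hδ F (h1.mono fun a ha => (hF a ha).1)
  refine ev_false ((h1.and (hg.and (nS.fine (fun η => ⋂ ζ, g ζ η)))).mono fun a ha => ?_)
  have h3 : F a = g := funext ha.2.1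
  have h4 := (hF a ha.1).2
  rw [h3] at h4
  exact h4 ha.2.2

end Aux

section R7
variable {κ : Cardinal.{0}} {H : Type} {U : Ultrafilter (Set H)} {P X : Type} [Preorder P]

theorem up_le_up {s : PN P X} {PA : Set P} {XA : Set X} {y : PN PA XA} (hy : IsRes y s.le)
    (e' e : Two y) : up s y e' ≤ up s y e ↔ e' ≤ e := by
  rw [Two.le_iff, Two.le_iff, hy e'.1 e'.2 e.2]
  exact Iff.rfl

/-- **R7.** Lifting of names. -/
theorem ev_lift (hU : Msr κ U) (hu : ℵ₀ < κ) (hr : κ.IsRegular) (kS : Srt U κ.ord.ToType)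
    (hk : ∀ᶠ a in (U : Filter (Set H)), ∃ γ : κ.ord.ToType, kS.inn a = Iio γ ∧
      Inac (γ : WithTop κ.ord.ToType))
    (pS : Srt U P) (xS : Srt U X) (nS : Srt U (κ.ord.ToType → Set (P × X))) (s : PN P X) :
    ∀ᶠ a in (U : Filter (Set H)), ∀ y : PN (pS.inn a) (xS.inn a), IsRes y s.le →
      ∀ γ : κ.ord.ToType, kS.inn a = Iio γ →
        ∃ lift : (Iio γ → Set (Two y)) → κ.ord.ToType → Set (Two s), LiftOK s y lift := by
  classical
  let eS : Srt U (Two s) := pS.prod xS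
  let mS : Srt U (κ.ord.ToType → Set (Two s)) := nS
  filter_upwards [ev_full kS eS mS, ev_reg kS eS mS, ev_incl kS eS mS, ev_incl' kS eS mS,
    ev_neg kS eS mS, ev_unb kS eS mS, ev_inter hU kS mS] with a hF h1 h2 h2' h3 h4 h5
  intro y hy γ hγ
  have hup : ∀ e : Two y, up s y e ∈ eS.inn a := fun e => ⟨e.1.2, e.2.2⟩
  have hsurj : ∀ e ∈ eS.inn a, ∃ e' : Two y, up s y e' = e := fun e he =>
    ⟨(⟨e.1, he.1⟩, ⟨e.2, he.2⟩), rfl⟩
  have hinj : ∀ e e' : Two y, up s y e = up s y e' → e = e' := by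
    intro e e' h
    have h6 : (e.1.1, e.2.1) = (e'.1.1, e'.2.1) := h
    rw [Prod.mk.injEq] at h6
    exact Prod.ext (Subtype.ext h6.1) (Subtype.ext h6.2)
  have hlift : ∀ A : Iio γ → Set (Two y), ∃ n ∈ mS.inn a, ∀ (η : Iio γ) (e : Two y),
      up s y e ∈ n η.1 ↔ e ∈ A η := by
    intro A
    obtain ⟨n, hn, h6⟩ := hF (fun η => {e | ∃ hη : η < γ, ∃ e' ∈ A ⟨η, hη⟩, up s y e' = e})
    refine ⟨n, hn, fun η e => ?_⟩
    rw [h6 η.1 (by rw [hγ]; exact η.2) (up s y e) (hup e)]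
    constructor
    · rintro ⟨hη, e', he', h7⟩
      rw [← hinj _ _ h7]
      exact he'
    · intro he
      exact ⟨η.2, e, he, rfl⟩
  choose lift hl hl' using hlift
  have hk' : ∀ η ∈ kS.inn a, η < γ := by
    intro η hη
    rw [hγ] at hη
    exact hη
  have hk'' : ∀ η : Iio γ, η.1 ∈ kS.inn a := by
    intro η
    rw [hγ]
    exact η.2
  refine ⟨lift, ?_, ?_, ?_, ?_, ?_⟩
  · -- reg
    intro A hA
    refine h1 (lift A) (hl A) fun η hη => ⟨?_, ?_⟩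
    · intro e he heA q hq hqe
      obtain ⟨e, rfl⟩ := hsurj e he
      obtain ⟨q, rfl⟩ := hsurj q hq
      have h6 := (hl' A ⟨η, hk' η hη⟩ e).1 heA
      exact (hl' A ⟨η, hk' η hη⟩ q).2 ((hA _).lower e h6 q ((up_le_up hy q e).1 hqe))
    · intro e he h
      obtain ⟨e, rfl⟩ := hsurj e he
      refine (hl' A ⟨η, hk' η hη⟩ e).2 ((hA _).dense e fun q hq => ?_)
      obtain ⟨r, hr, hrq, hrA⟩ := h (up s y q) (hup q) ((up_le_up hy q e).2 hq)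
      obtain ⟨r, rfl⟩ := hsurj r hr
      exact ⟨r, (up_le_up hy r q).1 hrq, (hl' A ⟨η, hk' η hη⟩ r).1 hrA⟩
  · -- mono
    intro A A' hA hA' e h
    refine h2 (lift A) (hl A) (lift A') (hl A') (up s y e) (hup e) fun e' he' hle η hη h6 => ?_
    obtain ⟨e', rfl⟩ := hsurj e' he'
    exact (hl' A' ⟨η, hk' η hη⟩ e').2 (h e' ((up_le_up hy e' e).1 hle) ⟨η, hk' η hη⟩
      ((hl' A ⟨η, hk' η hη⟩ e').1 h6))
  · -- neg
    intro A hA
    refine h3 (lift A) (hl A) _ (hl (fun η => neg (A η))) fun η hη e he => ?_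
    obtain ⟨e, rfl⟩ := hsurj e he
    rw [hl' (fun η => neg (A η)) ⟨η, hk' η hη⟩ e]
    constructor
    · intro h q hq hqe hqA
      obtain ⟨q, rfl⟩ := hsurj q hq
      exact h q ((up_le_up hy q e).1 hqe) ((hl' A ⟨η, hk' η hη⟩ q).1 hqA)
    · intro h q hq hqA
      exact h (up s y q) (hup q) ((up_le_up hy q e).2 hq) ((hl' A ⟨η, hk' η hη⟩ q).2 hqA)
  · -- unb
    intro A hA e ζ h
    obtain ⟨e', he', hle, η, hη, hζ, h6⟩ := h4 (lift A) (hl A) (up s y e) (hup e) ζ.1 (hk'' ζ) h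
    obtain ⟨e', rfl⟩ := hsurj e' he'
    exact ⟨e', (up_le_up hy e' e).1 hle, ⟨η, hk' η hη⟩, hζ, (hl' A ⟨η, hk' η hη⟩ e').1 h6⟩
  · -- inter
    intro I A hI hA η
    have hγκ : #(Iio γ) < κ := Helper96.Fc.mk_Iio_lt' γ
    obtain ⟨δ, hδ⟩ := Helper96.Fc.exists_Iio_eq (hI.trans hγκ)
    have hδγ : δ < γ := by
      by_contra hc
      have h6 : #(Iio γ) ≤ #(Iio δ) := mk_le_mk_of_subset (Iio_subset_Iio (not_lt.1 hc))
      rw [hδ] at h6
      exact absurd hI (not_lt.2 h6)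
    obtain ⟨ε⟩ := Cardinal.eq.1 hδ
    have h6 := h5 δ (hk'' ⟨δ, hδγ⟩) (fun ζ => lift (A (ε ζ))) fun ζ => hl _
    have h7 : (fun η => ⋂ ζ, lift (A (ε ζ)) η) = fun η => ⋂ i, lift (A i) η := by
      funext η
      exact ε.surjective.iInter_comp (fun i => lift (A i) η)
    rw [h7] at h6
    have h8 := h2' _ h6 (lift fun η => ⋂ i, A i η) (hl _) ?_
    · exact fun e he => h8 e η he
    · intro e' he' η hη h9
      obtain ⟨e', rfl⟩ := hsurj e' he'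
      refine (hl' (fun η => ⋂ i, A i η) ⟨η, hk' η hη⟩ e').2 (mem_iInter.2 fun i => ?_)
      exact (hl' (A i) ⟨η, hk' η hη⟩ e').1 (mem_iInter.1 h9 i)

end R7

end Pool.Agent.Helper92.PR
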