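import Pool.Agent.Helper92.PR.Code
import Pool.Agent.Helper96.Fc.Root

/-!
# Codes of colourings are live
-/

open Cardinal Set

set_option linter.unusedSectionVars false

namespace Pool.Agent.Helper92.PR

theorem live_max_antichain {P : Type} [Preorder P] (D : Set P) :
    ∃ W ⊆ D, (∀ p ∈ W, ∀ q ∈ W, p ≠ q → ¬ ∃ r, r ≤ p ∧ r ≤ q) ∧
      ∀ r ∈ D, ∃ w ∈ W, ∃ s, s ≤ r ∧ s ≤ w := by
  obtain ⟨W, hW⟩ := zorn_subset
    {W : Set P | W ⊆ D ∧ ∀ p ∈ W, ∀ q ∈ W, p ≠ q → ¬ ∃ r, r ≤ p ∧ r ≤ q} (by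
      intro C hC hch
      refine ⟨⋃₀ C, ⟨sUnion_subset fun s hs => (hC hs).1, ?_⟩, fun s hs => subset_sUnion_of_mem hs⟩
      rintro p ⟨s, hs, hp⟩ q ⟨t, ht, hq⟩ hne
      rcases hch.total hs ht with h | h
      · exact (hC ht).2 p (h hp) q hq hne
      · exact (hC hs).2 p hp q (h hq) hne)
  refine ⟨W, hW.prop.1, hW.prop.2, fun r hr => ?_⟩
  by_contra hcon
  push Not at hcon
  have h1 : insert r W ∈ {W : Set P | W ⊆ D ∧ ∀ p ∈ W, ∀ q ∈ W, p ≠ q →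
      ¬ ∃ r, r ≤ p ∧ r ≤ q} := by
    refine ⟨insert_subset hr hW.prop.1, ?_⟩
    rintro p (rfl | hp) q (rfl | hq) hne
    · exact absurd rfl hne
    · rintro ⟨s, hs, hs'⟩
      exact hcon q hq s hs hs'
    · rintro ⟨s, hs, hs'⟩
      exact hcon p hp s hs' hs
    · exact hW.prop.2 p hp q hq hne
  have h2 : r ∈ W := hW.le_of_ge h1 (subset_insert _ _) (mem_insert _ _)
  exact hcon r h2 r le_rfl le_rfl

section K7
variable {κ : Cardinal.{0}} {B : Type} [Preorder B] {θ : Cardinal.{0}} {Kp : Type}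
  {g : θ.ord.ToType → Kp → κ.ord.ToType → Set (Cn κ B θ.ord.ToType Kp)}

/-- **K7a.** Every colouring has a code. -/
theorem exists_code (hκ : κ.IsRegular) (hg : GReg g)
    (hcc : CC (Two (QS hκ.pos hg ⊤)) (Order.succ κ))
    (hne : Nonempty B)
    (c : Kp → κ.ord.ToType → Bool → Set (Two (QS hκ.pos hg ⊤)))
    (hc1 : ∀ ξ η i, Reg (c ξ η i)) (hc2 : ∀ ξ η r, ∃ s ≤ r, ∃ i, s ∈ c ξ η i) :
    ∃ W : Code κ B θ.ord.ToType Kp, (∀ ξ η k, (W ξ η k).1 ∈ c ξ η (W ξ η k).2) ∧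
      ∀ ξ η, ∀ r : Two (QS hκ.pos hg ⊤), ∃ s ≤ r, ∃ k,
        s ≤ (show Two (QS hκ.pos hg ⊤) from (W ξ η k).1) := by
  have key : ∀ ξ η, ∃ w : κ.ord.ToType → Cn κ B θ.ord.ToType Kp × Bool,
      (∀ k, (w k).1 ∈ c ξ η (w k).2) ∧ ∀ r : Two (QS hκ.pos hg ⊤), ∃ s ≤ r, ∃ k,
        s ≤ (show Two (QS hκ.pos hg ⊤) from (w k).1) := by
    intro ξ η
    obtain ⟨A, hA1, hA2, hA3⟩ := live_max_antichain
      {r : Two (QS hκ.pos hg ⊤) | ∃ i, r ∈ c ξ η i}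
    have h1 : #A ≤ κ := Order.lt_succ_iff.1 (hcc A hA2)
    have h1' : #A ≤ #κ.ord.ToType := by rwa [mk_ord_toType]
    obtain ⟨b⟩ := hne
    have hAne : Nonempty A := by
      obtain ⟨s, -, hs⟩ := hc2 ξ η (show Two (QS hκ.pos hg ⊤) from
        (b, (topN κ B _ hκ.pos, topT κ B hκ.pos)))
      obtain ⟨w, hw, -⟩ := hA3 s hs
      exact ⟨⟨w, hw⟩⟩
    obtain ⟨⟨f, hf⟩⟩ := h1'
    have hsurj : Function.Surjective (Function.invFun f) := Function.invFun_surjective hf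
    choose i hi using fun a : A => hA1 a.2
    refine ⟨fun k => ((Function.invFun f k).1, i (Function.invFun f k)), fun k => hi _, ?_⟩
    intro r
    obtain ⟨s, hs, hs'⟩ := hc2 ξ η r
    obtain ⟨w, hw, t, ht, ht'⟩ := hA3 s hs'
    obtain ⟨k, hk⟩ := hsurj ⟨w, hw⟩
    refine ⟨t, ht.trans hs, k, ?_⟩
    simp only [hk]
    exact ht'
  choose w hw1 hw2 using key
  exact ⟨w, hw1, hw2⟩

/-- **K7b.** A code lives on a bounded set of stages. -/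
theorem exists_bdd (hκ : κ.IsRegular) (hθ : θ.IsRegular) (hκθ : κ < θ) (hKp : #Kp < θ)
    (W : Code κ B θ.ord.ToType Kp) : ∃ α₀ : θ.ord.ToType, ∀ ξ η k,
      ∀ z, (α₀ : WithTop θ.ord.ToType) ≤ stg z → (W ξ η k).1.2.1.v z = ∅ := by
  have h0 : #(Kp × (κ.ord.ToType × κ.ord.ToType)) < θ := by
    simp only [mk_prod, Cardinal.lift_id, mk_ord_toType]
    exact mul_lt_of_lt hθ.aleph0_le hKp (mul_lt_of_lt hθ.aleph0_le hκθ hκθ)
  have h1 : #(Σ x : Kp × (κ.ord.ToType × κ.ord.ToType),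
      {z | ((W x.1 x.2.1 x.2.2).1.2.1.v z).Nonempty}) < θ := by
    rw [mk_sigma]
    exact sum_lt_of_isRegular hθ h0 fun x => (W x.1 x.2.1 x.2.2).1.2.1.small.trans hκθ
  let stI : Zq κ B θ.ord.ToType Kp → θ.ord.ToType := fun z => match z with
    | .inl z => z.1
    | .inr z => z.1
  have hst : ∀ z, stg z = (stI z : WithTop θ.ord.ToType) := by
    rintro (z | z) <;> rfl
  obtain ⟨k0, hk0⟩ := Helper96.Fc.exists_bound hθ h1 fun y => stI y.2.1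
  refine ⟨k0, fun ξ η k z hz => ?_⟩
  by_contra hcon
  have h2 := hk0 ⟨(ξ, η, k), ⟨z, nonempty_iff_ne_empty.2 hcon⟩⟩
  rw [hst, WithTop.coe_le_coe] at hz
  exact absurd h2 (not_lt.2 hz)

/-- **K7c.** A bounded code is live at all later stages. -/
theorem live_of_bdd (hκ : κ.IsRegular) (hg : GReg g)
    (c : Kp → κ.ord.ToType → Bool → Set (Two (QS hκ.pos hg ⊤)))
    (hc1 : ∀ ξ η i, Reg (c ξ η i)) (hc3 : ∀ ξ η i i' r, r ∈ c ξ η i → r ∈ c ξ η i' → i = i')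
    (W : Code κ B θ.ord.ToType Kp) (hW1 : ∀ ξ η k, (W ξ η k).1 ∈ c ξ η (W ξ η k).2)
    (hW2 : ∀ ξ η, ∀ r : Two (QS hκ.pos hg ⊤), ∃ s ≤ r, ∃ k,
        s ≤ (show Two (QS hκ.pos hg ⊤) from (W ξ η k).1))
    (α₀ α : θ.ord.ToType) (hα : α₀ ≤ α)
    (hW3 : ∀ ξ η k, ∀ z, (α₀ : WithTop θ.ord.ToType) ≤ stg z → (W ξ η k).1.2.1.v z = ∅) :
    Live g α W := by
  refine ⟨?_, ?_⟩
  · rintro ξ η ⟨b, q, s⟩
    obtain ⟨⟨b', q', s'⟩, ⟨h1, h2, h3⟩, k, ⟨h4, h5, h6⟩⟩ :=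
      hW2 ξ η (show Two (QS hκ.pos hg ⊤) from (b, (res α q, s)))
    refine ⟨(b', q', s'), ⟨h1, ?_, h3⟩, k, h4, leQ_stage le_top h5, h6⟩
    exact leQ_res_right.1 (leQ_stage (α := ⊤) le_top h2)
  · have key : ∀ ξ η k, ∀ r : Cn κ B θ.ord.ToType Kp, rS g α r (W ξ η k).1 →
        (r.1, (res α r.2.1, r.2.2)) ∈ c ξ η (W ξ η k).2 := by
      rintro ξ η k ⟨b, q, s⟩ ⟨h1, h2, h3⟩
      refine (hc1 ξ η _).lower _ (hW1 ξ η k) _ ⟨h1, ⟨?_, ?_⟩, h3⟩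
      · intro z hz b' hb' h4
        by_cases hzα : stg z < (α : WithTop θ.ord.ToType)
        · rw [res_v_of_lt hzα]
          exact h2.1 z hzα b' hb' h4
        · rw [hW3 ξ η k z ((WithTop.coe_le_coe.2 hα).trans (not_lt.1 hzα))] at h4
          exact h4.elim
      · intro β hβ d η' b' hb' h4 h5 ξ' h6
        by_cases hzα : (β : WithTop θ.ord.ToType) < (α : WithTop θ.ord.ToType)
        · rw [res_v_of_lt (show stg (.inl (β, d, η') : Zq κ B θ.ord.ToType Kp) < _ from hzα)] at h4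
          rw [res_res hzα.le]
          exact h2.2 β hzα d η' b' hb' h4 h5 ξ' h6
        · rw [res_v_of_not_lt
            (show ¬ stg (.inl (β, d, η') : Zq κ B θ.ord.ToType Kp) < _ from hzα)] at h4
          exact h4.elim
    intro ξ η k k' r h1 h2
    exact hc3 ξ η _ _ _ (key ξ η k r h1) (key ξ η k' r h2)

end K7

end Pool.Agent.Helper92.PR
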