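import Pool.Agent.Helper92.PR.Msr

/-!
# Blocks I4a, I4b, I4c: counting conditions
-/

open Cardinal Set

set_option linter.unusedSectionVars false

namespace Pool.Agent.Helper92.PR

section I4
variable {κ : Cardinal.{0}} {o : κ.ord.ToType}

/-- **I4a** There are few conditions with support below `β`. -/
theorem card_low {L : It o} (ho : ∀ k, o ≤ k) {ξ : WithTop κ.ord.ToType} (hξ : Inac ξ)
    (hc : Clo L ξ) (β : κ.ord.ToType) (hβ : (β : WithTop κ.ord.ToType) < ξ) :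
    #{p : L.Cond | ∀ η, β ≤ η → p.1 η = o} < szW ξ := by
  set c : Cardinal.{0} := ⨆ η : Iio β, #(L.L η.1).ν with hcdef
  have h1 : ∀ η : Iio β, #(L.L η.1).ν < szW ξ := by
    intro η
    obtain ⟨b, hb, h2⟩ := hc η.1 ((WithTop.coe_lt_coe.2 η.2).trans hβ)
    exact (mk_le_mk_of_subset h2).trans_lt (hξ.ini b hb)
  have h2 : c < szW ξ := iSup_lt_of_isRegular hξ.reg (hξ.ini β hβ) h1
  let F : {p : L.Cond | ∀ η, β ≤ η → p.1 η = o} → ∀ η : Iio β, (L.L η.1).ν :=
    fun p η => ⟨p.1.1 η.1, p.1.2.mem η.1⟩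
  have hF : Function.Injective F := by
    intro p q h
    apply Subtype.ext
    apply L.ext'
    intro η
    by_cases hη : η < β
    · exact congrArg Subtype.val (congrFun h ⟨η, hη⟩)
    · rw [p.2 η (not_lt.1 hη), q.2 η (not_lt.1 hη)]
  have h3 := mk_le_of_injective hF
  rw [mk_pi] at h3
  have h4 : (Cardinal.prod fun η : Iio β => #(L.L η.1).ν) ≤ c ^ #(Iio β) := by
    rw [← prod_const']
    refine prod_le_prod _ _ fun η => ?_
    exact le_ciSup (Cardinal.bddAbove_of_small) η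
  refine (h3.trans h4).trans_lt ?_
  have h5 : c ^ #(Iio β) ≤ 2 ^ (c * #(Iio β)) := by
    rw [power_mul]
    exact power_le_power_right (cantor c).le
  exact h5.trans_lt (hξ.lim _ (mul_lt_of_lt hξ.unc.le h2 (hξ.ini β hβ)))

/-- **I4b** -/
theorem szW_top : szW (⊤ : WithTop κ.ord.ToType) = κ := by
  unfold szW
  have h1 : {η : κ.ord.ToType | (η : WithTop κ.ord.ToType) < ⊤} = Set.univ := by
    ext η
    simp
  rw [h1, mk_univ, mk_ord_toType]

/-- **I4b** -/
theorem inac_top (hu : ℵ₀ < κ) (hr : κ.IsRegular) (hl : ∀ a < κ, 2 ^ a < κ) :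
    Inac (⊤ : WithTop κ.ord.ToType) := by
  refine ⟨?_, ?_, ?_, ?_⟩
  · rw [szW_top]; exact hu
  · rw [szW_top]; exact hr
  · rw [szW_top]; exact hl
  · intro η _
    rw [szW_top]
    exact mk_Iio_toType_ord_lt η

theorem clo_top {L : It o} (hL : GoodIt L) : Clo L ⊤ := by
  intro η _
  obtain ⟨β, hβ⟩ := hL.bdd η
  exact ⟨β, WithTop.coe_lt_top β, hβ⟩

/-- **I4c** -/
theorem card_Cond (hu : ℵ₀ < κ) (hr : κ.IsRegular) (hl : ∀ a < κ, 2 ^ a < κ) {L : It o}
    (hL : GoodIt L) (ho : ∀ k, o ≤ k) : #L.Cond ≤ κ := by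
  have h1 : (⋃ β : κ.ord.ToType, {p : L.Cond | ∀ η, β ≤ η → p.1 η = o}) = Set.univ := by
    rw [eq_univ_iff_forall]
    intro p
    obtain ⟨β, -, h2⟩ := p.2.est ⊤ (inac_top hu hr hl)
    exact mem_iUnion.2 ⟨β, fun η hη => h2 η hη (WithTop.coe_lt_top η)⟩
  rw [← mk_univ, ← h1]
  refine (mk_iUnion_le _).trans ?_
  rw [mk_ord_toType]
  refine (mul_le_mul' le_rfl (ciSup_le' (a := κ) fun β => ?_)).trans (mul_eq_self hr.aleph0_le).le
  have h2 := card_low ho (inac_top hu hr hl) (clo_top hL) β (WithTop.coe_lt_top β)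
  rw [szW_top] at h2
  exact h2.le

end I4

end Pool.Agent.Helper92.PR
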