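import Pool.Agent.Helper92.PR.Comp

/-!
# The tail of the iteration is covering directed closed
-/

open Cardinal Set

set_option linter.unusedSectionVars false

namespace Pool.Agent.Helper92.PR

section

variable {K : Type} [LinearOrder K] {o : K} (L : It o)

theorem rel_trans' (T : L.Cond) {η u v w : K} (hu : u ∈ (L.L η).ν) (hv : v ∈ (L.L η).ν)
    (hw : w ∈ (L.L η).ν) (h1 : (L.L η).rel (cut o (Iio η) T.1) u v)
    (h2 : (L.L η).rel (cut o (Iio η) T.1) v w) : (L.L η).rel (cut o (Iio η) T.1) u w :=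
  (L.ok η).trans _ (okC_cut T.2 _) _ hu _ hv _ hw h1 h2

/-- `v` is below all active `τ i η` at the conditions below `ρ` -/
def GoodAt (S : LowerSet K) {I : Type} (τ : I → L.Cond) (act : I → Set (L.tr S).Cond) (η : K)
    (ρ : K → K) (v : K) : Prop :=
  ∀ i (T : L.Cond), L.cutC S T ∈ act i →
    (∀ ζ < η, ζ ∉ S → (L.L ζ).rel (cut o (Iio ζ) T.1) (T.1 ζ) (ρ ζ)) →
      (L.L η).rel (cut o (Iio η) T.1) v ((τ i).1 η)

theorem cutC_cutC_Iio {S : LowerSet K} {η : K} (hη : η ∉ S) (T : L.Cond) :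
    L.cutC S (L.emb (LowerSet.Iio η) (L.cutC (LowerSet.Iio η) T)) = L.cutC S T := by
  apply (L.tr S).ext'
  intro ζ
  have hS : (S : Set K) ⊆ Iio η := fun ζ hζ => by
    by_contra hc
    exact hη (S.lower (not_lt.1 hc) hζ)
  exact congrFun (cut_cut hS T.1) ζ

/-- the existence of the lower bound at the stage `η` -/
theorem exists_goodAt (S : LowerSet K) {X : Type} (s : PN L.Cond X) {μ : Cardinal.{0}}
    {I : Type} (hI : #I < μ) (y : I → L.Cond × X) (act : I → Set (L.tr S).Cond)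
    (hopen : ∀ i, ∀ p ∈ act i, ∀ q ≤ p, q ∈ act i)
    (hdir : ∀ i j, ∀ p ∈ act i, p ∈ act j → ∃ q ≤ p, ∃ k, q ∈ act k ∧
      (L.comp S s).le q (y k) (y i) ∧ (L.comp S s).le q (y k) (y j))
    {η : K} (hη : η ∉ S) (hst : (L.st η).CDC μ) (τ : K → K) (hτ : ∀ ζ < η, τ ζ ∈ (L.L ζ).ν)
    (hg : ∀ ζ < η, ζ ∉ S → GoodAt L S (fun i => (y i).1) act ζ τ (τ ζ)) :
    ∃ v ∈ (L.L η).ν, GoodAt L S (fun i => (y i).1) act η τ v := by
  have hSη : (S : Set K) ⊆ Iio η := fun ζ hζ => by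
    by_contra hc
    exact hη (S.lower (not_lt.1 hc) hζ)
  -- the conditions active for `i`
  let A : I → Set (L.tr (LowerSet.Iio η)).Cond := fun i =>
    {t | L.cutC S (L.emb _ t) ∈ act i ∧
      ∀ ζ < η, ζ ∉ S → (L.L ζ).rel (cut o (Iio ζ) t.1) (t.1 ζ) (τ ζ)}
  have key : ∀ (T' T : L.Cond), T' ≤ T → (∀ ζ, ζ ∉ S → T'.1 ζ = T.1 ζ) →
      (∀ ζ < η, ζ ∉ S → (L.L ζ).rel (cut o (Iio ζ) T.1) (T.1 ζ) (τ ζ)) →
      ∀ ζ < η, ζ ∉ S → (L.L ζ).rel (cut o (Iio ζ) T'.1) (T'.1 ζ) (τ ζ) := by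
    intro T' T hT he h ζ hζ hζS
    rw [he ζ hζS]
    exact L.rel_mono hT (T.2.mem ζ) (hτ ζ hζ) (h ζ hζ hζS)
  have hA : ∀ i, ∀ p ∈ A i, ∀ q ≤ p, q ∈ A i := by
    intro i p hp q hq
    have hle : L.emb _ q ≤ L.emb _ p := L.emb_le.2 hq
    refine ⟨hopen i _ hp.1 _ (L.cutC_mono hle), fun ζ hζ hζS => ?_⟩
    have h1 : (L.L ζ).rel (cut o (Iio ζ) q.1) (q.1 ζ) (p.1 ζ) := hle ζ
    have h2 : (L.L ζ).rel (cut o (Iio ζ) q.1) (p.1 ζ) (τ ζ) :=
      L.rel_mono hle ((L.emb _ p).2.mem ζ) (hτ ζ hζ) (hp.2 ζ hζ hζS)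
    exact rel_trans' L (L.emb _ q) ((L.emb _ q).2.mem ζ) ((L.emb _ p).2.mem ζ) (hτ ζ hζ) h1 h2
  obtain ⟨v, hv⟩ := hst I (fun i => ⟨(y i).1.1 η, (y i).1.2.mem η⟩) A hI hA (by
    intro i j t hti htj
    obtain ⟨r', hr', k, hk, hki, hkj⟩ := hdir i j _ hti.1 htj.1
    set T : L.Cond := L.emb _ t with hTdef
    set T' : L.Cond := L.join S r' T with hT'def
    have hT'T : T' ≤ T := L.join_le hr'
    have hcut : L.cutC S T' = r' := L.cutC_join r' T
    have hcut' : L.cutC S (L.emb (LowerSet.Iio η) (L.cutC (LowerSet.Iio η) T')) = r' := by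
      rw [cutC_cutC_Iio L hη, hcut]
    have hbelow : ∀ ζ < η, ζ ∉ S → (L.L ζ).rel (cut o (Iio ζ) T'.1) (T'.1 ζ) (τ ζ) :=
      key T' T hT'T (fun ζ hζ => L.join_of_not_mem hζ) hti.2
    have hval : ∀ ζ < η, (L.cutC (LowerSet.Iio η) T').1 ζ = T'.1 ζ := fun ζ hζ =>
      cut_of_mem (show ζ ∈ ((LowerSet.Iio η : LowerSet K) : Set K) from hζ)
    have hcutζ : ∀ ζ < η, cut o (Iio ζ) (L.cutC (LowerSet.Iio η) T').1 = cut o (Iio ζ) T'.1 :=
      fun ζ hζ => cut_cut (fun x hx => lt_trans hx hζ) T'.1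
    have hlow : ∀ l, (L.comp S s).le r' (y k) (y l) →
        (L.st η).le (L.cutC (LowerSet.Iio η) T') ⟨(y k).1.1 η, (y k).1.2.mem η⟩
          ⟨(y l).1.1 η, (y l).1.2.mem η⟩ := by
      intro l hl
      have h1 := hl.1 η
      rw [L.join_of_not_mem hη, L.join_of_not_mem hη] at h1
      have h2 : L.cutC (LowerSet.Iio η) T' ≤ L.cutC (LowerSet.Iio η) (L.join S r' (y k).1) := by
        refine L.tr_le_of fun ζ hζ => ?_
        have hζ' : ζ < η := hζ
        have e1 : (L.cutC (LowerSet.Iio η) (L.join S r' (y k).1)).1 ζ =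
          (L.join S r' (y k).1).1 ζ := cut_of_mem hζ
        rw [e1, hval ζ hζ', hcutζ ζ hζ']
        by_cases hS : ζ ∈ (S : Set K)
        · have h3 : T'.1 ζ = r'.1 ζ := L.join_of_mem hS
          have h5 : (L.join S r' (y k).1).1 ζ = r'.1 ζ := L.join_of_mem hS
          rw [h5, h3]
          exact L.rel_refl T' ζ ((L.emb S r').2.mem ζ)
        · have h5 : (L.join S r' (y k).1).1 ζ = (y k).1.1 ζ := L.join_of_not_mem hS
          rw [h5]
          have h3 := hbelow ζ hζ' hS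
          have h4 := hg ζ hζ' hS k T' (by rw [hcut]; exact hk)
            (fun x hx hxS => hbelow x (hx.trans hζ') hxS)
          exact rel_trans' L T' (T'.2.mem ζ) (hτ ζ hζ') ((y k).1.2.mem ζ) h3 h4
      exact (L.st η).mono _ _ _ _ h2 h1
    refine ⟨L.cutC (LowerSet.Iio η) T', ?_, k, ⟨?_, ?_⟩, hlow i hki, hlow j hkj⟩
    · have h1 := L.cutC_mono (S := LowerSet.Iio η) hT'T
      rwa [hTdef, L.cutC_emb] at h1
    · rw [hcut']; exact hk
    · intro ζ hζ hζS
      rw [hval ζ hζ, hcutζ ζ hζ]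
      exact hbelow ζ hζ hζS)
  refine ⟨v.1, v.2, fun i T hT hρ => ?_⟩
  refine hv i (L.cutC (LowerSet.Iio η) T) ⟨?_, fun ζ hζ hζS => ?_⟩
  · rw [cutC_cutC_Iio L hη]; exact hT
  · have e1 : (L.cutC (LowerSet.Iio η) T).1 ζ = T.1 ζ :=
      cut_of_mem (show ζ ∈ ((LowerSet.Iio η : LowerSet K) : Set K) from hζ)
    have e2 : cut o (Iio ζ) (L.cutC (LowerSet.Iio η) T).1 = cut o (Iio ζ) T.1 :=
      cut_cut (fun x hx => lt_trans hx hζ) T.1
    rw [e1, e2]
    exact hρ ζ hζ hζS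

/-- fewer than `szW ξ` ordinals below `ξ` have a common bound below `ξ` -/
theorem Inac.exists_bound {ξ : WithTop K} (h : Inac ξ) {I : Type} (hI : #I < szW ξ) (β : I → K)
    (hβ : ∀ i, (β i : WithTop K) < ξ) : ∃ b : K, (b : WithTop K) < ξ ∧ ∀ i, β i ≤ b := by
  by_contra hc
  push Not at hc
  have h1 : {η : K | (η : WithTop K) < ξ} ⊆ ⋃ i, Iio (β i) := by
    intro η hη
    obtain ⟨i, hi⟩ := hc η hη
    exact mem_iUnion.2 ⟨i, hi⟩
  have h2 : szW ξ < szW ξ :=
    ((mk_le_mk_of_subset h1).trans mk_iUnion_le_sum_mk).trans_lt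
      (Cardinal.sum_lt_of_isRegular h.reg hI fun i => h.ini _ (hβ i))
  exact lt_irrefl _ h2

/-- **I2.** -/
theorem It.comp_cdc [WellFoundedLT K] (S : LowerSet K) {X : Type} (s : PN L.Cond X)
    {μ : Cardinal.{0}}
    (hs : s.CDC μ) (hst : ∀ η, η ∉ S → (L.st η).CDC μ)
    (hE : ∀ ξ : WithTop K, Inac ξ →
      (∀ η : K, η ∉ S → (η : WithTop K) < ξ → (L.L η).ν = {o}) ∨ μ ≤ szW ξ) :
    (L.comp S s).CDC μ := by
  classical
  intro I y act hI hopen hdir
  -- the definition of the lower bound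
  let F : (η : K) → ((ζ : K) → ζ < η → K) → K := fun η rec =>
    if η ∈ S ∨ ∀ i, (y i).1.1 η = o then o
    else
      if h : ∃ v ∈ (L.L η).ν, GoodAt L S (fun i => (y i).1) act η
          (fun ζ => if h : ζ < η then rec ζ h else o) v then h.choose
      else o
  let τ : K → K := WellFounded.fix (wellFounded_lt (α := K)) F
  have hτ : ∀ η, τ η = F η (fun ζ _ => τ ζ) := fun η => WellFounded.fix_eq _ F η
  have hcongr : ∀ η v, GoodAt L S (fun i => (y i).1) act η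
      (fun ζ => if _h : ζ < η then τ ζ else o) v ↔ GoodAt L S (fun i => (y i).1) act η τ v := by
    intro η v
    have e : ∀ T : L.Cond, (∀ ζ < η, ζ ∉ S → (L.L ζ).rel (cut o (Iio ζ) T.1) (T.1 ζ)
        (if _h : ζ < η then τ ζ else o)) ↔
        (∀ ζ < η, ζ ∉ S → (L.L ζ).rel (cut o (Iio ζ) T.1) (T.1 ζ) (τ ζ)) := by
      intro T
      constructor
      · intro h ζ hζ hζS
        have := h ζ hζ hζS
        rwa [dif_pos hζ] at this
      · intro h ζ hζ hζS
        rw [dif_pos hζ]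
        exact h ζ hζ hζS
    constructor
    · intro h i T h1 h2
      exact h i T h1 ((e T).2 h2)
    · intro h i T h1 h2
      exact h i T h1 ((e T).1 h2)
  have hmain : ∀ η, τ η ∈ (L.L η).ν ∧
      (η ∉ S → GoodAt L S (fun i => (y i).1) act η τ (τ η)) := by
    intro η
    induction η using WellFoundedLT.induction with
    | ind η ih =>
      by_cases h1 : η ∈ S ∨ ∀ i, (y i).1.1 η = o
      · have h2 : τ η = o := by rw [hτ η]; exact if_pos h1
        rw [h2]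
        refine ⟨(L.ok η).mem, fun hS i T _ _ => ?_⟩
        have h3 : (y i).1.1 η = o := (h1.resolve_left hS) i
        change (L.L η).rel _ o ((y i).1.1 η)
        rw [h3]
        exact L.rel_refl T η (L.ok η).mem
      · have hS : η ∉ S := fun h => h1 (Or.inl h)
        have h4 : ∃ v ∈ (L.L η).ν, GoodAt L S (fun i => (y i).1) act η
            (fun ζ => if _h : ζ < η then τ ζ else o) v := by
          obtain ⟨v, hv, hv'⟩ := exists_goodAt L S s hI y act hopen hdir hS (hst η hS) τ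
            (fun ζ hζ => (ih ζ hζ).1) (fun ζ hζ => (ih ζ hζ).2)
          exact ⟨v, hv, (hcongr η v).2 hv'⟩
        have h2 : τ η = h4.choose := by
          rw [hτ η]
          change (if _ then _ else _) = _
          rw [if_neg h1, dif_pos h4]
        rw [h2]
        exact ⟨h4.choose_spec.1, fun _ => (hcongr η _).1 h4.choose_spec.2⟩
  have hzero : ∀ η, (∀ i, (y i).1.1 η = o) → τ η = o := fun η h => by
    rw [hτ η]; exact if_pos (Or.inr h)
  have hzeroS : ∀ η, η ∈ S → τ η = o := fun η h => by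
    rw [hτ η]; exact if_pos (Or.inl h)
  have hEst : Est o τ := by
    intro ξ hξ
    rcases hE ξ hξ with h | h
    · have h0 : Nonempty {η : K | (η : WithTop K) < ξ} := by
        rw [← Cardinal.mk_ne_zero_iff]
        exact (aleph0_pos.trans hξ.unc).ne'
      obtain ⟨β, hβ⟩ := h0
      refine ⟨β, hβ, fun η _ hη => ?_⟩
      by_cases hS : η ∈ S
      · exact hzeroS η hS
      · have h1 := (hmain η).1
        rw [h η hS hη] at h1
        exact h1
    · choose β hβ hβ' using fun i => (y i).1.2.est ξ hξ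
      obtain ⟨b, hb, hb'⟩ := hξ.exists_bound (hI.trans_le h) β hβ
      exact ⟨b, hb, fun η hη hηξ => hzero η fun i => hβ' i η ((hb' i).trans hη) hηξ⟩
  let t₀ : L.Cond := ⟨τ, fun η => (hmain η).1, hEst⟩
  -- `t₀` is below the active conditions
  have hclaim : ∀ i, ∀ r ∈ act i, L.join S r t₀ ≤ L.join S r (y i).1 := by
    intro i r hr η
    by_cases hη : η ∈ (S : Set K)
    · rw [L.join_of_mem hη, L.join_of_mem hη]
      exact L.rel_refl (L.join S r t₀) η ((L.emb S r).2.mem η)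
    · rw [L.join_of_not_mem hη, L.join_of_not_mem hη]
      refine (hmain η).2 hη i (L.join S r t₀) (by rw [L.cutC_join]; exact hr) ?_
      intro ζ hζ hζS
      rw [L.join_of_not_mem hζS]
      exact L.rel_refl (L.join S r t₀) ζ (hmain ζ).1
  obtain ⟨z, hz⟩ := hs I (fun i => (y i).2)
    (fun i => {t | L.cutC S t ∈ act i ∧ t ≤ L.join S (L.cutC S t) t₀}) hI (by
      intro i p hp q hq
      refine ⟨hopen i _ hp.1 _ (L.cutC_mono hq), ?_⟩
      have h1 : L.join S (L.cutC S q) q ≤ L.join S (L.cutC S q) t₀ :=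
        L.join_le_join (hq.trans hp.2) le_rfl
      rwa [L.join_cutC] at h1) (by
      intro i j t hti htj
      obtain ⟨r', hr', k, hk, hki, hkj⟩ := hdir i j _ hti.1 htj.1
      have h1 : L.join S r' t ≤ L.join S r' t₀ := L.join_le_join hti.2 hr'
      have h2 : L.join S r' t ≤ L.join S r' (y k).1 := h1.trans (hclaim k r' hk)
      refine ⟨L.join S r' t, L.join_le hr', k, ⟨?_, ?_⟩, s.mono _ _ _ _ h2 hki.2,
        s.mono _ _ _ _ h2 hkj.2⟩
      · rw [L.cutC_join]; exact hk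
      · rw [L.cutC_join]; exact h1)
  refine ⟨(t₀, z), fun i r hr => ⟨hclaim i r hr, ?_⟩⟩
  refine hz i (L.join S r t₀) ⟨?_, ?_⟩
  · rw [L.cutC_join]; exact hr
  · rw [L.cutC_join]

end

end Pool.Agent.Helper92.PR
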