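import Pool.Agent.Helper92.PR.Ext1
import Pool.Agent.Helper92.PR.TailCdc
import Pool.Agent.Helper92.PR.Dec

/-!
# The master condition
-/

open Cardinal Set

set_option linter.unusedSectionVars false

namespace Pool.Agent.Helper92.PR

section I5
variable {κ : Cardinal.{0}} {o : κ.ord.ToType}

theorem PN.CDC.mono_card {P X : Type} [Preorder P] {x : PN P X} {μ μ' : Cardinal.{0}}
    (h : x.CDC μ') (hμ : μ ≤ μ') : x.CDC μ :=
  fun I y a hI h1 h2 => h I y a (hI.trans_le hμ) h1 h2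

/-- **I5** The master condition. -/
theorem exists_master {L : It o} (hL : GoodIt L) {γ : κ.ord.ToType} {X : Type}
    (s : PN L.Cond X) (hs : s.CDC κ) (u : (L.L γ).ν → X)
    (hu : ∀ p j j', (L.st γ).le p j j' ↔ s.le (L.emb _ p) (u j) (u j'))
    {μ : Cardinal.{0}} (hμ0 : ℵ₀ ≤ μ) (hμκ : μ ≤ κ)
    (hsize : #(L.tr (LowerSet.Iic γ)).Cond < μ)
    (hμ : ∀ η, γ < η → (L.L η).ν ≠ {o} → μ ≤ #(Iio η))
    {J : Type} (hJ : #J < μ) (N : J → Set (Two s)) (hN : ∀ k, Reg (N k)) :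
    ∃ (τ : L.Cond) (y : X),
      (∀ p j, s.le (L.join (LowerSet.Iic γ) (L.ext1 γ p j) τ) y (u j)) ∧
      ∀ k, ∀ r : (L.tr (LowerSet.Iic γ)).Cond, ∃ r' ≤ r,
        (show Two s from (L.join _ r' τ, y)) ∈ N k ∨
        (show Two s from (L.join _ r' τ, y)) ∈ neg (N k) := by
  classical
  have hT : (L.comp (LowerSet.Iic γ) s).CDC μ := by
    refine L.comp_cdc (LowerSet.Iic γ) s (hs.mono_card hμκ) (fun η hη => ?_) (fun ξ _ => ?_)
    · have hη' : γ < η := not_le.1 hη
      by_cases hν : (L.L η).ν = {o}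
      · intro I y a _ _ _
        refine ⟨⟨o, (L.ok η).mem⟩, fun i p _ => ?_⟩
        have h1 : y i = ⟨o, (L.ok η).mem⟩ := by
          have h2 : (y i).1 ∈ ({o} : Set κ.ord.ToType) := by
            rw [← hν]
            exact (y i).2
          exact Subtype.ext h2
        rw [h1]
        exact (L.st η).refl _ _
      · exact (hL.cdc η).mono_card (hμ η hη' hν)
    · by_cases h : ∀ η : κ.ord.ToType, η ∉ LowerSet.Iic γ → (η : WithTop κ.ord.ToType) < ξ →
          (L.L η).ν = {o}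
      · exact Or.inl h
      · right
        push Not at h
        obtain ⟨η, hη, hηξ, hν⟩ := h
        refine (hμ η (not_le.1 hη) hν).trans (mk_le_mk_of_subset ?_)
        intro ζ hζ
        exact lt_trans (WithTop.coe_lt_coe.2 hζ) hηξ
  have hinj : Function.Injective (fun i : (L.tr (LowerSet.Iio γ)).Cond × (L.L γ).ν =>
      L.ext1 γ i.1 i.2) := by
    rintro ⟨p, j⟩ ⟨p', j'⟩ h
    have h1 : ∀ η, (L.ext1 γ p j).1 η = (L.ext1 γ p' j').1 η :=
      fun η => congrFun (congrArg Subtype.val h) η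
    have h2 : p = p' := by
      apply (L.tr (LowerSet.Iio γ)).ext'
      intro η
      by_cases hη : η < γ
      · have h3 := h1 η
        change (if η < γ then p.1 η else if η = γ then j.1 else o) =
          (if η < γ then p'.1 η else if η = γ then j'.1 else o) at h3
        rwa [if_pos hη, if_pos hη] at h3
      · rw [L.val_eq p hη, L.val_eq p' hη]
    have h3 : j = j' := by
      have h3 := h1 γ
      change (if γ < γ then p.1 γ else if γ = γ then j.1 else o) =
          (if γ < γ then p'.1 γ else if γ = γ then j'.1 else o) at h3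
      rw [if_neg (lt_irrefl _), if_neg (lt_irrefl _), if_pos rfl, if_pos rfl] at h3
      exact Subtype.ext h3
    rw [h2, h3]
  obtain ⟨⟨τ₀, y₀⟩, h0⟩ := hT ((L.tr (LowerSet.Iio γ)).Cond × (L.L γ).ν)
    (fun i => (L.one, u i.2)) (fun i => {r | r ≤ L.ext1 γ i.1 i.2})
    (lt_of_le_of_lt (mk_le_of_injective hinj) hsize)
    (fun i p hp q hq => le_trans hq hp) (by
      rintro ⟨p, j⟩ ⟨p', j'⟩ r hr hr'
      obtain ⟨p'', j'', rfl⟩ := L.exists_ext1 r
      refine ⟨L.ext1 γ p'' j'', le_rfl, (p'', j''),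
        (show L.ext1 γ p'' j'' ≤ L.ext1 γ p'' j'' from le_rfl), ⟨le_rfl, ?_⟩, ⟨le_rfl, ?_⟩⟩
      · exact s.mono _ _ _ _ (L.join_ext1_le p'' j'' L.one) ((hu _ _ _).1 (L.ext1_le.1 hr).2)
      · exact s.mono _ _ _ _ (L.join_ext1_le p'' j'' L.one) ((hu _ _ _).1 (L.ext1_le.1 hr').2))
  have hcc : CC (L.tr (LowerSet.Iic γ)).Cond μ := fun W _ => lt_of_le_of_lt (mk_set_le W) hsize
  obtain ⟨⟨τ, y⟩, h1, h2⟩ := PN.seqDec (x := L.comp (LowerSet.Iic γ) s) hμ0 hcc hT hJ
    (D := fun k => {e | (show Two s from (L.join _ e.1 e.2.1, e.2.2)) ∈ N k ∨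
      (show Two s from (L.join _ e.1 e.2.1, e.2.2)) ∈ neg (N k)}) (by
      rintro k ⟨r, τ, y⟩ he ⟨r', τ', y'⟩ ⟨hle1, hle2, hle3⟩
      have hle : (show Two s from (L.join _ r' τ', y')) ≤ (show Two s from (L.join _ r τ, y)) :=
        ⟨le_trans hle2 (L.join_le_left hle1 τ), hle3⟩
      rcases he with he | he
      · exact Or.inl ((hN k).lower _ he _ hle)
      · exact Or.inr ((reg_neg (hN k).lower).lower _ he _ hle)) (by
      rintro k ⟨r, τ, y⟩
      obtain ⟨⟨t, z⟩, ht, htN⟩ : ∃ e ≤ (show Two s from (L.join _ r τ, y)),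
          e ∈ N k ∨ e ∈ neg (N k) := by
        by_cases hc : (show Two s from (L.join _ r τ, y)) ∈ neg (N k)
        · exact ⟨_, le_rfl, Or.inr hc⟩
        · change ¬ ∀ q ≤ (show Two s from (L.join _ r τ, y)), q ∉ N k at hc
          push Not at hc
          obtain ⟨q, hq, hqN⟩ := hc
          exact ⟨q, hq, Or.inl hqN⟩
      obtain ⟨ht1, ht2⟩ := ht
      refine ⟨(L.cutC _ t, (t, z)), ⟨?_, ?_, ?_⟩, ?_⟩
      · have h3 := L.cutC_mono (S := LowerSet.Iic γ) ht1
        rwa [L.cutC_join] at h3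
      · exact L.join_le_join ht1 le_rfl
      · change s.le (L.join _ (L.cutC _ t) t) z y
        rw [L.join_cutC]
        exact ht2
      · change (show Two s from (L.join _ (L.cutC _ t) t, z)) ∈ N k ∨
          (show Two s from (L.join _ (L.cutC _ t) t, z)) ∈ neg (N k)
        rw [L.join_cutC]
        exact htN) (τ₀, y₀)
  refine ⟨τ, y, fun p j => ?_, fun k r => h2 k r⟩
  have h3 := h1 (L.ext1 γ p j)
  have h4 := h0 (p, j) (L.ext1 γ p j) (show L.ext1 γ p j ≤ L.ext1 γ p j from le_rfl)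
  exact s.trans _ _ _ _ h3.2 (s.mono _ _ _ _ h3.1 h4.2)

end I5

end Pool.Agent.Helper92.PR
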