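import Pool.Agent.Helper92.PR.Comp

/-!
# Normal ultrafilters, sorts, and lifting of names (definitions)
-/

open Cardinal Set

set_option linter.unusedSectionVars false

namespace Pool.Agent.Helper92.PR

/-- `U` is a fine, normal, `κ`-complete ultrafilter on the set of the subsets of `H` of size less
than `κ` -/
structure Msr (κ : Cardinal.{0}) {H : Type} (U : Ultrafilter (Set H)) : Prop where
  small : ∀ᶠ a : Set H in (U : Filter (Set H)), #a < κ
  fine : ∀ h : H, ∀ᶠ a : Set H in (U : Filter (Set H)), h ∈ a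
  compl : ∀ (I : Type) (φ : I → Set H → Prop), #I < κ →
    (∀ i, ∀ᶠ a in (U : Filter (Set H)), φ i a) → ∀ᶠ a in (U : Filter (Set H)), ∀ i, φ i a
  normal : ∀ f : Set H → H, (∀ᶠ a in (U : Filter (Set H)), f a ∈ a) →
    ∃ h, ∀ᶠ a in (U : Filter (Set H)), f a = h

/-- A sort: to (almost) every `a` a subset `inn a` of `S` is assigned (the elements of `S` which
belong to the submodel `a`). -/
structure Srt {H : Type} (U : Ultrafilter (Set H)) (S : Type) where
  inn : Set H → Set S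
  fine : ∀ s, ∀ᶠ a in (U : Filter (Set H)), s ∈ inn a
  normal : ∀ f : Set H → S, (∀ᶠ a in (U : Filter (Set H)), f a ∈ inn a) →
    ∃ s, ∀ᶠ a in (U : Filter (Set H)), f a = s

/-- `S` as a part of `H` -/
def Srt.ofEmb {κ : Cardinal.{0}} {H : Type} {U : Ultrafilter (Set H)} (hU : Msr κ U) {S : Type}
    (c : S → H) (hc : Function.Injective c) : Srt U S where
  inn a := c ⁻¹' a
  fine s := hU.fine (c s)
  normal f hf := by
    obtain ⟨h, hh⟩ := hU.normal (fun a => c (f a)) hf
    obtain ⟨a, ha⟩ := hh.exists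
    refine ⟨f a, hh.mono fun b hb => hc ?_⟩
    rw [hb, ← ha]

/-- products of sorts -/
def Srt.prod {H : Type} {U : Ultrafilter (Set H)} {S T : Type} (s : Srt U S) (t : Srt U T) :
    Srt U (S × T) where
  inn a := {x | x.1 ∈ s.inn a ∧ x.2 ∈ t.inn a}
  fine x := (s.fine x.1).and (t.fine x.2)
  normal f hf := by
    obtain ⟨x, hx⟩ := s.normal (fun a => (f a).1) (hf.mono fun _ h => h.1)
    obtain ⟨y, hy⟩ := t.normal (fun a => (f a).2) (hf.mono fun _ h => h.2)
    exact ⟨(x, y), (hx.and hy).mono fun a h => Prod.ext h.1 h.2⟩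

section

variable {K P X : Type} [LinearOrder K] [Preorder P]

/-- `y` is the restriction of the relation `r` to `PA`, `XA` -/
def IsRes {PA : Set P} {XA : Set X} (y : PN PA XA) (r : P → X → X → Prop) : Prop :=
  ∀ p u v, y.le p u v ↔ r p.1 u.1 v.1

/-- the conditions of `Two y` as conditions of `Two s` -/
def up (s : PN P X) {PA : Set P} {XA : Set X} (y : PN PA XA) (e : Two y) : Two s := (e.1.1, e.2.1)

/-- `lift` assigns to names (of subsets of `γ`) over `Two y` names (of subsets of `κ`) over `Two s`,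
elementarily -/
structure LiftOK (s : PN P X) {PA : Set P} {XA : Set X} (y : PN PA XA) {γ : K}
    (lift : (Iio γ → Set (Two y)) → K → Set (Two s)) : Prop where
  reg : ∀ A, (∀ η, Reg (A η)) → ∀ η, Reg (lift A η)
  mono : ∀ A A', (∀ η, Reg (A η)) → (∀ η, Reg (A' η)) → ∀ e : Two y,
    (∀ e' ≤ e, ∀ η, e' ∈ A η → e' ∈ A' η) →
      ∀ e' ≤ up s y e, ∀ η, e' ∈ lift A η → e' ∈ lift A' η
  neg : ∀ A, (∀ η, Reg (A η)) → ∀ η, lift (fun η => neg (A η)) η = neg (lift A η)
  unb : ∀ A, (∀ η, Reg (A η)) → ∀ e : Two y, ∀ ζ : Iio γ,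
    (∃ e' ≤ up s y e, ∃ η : K, ζ.1 < η ∧ e' ∈ lift A η) → ∃ e' ≤ e, ∃ η, ζ < η ∧ e' ∈ A η
  inter : ∀ (I : Type) (A : I → Iio γ → Set (Two y)), #I < #(Iio γ) → (∀ i η, Reg (A i η)) →
    ∀ η, (⋂ i, lift (A i) η) ⊆ lift (fun η => ⋂ i, A i η) η

end

section

variable {K : Type} [LinearOrder K] {o : K}

theorem Inac.exists_gt {ξ : WithTop K} (h : Inac ξ) {γ : K} (hγ : (γ : WithTop K) < ξ) :
    ∃ β, γ < β ∧ (β : WithTop K) < ξ := by
  by_contra hc
  push Not at hc
  have h1 : {η : K | (η : WithTop K) < ξ} ⊆ insert γ (Iio γ) := by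
    intro η hη
    rcases lt_trichotomy η γ with h2 | h2 | h2
    · exact Or.inr h2
    · exact Or.inl h2
    · exact absurd hη (not_lt.2 (hc η h2))
  have h2 : szW ξ ≤ #(Iio γ) + 1 := (mk_le_mk_of_subset h1).trans mk_insert_le
  exact absurd h2 (not_le.2 (add_lt_of_lt h.unc.le (h.ini γ hγ) (one_lt_aleph0.trans h.unc)))

open Classical in
/-- extending a condition by a condition of the stage `γ` -/
noncomputable def It.ext1 (L : It o) (γ : K) (p : (L.tr (LowerSet.Iio γ)).Cond) (j : (L.L γ).ν) :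
    (L.tr (LowerSet.Iic γ)).Cond :=
  ⟨fun η => if η < γ then p.1 η else if η = γ then j.1 else o, fun η => by
    change _ ∈ (trR o (Iic γ) L.L η).ν
    by_cases h1 : η < γ
    · have h2 := (L.emb _ p).2.mem η
      rw [trR_of_mem (show η ∈ Iic γ from h1.le), if_pos h1]
      exact h2
    · rw [if_neg h1]
      by_cases h2 : η = γ
      · subst h2
        rw [if_pos rfl, trR_of_mem (show η ∈ Iic η from le_rfl)]
        exact j.2
      · have h3 : η ∉ Iic γ := fun h3 => h1 (lt_of_le_of_ne h3 h2)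
        rw [if_neg h2, trR_of_not_mem h3]
        rfl, fun ξ hξ => by
    obtain ⟨β, hβ, h1⟩ := p.2.est ξ hξ
    by_cases hγ : (γ : WithTop K) < ξ
    · obtain ⟨β', h2, h3⟩ := hξ.exists_gt hγ
      refine ⟨max β β', ?_, fun η hη hηξ => ?_⟩
      · rcases le_total β β' with h | h
        · rwa [max_eq_right h]
        · rwa [max_eq_left h]
      · have h4 : γ < η := h2.trans_le ((le_max_right _ _).trans hη)
        rw [if_neg h4.le.not_gt, if_neg h4.ne']
    · refine ⟨β, hβ, fun η hη hηξ => ?_⟩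
      have h4 : η < γ := by
        by_contra hc
        exact hγ (lt_of_le_of_lt (WithTop.coe_le_coe.2 (not_lt.1 hc)) hηξ)
      rw [if_pos h4]
      exact h1 η hη hηξ⟩

end

/-- the closure condition at `ξ` -/
def Clo {K : Type} [LinearOrder K] {o : K} (L : It o) (ξ : WithTop K) : Prop :=
  ∀ η : K, (η : WithTop K) < ξ → ∃ β : K, (β : WithTop K) < ξ ∧ (L.L η).ν ⊆ Iio β

/-- the properties of the iteration: nontrivial stages are closed inaccessible cardinals, all
stages are `CDC`, and if at a closed inaccessible `ξ` there is a small bad forced preorder then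
the stage `ξ` is bad, with the least possible size -/
structure GoodIt {κ : Cardinal.{0}} {o : κ.ord.ToType} (L : It o) : Prop where
  triv : ∀ ξ : κ.ord.ToType, (L.L ξ).ν ≠ {o} → Inac (ξ : WithTop κ.ord.ToType) ∧ Clo L ξ
  bdd : ∀ ξ, ∃ β, (L.L ξ).ν ⊆ Iio β
  cdc : ∀ ξ, (L.st ξ).CDC #(Iio ξ)
  bad : ∀ ξ : κ.ord.ToType, Inac (ξ : WithTop κ.ord.ToType) → Clo L ξ →
    ∀ (Y : Type) (y : PN (L.tr (LowerSet.Iio ξ)).Cond Y), #Y < κ → y.CDC #(Iio ξ) →
      ¬ HasUlt (Two y) (Iio ξ) #(Iio ξ) →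
        ¬ HasUlt (Two (L.st ξ)) (Iio ξ) #(Iio ξ) ∧ #(L.L ξ).ν ≤ #Y

end Pool.Agent.Helper92.PR
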