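import Pool.Agent.Helper92.PR.Tool
import Pool.Agent.Helper96.Fc.Card

/-!
# R5: the non-existence of ultrafilter names reflects
-/

open Cardinal Set

set_option linter.unusedSectionVars false

namespace Pool.Agent.Helper92.PR

/-- almost all `a` have more than `ν` ordinals if `ν < κ` -/
theorem nu_card_lt {κ : Cardinal.{0}} {H : Type} {U : Ultrafilter (Set H)}
    (kS : Srt U κ.ord.ToType)
    (hk : ∀ᶠ a in (U : Filter (Set H)), ∃ γ : κ.ord.ToType, kS.inn a = Iio γ ∧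
      Inac (γ : WithTop κ.ord.ToType)) {ν : Cardinal.{0}} (hν : ν < κ) :
    ∀ᶠ a in (U : Filter (Set H)), ∀ γ : κ.ord.ToType, kS.inn a = Iio γ → ν < #(Iio γ) := by
  obtain ⟨β, hβ⟩ := Pool.Agent.Helper96.Fc.exists_Iio_eq hν
  filter_upwards [hk, kS.fine β] with a ⟨γ, hγ, hi⟩ hb γ' hγ'
  have h1 : Iio γ = Iio γ' := hγ.symm.trans hγ'
  rw [← h1, ← hβ]
  have h2 : β < γ := by rw [hγ] at hb; exact hb
  have h3 := hi.ini β (WithTop.coe_lt_coe.2 h2)
  have h4 : szW (γ : WithTop κ.ord.ToType) = #(Iio γ) := by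
    unfold szW
    congr 1
    simp [Iio]
  rwa [h4] at h3

/-- a witness in `inn a` is almost constant -/
theorem Srt.exists_const {H : Type} {U : Ultrafilter (Set H)} {S : Type} (s : Srt U S)
    {φ : S → Set H → Prop} (h : ∀ᶠ a in (U : Filter (Set H)), ∃ x, x ∈ s.inn a ∧ φ x a) :
    ∃ x, ∀ᶠ a in (U : Filter (Set H)), φ x a := by
  classical
  obtain ⟨a₀, x₀, -⟩ := h.exists
  have h2 : ∀ᶠ a in (U : Filter (Set H)),
      (if hx : ∃ x, x ∈ s.inn a ∧ φ x a then hx.choose else x₀) ∈ s.inn a ∧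
        φ (if hx : ∃ x, x ∈ s.inn a ∧ φ x a then hx.choose else x₀) a := by
    refine h.mono fun a ha => ?_
    rw [dif_pos ha]
    exact ha.choose_spec
  obtain ⟨x, hx⟩ := s.normal _ (h2.mono fun a ha => ha.1)
  refine ⟨x, (h2.and hx).mono fun a ha => ?_⟩
  have h3 := ha.1.2
  rwa [ha.2] at h3

section R5
variable {κ : Cardinal.{0}} {H : Type} {U : Ultrafilter (Set H)} {P X : Type} [Preorder P]

theorem up_injective (s : PN P X) {PA : Set P} {XA : Set X} (y : PN PA XA) :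
    Function.Injective (up s y) := by
  rintro ⟨⟨p, hp⟩, ⟨u, hu⟩⟩ ⟨⟨q, hq⟩, ⟨v, hv⟩⟩ h
  have h1 : p = q := congrArg Prod.fst h
  have h2 : u = v := congrArg Prod.snd h
  subst h1 h2
  rfl

theorem nu_up_le_up {s : PN P X} {PA : Set P} {XA : Set X} {y : PN PA XA} (hy : IsRes y s.le)
    {e e' : Two y} : up s y e' ≤ up s y e ↔ e' ≤ e := by
  rw [Two.le_iff, Two.le_iff]
  exact and_congr Iff.rfl (hy e'.1 e'.2 e.2).symm

/-- the restriction of a name -/
def rst {K : Type} [LinearOrder K] (s : PN P X) {PA : Set P} {XA : Set X} (y : PN PA XA) (γ : K)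
    (A : K → Set (Two s)) : Iio γ → Set (Two y) := fun η => {e | up s y e ∈ A η.1}

/-- the data at `a` -/
structure Dat (x : PN P X) (a : Set H) (kS : Srt U κ.ord.ToType) (pS : Srt U P) (xS : Srt U X) where
  y : PN (pS.inn a) (xS.inn a)
  res : IsRes y x.le
  γ : κ.ord.ToType
  hγ : kS.inn a = Iio γ
  Φ : (Iio γ → Set (Two y)) → Set (Two y)
  ult : IsUlt (Two y) (Iio γ) #(Iio γ) Φ

variable (kS : Srt U κ.ord.ToType) (pS : Srt U P) (xS : Srt U X) (x : PN P X)

/-- the sort of the conditions of `Two x` -/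
def twS (pS : Srt U P) (xS : Srt U X) (x : PN P X) : Srt U (Two x) := pS.prod xS

/-- a condition belongs to almost all `a` -/
theorem ev_up (e : Two x) : ∀ᶠ a in (U : Filter (Set H)), ∀ d : Dat x a kS pS xS,
    ∃ e', up x d.y e' = e := by
  filter_upwards [pS.fine e.1, xS.fine e.2] with a h1 h2 d
  exact ⟨(⟨e.1, h1⟩, ⟨e.2, h2⟩), rfl⟩

/-- restrictions of regular names are regular -/
theorem ev_rst_reg (A : κ.ord.ToType → Set (Two x)) (hA : ∀ η, Reg (A η)) :
    ∀ᶠ a in (U : Filter (Set H)), ∀ d : Dat x a kS pS xS, ∀ η, Reg (rst x d.y d.γ A η) := by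
  have h1 : ∀ z : κ.ord.ToType × Two x, ∃ q : Two x, z.2 ∉ A z.1 →
      q ≤ z.2 ∧ ∀ r : Two x, r ≤ q → r ∉ A z.1 := by
    intro z
    by_cases hz : z.2 ∈ A z.1
    · exact ⟨z.2, fun h => absurd hz h⟩
    · have h2 := mt ((hA z.1).dense z.2) hz
      push Not at h2
      obtain ⟨q, hq, hq'⟩ := h2
      exact ⟨q, fun _ => ⟨hq, hq'⟩⟩
  choose q hq using h1
  filter_upwards [(kS.prod (twS pS xS x)).closed (twS pS xS x) q] with a ha d η
  refine ⟨fun e he f hf => (hA η.1).lower _ he _ ((nu_up_le_up d.res).2 hf), fun e he => ?_⟩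
  by_contra hc
  have hc' : up x d.y e ∉ A η.1 := hc
  obtain ⟨h2, h3⟩ := hq (η.1, up x d.y e) hc'
  have h4 := ha (η.1, up x d.y e) ⟨by rw [d.hγ]; exact η.2, e.1.2, e.2.2⟩
  obtain ⟨r, hr, hr'⟩ := he (⟨(q (η.1, up x d.y e)).1, h4.1⟩, ⟨(q (η.1, up x d.y e)).2, h4.2⟩)
    ((nu_up_le_up d.res).1 h2)
  exact h3 _ ((nu_up_le_up d.res).2 hr) hr'

/-- restrictions of negations -/
theorem ev_rst_neg (A : κ.ord.ToType → Set (Two x)) :
    ∀ᶠ a in (U : Filter (Set H)), ∀ d : Dat x a kS pS xS,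
      rst x d.y d.γ (fun η => neg (A η)) = fun η => neg (rst x d.y d.γ A η) := by
  have h1 : ∀ z : κ.ord.ToType × Two x, ∃ q : Two x, z.2 ∉ neg (A z.1) →
      q ≤ z.2 ∧ q ∈ A z.1 := by
    intro z
    by_cases hz : ∃ q ≤ z.2, q ∈ A z.1
    · obtain ⟨q, hq, hq'⟩ := hz
      exact ⟨q, fun _ => ⟨hq, hq'⟩⟩
    · exact ⟨z.2, fun h => absurd (fun q hq hq' => hz ⟨q, hq, hq'⟩) h⟩
  choose q hq using h1
  filter_upwards [(kS.prod (twS pS xS x)).closed (twS pS xS x) q] with a ha d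
  funext η
  ext e
  constructor
  · intro he f hf hfA
    exact he _ ((nu_up_le_up d.res).2 hf) hfA
  · intro he
    by_contra hc
    have hc' : up x d.y e ∉ neg (A η.1) := hc
    obtain ⟨h2, h3⟩ := hq (η.1, up x d.y e) hc'
    have h4 := ha (η.1, up x d.y e) ⟨by rw [d.hγ]; exact η.2, e.1.2, e.2.2⟩
    exact he (⟨(q (η.1, up x d.y e)).1, h4.1⟩, ⟨(q (η.1, up x d.y e)).2, h4.2⟩)
      ((nu_up_le_up d.res).1 h2) h3

/-- `e` is in the ultrafilter of `a` -/
def Gd (A : κ.ord.ToType → Set (Two x)) (e : Two x) (a : Set H) : Prop :=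
  ∃ h : Nonempty (Dat x a kS pS xS), ∃ e' : Two h.some.y, up x h.some.y e' = e ∧
    e' ∈ h.some.Φ (rst x h.some.y h.some.γ A)

/-- the ultrafilter name over `Two x` -/
def limU (A : κ.ord.ToType → Set (Two x)) : Set (Two x) :=
  {e | ∀ᶠ a in (U : Filter (Set H)), Gd kS pS xS x A e a}

theorem Gd.mem {kS : Srt U κ.ord.ToType} {pS : Srt U P} {xS : Srt U X} {x : PN P X}
    {A : κ.ord.ToType → Set (Two x)} {e : Two x} {a : Set H} (h : Gd kS pS xS x A e a)
    (h' : Nonempty (Dat x a kS pS xS)) (e' : Two h'.some.y) (he : up x h'.some.y e' = e) :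
    e' ∈ h'.some.Φ (rst x h'.some.y h'.some.γ A) := by
  obtain ⟨h1, f, hf, hf'⟩ := h
  have : e' = f := up_injective _ _ (he.trans hf.symm)
  rw [this]
  exact hf'

theorem isUlt_limU (hU : Msr κ U)
    (hk : ∀ᶠ a in (U : Filter (Set H)), ∃ γ : κ.ord.ToType, kS.inn a = Iio γ ∧
      Inac (γ : WithTop κ.ord.ToType))
    (hD : ∀ᶠ a in (U : Filter (Set H)), Nonempty (Dat x a kS pS xS)) :
    IsUlt (Two x) κ.ord.ToType κ (limU kS pS xS x) where
  reg A hA := by
    refine ⟨fun e he f hf => ?_, fun e he => ?_⟩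
    · change ∀ᶠ a in (U : Filter (Set H)), Gd kS pS xS x A f a
      filter_upwards [he, ev_up kS pS xS x f, ev_rst_reg kS pS xS x A hA] with a h1 h2 h3
      obtain ⟨h, e', he', h4⟩ := h1
      obtain ⟨f', hf'⟩ := h2 h.some
      refine ⟨h, f', hf', (h.some.ult.reg _ (h3 h.some)).lower e' h4 f' ?_⟩
      rw [← nu_up_le_up h.some.res, hf', he']
      exact hf
    · by_contra hc
      have h1 := ev_not hc
      have h2 : ∀ᶠ a in (U : Filter (Set H)), ∃ r : Two x, r ∈ (twS pS xS x).inn a ∧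
          r ≤ e ∧ ∀ s : Two x, s ≤ r → ¬ Gd kS pS xS x A s a := by
        filter_upwards [h1, hD, ev_up kS pS xS x e, ev_rst_reg kS pS xS x A hA] with a h1 h h2 h3
        obtain ⟨e', he'⟩ := h2 h.some
        have h4 : e' ∉ h.some.Φ (rst x h.some.y h.some.γ A) := fun h5 => h1 ⟨h, e', he', h5⟩
        have h5 := mt ((h.some.ult.reg _ (h3 h.some)).dense e') h4
        push Not at h5
        obtain ⟨r, hr, h6⟩ := h5
        refine ⟨up x h.some.y r, ⟨r.1.2, r.2.2⟩, ?_, fun s hs hg => ?_⟩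
        · rw [← he']
          exact (nu_up_le_up h.some.res).2 hr
        · obtain ⟨h', s', hs', h7⟩ := hg
          refine h6 s' ?_ h7
          rw [← nu_up_le_up h.some.res, hs']
          exact hs
      obtain ⟨r, hr⟩ := Srt.exists_const (twS pS xS x) h2
      obtain ⟨a, ha⟩ := hr.exists
      obtain ⟨s, hs, h3⟩ := he r ha.1
      refine ev_false ((hr.and h3).mono fun a ha => ha.1.2 s hs ha.2)
  mono A A' hA hA' e he hAA := by
    change ∀ᶠ a in (U : Filter (Set H)), Gd kS pS xS x A' e a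
    filter_upwards [he, ev_rst_reg kS pS xS x A hA, ev_rst_reg kS pS xS x A' hA'] with a h1 h3 h3'
    obtain ⟨h, e', he', h4⟩ := h1
    refine ⟨h, e', he', h.some.ult.mono _ _ (h3 h.some) (h3' h.some) e' h4 fun f hf η hfη => ?_⟩
    refine hAA _ ?_ η.1 hfη
    rw [← he']
    exact (nu_up_le_up h.some.res).2 hf
  ultra A hA e := by
    have hA' : ∀ η, Reg (neg (A η)) := fun η => reg_neg (hA η).lower
    have h2 : ∀ᶠ a in (U : Filter (Set H)), ∃ r : Two x, r ∈ (twS pS xS x).inn a ∧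
        r ≤ e ∧ (Gd kS pS xS x A r a ∨ Gd kS pS xS x (fun η => neg (A η)) r a) := by
      filter_upwards [hD, ev_up kS pS xS x e, ev_rst_reg kS pS xS x A hA,
        ev_rst_neg kS pS xS x A] with a h h2 h3 h4
      obtain ⟨e', he'⟩ := h2 h.some
      obtain ⟨f, hf, h5⟩ := h.some.ult.ultra _ (h3 h.some) e'
      refine ⟨up x h.some.y f, ⟨f.1.2, f.2.2⟩, ?_, ?_⟩
      · rw [← he']
        exact (nu_up_le_up h.some.res).2 hf
      · rcases h5 with h5 | h5
        · exact Or.inl ⟨h, f, rfl, h5⟩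
        · refine Or.inr ⟨h, f, rfl, ?_⟩
          rw [h4 h.some]
          exact h5
    obtain ⟨r, hr⟩ := Srt.exists_const (twS pS xS x) h2
    obtain ⟨a, ha⟩ := hr.exists
    refine ⟨r, ha.1, ?_⟩
    have h3 := hr.mono fun a ha => ha.2
    exact Ultrafilter.eventually_or.1 h3
  inter I A hI hA e he := by
    change ∀ᶠ a in (U : Filter (Set H)), Gd kS pS xS x (fun η => ⋂ i, A i η) e a
    have h1 := hU.compl I (fun i a => Gd kS pS xS x (A i) e a) hI he
    have h2 := hU.compl I (fun i a => ∀ d : Dat x a kS pS xS, ∀ η, Reg (rst x d.y d.γ (A i) η)) hI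
      fun i => ev_rst_reg kS pS xS x (A i) (hA i)
    filter_upwards [h1, h2, hD, ev_up kS pS xS x e, nu_card_lt kS hk hI] with a h1 h2 h h3 h4
    obtain ⟨e', he'⟩ := h3 h.some
    refine ⟨h, e', he', ?_⟩
    have h5 := h.some.ult.inter I (fun i => rst x h.some.y h.some.γ (A i))
      (h4 _ h.some.hγ) (fun i => h2 i h.some) e' fun i => (h1 i).mem h e' he'
    convert h5 using 2
    funext η
    ext f
    simp [rst]
  unbdd A hA e he ζ := by
    have h1 : ∀ᶠ a in (U : Filter (Set H)), ∃ q ≤ e, ∃ η, ζ < η ∧ q ∈ A η := by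
      filter_upwards [he, kS.fine ζ, ev_rst_reg kS pS xS x A hA] with a h1 h2 h3
      obtain ⟨h, e', he', h4⟩ := h1
      rw [h.some.hγ] at h2
      obtain ⟨f, hf, η, hη, h5⟩ := h.some.ult.unbdd _ (h3 h.some) e' h4 ⟨ζ, h2⟩
      refine ⟨up x h.some.y f, ?_, η.1, hη, h5⟩
      rw [← he']
      exact (nu_up_le_up h.some.res).2 hf
    obtain ⟨a, ha⟩ := h1.exists
    exact ha

end R5

section R4
variable {κ : Cardinal.{0}} {H : Type} {U : Ultrafilter (Set H)} {P X : Type} [Preorder P]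

/-- **R5** If `Two x` has no ultrafilter name then almost all restrictions have
no ultrafilter name. -/
theorem ev_noUlt (hU : Msr κ U) (_hu : ℵ₀ < κ) (_hr : κ.IsRegular) (kS : Srt U κ.ord.ToType)
    (hk : ∀ᶠ a in (U : Filter (Set H)), ∃ γ : κ.ord.ToType, kS.inn a = Iio γ ∧
      Inac (γ : WithTop κ.ord.ToType))
    (pS : Srt U P) (xS : Srt U X) (x : PN P X) (hx : ¬ HasUlt (Two x) κ.ord.ToType κ) :
    ∀ᶠ a in (U : Filter (Set H)), ∀ x' : PN (pS.inn a) (xS.inn a), IsRes x' x.le →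
      ∀ γ : κ.ord.ToType, kS.inn a = Iio γ → ¬ HasUlt (Two x') (Iio γ) #(Iio γ) := by
  by_contra hc
  refine hx ⟨_, isUlt_limU kS pS xS x hU hk ?_⟩
  refine (ev_not hc).mono fun a ha => ?_
  push Not at ha
  obtain ⟨y, hy, γ, hγ, Φ, hΦ⟩ := ha
  exact ⟨⟨y, hy, γ, hγ, Φ, hΦ⟩⟩

end R4

end Pool.Agent.Helper92.PR
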