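import Pool.Agent.Helper92.PR.Base

/-!
# Transport of ultrafilter names and of forced preorders
-/

open Cardinal Set

set_option linter.unusedSectionVars false

namespace Pool.Agent.Helper92.PR

section I1

theorem reg_preimage {E E' : Type} [Preorder E] [Preorder E'] (φ : E → E')
    (hφ : Function.Surjective φ) (h : ∀ r s, φ r ≤ φ s ↔ r ≤ s) {B : Set E'} (hB : Reg B) :
    Reg (φ ⁻¹' B) where
  lower := fun p hp q hq => hB.lower _ hp _ ((h _ _).2 hq)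
  dense := fun p hp => hB.dense _ fun q' hq' => by
    obtain ⟨q, rfl⟩ := hφ q'
    obtain ⟨r, hr, h1⟩ := hp q ((h _ _).1 hq')
    exact ⟨φ r, (h _ _).2 hr, h1⟩

theorem neg_preimage {E E' : Type} [Preorder E] [Preorder E'] (φ : E → E')
    (hφ : Function.Surjective φ) (h : ∀ r s, φ r ≤ φ s ↔ r ≤ s) (B : Set E') :
    neg (φ ⁻¹' B) = φ ⁻¹' (neg B) := by
  apply Subset.antisymm
  · intro p hp q' hq' hqB
    obtain ⟨q, rfl⟩ := hφ q'
    exact hp q ((h _ _).1 hq') hqB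
  · intro p hp q hq hqB
    exact hp (φ q) ((h _ _).2 hq) hqB

/-- **I1b.** Transport of ultrafilter names along a surjection which preserves and reflects the
order. -/
theorem HasUlt.of_surj {E E' K : Type} [Preorder E] [Preorder E'] [LinearOrder K]
    {μ : Cardinal.{0}} (φ : E → E') (hφ : Function.Surjective φ)
    (h : ∀ r s, φ r ≤ φ s ↔ r ≤ s) (hU : HasUlt E K μ) : HasUlt E' K μ := by
  obtain ⟨U, hU⟩ := hU
  have key : ∀ (A : K → Set E'), (∀ η, Reg (A η)) → ∀ p,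
      (∃ e, φ e = φ p ∧ e ∈ U (fun η => φ ⁻¹' A η)) ↔ p ∈ U (fun η => φ ⁻¹' A η) := by
    intro A hA p
    constructor
    · rintro ⟨e, he, heU⟩
      exact (hU.reg _ fun η => reg_preimage φ hφ h (hA η)).lower _ heU _ ((h _ _).1 he.ge)
    · intro hp
      exact ⟨p, rfl, hp⟩
  refine ⟨fun A => {e' | ∃ e, φ e = e' ∧ e ∈ U (fun η => φ ⁻¹' A η)}, ?_, ?_, ?_, ?_, ?_⟩
  · intro A hA
    have hr := hU.reg _ fun η => reg_preimage φ hφ h (hA η)
    refine ⟨?_, ?_⟩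
    · rintro _ ⟨e, rfl, he⟩ q' hq'
      obtain ⟨q, rfl⟩ := hφ q'
      exact ⟨q, rfl, hr.lower _ he _ ((h _ _).1 hq')⟩
    · intro p' hp'
      obtain ⟨p, rfl⟩ := hφ p'
      refine ⟨p, rfl, hr.dense _ fun q hq => ?_⟩
      obtain ⟨r', hr', r, rfl, hrU⟩ := hp' (φ q) ((h _ _).2 hq)
      exact ⟨r, (h _ _).1 hr', hrU⟩
  · rintro A A' hA hA' _ ⟨p, rfl, hp⟩ hq
    exact ⟨p, rfl, hU.mono _ _ (fun η => reg_preimage φ hφ h (hA η))
      (fun η => reg_preimage φ hφ h (hA' η)) _ hp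
      fun q hqp η hqA => hq (φ q) ((h _ _).2 hqp) η hqA⟩
  · intro A hA p'
    obtain ⟨p, rfl⟩ := hφ p'
    obtain ⟨q, hq, h1⟩ := hU.ultra _ (fun η => reg_preimage φ hφ h (hA η)) p
    refine ⟨φ q, (h _ _).2 hq, ?_⟩
    rcases h1 with h1 | h1
    · exact Or.inl ⟨q, rfl, h1⟩
    · refine Or.inr ⟨q, rfl, ?_⟩
      have h2 : (fun η => neg (φ ⁻¹' A η)) = fun η => φ ⁻¹' (neg (A η)) :=
        funext fun η => neg_preimage φ hφ h (A η)
      rwa [h2] at h1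
  · intro I A hI hA p' hp'
    obtain ⟨p, rfl⟩ := hφ p'
    refine ⟨p, rfl, ?_⟩
    have h1 := hU.inter I (fun i η => φ ⁻¹' A i η) hI
      (fun i η => reg_preimage φ hφ h (hA i η)) p (fun i => (key (A i) (hA i) p).1 (hp' i))
    have h2 : (fun η => ⋂ i, φ ⁻¹' A i η) = fun η => φ ⁻¹' (⋂ i, A i η) :=
      funext fun η => preimage_iInter.symm
    rwa [h2] at h1
  · rintro A hA _ ⟨p, rfl, hp⟩ ζ
    obtain ⟨q, hq, η, hη, hqA⟩ := hU.unbdd _ (fun η => reg_preimage φ hφ h (hA η)) p hp ζ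
    exact ⟨φ q, (h _ _).2 hq, η, hη, hqA⟩

/-- **I1c.** Pulling back a forced preorder along maps preserves `CDC`. -/
theorem PN.exists_pull {P P' X X' : Type} [Preorder P] [Preorder P'] (x : PN P X)
    (φ : P' → P) (hφ : Function.Surjective φ) (hφ' : ∀ p q, φ p ≤ φ q ↔ p ≤ q) (ρ : X' → X)
    (hρ : Function.Surjective ρ) (t : X') (ht : ρ t = x.top) :
    ∃ y : PN P' X', y.top = t ∧ (∀ p u v, y.le p u v ↔ x.le (φ p) (ρ u) (ρ v)) ∧
      ∀ μ : Cardinal.{0}, x.CDC μ → y.CDC μ := by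
  refine ⟨⟨fun p u v => x.le (φ p) (ρ u) (ρ v), t, fun p u => x.refl _ _,
    fun p u v w h1 h2 => x.trans _ _ _ _ h1 h2, fun p u => ?_,
    fun p q u v h h1 => x.mono _ _ _ _ ((hφ' _ _).2 h) h1, fun p u v h => ?_⟩, rfl,
    fun p u v => Iff.rfl, ?_⟩
  · rw [ht]
    exact x.le_top _ _
  · refine x.dense _ _ _ fun q' hq' => ?_
    obtain ⟨q, rfl⟩ := hφ q'
    obtain ⟨r, hr, h1⟩ := h q ((hφ' _ _).1 hq')
    exact ⟨φ r, (hφ' _ _).2 hr, h1⟩
  · intro μ hx I y a hI ha hd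
    obtain ⟨z, hz⟩ := hx I (fun i => ρ (y i)) (fun i => {p' | ∃ p ∈ a i, φ p = p'}) hI (by
      rintro i _ ⟨p, hp, rfl⟩ q' hq'
      obtain ⟨q, rfl⟩ := hφ q'
      exact ⟨q, ha i p hp q ((hφ' _ _).1 hq'), rfl⟩) (by
      rintro i j _ ⟨p, hp, rfl⟩ ⟨p2, hp2, h2⟩
      have h3 : p ∈ a j := ha j p2 hp2 p ((hφ' _ _).1 h2.ge)
      obtain ⟨q, hq, k, hk, h4, h5⟩ := hd i j p hp h3
      exact ⟨φ q, (hφ' _ _).2 hq, k, ⟨q, hk, rfl⟩, h4, h5⟩)
    obtain ⟨w, rfl⟩ := hρ z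
    exact ⟨w, fun i p hp => hz i (φ p) ⟨p, hp, rfl⟩⟩

end I1

end Pool.Agent.Helper92.PR
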