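import Pool.Agent.Helper92.PR.Msr

/-!
# R1b-g: the toolkit for normal ultrafilters and sorts
-/

open Cardinal Set

set_option linter.unusedSectionVars false

namespace Pool.Agent.Helper92.PR

section R1
variable {κ : Cardinal.{0}} {H : Type} {U : Ultrafilter (Set H)} {S : Type}

/-- **R1b.** Restatement of the definition. -/
theorem Supercompact.msr (h : Supercompact κ) (H : Type) : ∃ U : Ultrafilter (Set H), Msr κ U := by
  obtain ⟨U, h1, h2, h3, h4⟩ := h.2 H
  refine ⟨U, h1, h2, fun I φ hI hφ => ?_, h4⟩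
  have h5 := h3 I (fun i => {a | φ i a}) hI hφ
  have h6 : ∀ᶠ a in (U : Filter (Set H)), a ∈ ⋂ i, {a | φ i a} := h5
  exact h6.mono fun a ha i => mem_iInter.1 ha i

/-- a property which does not hold almost always fails almost always -/
theorem ev_not {U : Ultrafilter (Set H)} {φ : Set H → Prop}
    (h : ¬ ∀ᶠ a in (U : Filter (Set H)), φ a) : ∀ᶠ a in (U : Filter (Set H)), ¬ φ a :=
  Ultrafilter.eventually_not.2 h

/-- almost always false is false -/
theorem ev_false {U : Ultrafilter (Set H)} (h : ∀ᶠ _a in (U : Filter (Set H)), False) : False := by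
  obtain ⟨a, ha⟩ := h.exists
  exact ha

/-- **R1c.** Diagonal intersection: otherwise choose `f a ∈ inn a` with `¬ φ (f a) a`, constant. -/
theorem Srt.diag (s : Srt U S) {φ : S → Set H → Prop}
    (h : ∀ x, ∀ᶠ a in (U : Filter (Set H)), φ x a) :
    ∀ᶠ a in (U : Filter (Set H)), ∀ x ∈ s.inn a, φ x a := by
  classical
  by_contra hc
  have h1 : ∀ᶠ a in (U : Filter (Set H)), ∃ x, x ∈ s.inn a ∧ ¬ φ x a := by
    refine (ev_not hc).mono fun a ha => ?_
    push Not at ha
    exact ha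
  obtain ⟨a₀, x₀, -⟩ := h1.exists
  have h2 : ∀ᶠ a in (U : Filter (Set H)),
      (if hx : ∃ x, x ∈ s.inn a ∧ ¬ φ x a then hx.choose else x₀) ∈ s.inn a ∧
        ¬ φ (if hx : ∃ x, x ∈ s.inn a ∧ ¬ φ x a then hx.choose else x₀) a := by
    refine h1.mono fun a ha => ?_
    rw [dif_pos ha]
    exact ha.choose_spec
  obtain ⟨x, hx⟩ := s.normal _ (h2.mono fun a ha => ha.1)
  refine ev_false ((h2.and (hx.and (h x))).mono fun a ha => ?_)
  have h3 := ha.1.2
  rw [ha.2.1] at h3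
  exact h3 ha.2.2

/-- **R1d.** Lifting of subsets: `Z = {x | ∀ᶠ a, x ∈ Y a}`. -/
theorem Srt.lift (s : Srt U S) (Y : Set H → Set S) :
    ∃ Z : Set S, (∀ x, x ∈ Z ↔ ∀ᶠ a in (U : Filter (Set H)), x ∈ Y a) ∧
      ∀ᶠ a in (U : Filter (Set H)), ∀ x ∈ s.inn a, x ∈ Z ↔ x ∈ Y a := by
  refine ⟨{x | ∀ᶠ a in (U : Filter (Set H)), x ∈ Y a}, fun x => Iff.rfl, s.diag fun x => ?_⟩
  by_cases hx : ∀ᶠ a in (U : Filter (Set H)), x ∈ Y a
  · exact hx.mono fun a ha => ⟨fun _ => ha, fun _ => hx⟩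
  · exact (ev_not hx).mono fun a ha => ⟨fun h => absurd h hx, fun h => absurd h ha⟩

/-- **R1e.** Lifting of short sequences. -/
theorem Srt.seq (hU : Msr κ U) (s : Srt U S) {ι : Type} (hι : #ι < κ) (f : Set H → ι → S)
    (h : ∀ᶠ a in (U : Filter (Set H)), ∀ i, f a i ∈ s.inn a) :
    ∃ g : ι → S, ∀ᶠ a in (U : Filter (Set H)), ∀ i, f a i = g i := by
  have h1 : ∀ i, ∃ x, ∀ᶠ a in (U : Filter (Set H)), f a i = x := fun i =>
    s.normal (fun a => f a i) (h.mono fun a ha => ha i)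
  choose g hg using h1
  exact ⟨g, hU.compl ι (fun i a => f a i = g i) hι hg⟩

/-- **R1f.** Closure of almost all `a` under a function. -/
theorem Srt.closed {T : Type} (s : Srt U S) (t : Srt U T) (f : S → T) :
    ∀ᶠ a in (U : Filter (Set H)), ∀ x ∈ s.inn a, f x ∈ t.inn a :=
  s.diag fun x => t.fine (f x)

theorem Srt.card_ofEmb (hU : Msr κ U) (c : S → H) (hc : Function.Injective c) :
    ∀ᶠ a in (U : Filter (Set H)), #((Srt.ofEmb hU c hc).inn a) < κ :=
  hU.small.mono fun a ha => (mk_preimage_of_injective c a hc).trans_lt ha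

end R1

end Pool.Agent.Helper92.PR
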