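import Pool.Agent.Helper92.PR.Sup
import Pool.Agent.Helper92.PR.Tool
import Pool.Agent.Helper92.PR.Gam
import Pool.Agent.Helper92.PR.Down
import Pool.Agent.Helper92.PR.NoUlt
import Pool.Agent.Helper92.PR.ExtPN
import Pool.Agent.Helper92.PR.Lift

/-!
# MP_c625b5_lc, block R8: the reflection theorem
-/

open Cardinal Set

set_option linter.unusedSectionVars false

namespace Pool.Agent.Helper92.PR

/-- **R8.** `H = κ ⊕ P ⊕ X ⊕ names`. -/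
theorem exists_reflect {κ : Cardinal.{0}} (hκ : Supercompact κ) {P X : Type} [Preorder P]
    (x : PN P X) (hx : x.CDC κ) (hn : ¬ HasUlt (Two x) κ.ord.ToType κ)
    (bd : P → κ.ord.ToType) (hbd : ∀ β, #{p | bd p ≤ β} < κ) (f : κ.ord.ToType → κ.ord.ToType) :
    ∃ (γ : κ.ord.ToType) (PA : Set P) (XA : Set X), Inac (γ : WithTop κ.ord.ToType) ∧
      (∀ η < γ, f η < γ) ∧ (∀ p, p ∈ PA ↔ bd p < γ) ∧ #XA < κ ∧
      ∃ (ht : x.top ∈ XA), (∃ x' : PN PA XA, x'.CDC #(Iio γ) ∧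
        ¬ HasUlt (Two x') (Iio γ) #(Iio γ)) ∧
      ∀ y : PN PA XA, y.top = ⟨x.top, ht⟩ → y.CDC #(Iio γ) →
        ∃ s : PN P X, s.CDC κ ∧ IsRes y s.le ∧
          ∃ lift : (Iio γ → Set (Two y)) → κ.ord.ToType → Set (Two s), LiftOK s y lift := by
  classical
  obtain ⟨hr, hl⟩ := hκ.inac
  have hu := hκ.1
  obtain ⟨U, hU⟩ := hκ.msr (((κ.ord.ToType ⊕ P) ⊕ X) ⊕ (κ.ord.ToType → Set (P × X)))
  have i1 : Function.Injective (fun k : κ.ord.ToType =>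
      (Sum.inl (Sum.inl (Sum.inl k)) :
        ((κ.ord.ToType ⊕ P) ⊕ X) ⊕ (κ.ord.ToType → Set (P × X)))) :=
    Sum.inl_injective.comp (Sum.inl_injective.comp Sum.inl_injective)
  have i2 : Function.Injective (fun p : P =>
      (Sum.inl (Sum.inl (Sum.inr p)) :
        ((κ.ord.ToType ⊕ P) ⊕ X) ⊕ (κ.ord.ToType → Set (P × X)))) :=
    Sum.inl_injective.comp (Sum.inl_injective.comp Sum.inr_injective)
  have i3 : Function.Injective (fun u : X =>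
      (Sum.inl (Sum.inr u) :
        ((κ.ord.ToType ⊕ P) ⊕ X) ⊕ (κ.ord.ToType → Set (P × X)))) :=
    Sum.inl_injective.comp Sum.inr_injective
  have i4 : Function.Injective (fun n : κ.ord.ToType → Set (P × X) =>
      (Sum.inr n : ((κ.ord.ToType ⊕ P) ⊕ X) ⊕ (κ.ord.ToType → Set (P × X)))) :=
    Sum.inr_injective
  obtain ⟨kS, hk0⟩ : ∃ kS : Srt U κ.ord.ToType, ∀ᶠ a in (U : Filter (Set _)),
      #(kS.inn a) < κ := ⟨Srt.ofEmb hU _ i1, Srt.card_ofEmb hU _ i1⟩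
  obtain ⟨xS, hx0⟩ : ∃ xS : Srt U X, ∀ᶠ a in (U : Filter (Set _)),
      #(xS.inn a) < κ := ⟨Srt.ofEmb hU _ i3, Srt.card_ofEmb hU _ i3⟩
  have pS : Srt U P := Srt.ofEmb hU _ i2
  have nS : Srt U (κ.ord.ToType → Set (P × X)) := Srt.ofEmb hU _ i4
  have hk := ev_inac hU hu hr hl kS hk0
  have hlow := ev_low hU kS pS bd hbd
  have hcl := kS.closed kS f
  have hdown := ev_down hU hu hr kS hk pS xS x hx
  have hno := ev_noUlt hU hu hr kS hk pS xS x hn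
  have hlast : ∀ᶠ a in (U : Filter (Set _)), ∀ y : PN (pS.inn a) (xS.inn a),
      y.top.1 = x.top → y.CDC #(kS.inn a) →
      ∃ s : PN P X, s.CDC κ ∧ IsRes y s.le ∧ ∀ γ : κ.ord.ToType, kS.inn a = Iio γ →
        ∃ lift : (Iio γ → Set (Two y)) → κ.ord.ToType → Set (Two s), LiftOK s y lift := by
    by_contra hc
    have h1 := ev_not hc
    have h2 : ∀ᶠ a in (U : Filter (Set _)), ∃ y : PN (pS.inn a) (xS.inn a),
        y.top.1 = x.top ∧ y.CDC #(kS.inn a) ∧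
        ¬ ∃ s : PN P X, s.CDC κ ∧ IsRes y s.le ∧ ∀ γ : κ.ord.ToType, kS.inn a = Iio γ →
          ∃ lift : (Iio γ → Set (Two y)) → κ.ord.ToType → Set (Two s), LiftOK s y lift := by
      refine h1.mono fun a ha => ?_
      rw [not_forall] at ha
      obtain ⟨y, hy⟩ := ha
      rw [Classical.not_imp] at hy
      obtain ⟨hy1, hy⟩ := hy
      rw [Classical.not_imp] at hy
      exact ⟨y, hy1, hy.1, hy.2⟩
    obtain ⟨Z, -, hZ⟩ := (pS.prod (xS.prod xS)).lift (fun a => {z : P × X × X |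
      ∃ (h : ∃ y : PN (pS.inn a) (xS.inn a), y.top.1 = x.top ∧ y.CDC #(kS.inn a) ∧
        ¬ ∃ s : PN P X, s.CDC κ ∧ IsRes y s.le ∧ ∀ γ : κ.ord.ToType, kS.inn a = Iio γ →
          ∃ lift : (Iio γ → Set (Two y)) → κ.ord.ToType → Set (Two s), LiftOK s y lift)
        (h1 : z.1 ∈ pS.inn a) (h2 : z.2.1 ∈ xS.inn a) (h3 : z.2.2 ∈ xS.inn a),
        h.choose.le ⟨z.1, h1⟩ ⟨z.2.1, h2⟩ ⟨z.2.2, h3⟩})
    have hres : ∀ a, (∀ z ∈ (pS.prod (xS.prod xS)).inn a, z ∈ Z ↔ z ∈ {z : P × X × X |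
      ∃ (h : ∃ y : PN (pS.inn a) (xS.inn a), y.top.1 = x.top ∧ y.CDC #(kS.inn a) ∧
        ¬ ∃ s : PN P X, s.CDC κ ∧ IsRes y s.le ∧ ∀ γ : κ.ord.ToType, kS.inn a = Iio γ →
          ∃ lift : (Iio γ → Set (Two y)) → κ.ord.ToType → Set (Two s), LiftOK s y lift)
        (h1 : z.1 ∈ pS.inn a) (h2 : z.2.1 ∈ xS.inn a) (h3 : z.2.2 ∈ xS.inn a),
        h.choose.le ⟨z.1, h1⟩ ⟨z.2.1, h2⟩ ⟨z.2.2, h3⟩}) →
      ∀ h : ∃ y : PN (pS.inn a) (xS.inn a), y.top.1 = x.top ∧ y.CDC #(kS.inn a) ∧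
        ¬ ∃ s : PN P X, s.CDC κ ∧ IsRes y s.le ∧ ∀ γ : κ.ord.ToType, kS.inn a = Iio γ →
          ∃ lift : (Iio γ → Set (Two y)) → κ.ord.ToType → Set (Two s), LiftOK s y lift,
        IsRes h.choose (fun p u v => (p, u, v) ∈ Z) := by
      intro a hz h p u v
      have h3 := hz (p.1, u.1, v.1) ⟨p.2, u.2, v.2⟩
      show _ ↔ (p.1, u.1, v.1) ∈ Z
      rw [h3]
      constructor
      · intro h4
        exact ⟨h, p.2, u.2, v.2, h4⟩
      · rintro ⟨h', h5, h6, h7, h8⟩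
        exact h8
    obtain ⟨s, hst, hsle, hscdc⟩ := ev_ext hU hu hr kS hk pS xS x.top
      (fun p u v => (p, u, v) ∈ Z) ((h2.and hZ).mono fun a ha => by
        obtain ⟨h, hz⟩ := ha
        exact ⟨h.choose, h.choose_spec.1, hres a hz h, h.choose_spec.2.1⟩)
    have hlift := ev_lift hU hu hr kS hk pS xS nS s
    refine ev_false ((h2.and (hZ.and hlift)).mono fun a ha => ?_)
    obtain ⟨h, hz, hli⟩ := ha
    have h5 := hres a hz h
    rw [← hsle] at h5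
    exact h.choose_spec.2.2 ⟨s, hscdc, h5, fun γ hγ => hli h.choose h5 γ hγ⟩
  obtain ⟨a, ⟨γ, hγ, hin⟩, ha1, ha2, ⟨ht, x', hx't, hx'r, hx'c⟩, ha4, ha5, ha6⟩ :=
    (hk.and (hlow.and (hcl.and (hdown.and (hno.and (hlast.and hx0)))))).exists
  rw [hγ] at hx'c ha1 ha2 ha5
  refine ⟨γ, pS.inn a, xS.inn a, hin, fun η hη => ha2 η hη, fun p => ha1 p, ha6, ht,
    ⟨x', hx'c, ha4 x' hx'r γ hγ⟩, fun y hy hyc => ?_⟩
  obtain ⟨s, hs1, hs2, hs3⟩ := ha5 y (by rw [hy]) hyc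
  exact ⟨s, hs1, hs2, hs3 γ rfl⟩

end Pool.Agent.Helper92.PR
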