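import Pool.Agent.Helper92.PR.Ext1
import Pool.Agent.Helper92.PR.Pull

/-!
# The ultrafilter name at a stage of the iteration
-/

open Cardinal Set

set_option linter.unusedSectionVars false
set_option linter.unusedVariables false

namespace Pool.Agent.Helper92.PR

section I6
variable {κ : Cardinal.{0}} {o : κ.ord.ToType}

/-- **I6a** The ultrafilter name at the stage `γ`. -/
theorem hasUlt_stage {L : It o} {γ : κ.ord.ToType} {X : Type} {PA : Set L.Cond} {XA : Set X}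
    {y : PN PA XA} {s : PN L.Cond X} (hys : IsRes y s.le)
    {lift : (Iio γ → Set (Two y)) → κ.ord.ToType → Set (Two s)} (hlift : LiftOK s y lift)
    (pφ : PA → (L.tr (LowerSet.Iio γ)).Cond) (hpφ : ∀ p, L.emb _ (pφ p) = p.1)
    (hpφ' : Function.Surjective pφ)
    (ρ : XA → (L.L γ).ν) (hρ : Function.Surjective ρ)
    (hy : ∀ p v w, y.le p v w ↔ (L.st γ).le (pφ p) (ρ v) (ρ w))
    (τ : L.Cond) (z : X)
    (hm : ∀ p (v : XA), s.le (L.join (LowerSet.Iic γ) (L.ext1 γ p (ρ v)) τ) z v.1)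
    (hdec : ∀ A : Iio γ → Set (Two (L.st γ)), (∀ η, Reg (A η)) →
      ∀ r : (L.tr (LowerSet.Iic γ)).Cond, ∃ r' ≤ r,
        (show Two s from (L.join _ r' τ, z)) ∈
            lift (fun η => {e : Two y | (show Two (L.st γ) from (pφ e.1, ρ e.2)) ∈ A η}) γ ∨
        (show Two s from (L.join _ r' τ, z)) ∈
            neg (lift (fun η => {e : Two y | (show Two (L.st γ) from (pφ e.1, ρ e.2)) ∈ A η}) γ)) :
    HasUlt (Two (L.st γ)) (Iio γ) #(Iio γ) := by
  classical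
  let φ : Two y → Two (L.st γ) := fun e => (pφ e.1, ρ e.2)
  have hφs : Function.Surjective φ := by
    rintro ⟨p, j⟩
    obtain ⟨p', rfl⟩ := hpφ' p
    obtain ⟨v, rfl⟩ := hρ j
    exact ⟨(p', v), rfl⟩
  have hpo : ∀ p q : PA, pφ p ≤ pφ q ↔ p ≤ q := by
    intro p q
    rw [← L.emb_le, hpφ, hpφ]
    exact Iff.rfl
  have hφo : ∀ e e' : Two y, φ e ≤ φ e' ↔ e ≤ e' := by
    intro e e'
    exact and_congr (hpo _ _) (hy _ _ _).symm
  let st : Two (L.st γ) → Two s := fun e => (L.join (LowerSet.Iic γ) (L.ext1 γ e.1 e.2) τ, z)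
  have hst : ∀ e e' : Two (L.st γ), e ≤ e' → st e ≤ st e' := fun e e' h =>
    ⟨L.join_le_left (L.ext1_le.2 h) τ, s.refl _ _⟩
  have hup : ∀ e : Two y, st (φ e) ≤ up s y e := by
    rintro ⟨p, v⟩
    refine ⟨?_, hm (pφ p) v⟩
    have h1 := L.join_ext1_le (pφ p) (ρ v) τ
    rwa [hpφ] at h1
  have hR : ∀ A : Iio γ → Set (Two (L.st γ)), (∀ η, Reg (A η)) → ∀ η, Reg (φ ⁻¹' A η) :=
    fun A hA η => reg_preimage φ hφs hφo (hA η)
  have hD : ∀ A : Iio γ → Set (Two (L.st γ)), (∀ η, Reg (A η)) → ∀ e : Two (L.st γ),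
      ∃ e' ≤ e, st e' ∈ lift (fun η => φ ⁻¹' A η) γ ∨
        st e' ∈ neg (lift (fun η => φ ⁻¹' A η) γ) := by
    rintro A hA ⟨p, j⟩
    obtain ⟨r', hr', h1⟩ := hdec A hA (L.ext1 γ p j)
    obtain ⟨p', j', rfl⟩ := L.exists_ext1 r'
    exact ⟨(p', j'), L.ext1_le.1 hr', h1⟩
  refine ⟨fun A => {e | st e ∈ lift (fun η => φ ⁻¹' A η) γ}, ?_, ?_, ?_, ?_, ?_⟩
  · intro A hA
    have hN := hlift.reg _ (hR A hA) γ
    refine ⟨fun e he e' he' => hN.lower _ he _ (hst _ _ he'), ?_⟩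
    rintro ⟨p, j⟩ he
    refine hN.dense _ ?_
    rintro ⟨q, w⟩ ⟨hq1, hq2⟩
    have hr : L.cutC (LowerSet.Iic γ) q ≤ L.ext1 γ p j := by
      have h3 := L.cutC_mono (S := LowerSet.Iic γ) hq1
      rwa [L.cutC_join] at h3
    obtain ⟨r', hr', h1⟩ := hdec A hA (L.cutC (LowerSet.Iic γ) q)
    obtain ⟨p', j', rfl⟩ := L.exists_ext1 r'
    have he' : (show Two (L.st γ) from (p', j')) ≤ (show Two (L.st γ) from (p, j)) :=
      L.ext1_le.1 (le_trans hr' hr)
    obtain ⟨e'', he'', h2⟩ := he _ he'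
    have h3 : st (p', j') ∈ lift (fun η => φ ⁻¹' A η) γ := by
      rcases h1 with h1 | h1
      · exact h1
      · exact absurd h2 (h1 _ (hst _ _ he''))
    refine ⟨(L.join (LowerSet.Iic γ) (L.ext1 γ p' j') q, w), ⟨L.join_le hr', s.refl _ _⟩, ?_⟩
    refine hN.lower _ h3 _ ⟨L.join_le_join hq1 hr', ?_⟩
    exact s.mono _ _ _ _ (L.join_le hr') hq2
  · intro A A' hA hA' e he h
    obtain ⟨e0, rfl⟩ := hφs e
    refine hlift.mono _ _ (hR A hA) (hR A' hA') e0 ?_ _ (hup e0) γ he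
    intro e' he' η h1
    exact h (φ e') ((hφo _ _).2 he') η h1
  · intro A hA e
    obtain ⟨e', he', h1⟩ := hD A hA e
    refine ⟨e', he', ?_⟩
    rcases h1 with h1 | h1
    · exact Or.inl h1
    · right
      have h2 : (fun η => φ ⁻¹' neg (A η)) = fun η => neg (φ ⁻¹' A η) :=
        funext fun η => (neg_preimage φ hφs hφo (A η)).symm
      change st e' ∈ lift (fun η => φ ⁻¹' neg (A η)) γ
      rw [h2, hlift.neg _ (hR A hA)]
      exact h1
  · intro I A hI hA e he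
    have h1 := hlift.inter I (fun i η => φ ⁻¹' A i η) hI (fun i => hR _ (hA i)) γ
      (mem_iInter.2 he)
    have h2 : (fun η => ⋂ i, φ ⁻¹' A i η) = fun η => φ ⁻¹' (⋂ i, A i η) :=
      funext fun η => preimage_iInter.symm
    rwa [h2] at h1
  · intro A hA e he ζ
    obtain ⟨e0, rfl⟩ := hφs e
    obtain ⟨e', he', η, hη, h1⟩ := hlift.unb _ (hR A hA) e0 ζ ⟨_, hup e0, γ, ζ.2, he⟩
    exact ⟨φ e', (hφo _ _).2 he', η, hη, h1⟩

end I6

end Pool.Agent.Helper92.PR
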