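import Pool.Agent.Helper92.PR.Sup
import Pool.Agent.Helper92.PR.Refl
import Pool.Agent.Helper92.PR.Ext1
import Pool.Agent.Helper92.PR.Pull
import Pool.Agent.Helper92.PR.Low
import Pool.Agent.Helper92.PR.Master
import Pool.Agent.Helper92.PR.UltSt

/-!
# Block I6b: the ultrafilter names of the preparation (helper3)
-/

open Cardinal Set

set_option linter.unusedSectionVars false

namespace Pool.Agent.Helper92.PR

section I6b
variable {κ : Cardinal.{0}} {o : κ.ord.ToType}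

private theorem szW_coe {K : Type} [LinearOrder K] (η : K) : szW (η : WithTop K) = #(Iio η) := by
  unfold szW
  have : {ζ : K | (ζ : WithTop K) < (η : WithTop K)} = Iio η := by
    ext ζ
    simp
  rw [this]

private theorem pu_szW_top : szW (⊤ : WithTop κ.ord.ToType) = κ := by
  unfold szW
  have : {ζ : κ.ord.ToType | (ζ : WithTop κ.ord.ToType) < ⊤} = Set.univ := by
    ext ζ
    simp
  rw [this, mk_univ]
  simp

/-- the conditions of the iteration up to `γ` are few -/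
private theorem card_Iic_lt {L : It o} (ho : ∀ k, o ≤ k) {ξ : WithTop κ.ord.ToType} (hξ : Inac ξ)
    (hc : Clo L ξ) {γ : κ.ord.ToType} (hγ : (γ : WithTop κ.ord.ToType) < ξ) :
    #(L.tr (LowerSet.Iic γ)).Cond < szW ξ := by
  obtain ⟨β, hβ, hβξ⟩ := hξ.exists_gt hγ
  refine lt_of_le_of_lt ?_ (card_low ho hξ hc β hβξ)
  have hmem : ∀ p : (L.tr (LowerSet.Iic γ)).Cond, ∀ η, β ≤ η → (L.emb _ p).1 η = o := by
    intro p η hη
    exact L.val_eq p (fun h => absurd (show η ≤ γ from h) (not_le.2 (hβ.trans_le hη)))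
  refine mk_le_of_injective (f := fun p : (L.tr (LowerSet.Iic γ)).Cond =>
    (⟨L.emb _ p, hmem p⟩ : {p : L.Cond | ∀ η, β ≤ η → p.1 η = o})) ?_
  intro p q h
  have h1 : L.emb _ p = L.emb _ q := congrArg Subtype.val h
  exact Subtype.ext (congrArg (fun r : L.Cond => r.1) h1)

private theorem card_Iio_lt {L : It o} (ho : ∀ k, o ≤ k) {ξ : WithTop κ.ord.ToType} (hξ : Inac ξ)
    (hc : Clo L ξ) {γ : κ.ord.ToType} (hγ : (γ : WithTop κ.ord.ToType) < ξ) :
    #(L.tr (LowerSet.Iio γ)).Cond < szW ξ := by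
  refine lt_of_le_of_lt ?_ (card_low ho hξ hc γ hγ)
  have hmem : ∀ p : (L.tr (LowerSet.Iio γ)).Cond, ∀ η, γ ≤ η → (L.emb _ p).1 η = o := by
    intro p η hη
    exact L.val_eq p (fun h => absurd (show η < γ from h) (not_lt.2 hη))
  refine mk_le_of_injective (f := fun p : (L.tr (LowerSet.Iio γ)).Cond =>
    (⟨L.emb _ p, hmem p⟩ : {p : L.Cond | ∀ η, γ ≤ η → p.1 η = o})) ?_
  intro p q h
  have h1 : L.emb _ p = L.emb _ q := congrArg Subtype.val h
  exact Subtype.ext (congrArg (fun r : L.Cond => r.1) h1)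

/-- there are few names over the iteration up to `γ` -/
private theorem card_names_lt {L : It o} (ho : ∀ k, o ≤ k) {ξ : WithTop κ.ord.ToType} (hξ : Inac ξ)
    (hc : Clo L ξ) {γ : κ.ord.ToType} (hγ : (γ : WithTop κ.ord.ToType) < ξ) :
    #(Iio γ → Set (Two (L.st γ))) < szW ξ := by
  have h0 : ℵ₀ ≤ szW ξ := hξ.unc.le
  have h1 : #(L.L γ).ν < szW ξ := by
    obtain ⟨β, hβ, h2⟩ := hc γ hγ
    exact (mk_le_mk_of_subset h2).trans_lt (hξ.ini β hβ)
  have h2 : #(Two (L.st γ)) < szW ξ := by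
    have h3 : #(Two (L.st γ)) = #(L.tr (LowerSet.Iio γ)).Cond * #(L.L γ).ν := by
      change #((L.tr (LowerSet.Iio γ)).Cond × (L.L γ).ν) = _
      rw [mk_prod, lift_id, lift_id]
    rw [h3]
    exact mul_lt_of_lt h0 (card_Iio_lt ho hξ hc hγ) h1
  have h3 : #(Iio γ → Set (Two (L.st γ))) = 2 ^ (#(Two (L.st γ)) * #(Iio γ)) := by
    rw [power_mul, ← mk_set, power_def]
  rw [h3]
  exact hξ.lim _ (mul_lt_of_lt h0 h2 (hξ.ini γ hγ))

/-- regular sets are pulled back along surjections which preserve and reflect the order -/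
private theorem pu_reg_preimage {E E' : Type} [Preorder E] [Preorder E'] (φ : E → E')
    (hφ : Function.Surjective φ) (h : ∀ r s, φ r ≤ φ s ↔ r ≤ s) {A : Set E'} (hA : Reg A) :
    Reg {e | φ e ∈ A} where
  lower := fun p hp q hq => hA.lower _ hp _ ((h _ _).2 hq)
  dense := fun p hp => hA.dense _ fun q hq => by
    obtain ⟨q', rfl⟩ := hφ q
    obtain ⟨r, hr, h1⟩ := hp q' ((h _ _).1 hq)
    exact ⟨φ r, (h _ _).2 hr, h1⟩

/-- **I6b.** -/
theorem hasUlt_of_cdc (hκ : Supercompact κ) {L : It o} (hL : GoodIt L) (ho : ∀ k, o ≤ k)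
    {X : Type} (x : PN L.Cond X) (hx : x.CDC κ) : HasUlt (Two x) κ.ord.ToType κ := by
  by_contra hn
  obtain ⟨hr, hl⟩ := hκ.inac
  have htop : Inac (⊤ : WithTop κ.ord.ToType) := inac_top hκ.1 hr hl
  have hctop : Clo L (⊤ : WithTop κ.ord.ToType) := fun η _ => by
    obtain ⟨β, hβ⟩ := hL.bdd η
    exact ⟨β, WithTop.coe_lt_top _, hβ⟩
  -- the bounds of the supports
  have hbd0 : ∀ p : L.Cond, ∃ β : κ.ord.ToType, (∀ η, β ≤ η → p.1 η = o) ∧
      ∀ β', (∀ η, β' ≤ η → p.1 η = o) → β ≤ β' := by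
    intro p
    obtain ⟨β0, -, h0⟩ := p.2.est ⊤ htop
    obtain ⟨β, hβ, hm⟩ := WellFounded.has_min (wellFounded_lt (α := κ.ord.ToType))
      {β | ∀ η, β ≤ η → p.1 η = o} ⟨β0, fun η hη => h0 η hη (WithTop.coe_lt_top _)⟩
    exact ⟨β, hβ, fun β' h' => not_lt.1 (hm β' h')⟩
  choose bd hbd1 hbd2 using hbd0
  have hbd : ∀ β, #{p | bd p ≤ β} < κ := by
    intro β
    have h1 : {p | bd p ≤ β} ⊆ {p : L.Cond | ∀ η, β ≤ η → p.1 η = o} :=
      fun p hp η hη => hbd1 p η (le_trans hp hη)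
    have h2 := card_low ho htop hctop β (WithTop.coe_lt_top _)
    rw [pu_szW_top] at h2
    exact (mk_le_mk_of_subset h1).trans_lt h2
  choose f hf using hL.bdd
  obtain ⟨γ, PA, XA, hγI, hfγ, hPA, hXA, ht, ⟨x', hx'c, hx'n⟩, hrefl⟩ :=
    exists_reflect hκ x hx hn bd hbd f
  have hγc : Clo L (γ : WithTop κ.ord.ToType) := fun η hη =>
    ⟨f η, WithTop.coe_lt_coe.2 (hfγ η (WithTop.coe_lt_coe.1 hη)), hf η⟩
  -- `PA` is the set of the conditions of the iteration below `γ`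
  have hPA' : ∀ p : L.Cond, p ∈ PA ↔ ∀ η, γ ≤ η → p.1 η = o := by
    intro p
    rw [hPA]
    constructor
    · intro h η hη
      exact hbd1 p η (h.le.trans hη)
    · intro h
      obtain ⟨β, hβ, h1⟩ := p.2.est _ hγI
      refine lt_of_le_of_lt (hbd2 p β fun η hη => ?_) (WithTop.coe_lt_coe.1 hβ)
      rcases lt_or_ge η γ with h2 | h2
      · exact h1 η hη (WithTop.coe_lt_coe.2 h2)
      · exact h η h2
  have hembPA : ∀ q : (L.tr (LowerSet.Iio γ)).Cond, L.emb _ q ∈ PA := fun q =>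
    (hPA' _).2 fun η hη => L.val_eq q (fun h => absurd (show η < γ from h) (not_lt.2 hη))
  let pφ : PA → (L.tr (LowerSet.Iio γ)).Cond := fun p => L.cutC _ p.1
  have hpφ : ∀ p : PA, L.emb _ (pφ p) = p.1 := by
    intro p
    apply L.ext'
    intro η
    change cut o (Iio γ) p.1.1 η = p.1.1 η
    by_cases hη : η ∈ Iio γ
    · exact cut_of_mem hη
    · rw [cut_of_not_mem hη, (hPA' _).1 p.2 η (not_lt.1 hη)]
  let φP : (L.tr (LowerSet.Iio γ)).Cond → PA := fun q => ⟨L.emb _ q, hembPA q⟩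
  have hφP : ∀ q, pφ (φP q) = q := fun q => L.cutC_emb q
  have hφP' : ∀ p, φP (pφ p) = p := fun p => Subtype.ext (hpφ p)
  have hpφ' : Function.Surjective pφ := fun q => ⟨φP q, hφP q⟩
  have hpφle : ∀ p q : PA, pφ p ≤ pφ q ↔ p ≤ q := by
    intro p q
    rw [← L.emb_le, hpφ, hpφ]
    rfl
  have hφPle : ∀ p q, φP p ≤ φP q ↔ p ≤ q := fun p q => L.emb_le
  -- the bad forced preorder at the stage `γ`
  obtain ⟨y0, -, hy0, hy0c⟩ := PN.exists_pull x' φP (fun p => ⟨pφ p, hφP' p⟩) hφPle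
    (id : XA → XA) Function.surjective_id x'.top rfl
  have hy0n : ¬ HasUlt (Two y0) (Iio γ) #(Iio γ) := by
    intro hU
    refine hx'n (HasUlt.of_surj (E := Two y0) (E' := Two x')
      (fun e => ((φP e.1, e.2) : PA × XA)) ?_ ?_ hU)
    · rintro ⟨p, v⟩
      exact ⟨((pφ p, v) : _ × XA), Prod.ext (hφP' p) rfl⟩
    · rintro ⟨p, v⟩ ⟨q, w⟩
      rw [Two.mk_le_iff, Two.mk_le_iff, hφPle, hy0]
      rfl
  obtain ⟨hbad, hνle⟩ := hL.bad γ hγI hγc XA y0 hXA (hy0c _ hx'c) hy0n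
  apply hbad
  -- the surjection `ρ`
  obtain ⟨ρ, v, hρv, hρtop⟩ : ∃ (ρ : XA → (L.L γ).ν) (v : (L.L γ).ν → XA), (∀ j, ρ (v j) = j) ∧
      ρ ⟨x.top, ht⟩ = (L.st γ).top := by
    classical
    obtain ⟨i⟩ := (le_def _ _).1 hνle
    have hi := i.injective
    let sw := Equiv.swap (i (L.st γ).top) ⟨x.top, ht⟩
    let v : (L.L γ).ν → XA := fun j => sw (i j)
    have hv : Function.Injective v := sw.injective.comp hi
    have : Nonempty (L.L γ).ν := ⟨(L.st γ).top⟩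
    refine ⟨Function.invFun v, v, Function.leftInverse_invFun hv, ?_⟩
    have h1 : (⟨x.top, ht⟩ : XA) = v (L.st γ).top := (Equiv.swap_apply_left _ _).symm
    rw [h1]
    exact Function.leftInverse_invFun hv _
  have hρ : Function.Surjective ρ := fun j => ⟨v j, hρv j⟩
  obtain ⟨y, hytop, hy, hyc⟩ := PN.exists_pull (L.st γ) pφ hpφ' hpφle ρ hρ ⟨x.top, ht⟩ hρtop
  obtain ⟨s, hsc, hys, lift, hlift⟩ := hrefl y hytop (hyc _ (hL.cdc γ))
  -- the names of the conditions of the stage `γ`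
  have hys' : ∀ (p : (L.tr (LowerSet.Iio γ)).Cond) (a b : XA),
      s.le (L.emb _ p) a.1 b.1 ↔ (L.st γ).le p (ρ a) (ρ b) := by
    intro p a b
    have h1 := hys (φP p) a b
    rw [hy, hφP] at h1
    exact h1.symm
  have hu : ∀ p j j', (L.st γ).le p j j' ↔ s.le (L.emb _ p) (v j).1 (v j').1 := by
    intro p j j'
    rw [hys', hρv, hρv]
  -- the size `μ`
  let J : Type := {A : Iio γ → Set (Two (L.st γ)) // ∀ η, Reg (A η)}
  let μ0 : Cardinal.{0} := max ℵ₀ (max #(L.tr (LowerSet.Iic γ)).Cond #J)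
  have hμ0 : ∀ ξ : WithTop κ.ord.ToType, Inac ξ → Clo L ξ → (γ : WithTop κ.ord.ToType) < ξ →
      Order.succ μ0 ≤ szW ξ := by
    intro ξ hξ hcξ hγξ
    rw [Order.succ_le_iff]
    refine max_lt hξ.unc (max_lt (card_Iic_lt ho hξ hcξ hγξ) ?_)
    exact (mk_subtype_le _).trans_lt (card_names_lt ho hξ hcξ hγξ)
  have hμκ : Order.succ μ0 ≤ κ := by
    have := hμ0 ⊤ htop hctop (WithTop.coe_lt_top _)
    rwa [pu_szW_top] at this
  have hμη : ∀ η, γ < η → (L.L η).ν ≠ {o} → Order.succ μ0 ≤ #(Iio η) := by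
    intro η hη hne
    obtain ⟨h1, h2⟩ := hL.triv η hne
    have := hμ0 η h1 h2 (WithTop.coe_lt_coe.2 hη)
    rwa [szW_coe] at this
  let φ : Two y → Two (L.st γ) := fun e => (pφ e.1, ρ e.2)
  have hφs : Function.Surjective φ := by
    rintro ⟨p, j⟩
    exact ⟨(φP p, v j), Prod.ext (hφP p) (hρv j)⟩
  have hφle : ∀ r s, φ r ≤ φ s ↔ r ≤ s := by
    rintro ⟨p, a⟩ ⟨q, b⟩
    change (pφ p ≤ pφ q ∧ (L.st γ).le (pφ p) (ρ a) (ρ b)) ↔ (p ≤ q ∧ y.le p a b)
    rw [hpφle, hy]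
  obtain ⟨τ, z, hm, hdec⟩ := exists_master hL s hsc (fun j => (v j).1) hu
    ((le_max_left _ _).trans (Order.le_succ μ0)) hμκ
    (Order.lt_succ_iff.2 ((le_max_left _ _).trans (le_max_right _ _))) hμη
    (J := J) (Order.lt_succ_iff.2 ((le_max_right _ _).trans (le_max_right _ _)))
    (fun A => lift (fun η => {e : Two y | φ e ∈ A.1 η}) γ)
    (fun A => hlift.reg _ (fun η => pu_reg_preimage φ hφs hφle (A.2 η)) γ)
  refine hasUlt_stage hys hlift pφ hpφ hpφ' ρ hρ hy τ z ?_ ?_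
  · intro p a
    have h1 := hm p (ρ a)
    have h2 : s.le (L.emb _ p) (v (ρ a)).1 a.1 := by
      rw [hys', hρv]
      exact (L.st γ).refl _ _
    exact s.trans _ _ _ _ h1 (s.mono _ _ _ _ (L.join_ext1_le p (ρ a) τ) h2)
  · intro A hA r
    exact hdec ⟨A, hA⟩ r

end I6b

end Pool.Agent.Helper92.PR
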