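import Pool.Agent.Helper92.PR.Cc
import Pool.Agent.Helper92.PR.ExIt
import Pool.Agent.Helper92.PR.PrepUlt

/-!
# The preparation of a supercompact cardinal
-/

open Cardinal Set

namespace Pool.Agent.Helper92.PR

/-- **Theorem A.** -/
theorem exists_prep {κ : Cardinal.{0}} (hκ : Supercompact κ) :
    ∃ (B : Type) (_ : Preorder B) (b₀ : B), (∀ b, b ≤ b₀) ∧ Prep κ B := by
  obtain ⟨hr, hl⟩ := hκ.inac
  have hne : Nonempty κ.ord.ToType := by
    rw [Ordinal.nonempty_toType_iff]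
    exact hr.ord_pos.ne'
  obtain ⟨o, ho⟩ : ∃ o : κ.ord.ToType, ∀ k, o ≤ k := by
    obtain ⟨o, -, ho⟩ := WellFounded.has_min (wellFounded_lt (α := κ.ord.ToType)) Set.univ
      Set.univ_nonempty
    exact ⟨o, fun k => not_lt.1 (ho k trivial)⟩
  obtain ⟨L, hL⟩ := exists_It hκ.1 hr hl o ho
  exact ⟨L.Cond, inferInstance, L.one, fun b => L.le_one b, hκ.1, hr, hl,
    card_Cond hκ.1 hr hl hL ho, cond_cc hκ hL ho, fun X x hx => hasUlt_of_cdc hκ hL ho x hx⟩

end Pool.Agent.Helper92.PR
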