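import Pool.Agent.Helper92.PR.SD

/-!
# The iteration `Q`

`I` is the (well-ordered) set of the stages, `Kp` is the index set of the rows of the colourings
(it will be `κ⁺`). A condition of `Q` is a name of a small subset of
`(I × T × κ) ⊕ (I × Kp)`; its first part consists of the *stems* and its second part of the
*promises* of the stages.
-/

open Cardinal Set

set_option linter.unusedSectionVars false

namespace Pool.Agent.Helper92.PR

section

variable {κ : Cardinal.{0}} {B : Type} [Preorder B] {I Kp : Type}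

/-- the coordinates -/
abbrev Zq (κ : Cardinal.{0}) (B I Kp : Type) [Preorder B] : Type :=
  (I × Tt κ B × κ.ord.ToType) ⊕ (I × Kp)

/-- the stage of a coordinate -/
def stg : Zq κ B I Kp → WithTop I
  | .inl z => (z.1 : WithTop I)
  | .inr z => (z.1 : WithTop I)

/-- conditions of `Q` -/
abbrev Qc (κ : Cardinal.{0}) (B I Kp : Type) [Preorder B] : Type := SN κ B (Zq κ B I Kp)

/-- conditions of the whole forcing (with the orders `D` or `S` on the third coordinate) -/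
abbrev Cn (κ : Cardinal.{0}) (B I Kp : Type) [Preorder B] : Type := B × (Qc κ B I Kp × Tt κ B)

theorem SN.ext' {Z : Type} {s t : SN κ B Z} (h : ∀ z, s.v z = t.v z) : s = t := by
  cases s with
  | mk v1 r1 m1 => cases t with
    | mk v2 r2 m2 =>
      have : v1 = v2 := funext h
      subst this
      rfl

variable [LinearOrder I]

open Classical in
/-- the restriction to the stages below `α` -/
noncomputable def res (α : WithTop I) (q : Qc κ B I Kp) : Qc κ B I Kp where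
  v z := if stg z < α then q.v z else ∅
  reg z := by
    split_ifs
    · exact q.reg z
    · exact reg_empty
  small := by
    refine lt_of_le_of_lt (mk_le_mk_of_subset ?_) q.small
    intro z hz
    simp only [mem_ofPred_eq] at hz ⊢
    split_ifs at hz with h
    · exact hz
    · exact absurd hz Set.not_nonempty_empty

theorem res_v_of_lt {α : WithTop I} {q : Qc κ B I Kp} {z : Zq κ B I Kp}
    (h : stg z < α) : (res α q).v z = q.v z := by
  simp [res, h]

theorem res_v_of_not_lt {α : WithTop I} {q : Qc κ B I Kp} {z : Zq κ B I Kp}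
    (h : ¬ stg z < α) : (res α q).v z = ∅ := by
  simp [res, h]

theorem res_res {α β : WithTop I} (h : β ≤ α) (q : Qc κ B I Kp) : res β (res α q) = res β q := by
  apply SN.ext'
  intro z
  by_cases hz : stg z < β
  · rw [res_v_of_lt hz, res_v_of_lt hz, res_v_of_lt (hz.trans_le h)]
  · rw [res_v_of_not_lt hz, res_v_of_not_lt hz]

/-- `b` forces `q' ≤ q` (only the stages below `α` are considered): the stems and the promises of
`q'` contain those of `q`, and every new member `(d, η)` of the stem of the stage `β` satisfies the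
promises `ξ` of `q`: the condition `(b', q' ↾ β, d)` belongs to `g β ξ η` -/
def leQ (g : I → Kp → κ.ord.ToType → Set (Cn κ B I Kp)) (α : WithTop I) (b : B)
    (q' q : Qc κ B I Kp) : Prop :=
  (∀ z, stg z < α → ∀ b' ≤ b, b' ∈ q.v z → b' ∈ q'.v z) ∧
  ∀ β : I, (β : WithTop I) < α → ∀ d η, ∀ b' ≤ b, b' ∈ q'.v (.inl (β, d, η)) →
    (∀ b'' ≤ b', b'' ∉ q.v (.inl (β, d, η))) → ∀ ξ, b' ∈ q.v (.inr (β, ξ)) →
      (b', res β q', d) ∈ g β ξ η

/-- the order with `D` on the third coordinate -/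
def rD (g : I → Kp → κ.ord.ToType → Set (Cn κ B I Kp)) (α : WithTop I) (r' r : Cn κ B I Kp) :
    Prop :=
  r'.1 ≤ r.1 ∧ leQ g α r'.1 r'.2.1 r.2.1 ∧ leD r'.1 r'.2.2 r.2.2

/-- the order with `S` on the third coordinate -/
def rS (g : I → Kp → κ.ord.ToType → Set (Cn κ B I Kp)) (α : WithTop I) (r' r : Cn κ B I Kp) :
    Prop :=
  r'.1 ≤ r.1 ∧ leQ g α r'.1 r'.2.1 r.2.1 ∧ leS r'.1 r'.2.2 r.2.2

/-- the sets `g β ξ η` are regular open with respect to the order of the stage `β` -/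
def GReg (g : I → Kp → κ.ord.ToType → Set (Cn κ B I Kp)) : Prop :=
  ∀ (β : I) ξ η, (∀ r ∈ g β ξ η, ∀ r', rD g β r' r → r' ∈ g β ξ η) ∧
    ∀ r, (∀ r', rD g β r' r → ∃ r'', rD g β r'' r' ∧ r'' ∈ g β ξ η) → r ∈ g β ξ η

variable {g : I → Kp → κ.ord.ToType → Set (Cn κ B I Kp)}

theorem leQ_mono {α : WithTop I} {b c : B} {q' q : Qc κ B I Kp} (h : leQ g α b q' q)
    (hc : c ≤ b) : leQ g α c q' q :=
  ⟨fun z hz b' hb' => h.1 z hz b' (hb'.trans hc),
    fun β hβ d η b' hb' => h.2 β hβ d η b' (hb'.trans hc)⟩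

theorem leQ_refl (α : WithTop I) (b : B) (q : Qc κ B I Kp) : leQ g α b q q :=
  ⟨fun _ _ _ _ h => h, fun _ _ _ _ b' _ h h1 => absurd h (h1 b' le_rfl)⟩

theorem leQ_stage {α β : WithTop I} (hβ : β ≤ α) {b : B} {q' q : Qc κ B I Kp}
    (h : leQ g α b q' q) : leQ g β b q' q :=
  ⟨fun z hz => h.1 z (hz.trans_le hβ), fun γ hγ => h.2 γ (hγ.trans_le hβ)⟩

theorem leQ_res_right {α : WithTop I} {b : B} {q' q : Qc κ B I Kp} :
    leQ g α b q' (res α q) ↔ leQ g α b q' q := by
  constructor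
  · intro h
    refine ⟨fun z hz b' hb' hq => h.1 z hz b' hb' (by rwa [res_v_of_lt hz]), ?_⟩
    intro β hβ d η b' hb' h1 h2 ξ h3
    refine h.2 β hβ d η b' hb' h1 ?_ ξ ?_
    · intro b'' hb''
      rw [res_v_of_lt (show stg (.inl (β, d, η) : Zq κ B I Kp) < α from hβ)]
      exact h2 b'' hb''
    · rw [res_v_of_lt (show stg (.inr (β, ξ) : Zq κ B I Kp) < α from hβ)]
      exact h3
  · intro h
    refine ⟨fun z hz b' hb' hq => h.1 z hz b' hb' (by rwa [res_v_of_lt hz] at hq), ?_⟩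
    intro β hβ d η b' hb' h1 h2 ξ h3
    refine h.2 β hβ d η b' hb' h1 ?_ ξ ?_
    · intro b'' hb''
      have := h2 b'' hb''
      rwa [res_v_of_lt (show stg (.inl (β, d, η) : Zq κ B I Kp) < α from hβ)] at this
    · rwa [res_v_of_lt (show stg (.inr (β, ξ) : Zq κ B I Kp) < α from hβ)] at h3

theorem leQ_res_left {α : WithTop I} {b : B} {q' q : Qc κ B I Kp} :
    leQ g α b (res α q') q ↔ leQ g α b q' q := by
  constructor
  · intro h
    refine ⟨fun z hz b' hb' hq => by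
      have := h.1 z hz b' hb' hq
      rwa [res_v_of_lt hz] at this, ?_⟩
    intro β hβ d η b' hb' h1 h2 ξ h3
    have := h.2 β hβ d η b' hb' (by
      rw [res_v_of_lt (show stg (.inl (β, d, η) : Zq κ B I Kp) < α from hβ)]
      exact h1) h2 ξ h3
    rwa [res_res hβ.le] at this
  · intro h
    refine ⟨fun z hz b' hb' hq => by
      rw [res_v_of_lt hz]
      exact h.1 z hz b' hb' hq, ?_⟩
    intro β hβ d η b' hb' h1 h2 ξ h3
    rw [res_v_of_lt (show stg (.inl (β, d, η) : Zq κ B I Kp) < α from hβ)] at h1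
    rw [res_res hβ.le]
    exact h.2 β hβ d η b' hb' h1 h2 ξ h3

variable [WellFoundedLT I]

theorem leQ_trans (hg : GReg g) (α : WithTop I) : ∀ {b : B} {q'' q' q : Qc κ B I Kp},
    leQ g α b q'' q' → leQ g α b q' q → leQ g α b q'' q := by
  induction α using WellFoundedLT.induction with
  | _ α ih =>
    intro b q'' q' q h1 h2
    refine ⟨fun z hz b' hb' h => h1.1 z hz b' hb' (h2.1 z hz b' hb' h), ?_⟩
    intro β hβ d η b' hb' h3 h4 ξ h5
    refine (hg β ξ η).2 _ ?_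
    rintro ⟨b1, q1, d1⟩ ⟨hr1, hr2, hr3⟩
    simp only at hr1 hr2 hr3
    rw [leQ_res_right] at hr2
    by_cases hc : ∃ b2 ≤ b1, b2 ∈ q'.v (.inl (β, d, η))
    · obtain ⟨b2, hb2, h6⟩ := hc
      have hbb : b2 ≤ b := hb2.trans (hr1.trans hb')
      have h7 : (b2, res β q', d) ∈ g β ξ η :=
        h2.2 β hβ d η b2 hbb h6 (fun b'' hb'' => h4 b'' (hb''.trans (hb2.trans hr1))) ξ
          ((q.reg _).lower _ h5 _ (hb2.trans hr1))
      refine ⟨(b2, q1, d1), ⟨hb2, leQ_refl _ _ _, leD_refl _ _⟩, ?_⟩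
      refine (hg β ξ η).1 _ h7 _ ⟨le_rfl, ?_, leD_mono hr3 hb2⟩
      simp only
      rw [leQ_res_right]
      exact ih β hβ (leQ_mono hr2 hb2) (leQ_stage hβ.le (leQ_mono h1 hbb))
    · push Not at hc
      have h7 : (b1, res β q'', d) ∈ g β ξ η :=
        h1.2 β hβ d η b1 (hr1.trans hb') ((q''.reg _).lower _ h3 _ hr1) hc ξ
          (h2.1 (.inr (β, ξ)) hβ b1 (hr1.trans hb') ((q.reg _).lower _ h5 _ hr1))
      refine ⟨(b1, q1, d1), ⟨le_rfl, leQ_refl _ _ _, leD_refl _ _⟩, ?_⟩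
      refine (hg β ξ η).1 _ h7 _ ⟨le_rfl, ?_, hr3⟩
      simp only
      rw [leQ_res_right]
      exact hr2

theorem leQ_dense (hg : GReg g) (α : WithTop I) {b : B} {q' q : Qc κ B I Kp}
    (h : ∀ c ≤ b, ∃ d ≤ c, leQ g α d q' q) : leQ g α b q' q := by
  refine ⟨fun z hz b' hb' h1 => (q'.reg z).dense b' fun c hc => ?_, ?_⟩
  · obtain ⟨d, hd, h2⟩ := h c (hc.trans hb')
    exact ⟨d, hd, h2.1 z hz d le_rfl ((q.reg z).lower _ h1 _ (hd.trans hc))⟩
  · intro β hβ d η b' hb' h3 h4 ξ h5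
    refine (hg β ξ η).2 _ ?_
    rintro ⟨b1, q1, d1⟩ ⟨hr1, hr2, hr3⟩
    simp only at hr1 hr2 hr3
    obtain ⟨b2, hb2, h6⟩ := h b1 (hr1.trans hb')
    have h7 : (b2, res β q', d) ∈ g β ξ η :=
      h6.2 β hβ d η b2 le_rfl ((q'.reg _).lower _ h3 _ (hb2.trans hr1))
        (fun b'' hb'' => h4 b'' (hb''.trans (hb2.trans hr1))) ξ
        ((q.reg _).lower _ h5 _ (hb2.trans hr1))
    refine ⟨(b2, q1, d1), ⟨hb2, leQ_refl _ _ _, leD_refl _ _⟩, ?_⟩
    exact (hg β ξ η).1 _ h7 _ ⟨le_rfl, leQ_mono hr2 hb2, leD_mono hr3 hb2⟩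

/-- the weakest name -/
def topN (κ : Cardinal.{0}) (B Z : Type) [Preorder B] (hκ : 0 < κ) : SN κ B Z where
  v _ := ∅
  reg _ := reg_empty
  small := by simpa using hκ

/-- the forced preorder `Q_α` -/
def QQ (hκ : 0 < κ) (hg : GReg g) (α : WithTop I) : PN B (Qc κ B I Kp) where
  le := leQ g α
  top := topN κ B _ hκ
  refl := leQ_refl α
  trans _ _ _ _ h1 h2 := leQ_trans hg α h1 h2
  le_top _ _ := ⟨fun _ _ _ _ h => h.elim, fun _ _ _ _ _ _ _ _ _ h => h.elim⟩
  mono _ _ _ _ h h1 := leQ_mono h1 h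
  dense _ _ _ h := leQ_dense hg α h

/-- `Q_α × D` -/
noncomputable def QD (hκ : 0 < κ) (hg : GReg g) (α : WithTop I) :
    PN B (Qc κ B I Kp × Tt κ B) := (QQ hκ hg α).prod (DD κ B hκ)

/-- `Q_α × S` -/
noncomputable def QS (hκ : 0 < κ) (hg : GReg g) (α : WithTop I) :
    PN B (Qc κ B I Kp × Tt κ B) := (QQ hκ hg α).prod (SS κ B hκ)

theorem QD_le_iff {hκ : 0 < κ} {hg : GReg g} {α : WithTop I} (r s : Two (QD hκ hg α)) :
    r ≤ s ↔ rD g α r s := Iff.rfl

theorem QS_le_iff {hκ : 0 < κ} {hg : GReg g} {α : WithTop I} (r s : Two (QS hκ hg α)) :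
    r ≤ s ↔ rS g α r s := Iff.rfl

end

end Pool.Agent.Helper92.PR
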