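import Pool.Agent.Helper92.PR.Base

/-!
# Names of small sets; the forced preorders `D` and `S`
-/

open Cardinal Set
open scoped symmDiff

namespace Pool.Agent.Helper92.PR

/-- names (over `B`) of subsets of `Z` of size less than `κ`; `v z` is the set of the conditions
which force that `z` belongs to the set -/
structure SN (κ : Cardinal.{0}) (B Z : Type) [Preorder B] where
  v : Z → Set B
  reg : ∀ z, Reg (v z)
  small : #{z | (v z).Nonempty} < κ

/-- Conditions of `D` and `S`: names of partial functions `e` of size less than `κ` from `κ` to the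
finite subsets of `κ`. -/
structure Tt (κ : Cardinal.{0}) (B : Type) [Preorder B] extends
    SN κ B (κ.ord.ToType × Finset κ.ord.ToType) where
  sv : ∀ β F F' b, b ∈ v (β, F) → b ∈ v (β, F') → F = F'

section

variable {κ : Cardinal.{0}} {B : Type} [Preorder B]

theorem Tt.ext' {s t : Tt κ B} (h : ∀ z, s.v z = t.v z) : s = t := by
  cases s with
  | mk s hs => cases t with
    | mk t ht =>
      cases s with
      | mk v1 r1 m1 => cases t with
        | mk v2 r2 m2 =>
          have : v1 = v2 := funext h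
          subst this
          rfl

/-- `b` forces that `s` extends `t` -/
def leD (b : B) (s t : Tt κ B) : Prop := ∀ z, ∀ b' ≤ b, b' ∈ t.v z → b' ∈ s.v z

/-- the part of `Δ` below `β` -/
noncomputable def blw (Δ : Finset κ.ord.ToType) (β : κ.ord.ToType) : Finset κ.ord.ToType :=
  Δ.filter (· < β)

/-- the action of the finite sets on the conditions: `e` is replaced by the function
`β ↦ e β ∆ (Δ ∩ β)` -/
noncomputable def act (Δ : Finset κ.ord.ToType) (t : Tt κ B) : Tt κ B where
  v z := t.v (z.1, z.2 ∆ blw Δ z.1)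
  reg z := t.reg _
  small := by
    refine lt_of_le_of_lt ?_ t.small
    refine mk_le_of_injective (f := fun z => ⟨(z.1.1, z.1.2 ∆ blw Δ z.1.1), z.2⟩) ?_
    rintro ⟨⟨β, F⟩, h⟩ ⟨⟨β', F'⟩, h'⟩ he
    simp only [Subtype.mk.injEq, Prod.mk.injEq] at he
    obtain ⟨rfl, he⟩ := he
    have := symmDiff_left_injective _ he
    subst this
    rfl
  sv β F F' b h h' := by
    have := t.sv _ _ _ _ h h'
    exact symmDiff_left_injective _ this

/-- `b` forces that `s ≤ t` in `S`: a finite modification of `t` is extended by `s` -/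
def leS (b : B) (s t : Tt κ B) : Prop := ∀ b1 ≤ b, ∃ b2 ≤ b1, ∃ Δ, leD b2 s (act Δ t)

theorem act_act (Δ Δ' : Finset κ.ord.ToType) (t : Tt κ B) :
    act Δ (act Δ' t) = act (Δ ∆ Δ') t := by
  apply Tt.ext'
  rintro ⟨β, F⟩
  have h : blw (Δ ∆ Δ') β = blw Δ β ∆ blw Δ' β := by
    ext x
    simp only [blw, Finset.mem_filter, Finset.mem_symmDiff]
    tauto
  simp only [act, h]
  rw [symmDiff_assoc]

theorem act_empty (t : Tt κ B) : act ∅ t = t := by
  apply Tt.ext'
  rintro ⟨β, F⟩
  have h : blw (∅ : Finset κ.ord.ToType) β = ∅ := by simp [blw]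
  simp only [act, h]
  congr 2
  exact symmDiff_bot F

theorem act_self (Δ : Finset κ.ord.ToType) (t : Tt κ B) : act Δ (act Δ t) = t := by
  rw [act_act, symmDiff_self]
  exact act_empty t

theorem leD_refl (b : B) (t : Tt κ B) : leD b t t := fun _ _ _ h => h

theorem leD_trans {b : B} {s t u : Tt κ B} (h1 : leD b s t) (h2 : leD b t u) : leD b s u :=
  fun z b' hb h => h1 z b' hb (h2 z b' hb h)

theorem leD_mono {b c : B} {s t : Tt κ B} (h : leD b s t) (hc : c ≤ b) : leD c s t :=
  fun z b' hb h1 => h z b' (hb.trans hc) h1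

theorem leD_act {b : B} {s t : Tt κ B} (Δ : Finset κ.ord.ToType) (h : leD b s t) :
    leD b (act Δ s) (act Δ t) := fun _ b' hb h1 => h _ b' hb h1

theorem leS_mono {b c : B} {s t : Tt κ B} (h : leS b s t) (hc : c ≤ b) : leS c s t :=
  fun b1 hb1 => h b1 (hb1.trans hc)

theorem leS_of_leD {b : B} {s t : Tt κ B} (h : leD b s t) : leS b s t :=
  fun b1 hb1 => ⟨b1, le_rfl, ∅, by rw [act_empty]; exact leD_mono h hb1⟩

theorem leS_act (b : B) (Δ : Finset κ.ord.ToType) (t : Tt κ B) : leS b (act Δ t) t :=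
  fun b1 _ => ⟨b1, le_rfl, Δ, leD_refl _ _⟩

theorem leS_trans {b : B} {s t u : Tt κ B} (h1 : leS b s t) (h2 : leS b t u) : leS b s u := by
  intro b1 hb1
  obtain ⟨b2, hb2, Δ, h3⟩ := h1 b1 hb1
  obtain ⟨b3, hb3, Δ', h4⟩ := h2 b2 (hb2.trans hb1)
  refine ⟨b3, hb3.trans hb2, Δ ∆ Δ', ?_⟩
  rw [← act_act]
  exact leD_trans (leD_mono h3 hb3) (leD_act Δ h4)

/-- the projection property -/
theorem leS_proj {b : B} {s t : Tt κ B} (h : leS b s t) :
    ∃ b2 ≤ b, ∃ Δ, leD b2 (act Δ s) t := by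
  obtain ⟨b2, hb2, Δ, h1⟩ := h b le_rfl
  refine ⟨b2, hb2, Δ, ?_⟩
  have := leD_act Δ h1
  rwa [act_self] at this

end

variable (κ : Cardinal.{0}) (B : Type) [Preorder B]

/-- the weakest condition -/
def topT (hκ : 0 < κ) : Tt κ B where
  v _ := ∅
  reg _ := reg_empty
  small := by simpa using hκ
  sv _ _ _ _ h _ := h.elim

/-- the forced preorder `D` -/
def DD (hκ : 0 < κ) : PN B (Tt κ B) where
  le := leD
  top := topT κ B hκ
  refl := leD_refl
  trans _ _ _ _ h1 h2 := leD_trans h1 h2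
  le_top _ _ _ _ _ h := h.elim
  mono _ _ _ _ h h1 := leD_mono h1 h
  dense p s t h := fun z b' hb' hz => (s.reg z).dense b' fun q hq => by
    obtain ⟨r, hr, h1⟩ := h q (hq.trans hb')
    exact ⟨r, hr, h1 z r le_rfl ((t.reg z).lower b' hz r (hr.trans hq))⟩

/-- the forced preorder `S` -/
def SS (hκ : 0 < κ) : PN B (Tt κ B) where
  le := leS
  top := topT κ B hκ
  refl b t := leS_of_leD (leD_refl b t)
  trans _ _ _ _ h1 h2 := leS_trans h1 h2
  le_top b t := leS_of_leD (fun _ _ _ h => h.elim)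
  mono _ _ _ _ h h1 := leS_mono h1 h
  dense p s t h := fun b1 hb1 => by
    obtain ⟨r, hr, h1⟩ := h b1 hb1
    obtain ⟨b2, hb2, h2⟩ := h1 r le_rfl
    exact ⟨b2, hb2.trans hr, h2⟩

/-- the colouring: `c(β,γ) = ε` is forced at the conditions at which the finite sets `e β`, `e γ`
are decided and have the same part below `β` (if `ε = true`), different parts (if `ε = false`) -/
def colT {κ : Cardinal.{0}} {B : Type} [Preorder B] (ε : Bool) (β γ : κ.ord.ToType) (b : B)
    (t : Tt κ B) : Prop :=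
  ∃ F F', b ∈ t.v (β, F) ∧ b ∈ t.v (γ, F') ∧ (ε = true ↔ blw F β = blw F' β)

/-- the answer `yes` for the finite set `F`: `r` forces that some `β ∈ H` satisfies
`e β ∩ β = F ∩ β` (`ε = true`), resp. `e β ∩ β ≠ F ∩ β` (`ε = false`) -/
def yes {κ : Cardinal.{0}} {B Y : Type} [Preorder B] (H : κ.ord.ToType → Set (B × (Y × Tt κ B))) (ε : Bool) (F : Finset κ.ord.ToType)
    (r : B × (Y × Tt κ B)) : Prop :=
  ∃ β, r ∈ H β ∧ ∃ F', r.1 ∈ r.2.2.v (β, F') ∧ (ε = true ↔ blw F' β = blw F β)

end Pool.Agent.Helper92.PR
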