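import Pool.Agent.Helper92.PR.Fus
import Pool.Agent.Helper92.PR.Clo
import Pool.Agent.Helper96.Fc.Root

/-!
# K10d: there are no homogeneous sets
-/

open Cardinal Set
open scoped symmDiff

set_option linter.unusedSectionVars false

namespace Pool.Agent.Helper92.PR

section K10
variable {κ : Cardinal.{0}} {B : Type} [Preorder B] {Y : Type}

/-! ### finite sets -/

theorem mem_blw {Δ : Finset κ.ord.ToType} {β a : κ.ord.ToType} :
    a ∈ blw Δ β ↔ a ∈ Δ ∧ a < β := by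
  simp [blw]

theorem blw_blw_of_le {Δ : Finset κ.ord.ToType} {β γ : κ.ord.ToType} (h : β ≤ γ) :
    blw (blw Δ γ) β = blw Δ β := by
  ext a
  simp only [mem_blw]
  constructor
  · exact fun ⟨⟨h1, _⟩, h3⟩ => ⟨h1, h3⟩
  · exact fun ⟨h1, h3⟩ => ⟨⟨h1, h3.trans_le h⟩, h3⟩

theorem blw_blw_of_ge {Δ : Finset κ.ord.ToType} {β γ : κ.ord.ToType} (h : β ≤ γ) :
    blw (blw Δ β) γ = blw Δ β := by
  ext a
  simp only [mem_blw]
  constructor
  · exact fun ⟨h1, _⟩ => h1
  · exact fun h1 => ⟨h1, h1.2.trans_le h⟩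

theorem blw_symmDiff (Δ Δ' : Finset κ.ord.ToType) (β : κ.ord.ToType) :
    blw (Δ ∆ Δ') β = blw Δ β ∆ blw Δ' β := by
  ext x
  simp only [blw, Finset.mem_filter, Finset.mem_symmDiff]
  tauto

/-- the values of the modified condition -/
theorem act_v_symmDiff (Δ : Finset κ.ord.ToType) (t : Tt κ B) (β : κ.ord.ToType)
    (F : Finset κ.ord.ToType) : (act Δ t).v (β, F ∆ blw Δ β) = t.v (β, F) := by
  show t.v (β, (F ∆ blw Δ β) ∆ blw Δ β) = _
  rw [symmDiff_assoc, symmDiff_self]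
  congr 2
  exact symmDiff_bot F

/-- the values of the modified condition at the places below the modification -/
theorem act_v_of_blw_eq {Δ : Finset κ.ord.ToType} (t : Tt κ B) {β : κ.ord.ToType}
    (h : blw Δ β = ∅) (F : Finset κ.ord.ToType) : (act Δ t).v (β, F) = t.v (β, F) := by
  show t.v (β, F ∆ blw Δ β) = _
  rw [h]
  congr 2
  exact symmDiff_bot F

/-! ### extending the domain -/

open Classical in
/-- `γ` is put into the domain of `t` (with the value `∅`) where it is not in the domain -/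
noncomputable def addT (hκ : ℵ₀ ≤ κ) (γ : κ.ord.ToType) (t : Tt κ B) : Tt κ B where
  v z := if z = (γ, ∅) then cl ({b | b ∈ t.v (γ, ∅)} ∪ neg {b | ∃ F, b ∈ t.v (γ, F)})
    else t.v z
  reg z := by
    split_ifs
    · exact reg_cl _
    · exact t.reg z
  small := by
    have h1 : #(({z | (t.v z).Nonempty} ∪ {(γ, ∅)} : Set (κ.ord.ToType × Finset κ.ord.ToType)))
        < κ :=
      lt_of_le_of_lt (mk_union_le _ _) (add_lt_of_lt hκ t.small
        (by rw [mk_singleton]; exact one_lt_aleph0.trans_le hκ))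
    refine lt_of_le_of_lt (mk_le_mk_of_subset ?_) h1
    intro z hz
    simp only [mem_ofPred_eq] at hz
    by_cases h : z = (γ, ∅)
    · exact Or.inr h
    · rw [if_neg h] at hz
      exact Or.inl hz
  sv β F F' b h h' := by
    have key : ∀ G, b ∈ cl ({b | b ∈ t.v (γ, ∅)} ∪ neg {b | ∃ F, b ∈ t.v (γ, F)}) →
        b ∈ t.v (γ, G) → ∅ = G := by
      intro G h1 h2
      obtain ⟨c, hc, h3 | h3⟩ := h1 b le_rfl
      · exact t.sv _ _ _ c h3 ((t.reg _).lower _ h2 _ hc)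
      · exact absurd ⟨G, (t.reg _).lower _ h2 _ hc⟩ (h3 c le_rfl)
    by_cases h1 : (β, F) = (γ, ∅) <;> by_cases h2 : (β, F') = (γ, ∅)
    · simp only [Prod.mk.injEq] at h1 h2
      rw [h1.2, h2.2]
    · rw [if_pos h1] at h
      rw [if_neg h2] at h'
      simp only [Prod.mk.injEq] at h1
      obtain ⟨rfl, rfl⟩ := h1
      exact key _ h h'
    · rw [if_neg h1] at h
      rw [if_pos h2] at h'
      simp only [Prod.mk.injEq] at h2
      obtain ⟨rfl, rfl⟩ := h2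
      exact (key _ h' h).symm
    · rw [if_neg h1] at h
      rw [if_neg h2] at h'
      exact t.sv _ _ _ _ h h'

theorem addT_le (hκ : ℵ₀ ≤ κ) (γ : κ.ord.ToType) (t : Tt κ B) (b : B) :
    leD b (addT hκ γ t) t := by
  intro z b' _ h
  show b' ∈ ite _ _ _
  split_ifs with h1
  · subst h1
    exact subset_cl (P := B) (A := {b | b ∈ t.v (γ, ∅)} ∪ neg {b | ∃ F, b ∈ t.v (γ, F)})
      (by
        rintro p (hp | hp) q hq
        · exact Or.inl ((t.reg _).lower _ hp _ hq)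
        · exact Or.inr fun r hr => hp r (hr.trans hq)) (Or.inl h)
  · exact h

theorem addT_dom (hκ : ℵ₀ ≤ κ) (γ : κ.ord.ToType) (t : Tt κ B) (b : B) :
    ∃ c ≤ b, ∃ F, c ∈ (addT hκ γ t).v (γ, F) := by
  by_cases h : ∃ c ≤ b, ∃ F, c ∈ t.v (γ, F)
  · obtain ⟨c, hc, F, h1⟩ := h
    exact ⟨c, hc, F, addT_le hκ γ t c _ c le_rfl h1⟩
  · refine ⟨b, le_rfl, ∅, ?_⟩
    show b ∈ ite _ _ _
    rw [if_pos rfl]
    intro q hq
    refine ⟨q, le_rfl, Or.inr fun r hr hF => h ⟨r, hr.trans hq, hF⟩⟩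

/-! ### the theorem -/

theorem no_homog (hP : Prep κ B) {x : PN B Y} (hx : x.CDC κ) (hD : (DD κ B hP.reg.pos).CDC κ)
    {H : κ.ord.ToType → Set (Two (x.prod (SS κ B hP.reg.pos)))}
    (hH : ∀ γ, ∀ r ∈ H γ, ∀ s ≤ r, s ∈ H γ) (r0 : Two (x.prod (SS κ B hP.reg.pos)))
    (hr0 : ∀ r ≤ r0, ∀ μ, ∃ r' ≤ r, ∃ γ, μ < γ ∧ r' ∈ H γ) (ε : Bool) :
    ∃ r ≤ r0, ∃ β γ, β < γ ∧ r ∈ H β ∧ r ∈ H γ ∧ colT ε β γ r.1 r.2.2 := by
  by_contra hcon
  have hκ : ℵ₀ ≤ κ := hP.unc.le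
  -- an enumeration of the finite sets
  obtain ⟨F, hF⟩ : ∃ F : κ.ord.ToType → Finset κ.ord.ToType, ∀ F', ∃ i, F i = F' := by
    have : Infinite κ.ord.ToType := by
      rw [Cardinal.infinite_iff, mk_ord_toType]
      exact hκ
    have h1 : #(κ.ord.ToType) = #(Finset κ.ord.ToType) := (mk_finset_of_infinite _).symm
    obtain ⟨e⟩ := Cardinal.eq.1 h1
    exact ⟨e, e.surjective⟩
  -- the fusion sequence
  obtain ⟨Z, hZ0, hZ1, hZ2⟩ := exists_fusion hP hx hD (H := H) hH ε F r0.2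
  -- bounds of the supports
  have hb : ∀ i, ∃ h : κ.ord.ToType, ∀ β F', ((Z i).2.v (β, F')).Nonempty → β < h := by
    intro i
    obtain ⟨b, hb⟩ := Pool.Agent.Helper96.Fc.exists_bound hP.reg (Z i).2.small
      (fun z => z.1.1)
    exact ⟨b, fun β F' h => hb ⟨(β, F'), h⟩⟩
  choose h hh using hb
  obtain ⟨lam, hl1, hl2⟩ := exists_clo hP.reg hP.unc F hF h
  have hZ3 : ∀ i j, i ≤ j → ∀ p, (x.prod (DD κ B hP.reg.pos)).le p (Z j) (Z i) := by
    intro i j hij p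
    rcases hij.eq_or_lt with rfl | hij
    · exact (x.prod (DD κ B hP.reg.pos)).refl _ _
    · exact hZ1 i j hij p
  -- the lower bound of the members below `lam`
  have hsm : #(Iio lam) < κ := Pool.Agent.Helper96.Fc.mk_Iio_lt' lam
  obtain ⟨z1, hz1⟩ := hx (Iio lam) (fun i => (Z i.1).1) (fun _ => Set.univ) hsm
    (fun _ _ _ _ _ => trivial) (fun i j p _ _ => by
      rcases le_total i.1 j.1 with hij | hij
      · exact ⟨p, le_rfl, j, trivial, (hZ3 _ _ hij p).1, x.refl _ _⟩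
      · exact ⟨p, le_rfl, i, trivial, x.refl _ _, (hZ3 _ _ hij p).1⟩)
  obtain ⟨z2, hz2⟩ := hD (Iio lam) (fun i => (Z i.1).2) (fun _ => Set.univ) hsm
    (fun _ _ _ _ _ => trivial) (fun i j p _ _ => by
      rcases le_total i.1 j.1 with hij | hij
      · exact ⟨p, le_rfl, j, trivial, (hZ3 _ _ hij p).2, leD_refl _ _⟩
      · exact ⟨p, le_rfl, i, trivial, leD_refl _ _, (hZ3 _ _ hij p).2⟩)
  have hz1' : ∀ i < lam, ∀ p, x.le p z1 (Z i).1 := fun i hi p => hz1 ⟨i, hi⟩ p trivial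
  have hz2' : ∀ i < lam, ∀ p, leD p z2 (Z i).2 := fun i hi p => hz2 ⟨i, hi⟩ p trivial
  obtain ⟨i0, hi0, -⟩ := hl2 ∅ (by simp)
  have hr1 : @LE.le (Two (x.prod (SS κ B hP.reg.pos))) _ (r0.1, (z1, z2)) r0 :=
    ⟨le_rfl, x.trans _ _ _ _ (hz1' i0 hi0 _) (hZ0 i0 _).1,
      leS_of_leD (leD_trans (hz2' i0 hi0 _) (hZ0 i0 _).2)⟩
  obtain ⟨⟨b', q', s'⟩, hr', γ, hγ, hHγ⟩ := hr0 _ hr1 lam
  have hr2 := le_trans hr' hr1
  obtain ⟨hb', hq', hs'⟩ := hr'
  simp only at hb' hq' hs'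
  -- put `γ` into the domain
  obtain ⟨b1, hb1, F₁, hF₁⟩ := addT_dom hκ γ s' b'
  set s1 := addT hκ γ s' with hs1
  have hle1 : leS b1 s1 z2 := leS_trans (leS_of_leD (addT_le hκ γ s' b1)) (leS_mono hs' hb1)
  obtain ⟨b2, hb2, Δ, hΔ⟩ := leS_proj hle1
  set s3 := act Δ s1 with hs3
  set F₂ := F₁ ∆ blw Δ γ with hF₂
  have h3 : b2 ∈ s3.v (γ, F₂) := by
    rw [hs3, hF₂, act_v_symmDiff]
    exact (s1.reg _).lower _ hF₁ _ hb2
  clear_value F₂
  have h4 : leS b2 s3 s' :=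
    leS_trans (leS_act b2 Δ s1) (leS_of_leD (addT_le hκ γ s' b2))
  have h5 : ((b2, (q', s3)) : B × (Y × Tt κ B)) ∈ H γ :=
    hH γ _ hHγ _ ⟨hb2.trans hb1, x.refl _ _, h4⟩
  -- the decision for the finite set
  obtain ⟨i, hi, hFi⟩ := hl2 (blw F₂ lam) (fun a ha => (mem_blw.1 ha).2)
  obtain ⟨b3, hb3, hy⟩ := hZ2 i b2
  have hb3b' : b3 ≤ b' := hb3.trans (hb2.trans hb1)
  have hxle : x.le b3 q' (Z i).1 := x.trans _ _ _ _ (x.mono _ _ _ _ hb3b' hq') (hz1' i hi b3)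
  have hDle : leD b3 s3 (Z i).2 := leD_trans (leD_mono hΔ hb3) (hz2' i hi b3)
  have hr0' : ∀ s, leS b3 s s3 → @LE.le (Two (x.prod (SS κ B hP.reg.pos))) _
      (b3, (q', s)) r0 := fun s hs =>
    @le_trans (Two (x.prod (SS κ B hP.reg.pos))) _ _ (b', (q', s')) _
      ⟨hb3b', x.refl _ _, leS_trans hs (leS_mono h4 hb3)⟩ hr2
  have hHs : ∀ s, leS b3 s s3 → ((b3, (q', s)) : B × (Y × Tt κ B)) ∈ H γ := fun s hs =>
    hH γ _ h5 _ ⟨hb3, x.refl _ _, hs⟩
  rcases hy with ⟨β, hβ, F', hF', hε⟩ | hy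
  · have hβl : β < lam := (hh i β F' ⟨b3, hF'⟩).trans_le (hl1 i hi)
    refine hcon ⟨(b3, (q', s3)), hr0' _ (leS_of_leD (leD_refl _ _)), β, γ, hβl.trans hγ, ?_,
      hHs _ (leS_of_leD (leD_refl _ _)), F', F₂, hDle _ b3 le_rfl hF',
      (s3.reg _).lower _ h3 _ hb3, ?_⟩
    · exact hH β _ hβ _ ⟨le_rfl, hxle, leS_of_leD hDle⟩
    · rw [hFi, blw_blw_of_le hβl.le] at hε
      exact hε
  · -- a modification above `lam`
    obtain ⟨Δ', hΔ1, hΔ2⟩ : ∃ Δ' : Finset κ.ord.ToType, (∀ β ≤ lam, blw Δ' β = ∅) ∧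
        (ε = true ↔ blw (F₂ ∆ blw Δ' γ) γ = blw F₂ lam) := by
      cases ε with
      | true =>
        refine ⟨(blw F₂ γ) ∆ (blw F₂ lam), ?_, ?_⟩
        · intro β hβ
          rw [blw_symmDiff, blw_blw_of_le (hβ.trans hγ.le), blw_blw_of_le hβ, symmDiff_self]
          rfl
        · simp only [true_iff]
          rw [blw_symmDiff, blw_symmDiff, blw_blw_of_ge le_rfl, blw_blw_of_ge hγ.le,
            blw_symmDiff, blw_blw_of_ge le_rfl, blw_blw_of_ge hγ.le, ← symmDiff_assoc,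
            symmDiff_self]
          exact bot_symmDiff _
      | false =>
        by_cases hc : blw F₂ γ = blw F₂ lam
        · refine ⟨{lam}, ?_, ?_⟩
          · intro β hβ
            ext a
            simp only [mem_blw, Finset.mem_singleton]
            constructor
            · rintro ⟨rfl, h6⟩
              exact absurd h6 (not_lt.2 hβ)
            · intro h6
              exact absurd h6 (Finset.notMem_empty a)
          · simp only [Bool.false_eq_true, false_iff]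
            rw [blw_symmDiff, blw_blw_of_ge le_rfl, hc]
            intro h6
            have h7 : lam ∈ blw F₂ lam ∆ blw {lam} γ := by
              rw [Finset.mem_symmDiff]
              refine Or.inr ⟨mem_blw.2 ⟨Finset.mem_singleton_self _, hγ⟩, ?_⟩
              intro h8
              exact absurd (mem_blw.1 h8).2 (lt_irrefl _)
            rw [h6] at h7
            exact absurd (mem_blw.1 h7).2 (lt_irrefl _)
        · refine ⟨∅, ?_, ?_⟩
          · intro β _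
            simp [blw]
          · simp only [Bool.false_eq_true, false_iff]
            have h6 : blw (∅ : Finset κ.ord.ToType) γ = ∅ := by simp [blw]
            rw [h6]
            have h7 : F₂ ∆ ∅ = F₂ := symmDiff_bot F₂
            rw [h7]
            exact hc
    refine hy (b3, (q', act Δ' s3)) ⟨le_rfl, hxle, ?_⟩ ⟨γ, hHs _ (leS_act _ _ _),
      F₂ ∆ blw Δ' γ, ?_, ?_⟩
    · rintro ⟨β, F'⟩ c hc h6
      have hβl : β < lam := (hh i β F' ⟨c, h6⟩).trans_le (hl1 i hi)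
      rw [act_v_of_blw_eq _ (hΔ1 β hβl.le)]
      exact hDle _ c hc h6
    · show b3 ∈ (act Δ' s3).v _
      rw [act_v_symmDiff]
      exact (s3.reg _).lower _ h3 _ hb3
    · rw [hFi, blw_blw_of_ge hγ.le]
      exact hΔ2

end K10

end Pool.Agent.Helper92.PR
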